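import Mathlib

open MeasureTheory Set

noncomputable section

namespace Pool.Agent.MIR

/-- The point `exp (i t)` of the unit circle. -/
def cis (t : ℝ) : ℂ := Complex.exp (t * Complex.I)

/-- The point with angle `t` of the circle with centre `c` and radius `r`. -/
def hol (c : ℂ) (r : ℝ) (t : ℝ) : ℂ := c + r * cis t

/-- The cross product of two vectors of the plane. -/
def cp (z w : ℂ) : ℝ := z.re * w.im - z.im * w.re

/-- The closed upper half disc minus the open discs with centres `c j` and radii `r j`. -/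
def Om {k : ℕ} (c : Fin k → ℂ) (r : Fin k → ℝ) : Set ℂ :=
  {z | ‖z‖ ≤ 1 ∧ 0 ≤ z.im ∧ ∀ j, r j ≤ ‖z - c j‖}

/-- The mirror part of the boundary of `Om c r`: the real segment and the boundary circles of the
holes (the remaining part of the boundary is the open upper half of the unit circle). -/
def Mir {k : ℕ} (c : Fin k → ℂ) (r : Fin k → ℝ) : Set ℂ :=
  {z | z ∈ Om c r ∧ (z.im = 0 ∨ ∃ j, ‖z - c j‖ = r j)}

/-- The discs with centres `c j` and radii `r j` are pairwise disjoint closed discs contained in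
the open upper half disc. -/
structure Holes {k : ℕ} (c : Fin k → ℂ) (r : Fin k → ℝ) : Prop where
  pos : ∀ j, 0 < r j
  inside : ∀ j, ‖c j‖ + r j < 1
  above : ∀ j, r j < (c j).im
  disj : ∀ i j, i ≠ j → r i + r j < ‖c i - c j‖

/-- A planar picture of a pseudo-metric `d` on a set `S` of the plane. The relation `N x u` means
that the point `x` of the plane is drawn for the point `u` of `S` (each point of `S` is drawn at
itself, the points of a chord joining two identified points are drawn for these points). Any two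
points of `S` are joined, inside the picture, by a curve that is nearly minimising. -/
structure Pic (S : Set ℂ) (d : ℂ → ℂ → ℝ) (N : ℂ → ℂ → Prop) : Prop where
  refl : ∀ p ∈ S, d p p = 0
  symm : ∀ p ∈ S, ∀ q ∈ S, d p q = d q p
  tri : ∀ p ∈ S, ∀ q ∈ S, ∀ x ∈ S, d p x ≤ d p q + d q x
  near_self : ∀ p ∈ S, N p p
  near_mem : ∀ x u, N x u → u ∈ S ∧ ‖x‖ ≤ 1
  near_eq : ∀ x u v, N x u → N x v → d u v = 0
  geo : ∀ p ∈ S, ∀ q ∈ S, ∀ ε > 0, JoinedIn {x | ∃ u, N x u ∧ d p u + d u q ≤ d p q + ε} p q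

/-- A picture on `Om c r` for which the upper half circle is isometrically embedded and
`π ≤ d x (θ) + d x (π - θ)` at the points `x` of the mirror. -/
structure Half {k : ℕ} (c : Fin k → ℂ) (r : Fin k → ℝ) (d : ℂ → ℂ → ℝ) (N : ℂ → ℂ → Prop) : Prop
    extends Pic (Om c r) d N where
  upper : ∀ x u, N x u → 0 ≤ x.im
  circ : ∀ s ∈ Icc 0 Real.pi, ∀ t ∈ Icc 0 Real.pi, d (cis s) (cis t) = |s - t|
  inv : ∀ x ∈ Mir c r, ∀ t ∈ Icc 0 Real.pi, Real.pi ≤ d x (cis t) + d x (cis (Real.pi - t))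

/-- The pseudo-metric obtained from `d` by identifying the points `a` and `b`. -/
def pinch (d : ℂ → ℂ → ℝ) (a b : ℂ) (p q : ℂ) : ℝ :=
  min (d p q) (min (d p a + d b q) (d p b + d a q))

/-- The drawing relation after the identification of `a` and `b`: the chord is added. -/
def nearP (N : ℂ → ℂ → Prop) (a b : ℂ) (x u : ℂ) : Prop :=
  N x u ∨ (x ∈ segment ℝ a b ∧ (u = a ∨ u = b))

/-- `f` is `1`-Lipschitz on `S` for the pseudo-metric `d`. -/
def Lip1 (S : Set ℂ) (d : ℂ → ℂ → ℝ) (f : ℂ → ℝ) : Prop :=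
  ∀ p ∈ S, ∀ q ∈ S, |f p - f q| ≤ d p q

/-- `A` is a set of angles on the boundary circle of the `j`-th hole that behaves like a closed
loop for the pseudo-metric `d`. -/
structure Good {k : ℕ} (c : Fin k → ℂ) (r : Fin k → ℝ) (d : ℂ → ℂ → ℝ) (N : ℂ → ℂ → Prop)
    (j : Fin k) (A : Set ℝ) : Prop where
  cpt : IsCompact A
  sub : A ⊆ Icc 0 (2 * Real.pi)
  z1 : ∀ f : ℂ → ℝ, Lip1 (Om c r) d f → ∀ x ∈ A, ∀ y ∈ A, x ≤ y →
    ∫ t in A ∩ Icc x y, deriv (fun s => f (hol (c j) (r j) s)) t =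
      f (hol (c j) (r j) y) - f (hol (c j) (r j) x)
  z2 : ∀ f : ℂ → ℝ, Lip1 (Om c r) d f → ∫ t in A, deriv (fun s => f (hol (c j) (r j) s)) t = 0
  free : ∀ x ∈ A, ∀ y ∈ A, ∀ z ∈ openSegment ℝ (hol (c j) (r j) x) (hol (c j) (r j) y),
    ∀ u, N z u → d u (hol (c j) (r j) x) = 0

/-- The set `A'` of angles (on hole `j'`) is not separated by any two angles of `A` (on hole `j`). -/
def Sep {k : ℕ} (j j' : Fin k) (A A' : Set ℝ) : Prop :=
  j = j' → ∀ x ∈ A, ∀ y ∈ A, x ≤ y → A' ⊆ Icc x y ∨ A' ⊆ Iic x ∪ Ici y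

/-- `d'` agrees with `d` up to the distance to the mirror. -/
def Loc {k : ℕ} (c : Fin k → ℂ) (r : Fin k → ℝ) (d d' : ℂ → ℂ → ℝ) : Prop :=
  ∀ δ : ℝ, ∀ p ∈ Om c r, (∀ y ∈ Mir c r, δ ≤ d p y) →
    (∀ y ∈ Mir c r, δ ≤ d' p y) ∧ ∀ q ∈ Om c r, min (d p q) δ ≤ d' p q

/-- Reflection of the lower half plane to the upper half plane. -/
def fold (z : ℂ) : ℂ := if 0 ≤ z.im then z else (starRingEnd ℂ) z

/-- The union of `Om c r` and its mirror image in the real axis. -/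
def DOm {k : ℕ} (c : Fin k → ℂ) (r : Fin k → ℝ) : Set ℂ := {z | fold z ∈ Om c r}

/-- The double of the pseudo-metric `d` along the real segment `[-1, 1]`. -/
def dbl (d : ℂ → ℂ → ℝ) (p q : ℂ) : ℝ :=
  if (0 ≤ p.im ∧ 0 ≤ q.im) ∨ (p.im ≤ 0 ∧ q.im ≤ 0) then d (fold p) (fold q)
  else ⨅ e : Icc (-1 : ℝ) 1, (d (fold p) ((e : ℝ) : ℂ) + d ((e : ℝ) : ℂ) (fold q))

/-- The drawing relation of the double. -/
def nearD (N : ℂ → ℂ → Prop) (x u : ℂ) : Prop :=
  (0 ≤ x.im ∧ 0 ≤ u.im ∧ N x u) ∨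
    (x.im ≤ 0 ∧ u.im ≤ 0 ∧ N ((starRingEnd ℂ) x) ((starRingEnd ℂ) u))

/-- The Jacobian determinant of the pair `(f, g)`. -/
def Jw (f g : ℂ → ℝ) (z : ℂ) : ℝ :=
  fderiv ℝ f z 1 * fderiv ℝ g z Complex.I - fderiv ℝ f z Complex.I * fderiv ℝ g z 1

/-- At the point `p`, the pseudo-metric `d` is infinitesimally the norm `v ↦ ‖T v‖`. -/
def Tan (d : ℂ → ℂ → ℝ) (p : ℂ) (T : ℂ →L[ℝ] ℂ) : Prop :=
  (fun q => d p q - ‖T (q - p)‖) =o[nhds p] (fun q => q - p)

end Pool.Agent.MIR
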