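import Mathlib
import Pool.Agent.MIR.Defs
import Pool.Agent.H74.FAC.Surf

open MeasureTheory Set Filter Topology Manifold Bundle
open scoped ENNReal NNReal ContDiff

noncomputable section

namespace Pool.Agent.MIR

/-- The infimum of the mean of the lengths of the images under `Ψ` and `Ψ'` of the curves from `p`
to `q` in the set `S`. -/
def PL {M : Type} [MetricSpace M] (Ψ Ψ' : ℂ → M) (S : Set ℂ) (p q : ℂ) : ℝ≥0∞ :=
  ⨅ (γ : ℝ → ℂ) (a : ℝ) (b : ℝ)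
    (_ : a ≤ b ∧ ContinuousOn γ (Icc a b) ∧ MapsTo γ (Icc a b) S ∧ γ a = p ∧ γ b = q),
    (eVariationOn (Ψ ∘ γ) (Icc a b) + eVariationOn (Ψ' ∘ γ) (Icc a b)) / 2

section

open Pool.Agent.H74.Surf

variable {M : Type} [MetricSpace M] [ChartedSpace (EuclideanHalfSpace 2) M]
  [R : RiemannianSpace (𝓡∂ 2) M]

/-- The inner product of the images of `v` and `w` under the derivative of `Ψ` at `z`. -/
def ip (Ψ : ℂ → M) (z v w : ℂ) : ℝ :=
  letI := R.metric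
  inner ℝ (mfderiv 𝓘(ℝ, ℂ) (𝓡∂ 2) Ψ z v) (mfderiv 𝓘(ℝ, ℂ) (𝓡∂ 2) Ψ z w)

/-- The determinant of the pulled back metric. -/
def gd (Ψ : ℂ → M) (z : ℂ) : ℝ :=
  ip Ψ z 1 1 * ip Ψ z Complex.I Complex.I - ip Ψ z 1 Complex.I ^ 2

/-- `ρ` is a conformal reflection of `M` that maps the boundary point `φ t` to `φ (-t)`. -/
structure Refl (φ : S1 → M) (ρ : M → M) : Prop where
  smooth : ContMDiff (𝓡∂ 2) (𝓡∂ 2) ∞ ρ
  invol : ∀ x, ρ (ρ x) = x
  conformal : ∀ x, ∃ u : ℝ, Tendsto (fun y => dist (ρ x) (ρ y) / dist x y) (𝓝[≠] x) (𝓝 u)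
  bdry : ∀ t, ρ (φ t) = φ (-t)

/-- The half of `M` bounded by the upper half circle and by fixed points of `ρ` is planar: it is
parametrised by the closed upper half disc minus the open discs with centres `c j` and radii
`r j`. -/
structure PlanarHalf (φ : S1 → M) (ρ : M → M) {k : ℕ} (c : Fin k → ℂ) (r : Fin k → ℝ)
    (Ψ : ℂ → M) : Prop where
  holes : Holes c r
  lip : ∃ K : ℝ≥0, LipschitzOnWith K Ψ (Om c r)
  smooth : ContMDiffOn 𝓘(ℝ, ℂ) (𝓡∂ 2) ∞ Ψ (interior (Om c r))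
  inj : InjOn Ψ (Om c r)
  bdry : ∀ t ∈ Icc 0 Real.pi, Ψ (cis t) = φ (t : ℝ)
  mirror : ∀ z ∈ Mir c r, ρ (Ψ z) = Ψ z
  disj : ∀ z ∈ Om c r, ∀ w ∈ Om c r, ρ (Ψ z) = Ψ w → z ∈ Mir c r
  cover : ∀ x, ∃ z ∈ Om c r, Ψ z = x ∨ ρ (Ψ z) = x

end

end Pool.Agent.MIR
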