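import Mathlib
import Pool.Agent.MIR.Defs

open MeasureTheory Set

noncomputable section

namespace Pool.Agent.MIR

lemma cis_re (t : ℝ) : (cis t).re = Real.cos t := by
  rw [cis, Complex.exp_ofReal_mul_I_re]

lemma cis_im (t : ℝ) : (cis t).im = Real.sin t := by
  rw [cis, Complex.exp_ofReal_mul_I_im]

lemma norm_cis (t : ℝ) : ‖cis t‖ = 1 := by
  rw [cis, Complex.norm_exp_ofReal_mul_I]

lemma cis_zero : cis 0 = 1 := by simp [cis]

lemma cis_pi : cis Real.pi = -1 := by simp [cis]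

lemma cis_add (s t : ℝ) : cis (s + t) = cis s * cis t := by
  simp only [cis]; rw [← Complex.exp_add]; congr 1; push_cast; ring

lemma cis_neg (t : ℝ) : cis (-t) = (starRingEnd ℂ) (cis t) := by
  apply Complex.ext
  · simp [cis_re]
  · simp [cis_im]

lemma cis_add_two_pi (t : ℝ) : cis (t + 2 * Real.pi) = cis t := by
  apply Complex.ext
  · simp [cis_re]
  · simp [cis_im]

lemma continuous_cis : Continuous cis := by
  unfold cis; fun_prop

lemma cis_sub_le (s t : ℝ) : ‖cis s - cis t‖ ≤ |s - t| := by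
  have h : cis s - cis t = cis t * (cis (s - t) - 1) := by
    rw [mul_sub, ← cis_add]; simp
  rw [h, norm_mul, norm_cis, one_mul]
  have h2 : cis (s - t) = Complex.exp (Complex.I * ((s - t : ℝ) : ℂ)) := by
    rw [cis, mul_comm]
  rw [h2]
  have := Real.norm_exp_I_mul_ofReal_sub_one_le (x := s - t)
  simpa [Real.norm_eq_abs] using this

lemma hol_two_pi (c : ℂ) (r t : ℝ) : hol c r (t + 2 * Real.pi) = hol c r t := by
  simp [hol, cis_add_two_pi]

lemma continuous_hol (c : ℂ) (r : ℝ) : Continuous (hol c r) := by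
  unfold hol; have := continuous_cis; fun_prop

lemma norm_hol_sub (c : ℂ) {r : ℝ} (hr : 0 ≤ r) (t : ℝ) : ‖hol c r t - c‖ = r := by
  simp [hol, norm_cis, abs_of_nonneg hr]

lemma hol_sub_le (c : ℂ) {r : ℝ} (hr : 0 ≤ r) (s t : ℝ) : ‖hol c r s - hol c r t‖ ≤ r * |s - t| := by
  have h : hol c r s - hol c r t = (r : ℂ) * (cis s - cis t) := by simp [hol]; ring
  rw [h, norm_mul]
  have h1 : ‖(r : ℂ)‖ = r := by simp [abs_of_nonneg hr]
  rw [h1]
  exact mul_le_mul_of_nonneg_left (cis_sub_le s t) hr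

section

variable {k : ℕ} {c : Fin k → ℂ} {r : Fin k → ℝ}

lemma mir_sub : Mir c r ⊆ Om c r := fun _ hz => hz.1

lemma hol_mem_mir (Hl : Holes c r) (j : Fin k) (t : ℝ) : hol (c j) (r j) t ∈ Mir c r := by
  have hj := (Hl.pos j).le
  have h0 : ‖hol (c j) (r j) t - c j‖ = r j := norm_hol_sub _ hj t
  refine ⟨⟨?_, ?_, fun i => ?_⟩, Or.inr ⟨j, h0⟩⟩
  · have h1 : ‖hol (c j) (r j) t‖ ≤ ‖hol (c j) (r j) t - c j‖ + ‖c j‖ := by
      simpa using norm_add_le (hol (c j) (r j) t - c j) (c j)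
    have := Hl.inside j
    linarith
  · have h1 : |(hol (c j) (r j) t - c j).im| ≤ ‖hol (c j) (r j) t - c j‖ := Complex.abs_im_le_norm _
    rw [h0, Complex.sub_im] at h1
    have h2 := (abs_le.1 h1).1
    have := Hl.above j
    linarith
  · by_cases hij : i = j
    · subst hij; exact h0.ge
    · have h1 := Hl.disj i j hij
      have h2 : ‖c i - c j‖ ≤ ‖hol (c j) (r j) t - c i‖ + ‖hol (c j) (r j) t - c j‖ := by
        have : c i - c j = (hol (c j) (r j) t - c j) - (hol (c j) (r j) t - c i) := by ring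
        rw [this]
        have := norm_sub_le (hol (c j) (r j) t - c j) (hol (c j) (r j) t - c i)
        linarith
      linarith

lemma hol_mem (Hl : Holes c r) (j : Fin k) (t : ℝ) : hol (c j) (r j) t ∈ Om c r :=
  mir_sub (hol_mem_mir Hl j t)

lemma unit_mem (Hl : Holes c r) {z : ℂ} (hz : ‖z‖ = 1) (hi : 0 ≤ z.im) : z ∈ Om c r := by
  refine ⟨hz.le, hi, fun j => ?_⟩
  have h1 : ‖z‖ ≤ ‖z - c j‖ + ‖c j‖ := by simpa using norm_add_le (z - c j) (c j)
  have := Hl.inside j
  linarith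

lemma cis_mem (Hl : Holes c r) {t : ℝ} (ht : t ∈ Icc 0 Real.pi) : cis t ∈ Om c r :=
  unit_mem Hl (norm_cis t) (by rw [cis_im]; exact Real.sin_nonneg_of_mem_Icc ht)

lemma real_mem_mir (Hl : Holes c r) {z : ℂ} (hz : z.im = 0) (h1 : ‖z‖ ≤ 1) : z ∈ Mir c r := by
  refine ⟨⟨h1, hz.ge, fun j => ?_⟩, Or.inl hz⟩
  have h2 : |(z - c j).im| ≤ ‖z - c j‖ := Complex.abs_im_le_norm _
  rw [Complex.sub_im, hz, zero_sub, abs_neg] at h2
  have := Hl.above j
  have h3 := le_abs_self (c j).im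
  linarith

lemma ofReal_mem_mir (Hl : Holes c r) {x : ℝ} (hx : x ∈ Icc (-1 : ℝ) 1) : (x : ℂ) ∈ Mir c r :=
  real_mem_mir Hl (Complex.ofReal_im x) (by simpa using abs_le.2 hx)

lemma isClosed_Om : IsClosed (Om c r) := by
  have : Om c r = {z : ℂ | ‖z‖ ≤ 1} ∩ {z : ℂ | 0 ≤ z.im} ∩ ⋂ j, {z : ℂ | r j ≤ ‖z - c j‖} := by
    ext z
    simp only [Om, mem_ofPred_eq, mem_inter_iff, mem_iInter]
    tauto
  rw [this]
  refine (IsClosed.inter ?_ ?_).inter (isClosed_iInter fun j => ?_)
  · exact isClosed_le continuous_norm continuous_const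
  · exact isClosed_le continuous_const Complex.continuous_im
  · exact isClosed_le continuous_const (by fun_prop)

lemma isCompact_Om : IsCompact (Om c r) :=
  (isCompact_closedBall (0 : ℂ) 1).of_isClosed_subset isClosed_Om fun z hz => by
    simpa using hz.1

/-- The interior of `Om c r` consists of points satisfying the strict inequalities. -/
lemma interior_Om_sub {p : ℂ} (hp : p ∈ interior (Om c r)) (Hl : Holes c r) :
    ‖p‖ < 1 ∧ 0 < p.im ∧ ∀ j, r j < ‖p - c j‖ := by
  obtain ⟨ε, hε, hball⟩ := Metric.mem_nhds_iff.1 (mem_interior_iff_mem_nhds.1 hp)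
  have key : ∀ v : ℂ, ‖v‖ ≤ 1 → p + ((ε / 2 : ℝ) : ℂ) * v ∈ Om c r := by
    intro v hv
    apply hball
    rw [Metric.mem_ball, dist_eq_norm, add_sub_cancel_left, norm_mul]
    have : ‖((ε / 2 : ℝ) : ℂ)‖ = ε / 2 := by
      rw [Complex.norm_real, Real.norm_eq_abs, abs_of_pos (by positivity)]
    rw [this]
    nlinarith [norm_nonneg v]
  refine ⟨?_, ?_, fun j => ?_⟩
  · by_cases h0 : p = 0
    · simp [h0]
    · have hpn : 0 < ‖p‖ := norm_pos_iff.2 h0
      have h1 := (key (p / ‖p‖) (by rw [norm_div]; simp [hpn.ne'])).1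
      have h2 : p + ((ε / 2 : ℝ) : ℂ) * (p / ‖p‖) = (((‖p‖ + ε / 2) / ‖p‖ : ℝ) : ℂ) * p := by
        push_cast
        have : (‖p‖ : ℂ) ≠ 0 := by exact_mod_cast hpn.ne'
        field_simp
      rw [h2, norm_mul, Complex.norm_real, Real.norm_eq_abs, abs_of_pos (by positivity)] at h1
      rw [div_mul_cancel₀ _ hpn.ne'] at h1
      linarith
  · have h1 := (key (-Complex.I) (by simp)).2.1
    simp only [Complex.add_im, Complex.mul_im, Complex.ofReal_re, Complex.ofReal_im, Complex.neg_im,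
      Complex.I_im, Complex.neg_re, Complex.I_re] at h1
    linarith
  · by_cases h0 : p - c j = 0
    · have h1 := (key 0 (by simp)).2.2 j
      simp only [mul_zero, add_zero, h0, norm_zero] at h1
      exact absurd h1 (not_le.2 (Hl.pos j))
    · have hpn : 0 < ‖p - c j‖ := norm_pos_iff.2 h0
      set e := min (ε / 2) (‖p - c j‖) with he
      have hepos : 0 < e := lt_min (by positivity) hpn
      have hele : e ≤ ε / 2 := min_le_left _ _
      have hele2 : e ≤ ‖p - c j‖ := min_le_right _ _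
      have h1 := (key (-(((e / (ε / 2) : ℝ) : ℂ) * ((p - c j) / ‖p - c j‖))) (by
        rw [norm_neg, norm_mul, norm_div, Complex.norm_real, Complex.norm_real, norm_norm,
          div_self hpn.ne', mul_one, Real.norm_eq_abs, abs_of_nonneg (by positivity)]
        rw [div_le_one (by positivity)]; exact hele)).2.2 j
      have h2 : p + ((ε / 2 : ℝ) : ℂ) * (-(((e / (ε / 2) : ℝ) : ℂ) * ((p - c j) / ‖p - c j‖))) - c j
          = (((‖p - c j‖ - e) / ‖p - c j‖ : ℝ) : ℂ) * (p - c j) := by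
        push_cast
        have h3 : (‖p - c j‖ : ℂ) ≠ 0 := by exact_mod_cast hpn.ne'
        have h4 : (ε : ℂ) ≠ 0 := by exact_mod_cast hε.ne'
        field_simp
        ring
      rw [h2, norm_mul, Complex.norm_real, Real.norm_eq_abs, abs_of_nonneg
        (div_nonneg (by linarith) hpn.le), div_mul_cancel₀ _ hpn.ne'] at h1
      linarith

end

section

variable {S : Set ℂ} {d : ℂ → ℂ → ℝ} {N : ℂ → ℂ → Prop}

lemma Pic.nonneg (P : Pic S d N) {p q : ℂ} (hp : p ∈ S) (hq : q ∈ S) : 0 ≤ d p q := by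
  have h1 := P.tri p hp q hq p hp
  rw [P.refl p hp, P.symm q hq p hp] at h1
  linarith

lemma Pic.abs_sub_le (P : Pic S d N) {a p q : ℂ} (ha : a ∈ S) (hp : p ∈ S) (hq : q ∈ S) :
    |d a p - d a q| ≤ d p q := by
  have h1 := P.tri a ha q hq p hp
  have h2 := P.tri a ha p hp q hq
  rw [P.symm q hq p hp] at h1
  exact abs_le.2 ⟨by linarith, by linarith⟩

lemma pinch_le (a b p q : ℂ) : pinch d a b p q ≤ d p q := min_le_left _ _

lemma pinch_le2 (a b p q : ℂ) : pinch d a b p q ≤ d p a + d b q :=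
  (min_le_right _ _).trans (min_le_left _ _)

lemma pinch_le3 (a b p q : ℂ) : pinch d a b p q ≤ d p b + d a q :=
  (min_le_right _ _).trans (min_le_right _ _)

lemma pinch_cases (d : ℂ → ℂ → ℝ) (a b p q : ℂ) : pinch d a b p q = d p q ∨
    pinch d a b p q = d p a + d b q ∨ pinch d a b p q = d p b + d a q := by
  unfold pinch
  rcases min_choice (d p q) (min (d p a + d b q) (d p b + d a q)) with h | h
  · exact Or.inl h
  · rw [h]
    rcases min_choice (d p a + d b q) (d p b + d a q) with h' | h'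
    · exact Or.inr (Or.inl h')
    · exact Or.inr (Or.inr h')

end

end Pool.Agent.MIR
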