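import Mathlib
import Pool.Agent.MIR.Defs
import Pool.Agent.MIR.Basic
import Pool.Agent.MIR.Defs2

open MeasureTheory Set Filter Topology Manifold Bundle
open scoped ENNReal NNReal ContDiff

noncomputable section

namespace Pool.Agent.MIR

open Pool.Agent.H74.Surf

variable {M : Type} [MetricSpace M] [ChartedSpace (EuclideanHalfSpace 2) M]
  [R : RiemannianSpace (𝓡∂ 2) M]

/-- The inner product at the point `x`, as a function of two vectors of the model space. -/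
def areaIp (x : M) (v w : EuclideanSpace ℝ (Fin 2)) : ℝ :=
  letI := R.metric
  @inner ℝ (TangentSpace (𝓡∂ 2) x) _ v w

lemma area_ip_add_left (x : M) (u v w : EuclideanSpace ℝ (Fin 2)) :
    areaIp x (u + v) w = areaIp x u w + areaIp x v w := by
  let := R.metric
  exact @inner_add_left ℝ (TangentSpace (𝓡∂ 2) x) _ _ _ u v w

lemma area_ip_smul_left (x : M) (a : ℝ) (v w : EuclideanSpace ℝ (Fin 2)) :
    areaIp x (a • v) w = a * areaIp x v w := by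
  let := R.metric
  exact @real_inner_smul_left (TangentSpace (𝓡∂ 2) x) _ _ v w a

lemma area_ip_comm (x : M) (v w : EuclideanSpace ℝ (Fin 2)) :
    areaIp x v w = areaIp x w v := by
  let := R.metric
  exact @real_inner_comm (TangentSpace (𝓡∂ 2) x) _ _ w v

lemma area_chain {Ψ : ℂ → M} {U : Set ℂ} (hU : IsOpen U)
    (hΨ : ContMDiffOn 𝓘(ℝ, ℂ) (𝓡∂ 2) ∞ Ψ U) {e : OpenPartialHomeomorph M (EuclideanHalfSpace 2)}
    (he : e ∈ IsManifold.maximalAtlas (𝓡∂ 2) ∞ M) {z : ℂ} (hz : z ∈ U) (hze : Ψ z ∈ e.source) :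
    DifferentiableAt ℝ (fun w => e.extend (𝓡∂ 2) (Ψ w)) z ∧
    ∀ v : ℂ, (mfderiv 𝓘(ℝ, ℂ) (𝓡∂ 2) Ψ z v : EuclideanSpace ℝ (Fin 2)) =
      push (𝓡∂ 2) (e.extend (𝓡∂ 2)).symm (e.extend (𝓡∂ 2) (Ψ z))
        (fderiv ℝ (fun w => e.extend (𝓡∂ 2) (Ψ w)) z v) := by
  have := R.smooth
  have hΨz : ContMDiffAt 𝓘(ℝ, ℂ) (𝓡∂ 2) ∞ Ψ z := hΨ.contMDiffAt (hU.mem_nhds hz)
  have hF : ContMDiffAt 𝓘(ℝ, ℂ) 𝓘(ℝ, EuclideanSpace ℝ (Fin 2)) ∞
      (fun w => e.extend (𝓡∂ 2) (Ψ w)) z :=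
    ContMDiffAt.comp z (e.contMDiffAt_extend he hze) hΨz
  have hFm : MDifferentiableAt 𝓘(ℝ, ℂ) 𝓘(ℝ, EuclideanSpace ℝ (Fin 2))
      (fun w => e.extend (𝓡∂ 2) (Ψ w)) z := hF.mdifferentiableAt (by simp)
  have hFd : DifferentiableAt ℝ (fun w => e.extend (𝓡∂ 2) (Ψ w)) z :=
    mdifferentiableAt_iff_differentiableAt.1 hFm
  refine ⟨hFd, fun v => ?_⟩
  have hev : Ψ =ᶠ[𝓝 z] (e.extend (𝓡∂ 2)).symm ∘ (fun w => e.extend (𝓡∂ 2) (Ψ w)) := by
    filter_upwards [hΨz.continuousAt.preimage_mem_nhds (e.open_source.mem_nhds hze)] with w hw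
    simp only [Function.comp]
    exact (e.extend_left_inv hw).symm
  have h1 := hev.mfderiv_eq (I := 𝓘(ℝ, ℂ)) (I' := 𝓡∂ 2)
  have hmem : e.extend (𝓡∂ 2) (Ψ z) ∈ (𝓡∂ 2) '' e.target :=
    ⟨e (Ψ z), e.map_source hze, rfl⟩
  have hs : MDifferentiableWithinAt 𝓘(ℝ, EuclideanSpace ℝ (Fin 2)) (𝓡∂ 2)
      (e.extend (𝓡∂ 2)).symm (range (𝓡∂ 2)) (e.extend (𝓡∂ 2) (Ψ z)) := by
    have h2 : MDifferentiableWithinAt 𝓘(ℝ, EuclideanSpace ℝ (Fin 2)) (𝓡∂ 2)
      (e.extend (𝓡∂ 2)).symm ((𝓡∂ 2) '' e.target) (e.extend (𝓡∂ 2) (Ψ z)) :=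
      (contMDiffOn_extend_symm he _ hmem).mdifferentiableWithinAt (by simp)
    apply h2.mono_of_mem_nhdsWithin
    have h3 := e.extend_target_mem_nhdsWithin (I := 𝓡∂ 2) hze
    rwa [OpenPartialHomeomorph.extend_target'] at h3
  have h2 : mfderiv 𝓘(ℝ, ℂ) (𝓡∂ 2) ((e.extend (𝓡∂ 2)).symm ∘ (fun w => e.extend (𝓡∂ 2) (Ψ w))) z
      = (mfderivWithin 𝓘(ℝ, EuclideanSpace ℝ (Fin 2)) (𝓡∂ 2) (e.extend (𝓡∂ 2)).symm
        (range (𝓡∂ 2)) (e.extend (𝓡∂ 2) (Ψ z))).comp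
        (mfderiv 𝓘(ℝ, ℂ) 𝓘(ℝ, EuclideanSpace ℝ (Fin 2)) (fun w => e.extend (𝓡∂ 2) (Ψ w)) z) := by
    rw [← mfderivWithin_univ, ← mfderivWithin_univ]
    apply mfderivWithin_comp
    · exact hs
    · exact hFm.mdifferentiableWithinAt
    · intro w _
      exact ⟨e (Ψ w), rfl⟩
    · exact uniqueMDiffWithinAt_univ _
  have h3 : mfderiv 𝓘(ℝ, ℂ) 𝓘(ℝ, EuclideanSpace ℝ (Fin 2)) (fun w => e.extend (𝓡∂ 2) (Ψ w)) z
    = fderiv ℝ (fun w => e.extend (𝓡∂ 2) (Ψ w)) z := mfderiv_eq_fderiv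
  rw [h3] at h2
  have h4 : (mfderiv 𝓘(ℝ, ℂ) (𝓡∂ 2) Ψ z v : EuclideanSpace ℝ (Fin 2)) =
      mfderiv 𝓘(ℝ, ℂ) (𝓡∂ 2) ((e.extend (𝓡∂ 2)).symm ∘ (fun w => e.extend (𝓡∂ 2) (Ψ w))) z v := by
    exact congrArg (fun L : ℂ →L[ℝ] EuclideanSpace ℝ (Fin 2) => L v) h1
  rw [h4]
  exact congrArg (fun L : ℂ →L[ℝ] EuclideanSpace ℝ (Fin 2) => L v) h2

lemma area_expand (v : EuclideanSpace ℝ (Fin 2)) :
    v = v 0 • EuclideanSpace.single (0 : Fin 2) (1 : ℝ) +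
      v 1 • EuclideanSpace.single (1 : Fin 2) (1 : ℝ) := by
  ext i
  fin_cases i <;> simp

lemma area_ip_expand (x : M) (P : EuclideanSpace ℝ (Fin 2) →L[ℝ] EuclideanSpace ℝ (Fin 2))
    (v w : EuclideanSpace ℝ (Fin 2)) :
    areaIp x (P v) (P w) =
      v 0 * w 0 * areaIp x (P (EuclideanSpace.single 0 1)) (P (EuclideanSpace.single 0 1)) +
      (v 0 * w 1 + v 1 * w 0) *
        areaIp x (P (EuclideanSpace.single 0 1)) (P (EuclideanSpace.single 1 1)) +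
      v 1 * w 1 * areaIp x (P (EuclideanSpace.single 1 1)) (P (EuclideanSpace.single 1 1)) := by
  have hP : ∀ u : EuclideanSpace ℝ (Fin 2), P u = u 0 • P (EuclideanSpace.single 0 1) +
      u 1 • P (EuclideanSpace.single 1 1) := by
    intro u
    conv_lhs => rw [area_expand u]
    rw [map_add, map_smul, map_smul]
  have h1 : ∀ u w' : EuclideanSpace ℝ (Fin 2), areaIp x (P u) w' =
      u 0 * areaIp x (P (EuclideanSpace.single 0 1)) w' +
      u 1 * areaIp x (P (EuclideanSpace.single 1 1)) w' := by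
    intro u w'
    rw [hP u, area_ip_add_left, area_ip_smul_left, area_ip_smul_left]
  rw [h1 v, area_ip_comm x _ (P w), area_ip_comm x _ (P w), h1 w, h1 w,
    area_ip_comm x (P (EuclideanSpace.single 1 1)) (P (EuclideanSpace.single 0 1))]
  ring

/-- the plane as the complex plane -/
def areaIso : ℂ ≃ₗᵢ[ℝ] EuclideanSpace ℝ (Fin 2) := Complex.orthonormalBasisOneI.repr

lemma areaIso_symm_zero : areaIso.symm (EuclideanSpace.single 0 1) = 1 := by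
  exact (Complex.orthonormalBasisOneI.repr_symm_single 0).trans (by simp)

lemma areaIso_symm_one : areaIso.symm (EuclideanSpace.single 1 1) = Complex.I := by
  exact (Complex.orthonormalBasisOneI.repr_symm_single 1).trans (by simp)

lemma area_det (D : ℂ →L[ℝ] EuclideanSpace ℝ (Fin 2)) :
    (D.comp (areaIso.symm.toContinuousLinearEquiv :
      EuclideanSpace ℝ (Fin 2) →L[ℝ] ℂ)).det =
      (D 1) 0 * (D Complex.I) 1 - (D Complex.I) 0 * (D 1) 1 := by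
  set L := D.comp (areaIso.symm.toContinuousLinearEquiv :
      EuclideanSpace ℝ (Fin 2) →L[ℝ] ℂ) with hL
  have h1 : L.det = LinearMap.det (L : EuclideanSpace ℝ (Fin 2) →ₗ[ℝ] EuclideanSpace ℝ (Fin 2)) := rfl
  rw [h1, ← LinearMap.det_toMatrix (EuclideanSpace.basisFun (Fin 2) ℝ).toBasis, Matrix.det_fin_two]
  simp only [LinearMap.toMatrix_apply]
  have e0 : L (EuclideanSpace.single 0 1) = D 1 := by
    rw [hL]
    simp only [ContinuousLinearMap.comp_apply]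
    congr 1
    exact areaIso_symm_zero
  have e1 : L (EuclideanSpace.single 1 1) = D Complex.I := by
    rw [hL]
    simp only [ContinuousLinearMap.comp_apply]
    congr 1
    exact areaIso_symm_one
  simp [e0, e1]

lemma area_gd {Ψ : ℂ → M} {U : Set ℂ} (hU : IsOpen U)
    (hΨ : ContMDiffOn 𝓘(ℝ, ℂ) (𝓡∂ 2) ∞ Ψ U) {e : OpenPartialHomeomorph M (EuclideanHalfSpace 2)}
    (he : e ∈ IsManifold.maximalAtlas (𝓡∂ 2) ∞ M) {z : ℂ} (hz : z ∈ U) (hze : Ψ z ∈ e.source) :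
    gd Ψ z = (gram (𝓡∂ 2) (fun i : Fin 2 => EuclideanSpace.single i (1 : ℝ)) e
      (e.extend (𝓡∂ 2) (Ψ z))).det *
      (((fderiv ℝ (fun w => e.extend (𝓡∂ 2) (Ψ w)) z).comp (areaIso.symm.toContinuousLinearEquiv :
      EuclideanSpace ℝ (Fin 2) →L[ℝ] ℂ)).det) ^ 2 := by
  obtain ⟨-, hch⟩ := area_chain hU hΨ he hz hze
  set D := fderiv ℝ (fun w => e.extend (𝓡∂ 2) (Ψ w)) z with hD
  let P : EuclideanSpace ℝ (Fin 2) →L[ℝ] EuclideanSpace ℝ (Fin 2) :=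
    mfderivWithin 𝓘(ℝ, EuclideanSpace ℝ (Fin 2)) (𝓡∂ 2) (e.extend (𝓡∂ 2)).symm (range (𝓡∂ 2))
      (e.extend (𝓡∂ 2) (Ψ z))
  have hx : (e.extend (𝓡∂ 2)).symm (e.extend (𝓡∂ 2) (Ψ z)) = Ψ z := e.extend_left_inv hze
  have hip : ∀ v w : ℂ, ip Ψ z v w = areaIp (Ψ z) (P (D v)) (P (D w)) := by
    intro v w
    have h1 : ip Ψ z v w = areaIp (Ψ z) (mfderiv 𝓘(ℝ, ℂ) (𝓡∂ 2) Ψ z v)
      (mfderiv 𝓘(ℝ, ℂ) (𝓡∂ 2) Ψ z w) := rfl
    rw [h1]
    exact congrArg₂ (areaIp (Ψ z)) (hch v) (hch w)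
  have hg : ∀ i j : Fin 2, gram (𝓡∂ 2) (fun i : Fin 2 => EuclideanSpace.single i (1 : ℝ)) e
      (e.extend (𝓡∂ 2) (Ψ z)) i j = areaIp (Ψ z) (P (EuclideanSpace.single i 1))
        (P (EuclideanSpace.single j 1)) := by
    intro i j
    have h1 : gram (𝓡∂ 2) (fun i : Fin 2 => EuclideanSpace.single i (1 : ℝ)) e
      (e.extend (𝓡∂ 2) (Ψ z)) i j = areaIp ((e.extend (𝓡∂ 2)).symm (e.extend (𝓡∂ 2) (Ψ z)))
        (P (EuclideanSpace.single i 1)) (P (EuclideanSpace.single j 1)) := rfl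
    rw [h1, hx]
  rw [Matrix.det_fin_two, hg, hg, hg, hg, area_det, gd, hip, hip, hip,
    area_ip_expand (Ψ z) P (D 1) (D 1), area_ip_expand (Ψ z) P (D Complex.I) (D Complex.I),
    area_ip_expand (Ψ z) P (D 1) (D Complex.I),
    area_ip_comm (Ψ z) (P (EuclideanSpace.single 1 1)) (P (EuclideanSpace.single 0 1))]
  ring


lemma area_meas [MeasurableSpace M] [BorelSpace M] {Ψ : ℂ → M} {U : Set ℂ} (hU : IsOpen U)
    (hΨ : ContinuousOn Ψ U) {T : Set M} (hT : MeasurableSet T) : MeasurableSet (U ∩ Ψ ⁻¹' T) := by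
  have h1 : Measurable (U.domRestrict Ψ) := (continuousOn_iff_continuous_domRestrict.1 hΨ).measurable
  have h2 : MeasurableSet ((U.domRestrict Ψ) ⁻¹' T) := h1 hT
  have h3 := hU.measurableSet.subtype_image h2
  have h4 : U ∩ Ψ ⁻¹' T = Subtype.val '' ((U.domRestrict Ψ) ⁻¹' T) := by
    ext z
    simp only [mem_inter_iff, mem_preimage, mem_image, Subtype.exists]
    constructor
    · rintro ⟨h1, h2⟩
      exact ⟨z, h1, h2, rfl⟩
    · rintro ⟨w, hw, h2, rfl⟩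
      exact ⟨hw, h2⟩
  rw [h4]
  exact h3

lemma area_cv {Ψ : ℂ → M} {U : Set ℂ} (hU : IsOpen U)
    (hΨ : ContMDiffOn 𝓘(ℝ, ℂ) (𝓡∂ 2) ∞ Ψ U) (hi : InjOn Ψ U)
    {e : OpenPartialHomeomorph M (EuclideanHalfSpace 2)}
    (he : e ∈ IsManifold.maximalAtlas (𝓡∂ 2) ∞ M) {T : Set M} (hT : MeasurableSet[borel M] T)
    (hTe : T ⊆ e.source) :
    MeasurableSet ((fun w => e.extend (𝓡∂ 2) (Ψ w)) '' (U ∩ Ψ ⁻¹' T)) ∧
    ∫⁻ z in U ∩ Ψ ⁻¹' T, ENNReal.ofReal (√(gd Ψ z)) =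
      ∫⁻ z in (fun w => e.extend (𝓡∂ 2) (Ψ w)) '' (U ∩ Ψ ⁻¹' T),
        ENNReal.ofReal (√((gram (𝓡∂ 2) (fun i : Fin 2 => EuclideanSpace.single i (1 : ℝ)) e z).det)) := by
  letI : MeasurableSpace M := borel M
  have : BorelSpace M := ⟨rfl⟩
  set s := U ∩ Ψ ⁻¹' T with hs
  have hsm : MeasurableSet s := area_meas hU hΨ.continuousOn hT
  set F : ℂ → EuclideanSpace ℝ (Fin 2) := fun w => e.extend (𝓡∂ 2) (Ψ w) with hF
  have hFd : ∀ z ∈ s, DifferentiableAt ℝ F z := fun z hz =>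
    (area_chain hU hΨ he hz.1 (hTe hz.2)).1
  have hFi : InjOn F s := by
    intro z hz w hw hzw
    apply hi hz.1 hw.1
    have h1 := e.extend_left_inv (I := 𝓡∂ 2) (hTe hz.2)
    have h2 := e.extend_left_inv (I := 𝓡∂ 2) (hTe hw.2)
    rw [← h1, ← h2]
    exact congrArg _ hzw
  have hFm : MeasurableSet (F '' s) :=
    hsm.image_of_continuousOn_injOn (fun z hz => (hFd z hz).continuousAt.continuousWithinAt) hFi
  refine ⟨hFm, ?_⟩
  set t : Set (EuclideanSpace ℝ (Fin 2)) := areaIso.symm ⁻¹' s with ht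
  have htm : MeasurableSet t := areaIso.symm.continuous.measurable hsm
  have himg : F '' s = (fun x => F (areaIso.symm x)) '' t := by
    ext y
    constructor
    · rintro ⟨z, hz, rfl⟩
      refine ⟨areaIso z, ?_, ?_⟩
      · simpa [ht] using hz
      · simp
    · rintro ⟨x, hx, rfl⟩
      exact ⟨_, hx, rfl⟩
  have hder : ∀ x ∈ t, HasFDerivWithinAt (fun x => F (areaIso.symm x))
      ((fderiv ℝ F (areaIso.symm x)).comp (areaIso.symm.toContinuousLinearEquiv :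
      EuclideanSpace ℝ (Fin 2) →L[ℝ] ℂ)) t x := by
    intro x hx
    have h1 : HasFDerivAt F (fderiv ℝ F (areaIso.symm x)) (areaIso.symm x) :=
      (hFd _ hx).hasFDerivAt
    have h2 : HasFDerivAt areaIso.symm (areaIso.symm.toContinuousLinearEquiv :
      EuclideanSpace ℝ (Fin 2) →L[ℝ] ℂ) x :=
      (areaIso.symm.toContinuousLinearEquiv : EuclideanSpace ℝ (Fin 2) →L[ℝ] ℂ).hasFDerivAt
    exact (HasFDerivAt.comp x h1 h2).hasFDerivWithinAt
  have hinj : InjOn (fun x => F (areaIso.symm x)) t := by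
    intro x hx y hy hxy
    exact areaIso.symm.injective (hFi hx hy hxy)
  rw [himg, lintegral_image_eq_lintegral_abs_det_fderiv_mul volume htm hder hinj]
  have hmp : MeasurePreserving areaIso.symm := areaIso.symm.measurePreserving
  have hme : MeasurableEmbedding areaIso.symm :=
    areaIso.symm.toHomeomorph.measurableEmbedding
  have h5 := hmp.setLIntegral_comp_preimage_emb hme (fun z => ENNReal.ofReal
    |((fderiv ℝ F z).comp (areaIso.symm.toContinuousLinearEquiv :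
      EuclideanSpace ℝ (Fin 2) →L[ℝ] ℂ)).det| * ENNReal.ofReal (√((gram (𝓡∂ 2)
        (fun i : Fin 2 => EuclideanSpace.single i (1 : ℝ)) e (F z)).det))) s
  rw [h5]
  apply setLIntegral_congr_fun hsm
  intro z hz
  simp only
  rw [area_gd hU hΨ he hz.1 (hTe hz.2), Real.sqrt_mul' _ (sq_nonneg _), Real.sqrt_sq_eq_abs,
    mul_comm, ENNReal.ofReal_mul (abs_nonneg _)]

theorem area_two [CompactSpace M] {Ψ Ψ' : ℂ → M} {U : Set ℂ} (hU : IsOpen U)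
    (hΨ : ContMDiffOn 𝓘(ℝ, ℂ) (𝓡∂ 2) ∞ Ψ U) (hΨ' : ContMDiffOn 𝓘(ℝ, ℂ) (𝓡∂ 2) ∞ Ψ' U)
    (hi : InjOn Ψ U) (hi' : InjOn Ψ' U) (hd : ∀ z ∈ U, ∀ w ∈ U, Ψ z ≠ Ψ' w) :
    (∫⁻ z in U, ENNReal.ofReal (√(gd Ψ z))) + (∫⁻ z in U, ENNReal.ofReal (√(gd Ψ' z))) ≤
      area M := by
  have hsm := R.smooth
  letI : MeasurableSpace M := borel M
  have : BorelSpace M := ⟨rfl⟩
  -- finitely many charts
  obtain ⟨t, ht⟩ := isCompact_univ.elim_finite_subcover (fun x : M => (chartAt (EuclideanHalfSpace 2) x).source)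
    (fun x => (chartAt (EuclideanHalfSpace 2) x).open_source)
    (fun x _ => mem_iUnion.2 ⟨x, mem_chart_source _ x⟩)
  set n := t.card with hn
  let q : Fin n ≃ t := t.equivFin.symm
  let e : Fin n → OpenPartialHomeomorph M (EuclideanHalfSpace 2) := fun i =>
    chartAt (EuclideanHalfSpace 2) (q i : M)
  have he : ∀ i, e i ∈ IsManifold.maximalAtlas (𝓡∂ 2) ∞ M := fun i =>
    IsManifold.chart_mem_maximalAtlas _
  have hcov : ∀ x : M, ∃ i, x ∈ (e i).source := by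
    intro x
    have h1 := ht (mem_univ x)
    simp only [mem_iUnion] at h1
    obtain ⟨y, hy, hxy⟩ := h1
    refine ⟨q.symm ⟨y, hy⟩, ?_⟩
    simpa [e] using hxy
  let T : Fin n → Set M := fun i => (e i).source \ ⋃ j : Fin n, ⋃ _ : j < i, (e j).source
  have hTe : ∀ i, T i ⊆ (e i).source := fun i => sdiff_subset
  have hTm : ∀ i, MeasurableSet (T i) := by
    intro i
    apply (e i).open_source.measurableSet.diff
    exact MeasurableSet.iUnion fun j => MeasurableSet.iUnion fun _ => (e j).open_source.measurableSet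
  have hTd : Pairwise fun i j => Disjoint (T i) (T j) := by
    have key : ∀ i j, i < j → Disjoint (T i) (T j) := by
      intro i j hij
      rw [Set.disjoint_left]
      intro x hx hx'
      apply hx'.2
      exact mem_iUnion.2 ⟨i, mem_iUnion.2 ⟨hij, hx.1⟩⟩
    intro i j hij
    rcases lt_or_gt_of_ne hij with h | h
    · exact key i j h
    · exact (key j i h).symm
  have hTc : ∀ x : M, ∃ i, x ∈ T i := by
    intro x
    obtain ⟨i, hi1, hi2⟩ := WellFounded.has_min (wellFounded_lt (α := Fin n))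
      {i | x ∈ (e i).source} (hcov x)
    refine ⟨i, hi1, ?_⟩
    intro h
    simp only [mem_iUnion] at h
    obtain ⟨j, hj, hxj⟩ := h
    exact hi2 j hxj hj
  have hle : ∀ Φ : ℂ → M, ∫⁻ z in U, ENNReal.ofReal (√(gd Φ z)) ≤
      ∑ i, ∫⁻ z in U ∩ Φ ⁻¹' T i, ENNReal.ofReal (√(gd Φ z)) := by
    intro Φ
    have h1 : U = ⋃ i, U ∩ Φ ⁻¹' T i := by
      ext z
      simp only [mem_iUnion, mem_inter_iff, mem_preimage]
      constructor
      · intro hz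
        obtain ⟨i, hi⟩ := hTc (Φ z)
        exact ⟨i, hz, hi⟩
      · rintro ⟨i, hz, -⟩
        exact hz
    calc ∫⁻ z in U, ENNReal.ofReal (√(gd Φ z))
        = ∫⁻ z in ⋃ i, U ∩ Φ ⁻¹' T i, ENNReal.ofReal (√(gd Φ z)) := by rw [← h1]
      _ ≤ ∑' i, ∫⁻ z in U ∩ Φ ⁻¹' T i, ENNReal.ofReal (√(gd Φ z)) := lintegral_iUnion_le _ _
      _ = _ := tsum_fintype _
  refine (add_le_add (hle Ψ) (hle Ψ')).trans ?_
  rw [← Finset.sum_add_distrib]
  have hvol : ∑ i, ∫⁻ z in (e i).extend (𝓡∂ 2) '' (T i), ENNReal.ofReal (Real.sqrt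
      (gram (𝓡∂ 2) (fun i : Fin 2 => EuclideanSpace.single i (1 : ℝ)) (e i) z).det) ≤ area M := by
    unfold area volumeOf
    exact le_iSup_of_le n (le_iSup_of_le e (le_iSup_of_le T (le_iSup_of_le
      ⟨he, hTm, hTe, hTd⟩ le_rfl)))
  refine le_trans (Finset.sum_le_sum fun i _ => ?_) hvol
  obtain ⟨hm1, h1⟩ := area_cv hU hΨ hi (he i) (hTm i) (hTe i)
  obtain ⟨hm2, h2⟩ := area_cv hU hΨ' hi' (he i) (hTm i) (hTe i)
  rw [h1, h2, ← lintegral_union hm2]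
  · apply lintegral_mono_set
    apply union_subset
    · rintro _ ⟨z, hz, rfl⟩
      exact ⟨Ψ z, hz.2, rfl⟩
    · rintro _ ⟨z, hz, rfl⟩
      exact ⟨Ψ' z, hz.2, rfl⟩
  · rw [Set.disjoint_left]
    rintro _ ⟨z, hz, rfl⟩ ⟨w, hw, hzw⟩
    apply hd z hz.1 w hw.1
    have h3 := (e i).extend_left_inv (I := 𝓡∂ 2) (hTe i hz.2)
    have h4 := (e i).extend_left_inv (I := 𝓡∂ 2) (hTe i hw.2)
    rw [← h3, ← h4]
    exact congrArg _ hzw.symm

end Pool.Agent.MIR
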