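import Mathlib
import Pool.Agent.MIR.Defs
import Pool.Agent.MIR.Basic
import Pool.Agent.MIR.Defs2
import Pool.Agent.H74.FAC.Riem2

open MeasureTheory Set Filter Topology Manifold Bundle
open scoped ENNReal NNReal ContDiff

set_option linter.unusedSectionVars false

noncomputable section

namespace Pool.Agent.MIR

open Pool.Agent.H74.Surf

section rup

open Pool.Agent.H74.FAC (E2 HP contRiem)

variable {M : Type} [MetricSpace M] [ChartedSpace HP M] [IsManifold (𝓡∂ 2) ∞ M]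
  [RiemannianBundle (fun x : M => TangentSpace (𝓡∂ 2) x)]

/-- the pulled back inner product -/
def rup_ip (Ψ : ℂ → M) (z v w : ℂ) : ℝ :=
  inner ℝ (mfderiv 𝓘(ℝ, ℂ) (𝓡∂ 2) Ψ z v) (mfderiv 𝓘(ℝ, ℂ) (𝓡∂ 2) Ψ z w)

lemma rup_ip_self (Ψ : ℂ → M) (z v : ℂ) :
    rup_ip Ψ z v v = ‖mfderiv 𝓘(ℝ, ℂ) (𝓡∂ 2) Ψ z v‖ ^ 2 := by
  unfold rup_ip
  rw [real_inner_self_eq_norm_sq]

lemma rup_ip_nonneg (Ψ : ℂ → M) (z v : ℂ) : 0 ≤ rup_ip Ψ z v v := by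
  rw [rup_ip_self]
  positivity

lemma rup_sqrt (Ψ : ℂ → M) (z v : ℂ) :
    √(rup_ip Ψ z v v) = ‖mfderiv 𝓘(ℝ, ℂ) (𝓡∂ 2) Ψ z v‖ := by
  rw [rup_ip_self, Real.sqrt_sq (norm_nonneg _)]

lemma rup_expand (Ψ : ℂ → M) (z v : ℂ) :
    rup_ip Ψ z v v = v.re ^ 2 * rup_ip Ψ z 1 1 + 2 * (v.re * v.im) * rup_ip Ψ z 1 Complex.I +
      v.im ^ 2 * rup_ip Ψ z Complex.I Complex.I := by
  have hv : v = v.re • (1 : ℂ) + v.im • Complex.I := by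
    apply Complex.ext <;> simp
  have h1 : mfderiv 𝓘(ℝ, ℂ) (𝓡∂ 2) Ψ z v =
      v.re • mfderiv 𝓘(ℝ, ℂ) (𝓡∂ 2) Ψ z (1 : ℂ) +
        v.im • mfderiv 𝓘(ℝ, ℂ) (𝓡∂ 2) Ψ z Complex.I := by
    conv_lhs => rw [hv]
    refine (map_add _ _ _).trans ?_
    congr 1
    · exact map_smul _ _ _
    · exact map_smul _ _ _
  unfold rup_ip
  rw [h1]
  simp only [inner_add_left, inner_add_right, real_inner_smul_left, real_inner_smul_right]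
  rw [real_inner_comm (mfderiv 𝓘(ℝ, ℂ) (𝓡∂ 2) Ψ z (1 : ℂ))
    (mfderiv 𝓘(ℝ, ℂ) (𝓡∂ 2) Ψ z Complex.I)]
  ring

section

variable [IsContMDiffRiemannianBundle (𝓡∂ 2) ∞ E2 (fun x : M => TangentSpace (𝓡∂ 2) x)]

lemma rup_continuousOn_push {Ψ : ℂ → M} {U : Set ℂ} (hU : IsOpen U)
    (hΨ : ContMDiffOn 𝓘(ℝ, ℂ) (𝓡∂ 2) ∞ Ψ U) (v : ℂ) :
    ContinuousOn (fun z => (⟨Ψ z, mfderiv 𝓘(ℝ, ℂ) (𝓡∂ 2) Ψ z v⟩ : TangentBundle (𝓡∂ 2) M)) U := by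
  have h1 := hΨ.continuousOn_tangentMapWithin (by simp)
    (uniqueMDiffOn_iff_uniqueDiffOn.2 hU.uniqueDiffOn)
  have h2 : Continuous (fun z : ℂ => (⟨z, v⟩ : TangentBundle 𝓘(ℝ, ℂ) ℂ)) := by
    have h := (tangentBundleModelSpaceHomeomorph 𝓘(ℝ, ℂ)).symm.continuous
    have h' : Continuous (fun z : ℂ => ((z, v) : ModelProd ℂ ℂ)) := by
      exact continuous_id.prodMk continuous_const
    exact h.comp h'
  have h3 := h1.comp h2.continuousOn (s := U) (fun z hz => hz)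
  refine h3.congr ?_
  intro z hz
  simp only [Function.comp, tangentMapWithin]
  rw [mfderivWithin_of_isOpen hU hz]

lemma rup_continuousOn {Ψ : ℂ → M} {U : Set ℂ} (hU : IsOpen U)
    (hΨ : ContMDiffOn 𝓘(ℝ, ℂ) (𝓡∂ 2) ∞ Ψ U) (v w : ℂ) :
    ContinuousOn (fun z => rup_ip Ψ z v w) U := by
  have := contRiem (M := M)
  exact ContinuousOn.inner_bundle (F := E2) (rup_continuousOn_push hU hΨ v)
    (rup_continuousOn_push hU hΨ w)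

lemma rup_close {Ψ : ℂ → M} {U : Set ℂ} (hU : IsOpen U)
    (hΨ : ContMDiffOn 𝓘(ℝ, ℂ) (𝓡∂ 2) ∞ Ψ U) {p : ℂ} (hp : p ∈ U) {δ : ℝ} (hδ : 0 < δ) :
    ∀ᶠ z in 𝓝 p, ∀ v : ℂ, |rup_ip Ψ z v v - rup_ip Ψ p v v| ≤ δ * ‖v‖ ^ 2 := by
  have hc : ∀ a b : ℂ, ∀ᶠ z in 𝓝 p, |rup_ip Ψ z a b - rup_ip Ψ p a b| < δ / 4 := by
    intro a b
    have h1 := ((rup_continuousOn hU hΨ a b).continuousAt (hU.mem_nhds hp))
    have h2 := Metric.continuousAt_iff'.1 h1 (δ / 4) (by linarith)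
    filter_upwards [h2] with z hz
    rwa [Real.dist_eq] at hz
  filter_upwards [hc 1 1, hc 1 Complex.I, hc Complex.I Complex.I] with z h1 h2 h3 v
  rw [rup_expand Ψ z, rup_expand Ψ p]
  have hre := Complex.abs_re_le_norm v
  have him := Complex.abs_im_le_norm v
  have e : v.re ^ 2 * rup_ip Ψ z 1 1 + 2 * (v.re * v.im) * rup_ip Ψ z 1 Complex.I +
      v.im ^ 2 * rup_ip Ψ z Complex.I Complex.I -
      (v.re ^ 2 * rup_ip Ψ p 1 1 + 2 * (v.re * v.im) * rup_ip Ψ p 1 Complex.I +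
      v.im ^ 2 * rup_ip Ψ p Complex.I Complex.I) =
      v.re ^ 2 * (rup_ip Ψ z 1 1 - rup_ip Ψ p 1 1) +
      2 * (v.re * v.im) * (rup_ip Ψ z 1 Complex.I - rup_ip Ψ p 1 Complex.I) +
      v.im ^ 2 * (rup_ip Ψ z Complex.I Complex.I - rup_ip Ψ p Complex.I Complex.I) := by ring
  rw [e]
  have b1 : v.re ^ 2 ≤ ‖v‖ ^ 2 := by rw [← sq_abs v.re]; gcongr
  have b2 : v.im ^ 2 ≤ ‖v‖ ^ 2 := by rw [← sq_abs v.im]; gcongr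
  have b3 : |v.re * v.im| ≤ ‖v‖ ^ 2 := by
    rw [abs_mul, sq]
    exact mul_le_mul hre him (abs_nonneg _) (norm_nonneg _)
  have c1 : |v.re ^ 2 * (rup_ip Ψ z 1 1 - rup_ip Ψ p 1 1)| ≤ ‖v‖ ^ 2 * (δ / 4) := by
    rw [abs_mul, abs_of_nonneg (sq_nonneg _)]
    exact mul_le_mul b1 h1.le (abs_nonneg _) (by positivity)
  have c3 : |v.im ^ 2 * (rup_ip Ψ z Complex.I Complex.I - rup_ip Ψ p Complex.I Complex.I)| ≤
      ‖v‖ ^ 2 * (δ / 4) := by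
    rw [abs_mul, abs_of_nonneg (sq_nonneg _)]
    exact mul_le_mul b2 h3.le (abs_nonneg _) (by positivity)
  have c2 : |2 * (v.re * v.im) * (rup_ip Ψ z 1 Complex.I - rup_ip Ψ p 1 Complex.I)| ≤
      2 * ‖v‖ ^ 2 * (δ / 4) := by
    rw [abs_mul, abs_mul, abs_of_pos (by norm_num : (0:ℝ) < 2)]
    exact mul_le_mul (by linarith) h2.le (abs_nonneg _) (by positivity)
  refine (abs_add_le _ _).trans ((add_le_add_left (abs_add_le _ _) _).trans ?_)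
  linarith

lemma rup_le_add {x y d : ℝ} (hy : 0 ≤ y) (hd : 0 ≤ d) (h : x ≤ y + d ^ 2) : √x ≤ √y + d := by
  rw [Real.sqrt_le_iff]
  refine ⟨by positivity, ?_⟩
  have h1 := Real.sq_sqrt hy
  nlinarith [mul_nonneg (Real.sqrt_nonneg y) hd]

/-- the norm of the derivative is almost constant near `p`, uniformly on bounded vectors -/
lemma rup_norm_close {Ψ : ℂ → M} {U : Set ℂ} (hU : IsOpen U)
    (hΨ : ContMDiffOn 𝓘(ℝ, ℂ) (𝓡∂ 2) ∞ Ψ U) {p : ℂ} (hp : p ∈ U) {ε : ℝ} (hε : 0 < ε) :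
    ∀ᶠ z in 𝓝 p, ∀ v : ℂ, √(rup_ip Ψ z v v) ≤ √(rup_ip Ψ p v v) + ε * ‖v‖ ∧
      √(rup_ip Ψ p v v) ≤ √(rup_ip Ψ z v v) + ε * ‖v‖ := by
  filter_upwards [rup_close hU hΨ hp (pow_pos hε 2)] with z hz v
  have h1 := abs_le.1 (hz v)
  constructor
  · refine rup_le_add (rup_ip_nonneg _ _ _) (by positivity) ?_
    rw [mul_pow]
    linarith [h1.2]
  · refine rup_le_add (rup_ip_nonneg _ _ _) (by positivity) ?_
    rw [mul_pow]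
    linarith [h1.1]

end

variable [IsRiemannianManifold (𝓡∂ 2) M]

lemma rup_edist_segment {Ψ : ℂ → M} {U : Set ℂ} (hU : IsOpen U)
    (hΨ : ContMDiffOn 𝓘(ℝ, ℂ) (𝓡∂ 2) ∞ Ψ U) {a b : ℂ} (hs : segment ℝ a b ⊆ U) :
    edist (Ψ a) (Ψ b) ≤ ∫⁻ t in Icc (0 : ℝ) 1,
      ‖mfderiv 𝓘(ℝ, ℂ) (𝓡∂ 2) Ψ (AffineMap.lineMap a b t) (b - a)‖ₑ := by
  let η := ContinuousAffineMap.lineMap (R := ℝ) a b
  set γ := Ψ ∘ η with hγ
  have hη : Icc 0 1 ⊆ ⇑η ⁻¹' U := by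
    simp only [← image_subset_iff, ContinuousAffineMap.coe_lineMap_eq,
     ← segment_eq_image_lineMap, η]
    exact hs
  have η_smooth : ContMDiffOn 𝓘(ℝ, ℝ) 𝓘(ℝ, ℂ) 1 η (Icc 0 1) := by
    apply ContMDiff.contMDiffOn
    rw [contMDiff_iff_contDiff]
    exact ContinuousAffineMap.contDiff _
  have h1 : riemannianEDist (𝓡∂ 2) (Ψ a) (Ψ b) ≤ pathELength (𝓡∂ 2) γ 0 1 := by
    apply riemannianEDist_le_pathELength _ _ _ zero_le_one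
    · exact (hΨ.of_le (by simp)).comp η_smooth hη
    · simp [γ, η, ContinuousAffineMap.coe_lineMap_eq]
    · simp [γ, η, ContinuousAffineMap.coe_lineMap_eq]
  rw [IsRiemannianManifold.out (I := 𝓡∂ 2)]
  apply h1.trans
  rw [pathELength_eq_lintegral_mfderivWithin_Icc]
  apply setLIntegral_mono' measurableSet_Icc (fun t ht ↦ ?_)
  have h2 : mfderivWithin 𝓘(ℝ, ℝ) (𝓡∂ 2) γ (Icc 0 1) t =
      (mfderiv 𝓘(ℝ, ℂ) (𝓡∂ 2) Ψ (η t)) ∘L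
        (mfderivWithin 𝓘(ℝ, ℝ) 𝓘(ℝ, ℂ) η (Icc 0 1) t) := by
    apply mfderiv_comp_mfderivWithin
    · exact ((hΨ.contMDiffAt (hU.mem_nhds (hη ht))).mdifferentiableAt (by simp))
    · exact η_smooth.mdifferentiableOn one_ne_zero t ht
    · rw [uniqueMDiffWithinAt_iff_uniqueDiffWithinAt]
      exact uniqueDiffOn_Icc zero_lt_one t ht
  have h3 : (mfderivWithin 𝓘(ℝ, ℝ) 𝓘(ℝ, ℂ) η (Icc 0 1) t (1 : ℝ) : ℂ) = b - a := by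
    simp only [mfderivWithin_eq_fderivWithin]
    have : fderivWithin ℝ η (Icc 0 1) t = fderiv ℝ η t :=
      fderivWithin_eq_fderiv (uniqueDiffOn_Icc zero_lt_one _ ht)
        (ContinuousAffineMap.differentiableAt _)
    have h5 : b - a = fderiv ℝ η t 1 := by simp [η]
    rw [h5, ← this]
    rfl
  have h4 : mfderivWithin 𝓘(ℝ, ℝ) (𝓡∂ 2) γ (Icc 0 1) t (1 : ℝ) =
      mfderiv 𝓘(ℝ, ℂ) (𝓡∂ 2) Ψ (η t) (b - a) := by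
    rw [h2]
    show (mfderiv 𝓘(ℝ, ℂ) (𝓡∂ 2) Ψ (η t))
      (mfderivWithin 𝓘(ℝ, ℝ) 𝓘(ℝ, ℂ) η (Icc 0 1) t (1 : ℝ)) = _
    rw [h3]
  have h6 : ‖mfderivWithin 𝓘(ℝ, ℝ) (𝓡∂ 2) γ (Icc 0 1) t (1 : ℝ)‖ₑ =
      ‖mfderiv 𝓘(ℝ, ℂ) (𝓡∂ 2) Ψ (η t) (b - a)‖ₑ := by
    rw [h4]
  exact h6.le

lemma rup_dist_le {Ψ : ℂ → M} {U : Set ℂ} (hU : IsOpen U)
    (hΨ : ContMDiffOn 𝓘(ℝ, ℂ) (𝓡∂ 2) ∞ Ψ U) {a b : ℂ} (hs : segment ℝ a b ⊆ U) {B : ℝ}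
    (hB0 : 0 ≤ B) (hB : ∀ z ∈ segment ℝ a b, ‖mfderiv 𝓘(ℝ, ℂ) (𝓡∂ 2) Ψ z (b - a)‖ ≤ B) :
    dist (Ψ a) (Ψ b) ≤ B := by
  have h := rup_edist_segment hU hΨ hs
  have h2 : ∫⁻ t in Icc (0 : ℝ) 1, ‖mfderiv 𝓘(ℝ, ℂ) (𝓡∂ 2) Ψ (AffineMap.lineMap a b t) (b - a)‖ₑ
      ≤ ∫⁻ t in Icc (0 : ℝ) 1, ENNReal.ofReal B := by
    apply setLIntegral_mono' measurableSet_Icc (fun t ht ↦ ?_)
    rw [← ofReal_norm]
    apply ENNReal.ofReal_le_ofReal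
    apply hB
    rw [segment_eq_image_lineMap]
    exact ⟨t, ht, rfl⟩
  have h3 := h.trans h2
  rw [setLIntegral_const, Real.volume_Icc, sub_zero, ENNReal.ofReal_one, mul_one, edist_dist] at h3
  exact (ENNReal.ofReal_le_ofReal_iff hB0).1 h3

variable [IsContMDiffRiemannianBundle (𝓡∂ 2) ∞ E2 (fun x : M => TangentSpace (𝓡∂ 2) x)]

lemma rup_main {Ψ : ℂ → M} {U : Set ℂ} (hU : IsOpen U)
    (hΨ : ContMDiffOn 𝓘(ℝ, ℂ) (𝓡∂ 2) ∞ Ψ U) {p : ℂ} (hp : p ∈ U) {ε : ℝ} (hε : 0 < ε) :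
    ∀ᶠ x : ℂ × ℂ in 𝓝 (p, p),
      dist (Ψ x.1) (Ψ x.2) ≤ √(rup_ip Ψ p (x.1 - x.2) (x.1 - x.2)) + ε * ‖x.1 - x.2‖ := by
  have h1 : ∀ᶠ z in 𝓝 p, z ∈ U ∧ ∀ v : ℂ, √(rup_ip Ψ z v v) ≤ √(rup_ip Ψ p v v) + ε * ‖v‖ := by
    filter_upwards [hU.mem_nhds hp, rup_norm_close hU hΨ hp hε] with z hz1 hz2
    exact ⟨hz1, fun v => (hz2 v).1⟩
  obtain ⟨r, hr, hball⟩ := Metric.eventually_nhds_iff_ball.1 h1
  have h2 : ∀ᶠ x : ℂ × ℂ in 𝓝 (p, p), x.1 ∈ Metric.ball p r ∧ x.2 ∈ Metric.ball p r :=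
    prod_mem_nhds (Metric.ball_mem_nhds p hr) (Metric.ball_mem_nhds p hr)
  filter_upwards [h2] with x hx
  have hseg : segment ℝ x.2 x.1 ⊆ Metric.ball p r := (convex_ball p r).segment_subset hx.2 hx.1
  rw [dist_comm]
  refine rup_dist_le hU hΨ (fun z hz => (hball z (hseg hz)).1) (by positivity) ?_
  intro z hz
  rw [← rup_sqrt]
  exact (hball z (hseg hz)).2 _

end rup

variable {M : Type} [MetricSpace M] [ChartedSpace (EuclideanHalfSpace 2) M]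
  [R : RiemannianSpace (𝓡∂ 2) M]

theorem riem_up {Ψ : ℂ → M} {U : Set ℂ} (hU : IsOpen U)
    (hΨ : ContMDiffOn 𝓘(ℝ, ℂ) (𝓡∂ 2) ∞ Ψ U) {p : ℂ} (hp : p ∈ U) {ε : ℝ} (hε : 0 < ε) :
    ∀ᶠ x : ℂ × ℂ in 𝓝 (p, p),
      dist (Ψ x.1) (Ψ x.2) ≤ √(ip Ψ p (x.1 - x.2) (x.1 - x.2)) + ε * ‖x.1 - x.2‖ := by
  have := R.smooth
  let _ := R.metric
  have := R.smoothMetric
  have := R.dist_eq
  exact rup_main hU hΨ hp hε

end Pool.Agent.MIR
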