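import Mathlib
import Pool.Agent.MIR.Defs
import Pool.Agent.MIR.Basic
import Pool.Agent.MIR.Defs2
import Pool.Agent.MIR.RUp

open MeasureTheory Set Filter Topology Manifold Bundle
open scoped ENNReal NNReal ContDiff

set_option linter.unusedSectionVars false

noncomputable section

namespace Pool.Agent.MIR

open Pool.Agent.H74.Surf

section rlow

open Pool.Agent.H74.FAC (E2 HP contRiem dv dv_add dv_smul norm_dv_le bv pt_self pt_eq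
  continuousOn_inner_dv abs_coord_sub_le target_mem_nhdsWithin)

variable {M : Type} [MetricSpace M] [ChartedSpace HP M] [IsManifold (𝓡∂ 2) ∞ M]
  [RiemannianBundle (fun x : M => TangentSpace (𝓡∂ 2) x)]
  [IsContMDiffRiemannianBundle (𝓡∂ 2) ∞ E2 (fun x : M => TangentSpace (𝓡∂ 2) x)]
  [IsRiemannianManifold (𝓡∂ 2) M]

/-- the euclidean norm of a coordinate vector -/
def rlow_nE (η : E2) : ℝ := ‖η‖

/-- the norm of a coordinate vector at the centre of the chart -/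
def rlow_N (x₀ : M) (η : E2) : ℝ := ‖dv (chartAt HP x₀) (extChartAt (𝓡∂ 2) x₀ x₀) η‖

lemma rlow_N_nonneg (x₀ : M) (η : E2) : 0 ≤ rlow_N x₀ η := norm_nonneg _

lemma rlow_N_add (x₀ : M) (η ζ : E2) : rlow_N x₀ (η + ζ) ≤ rlow_N x₀ η + rlow_N x₀ ζ := by
  unfold rlow_N
  rw [dv_add]
  exact norm_add_le _ _

lemma rlow_N_le (x₀ : M) : ∃ C : ℝ, 0 ≤ C ∧ ∀ η, rlow_N x₀ η ≤ C * ‖η‖ := by
  refine ⟨‖dv (chartAt HP x₀) (extChartAt (𝓡∂ 2) x₀ x₀) (bv 0)‖ +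
    ‖dv (chartAt HP x₀) (extChartAt (𝓡∂ 2) x₀ x₀) (bv 1)‖, by positivity, fun η => ?_⟩
  rw [mul_comm]
  exact norm_dv_le _ η

lemma rlow_expand (e : OpenPartialHomeomorph M HP) (z η : E2) :
    ‖dv e z η‖ ^ 2 = η 0 ^ 2 * inner ℝ (dv e z (bv 0)) (dv e z (bv 0)) +
      2 * (η 0 * η 1) * inner ℝ (dv e z (bv 0)) (dv e z (bv 1)) +
      η 1 ^ 2 * inner ℝ (dv e z (bv 1)) (dv e z (bv 1)) := by
  have e1 : η = η 0 • bv 0 + η 1 • bv 1 := by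
    conv_lhs => rw [← pt_self η]
    rw [pt_eq]
  have h1 : dv e z η = η 0 • dv e z (bv 0) + η 1 • dv e z (bv 1) := by
    conv_lhs => rw [e1]
    rw [dv_add, dv_smul, dv_smul]
  rw [h1, ← real_inner_self_eq_norm_sq]
  simp only [inner_add_left, inner_add_right, real_inner_smul_left, real_inner_smul_right]
  rw [real_inner_comm (dv e z (bv 0)) (dv e z (bv 1))]
  ring

lemma rlow_left_inv (x₀ : M) {z : E2} (hz : z ∈ (extChartAt (𝓡∂ 2) x₀).target)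
    (ξ : TangentSpace (𝓡∂ 2) ((extChartAt (𝓡∂ 2) x₀).symm z)) :
    dv (chartAt HP x₀) z
      (mfderiv (𝓡∂ 2) 𝓘(ℝ, E2) (extChartAt (𝓡∂ 2) x₀) ((extChartAt (𝓡∂ 2) x₀).symm z) ξ) = ξ := by
  have : IsManifold (𝓡∂ 2) 1 M := IsManifold.of_le (n := ∞) (by simp)
  have h := mfderivWithin_extChartAt_symm_comp_mfderiv_extChartAt (I := 𝓡∂ 2) (x := x₀) hz
  exact congrArg (fun L => L ξ) h

lemma rlow_close (x₀ : M) {δ : ℝ} (hδ : 0 < δ) :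
    ∀ᶠ z in 𝓝[(extChartAt (𝓡∂ 2) x₀).target] (extChartAt (𝓡∂ 2) x₀ x₀), ∀ η : E2,
      rlow_N x₀ η ≤ ‖dv (chartAt HP x₀) z η‖ + δ * rlow_nE η := by
  have he : chartAt HP x₀ ∈ IsManifold.maximalAtlas (𝓡∂ 2) ∞ M :=
    IsManifold.chart_mem_maximalAtlas x₀
  set e := chartAt HP x₀ with hee
  set z₀ : E2 := extChartAt (𝓡∂ 2) x₀ x₀ with hz₀
  have hz₀t : z₀ ∈ (e.extend (𝓡∂ 2)).target := mem_extChartAt_target x₀
  have hc : ∀ a b : E2, ∀ᶠ z in 𝓝[(extChartAt (𝓡∂ 2) x₀).target] z₀,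
      |inner ℝ (dv e z a) (dv e z b) - inner ℝ (dv e z₀ a) (dv e z₀ b)| < δ ^ 2 / 4 := by
    intro a b
    have h1 := continuousOn_inner_dv he a b z₀ hz₀t
    have h2 := Metric.continuousWithinAt_iff'.1 h1 (δ ^ 2 / 4) (by positivity)
    filter_upwards [h2] with z hz
    rwa [Real.dist_eq] at hz
  filter_upwards [hc (bv 0) (bv 0), hc (bv 0) (bv 1), hc (bv 1) (bv 1)] with z h1 h2 h3 η
  have hre : |η 0| ≤ ‖η‖ := by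
    have := abs_coord_sub_le η 0 0
    simpa using this
  have him : |η 1| ≤ ‖η‖ := by
    have := abs_coord_sub_le η 0 1
    simpa using this
  have b1 : η 0 ^ 2 ≤ ‖η‖ ^ 2 := by rw [← sq_abs (η 0)]; gcongr
  have b2 : η 1 ^ 2 ≤ ‖η‖ ^ 2 := by rw [← sq_abs (η 1)]; gcongr
  have b3 : |η 0 * η 1| ≤ ‖η‖ ^ 2 := by
    rw [abs_mul, sq]
    exact mul_le_mul hre him (abs_nonneg _) (norm_nonneg _)
  have key : ‖dv e z₀ η‖ ^ 2 ≤ ‖dv e z η‖ ^ 2 + (δ * ‖η‖) ^ 2 := by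
    rw [rlow_expand e z, rlow_expand e z₀]
    have c1 : |η 0 ^ 2 * (inner ℝ (dv e z (bv 0)) (dv e z (bv 0)) -
        inner ℝ (dv e z₀ (bv 0)) (dv e z₀ (bv 0)))| ≤ ‖η‖ ^ 2 * (δ ^ 2 / 4) := by
      rw [abs_mul, abs_of_nonneg (sq_nonneg _)]
      exact mul_le_mul b1 h1.le (abs_nonneg _) (by positivity)
    have c3 : |η 1 ^ 2 * (inner ℝ (dv e z (bv 1)) (dv e z (bv 1)) -
        inner ℝ (dv e z₀ (bv 1)) (dv e z₀ (bv 1)))| ≤ ‖η‖ ^ 2 * (δ ^ 2 / 4) := by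
      rw [abs_mul, abs_of_nonneg (sq_nonneg _)]
      exact mul_le_mul b2 h3.le (abs_nonneg _) (by positivity)
    have c2 : |2 * (η 0 * η 1) * (inner ℝ (dv e z (bv 0)) (dv e z (bv 1)) -
        inner ℝ (dv e z₀ (bv 0)) (dv e z₀ (bv 1)))| ≤ 2 * ‖η‖ ^ 2 * (δ ^ 2 / 4) := by
      rw [abs_mul, abs_mul, abs_of_pos (by norm_num : (0:ℝ) < 2)]
      exact mul_le_mul (by linarith) h2.le (abs_nonneg _) (by positivity)
    have d1 := (abs_le.1 c1).1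
    have d2 := (abs_le.1 c2).1
    have d3 := (abs_le.1 c3).1
    have e1 : (δ * ‖η‖) ^ 2 = ‖η‖ ^ 2 * (δ ^ 2 / 4) + 2 * ‖η‖ ^ 2 * (δ ^ 2 / 4) +
      ‖η‖ ^ 2 * (δ ^ 2 / 4) := by ring
    rw [e1]
    linarith
  have h4 := rup_le_add (by positivity) (by positivity) key
  rw [Real.sqrt_sq (norm_nonneg _), Real.sqrt_sq (norm_nonneg _)] at h4
  exact h4

/-- the derivative of the chart is locally bounded -/
lemma rlow_chart_bound (x₀ : M) : ∃ C : ℝ, 0 < C ∧ ∀ᶠ y in 𝓝 x₀, ∀ ξ : TangentSpace (𝓡∂ 2) y,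
    rlow_nE (mfderiv (𝓡∂ 2) 𝓘(ℝ, E2) (extChartAt (𝓡∂ 2) x₀) y ξ) ≤ C * ‖ξ‖ := by
  have : IsManifold (𝓡∂ 2) 1 M := IsManifold.of_le (n := ∞) (by simp)
  have := contRiem (M := M)
  obtain ⟨C, hC, hev⟩ := eventually_norm_mfderiv_extChartAt_lt (𝓡∂ 2) x₀
  refine ⟨C, hC, ?_⟩
  filter_upwards [hev] with y hy ξ
  let _ := normedAddCommGroupTangentSpaceVectorSpace (E := E2) (extChartAt (𝓡∂ 2) x₀ y)
  let _ := normedSpaceTangentSpaceVectorSpace (E := E2) (extChartAt (𝓡∂ 2) x₀ y)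
  exact ContinuousLinearMap.le_of_opNorm_le _ hy.le ξ

/-- the pointwise comparison of the metric near `x₀` with the metric at `x₀` -/
lemma rlow_point (x₀ : M) {ε : ℝ} (hε : 0 < ε) : ∀ᶠ y in 𝓝 x₀, ∀ ξ : TangentSpace (𝓡∂ 2) y,
    rlow_N x₀ (mfderiv (𝓡∂ 2) 𝓘(ℝ, E2) (extChartAt (𝓡∂ 2) x₀) y ξ) ≤ (1 + ε) * ‖ξ‖ := by
  obtain ⟨C, hC, hev⟩ := rlow_chart_bound x₀
  have h1 := rlow_close x₀ (div_pos hε hC)
  have h2 : Tendsto (extChartAt (𝓡∂ 2) x₀) (𝓝 x₀)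
      (𝓝[(extChartAt (𝓡∂ 2) x₀).target] (extChartAt (𝓡∂ 2) x₀ x₀)) := by
    refine tendsto_nhdsWithin_iff.2 ⟨continuousAt_extChartAt x₀, ?_⟩
    filter_upwards [extChartAt_source_mem_nhds (I := 𝓡∂ 2) x₀] with y hy
    exact (extChartAt (𝓡∂ 2) x₀).map_source hy
  filter_upwards [hev, h2.eventually h1, extChartAt_source_mem_nhds (I := 𝓡∂ 2) x₀] with y h3 h4 h5 ξ
  obtain ⟨z, hz, rfl⟩ : ∃ z ∈ (extChartAt (𝓡∂ 2) x₀).target, (extChartAt (𝓡∂ 2) x₀).symm z = y :=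
    ⟨extChartAt (𝓡∂ 2) x₀ y, (extChartAt (𝓡∂ 2) x₀).map_source h5,
      (extChartAt (𝓡∂ 2) x₀).left_inv h5⟩
  rw [(extChartAt (𝓡∂ 2) x₀).right_inv hz] at h4
  obtain ⟨η, hη⟩ : ∃ η : E2, η = mfderiv (𝓡∂ 2) 𝓘(ℝ, E2) (extChartAt (𝓡∂ 2) x₀)
    ((extChartAt (𝓡∂ 2) x₀).symm z) ξ := ⟨_, rfl⟩
  obtain ⟨n, hn⟩ : ∃ n : ℝ, n = ‖ξ‖ := ⟨_, rfl⟩
  have h6 : rlow_N x₀ η ≤ n + ε / C * rlow_nE η := by
    have h := h4 η
    have h' : ‖dv (chartAt HP x₀) z η‖ = n := by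
      rw [hη, hn, rlow_left_inv x₀ hz]
      rfl
    rwa [h'] at h
  have h7 : rlow_nE η ≤ C * n := by
    rw [hη, hn]
    exact h3 ξ
  have h8 : ε / C * rlow_nE η ≤ ε / C * (C * n) :=
    mul_le_mul_of_nonneg_left h7 (by positivity)
  have h9 : ε / C * (C * n) = ε * n := by field_simp
  rw [h9] at h8
  have h10 : rlow_N x₀ η ≤ (1 + ε) * n := by linarith
  rw [hη, hn] at h10
  exact h10

/-- the linear form `η ↦ ⟨dv w, dv η⟩` at the centre of the chart -/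
def rlow_form (x₀ : M) (w : E2) : E2 →L[ℝ] ℝ :=
  LinearMap.toContinuousLinearMap
    { toFun := fun η => inner ℝ (dv (chartAt HP x₀) (extChartAt (𝓡∂ 2) x₀ x₀) w)
        (dv (chartAt HP x₀) (extChartAt (𝓡∂ 2) x₀ x₀) η)
      map_add' := fun η ζ => by rw [dv_add, inner_add_right]
      map_smul' := fun c η => by rw [dv_smul, real_inner_smul_right]; rfl }

lemma rlow_form_self (x₀ : M) (w : E2) : rlow_form x₀ w w = rlow_N x₀ w ^ 2 := by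
  show inner ℝ (dv (chartAt HP x₀) (extChartAt (𝓡∂ 2) x₀ x₀) w)
        (dv (chartAt HP x₀) (extChartAt (𝓡∂ 2) x₀ x₀) w) = _
  rw [real_inner_self_eq_norm_sq]
  rfl

lemma rlow_form_le (x₀ : M) (w η : E2) : |rlow_form x₀ w η| ≤ rlow_N x₀ w * rlow_N x₀ η := by
  show |inner ℝ (dv (chartAt HP x₀) (extChartAt (𝓡∂ 2) x₀ x₀) w)
        (dv (chartAt HP x₀) (extChartAt (𝓡∂ 2) x₀ x₀) η)| ≤
    ‖dv (chartAt HP x₀) (extChartAt (𝓡∂ 2) x₀ x₀) w‖ *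
      ‖dv (chartAt HP x₀) (extChartAt (𝓡∂ 2) x₀ x₀) η‖
  exact abs_real_inner_le_norm _ _

/-- a short path in the controlled set does not move far in the chart -/
lemma rlow_path (x₀ : M) {s : Set M} {ε : ℝ} (hε : 0 < ε)
    (hs : ∀ y ∈ s, y ∈ (chartAt HP x₀).source ∧ ∀ ξ : TangentSpace (𝓡∂ 2) y,
      rlow_N x₀ (mfderiv (𝓡∂ 2) 𝓘(ℝ, E2) (extChartAt (𝓡∂ 2) x₀) y ξ) ≤ (1 + ε) * ‖ξ‖)
    {γ : ℝ → M} (hγ : ContMDiffOn 𝓘(ℝ, ℝ) (𝓡∂ 2) 1 γ (Icc 0 1)) (hmem : ∀ t ∈ Icc (0:ℝ) 1, γ t ∈ s) :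
    ENNReal.ofReal (rlow_N x₀ (extChartAt (𝓡∂ 2) x₀ (γ 1) - extChartAt (𝓡∂ 2) x₀ (γ 0))) ≤
      ENNReal.ofReal (1 + ε) * pathELength (𝓡∂ 2) γ 0 1 := by
  have : IsManifold (𝓡∂ 2) 1 M := IsManifold.of_le (n := ∞) (by simp)
  set φ := extChartAt (𝓡∂ 2) x₀ with hφ
  set w : E2 := φ (γ 1) - φ (γ 0) with hw
  have hC : ContMDiffOn 𝓘(ℝ, ℝ) 𝓘(ℝ, E2) 1 (φ ∘ γ) (Icc 0 1) :=
    contMDiffOn_extChartAt.comp (I' := 𝓡∂ 2) (t := (chartAt HP x₀).source)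
      hγ (fun t' ht' ↦ (hs _ (hmem t' ht')).1)
  have hC' : ContDiffOn ℝ 1 (φ ∘ γ) (Icc 0 1) := contMDiffOn_iff_contDiffOn.1 hC
  set f : ℝ → ℝ := fun t => rlow_form x₀ w ((φ ∘ γ) t) with hf
  have hfC : ContDiffOn ℝ 1 f (Icc 0 1) := (rlow_form x₀ w).contDiff.comp_contDiffOn hC'
  have h1 : ‖f 1 - f 0‖ₑ ≤ ∫⁻ t in Icc (0:ℝ) 1, ‖derivWithin f (Icc 0 1) t‖ₑ :=
    enorm_sub_le_lintegral_derivWithin_Icc_of_contDiffOn_Icc hfC zero_le_one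
  have h2 : f 1 - f 0 = rlow_N x₀ w ^ 2 := by
    rw [← rlow_form_self, hf]
    simp only
    rw [← map_sub]
    rfl
  have h3 : ∀ t ∈ Icc (0:ℝ) 1, ‖derivWithin f (Icc 0 1) t‖ₑ ≤
      ENNReal.ofReal (rlow_N x₀ w * (1 + ε)) * ‖mfderivWithin 𝓘(ℝ, ℝ) (𝓡∂ 2) γ (Icc 0 1) t 1‖ₑ := by
    intro t ht
    have hud : UniqueDiffWithinAt ℝ (Icc (0:ℝ) 1) t := uniqueDiffOn_Icc zero_lt_one t ht
    have hd : HasDerivWithinAt (φ ∘ γ) (derivWithin (φ ∘ γ) (Icc 0 1) t) (Icc 0 1) t :=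
      ((hC'.differentiableOn one_ne_zero) t ht).hasDerivWithinAt
    have h4 : derivWithin f (Icc 0 1) t = rlow_form x₀ w (derivWithin (φ ∘ γ) (Icc 0 1) t) :=
      ((rlow_form x₀ w).hasFDerivAt.comp_hasDerivWithinAt t hd).derivWithin hud
    have h5 : (derivWithin (φ ∘ γ) (Icc 0 1) t : E2) =
        mfderiv (𝓡∂ 2) 𝓘(ℝ, E2) φ (γ t) (mfderivWithin 𝓘(ℝ, ℝ) (𝓡∂ 2) γ (Icc 0 1) t 1) := by
      have h6 : mfderivWithin 𝓘(ℝ, ℝ) 𝓘(ℝ, E2) (φ ∘ γ) (Icc 0 1) t =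
          (mfderiv (𝓡∂ 2) 𝓘(ℝ, E2) φ (γ t)) ∘L
            (mfderivWithin 𝓘(ℝ, ℝ) (𝓡∂ 2) γ (Icc 0 1) t) := by
        apply mfderiv_comp_mfderivWithin
        · exact mdifferentiableAt_extChartAt (hs _ (hmem t ht)).1
        · exact (hγ.mdifferentiableOn one_ne_zero) t ht
        · rw [uniqueMDiffWithinAt_iff_uniqueDiffWithinAt]
          exact hud
      rw [← fderivWithin_derivWithin, ← mfderivWithin_eq_fderivWithin, h6]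
      rfl
    have h7 := (hs _ (hmem t ht)).2 (mfderivWithin 𝓘(ℝ, ℝ) (𝓡∂ 2) γ (Icc 0 1) t 1)
    rw [h4, h5, ← ofReal_norm, ← ofReal_norm, ← ENNReal.ofReal_mul
      (mul_nonneg (rlow_N_nonneg _ _) (by linarith))]
    refine ENNReal.ofReal_le_ofReal ?_
    rw [Real.norm_eq_abs]
    refine (rlow_form_le x₀ w _).trans ?_
    rw [mul_assoc]
    exact mul_le_mul_of_nonneg_left h7 (rlow_N_nonneg _ _)
  have h4 : ENNReal.ofReal (rlow_N x₀ w ^ 2) ≤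
      ENNReal.ofReal (rlow_N x₀ w * (1 + ε)) * pathELength (𝓡∂ 2) γ 0 1 := by
    calc ENNReal.ofReal (rlow_N x₀ w ^ 2) = ‖f 1 - f 0‖ₑ := by
          rw [h2, ← ofReal_norm, Real.norm_eq_abs, abs_of_nonneg (sq_nonneg _)]
      _ ≤ _ := h1
      _ ≤ ∫⁻ t in Icc (0:ℝ) 1, ENNReal.ofReal (rlow_N x₀ w * (1 + ε)) *
            ‖mfderivWithin 𝓘(ℝ, ℝ) (𝓡∂ 2) γ (Icc 0 1) t 1‖ₑ :=
          setLIntegral_mono' measurableSet_Icc h3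
      _ = _ := by
          rw [lintegral_const_mul' _ _ ENNReal.ofReal_ne_top,
            pathELength_eq_lintegral_mfderivWithin_Icc]
  by_cases h0 : rlow_N x₀ w = 0
  · rw [h0]
    simp
  · have hpos : 0 < rlow_N x₀ w := lt_of_le_of_ne (rlow_N_nonneg _ _) (Ne.symm h0)
    rw [sq, ENNReal.ofReal_mul (rlow_N_nonneg _ _), ENNReal.ofReal_mul (rlow_N_nonneg _ _),
      mul_assoc] at h4
    exact (ENNReal.mul_le_mul_iff_right (by simpa using hpos) ENNReal.ofReal_ne_top).1 h4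

/-- lower bound of the distance in the chart -/
lemma rlow_dist (x₀ : M) {ε : ℝ} (hε : 0 < ε) : ∀ᶠ y in 𝓝 x₀,
    rlow_N x₀ (extChartAt (𝓡∂ 2) x₀ y - extChartAt (𝓡∂ 2) x₀ x₀) ≤ (1 + ε) * dist x₀ y := by
  have h1 : ∀ᶠ y in 𝓝 x₀, y ∈ (chartAt HP x₀).source ∧ ∀ ξ : TangentSpace (𝓡∂ 2) y,
      rlow_N x₀ (mfderiv (𝓡∂ 2) 𝓘(ℝ, E2) (extChartAt (𝓡∂ 2) x₀) y ξ) ≤ (1 + ε) * ‖ξ‖ := by
    filter_upwards [chart_source_mem_nhds HP x₀, rlow_point x₀ hε] with y h2 h3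
    exact ⟨h2, h3⟩
  obtain ⟨c, hc, hball⟩ := Metric.eventually_nhds_iff_ball.1 h1
  filter_upwards [Metric.ball_mem_nhds x₀ hc] with y hy
  by_contra hcon
  push Not at hcon
  have hε1 : 0 < 1 + ε := by linarith
  have hlt : dist x₀ y < min c (rlow_N x₀ (extChartAt (𝓡∂ 2) x₀ y -
      extChartAt (𝓡∂ 2) x₀ x₀) / (1 + ε)) := by
    refine lt_min (by rw [dist_comm]; exact hy) ?_
    rw [lt_div_iff₀ hε1, mul_comm]
    exact hcon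
  obtain ⟨r, hr1, hr2⟩ := exists_between hlt
  have hrc : r < c := hr2.trans_le (min_le_left _ _)
  have hrN : r < rlow_N x₀ (extChartAt (𝓡∂ 2) x₀ y - extChartAt (𝓡∂ 2) x₀ x₀) / (1 + ε) :=
    hr2.trans_le (min_le_right _ _)
  have hr0 : 0 < r := lt_of_le_of_lt dist_nonneg hr1
  have h2 : riemannianEDist (𝓡∂ 2) x₀ y < ENNReal.ofReal r := by
    rw [← IsRiemannianManifold.out (I := 𝓡∂ 2), edist_dist]
    exact (ENNReal.ofReal_lt_ofReal_iff hr0).2 hr1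
  obtain ⟨γ, hγ0, hγ1, hγs, hγl⟩ := exists_lt_of_riemannianEDist_lt h2
  have hmem : ∀ t ∈ Icc (0:ℝ) 1, γ t ∈ Metric.ball x₀ c := by
    intro t ht
    have h3 : riemannianEDist (𝓡∂ 2) x₀ (γ t) ≤ pathELength (𝓡∂ 2) γ 0 t :=
      riemannianEDist_le_pathELength (hγs.mono (Icc_subset_Icc_right ht.2)) hγ0 rfl ht.1
    have h4 : pathELength (𝓡∂ 2) γ 0 t ≤ pathELength (𝓡∂ 2) γ 0 1 :=
      pathELength_mono le_rfl ht.2
    have h5 : edist x₀ (γ t) < ENNReal.ofReal r := by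
      rw [IsRiemannianManifold.out (I := 𝓡∂ 2)]
      exact (h3.trans h4).trans_lt hγl
    rw [edist_dist, ENNReal.ofReal_lt_ofReal_iff hr0] at h5
    rw [Metric.mem_ball, dist_comm]
    exact h5.trans hrc
  have h6 := rlow_path x₀ hε (fun y hy => hball y hy) hγs hmem
  rw [hγ0, hγ1] at h6
  have h7 : ENNReal.ofReal (rlow_N x₀ (extChartAt (𝓡∂ 2) x₀ y - extChartAt (𝓡∂ 2) x₀ x₀)) ≤
      ENNReal.ofReal ((1 + ε) * r) := by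
    rw [ENNReal.ofReal_mul hε1.le]
    exact h6.trans (by gcongr)
  have h8 := (ENNReal.ofReal_le_ofReal_iff (by positivity)).1 h7
  rw [lt_div_iff₀ hε1] at hrN
  linarith

lemma rlow_main {Ψ : ℂ → M} {U : Set ℂ} (hU : IsOpen U)
    (hΨ : ContMDiffOn 𝓘(ℝ, ℂ) (𝓡∂ 2) ∞ Ψ U) {p : ℂ} (hp : p ∈ U) {ε : ℝ} (hε : 0 < ε) :
    ∀ᶠ q : ℂ in 𝓝 p, √(rup_ip Ψ p (q - p) (q - p)) ≤ dist (Ψ p) (Ψ q) + ε * ‖q - p‖ := by
  have : IsManifold (𝓡∂ 2) 1 M := IsManifold.of_le (n := ∞) (by simp)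
  obtain ⟨x₀, hx₀⟩ : ∃ x₀, x₀ = Ψ p := ⟨_, rfl⟩
  set φ := extChartAt (𝓡∂ 2) x₀ with hφ
  obtain ⟨C, hC0, hC⟩ := rlow_N_le x₀
  have hΨd : MDifferentiableAt 𝓘(ℝ, ℂ) (𝓡∂ 2) Ψ p :=
    (hΨ.contMDiffAt (hU.mem_nhds hp)).mdifferentiableAt (by simp)
  have hφd : MDifferentiableAt (𝓡∂ 2) 𝓘(ℝ, E2) φ (Ψ p) := by
    rw [← hx₀]
    exact mdifferentiableAt_extChartAt (mem_chart_source HP x₀)
  have hcomp : MDifferentiableAt 𝓘(ℝ, ℂ) 𝓘(ℝ, E2) (φ ∘ Ψ) p := hφd.comp p hΨd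
  have hfd : DifferentiableAt ℝ (φ ∘ Ψ) p := mdifferentiableAt_iff_differentiableAt.1 hcomp
  set D : ℂ →L[ℝ] E2 := fderiv ℝ (φ ∘ Ψ) p with hD
  -- the norm of the derivative
  have hN : ∀ v : ℂ, rlow_N x₀ (D v) = √(rup_ip Ψ p v v) := by
    intro v
    rw [rup_sqrt]
    have h1 : (D v : E2) = mfderiv (𝓡∂ 2) 𝓘(ℝ, E2) φ (Ψ p) (mfderiv 𝓘(ℝ, ℂ) (𝓡∂ 2) Ψ p v) := by
      rw [hD, ← mfderiv_eq_fderiv, mfderiv_comp p hφd hΨd]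
      rfl
    rw [h1]
    generalize mfderiv 𝓘(ℝ, ℂ) (𝓡∂ 2) Ψ p v = ξ
    have hz : φ x₀ ∈ φ.target := mem_extChartAt_target x₀
    have hb : φ.symm (φ x₀) = Ψ p := by rw [← hx₀]; exact extChartAt_to_inv x₀
    revert ξ
    rw [← hb]
    intro ξ
    show ‖dv (chartAt HP x₀) (φ x₀) (mfderiv (𝓡∂ 2) 𝓘(ℝ, E2) φ (φ.symm (φ x₀)) ξ)‖ = ‖ξ‖
    rw [rlow_left_inv x₀ hz]
    rfl
  obtain ⟨K, hK0, hK⟩ : ∃ K : ℝ, 0 ≤ K ∧ ∀ v : ℂ, √(rup_ip Ψ p v v) ≤ K * ‖v‖ := by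
    refine ⟨C * ‖D‖, by positivity, fun v => ?_⟩
    rw [← hN, mul_assoc]
    exact (hC _).trans (mul_le_mul_of_nonneg_left (D.le_opNorm v) hC0)
  -- choice of the small parameters
  set ε₁ : ℝ := ε / (2 * (K + 2)) with hε₁
  have hε₁0 : 0 < ε₁ := by positivity
  set δ : ℝ := ε / (2 * (C + 1)) with hδ
  have hδ0 : 0 < δ := by positivity
  have hcont : Tendsto Ψ (𝓝 p) (𝓝 x₀) := by
    rw [hx₀]
    exact hΨd.continuousAt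
  have e1 := hcont.eventually (rlow_dist x₀ hε₁0)
  have e2 : ∀ᶠ q in 𝓝 p, ‖(φ ∘ Ψ) q - (φ ∘ Ψ) p - D (q - p)‖ ≤ δ * ‖q - p‖ :=
    hfd.hasFDerivAt.isLittleO.def hδ0
  have e3 : ∀ᶠ q in 𝓝 p, dist (Ψ p) (Ψ q) ≤ (K + 1) * ‖q - p‖ := by
    have h1 := rup_main hU hΨ hp (ε := 1) one_pos
    have h2 : Tendsto (fun q : ℂ => (q, p)) (𝓝 p) (𝓝 (p, p)) := by
      have : Continuous fun q : ℂ => (q, p) := by fun_prop
      exact this.tendsto p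
    filter_upwards [h2.eventually h1] with q hq
    rw [dist_comm]
    have h3 := hK (q - p)
    refine hq.trans ?_
    show √(rup_ip Ψ p (q - p) (q - p)) + 1 * ‖q - p‖ ≤ _
    linarith
  filter_upwards [e1, e2, e3] with q h1 h2 h3
  have hx : φ x₀ = (φ ∘ Ψ) p := by rw [hx₀]; rfl
  have h4 : rlow_N x₀ ((φ ∘ Ψ) q - (φ ∘ Ψ) p) ≤ (1 + ε₁) * dist (Ψ p) (Ψ q) := by
    rw [← hx, ← hx₀]
    exact h1
  have h5 : D (q - p) = ((φ ∘ Ψ) q - (φ ∘ Ψ) p) +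
      (-((φ ∘ Ψ) q - (φ ∘ Ψ) p - D (q - p))) := by abel
  have h6 : rlow_N x₀ (D (q - p)) ≤ rlow_N x₀ ((φ ∘ Ψ) q - (φ ∘ Ψ) p) +
      rlow_N x₀ (-((φ ∘ Ψ) q - (φ ∘ Ψ) p - D (q - p))) := by
    conv_lhs => rw [h5]
    exact rlow_N_add _ _ _
  have h7 : rlow_N x₀ (-((φ ∘ Ψ) q - (φ ∘ Ψ) p - D (q - p))) ≤ C * (δ * ‖q - p‖) := by
    refine (hC _).trans (mul_le_mul_of_nonneg_left ?_ hC0)
    rw [norm_neg]
    exact h2
  rw [← hN]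
  have hq0 := norm_nonneg (q - p)
  have h8 : ε₁ * dist (Ψ p) (Ψ q) ≤ ε / 2 * ‖q - p‖ := by
    have h9 : ε₁ * dist (Ψ p) (Ψ q) ≤ ε₁ * ((K + 1) * ‖q - p‖) :=
      mul_le_mul_of_nonneg_left h3 hε₁0.le
    have h10 : ε₁ * (K + 2) = ε / 2 := by rw [hε₁]; field_simp
    nlinarith [mul_nonneg hε₁0.le hq0]
  have h9 : C * (δ * ‖q - p‖) ≤ ε / 2 * ‖q - p‖ := by
    have h10 : δ * (C + 1) = ε / 2 := by rw [hδ]; field_simp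
    nlinarith [mul_nonneg hδ0.le hq0]
  linarith

end rlow

variable {M : Type} [MetricSpace M] [ChartedSpace (EuclideanHalfSpace 2) M]
  [R : RiemannianSpace (𝓡∂ 2) M]

theorem riem_low {Ψ : ℂ → M} {U : Set ℂ} (hU : IsOpen U)
    (hΨ : ContMDiffOn 𝓘(ℝ, ℂ) (𝓡∂ 2) ∞ Ψ U) {p : ℂ} (hp : p ∈ U) {ε : ℝ} (hε : 0 < ε) :
    ∀ᶠ q : ℂ in 𝓝 p, √(ip Ψ p (q - p) (q - p)) ≤ dist (Ψ p) (Ψ q) + ε * ‖q - p‖ := by
  have := R.smooth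
  let _ := R.metric
  have := R.smoothMetric
  have := R.dist_eq
  exact rlow_main hU hΨ hp hε

end Pool.Agent.MIR
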