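import Mathlib
import Pool.Agent.MIR.Defs
import Pool.Agent.MIR.Basic
import Pool.Agent.MIR.Defs2
import Pool.Agent.MIR.RUp
import Pool.Agent.MIR.RLow

open MeasureTheory Set Filter Topology Manifold Bundle
open scoped ENNReal NNReal ContDiff

noncomputable section

namespace Pool.Agent.MIR

open Pool.Agent.H74.Surf

variable {M : Type} [MetricSpace M] [ChartedSpace (EuclideanHalfSpace 2) M]
  [R : RiemannianSpace (𝓡∂ 2) M]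

lemma conf_nonneg (Ψ : ℂ → M) (z v : ℂ) : 0 ≤ ip Ψ z v v := by
  let _ := R.metric
  exact real_inner_self_nonneg

lemma conf_smul (Ψ : ℂ → M) (z v : ℂ) (t : ℝ) : ip Ψ z (t • v) (t • v) = t ^ 2 * ip Ψ z v v := by
  let _ := R.metric
  have h : mfderiv 𝓘(ℝ, ℂ) (𝓡∂ 2) Ψ z (t • v) = t • mfderiv 𝓘(ℝ, ℂ) (𝓡∂ 2) Ψ z v :=
    ContinuousLinearMap.map_smul (mfderiv 𝓘(ℝ, ℂ) (𝓡∂ 2) Ψ z) t v
  have h2 : inner ℝ (mfderiv 𝓘(ℝ, ℂ) (𝓡∂ 2) Ψ z (t • v)) (mfderiv 𝓘(ℝ, ℂ) (𝓡∂ 2) Ψ z (t • v)) =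
      t ^ 2 * inner ℝ (mfderiv 𝓘(ℝ, ℂ) (𝓡∂ 2) Ψ z v) (mfderiv 𝓘(ℝ, ℂ) (𝓡∂ 2) Ψ z v) := by
    rw [h, real_inner_smul_left, real_inner_smul_right]; ring
  exact h2

lemma conf_polar (Ψ : ℂ → M) (z v w : ℂ) :
    ip Ψ z v w = (ip Ψ z (v + w) (v + w) - ip Ψ z v v - ip Ψ z w w) / 2 := by
  let _ := R.metric
  have h : mfderiv 𝓘(ℝ, ℂ) (𝓡∂ 2) Ψ z (v + w) =
      mfderiv 𝓘(ℝ, ℂ) (𝓡∂ 2) Ψ z v + mfderiv 𝓘(ℝ, ℂ) (𝓡∂ 2) Ψ z w :=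
    ContinuousLinearMap.map_add (mfderiv 𝓘(ℝ, ℂ) (𝓡∂ 2) Ψ z) v w
  have h2 : inner ℝ (mfderiv 𝓘(ℝ, ℂ) (𝓡∂ 2) Ψ z v) (mfderiv 𝓘(ℝ, ℂ) (𝓡∂ 2) Ψ z w) =
      (inner ℝ (mfderiv 𝓘(ℝ, ℂ) (𝓡∂ 2) Ψ z (v + w)) (mfderiv 𝓘(ℝ, ℂ) (𝓡∂ 2) Ψ z (v + w)) -
        inner ℝ (mfderiv 𝓘(ℝ, ℂ) (𝓡∂ 2) Ψ z v) (mfderiv 𝓘(ℝ, ℂ) (𝓡∂ 2) Ψ z v) -
        inner ℝ (mfderiv 𝓘(ℝ, ℂ) (𝓡∂ 2) Ψ z w) (mfderiv 𝓘(ℝ, ℂ) (𝓡∂ 2) Ψ z w)) / 2 := by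
    rw [h, inner_add_left, inner_add_right, inner_add_right,
      real_inner_comm (mfderiv 𝓘(ℝ, ℂ) (𝓡∂ 2) Ψ z v) (mfderiv 𝓘(ℝ, ℂ) (𝓡∂ 2) Ψ z w)]
    ring
  exact h2

lemma conf_ray (p v : ℂ) : Tendsto (fun t : ℝ => p + t • v) (𝓝[>] 0) (𝓝 p) := by
  have : Tendsto (fun t : ℝ => p + t • v) (𝓝 0) (𝓝 (p + (0 : ℝ) • v)) := by
    apply Continuous.tendsto; fun_prop
  rw [zero_smul, add_zero] at this
  exact this.mono_left nhdsWithin_le_nhds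

lemma conf_lim {Ψ : ℂ → M} {U : Set ℂ} (hU : IsOpen U)
    (hΨ : ContMDiffOn 𝓘(ℝ, ℂ) (𝓡∂ 2) ∞ Ψ U) {p : ℂ} (hp : p ∈ U) (v : ℂ) :
    Tendsto (fun t : ℝ => dist (Ψ p) (Ψ (p + t • v)) / t) (𝓝[>] 0) (𝓝 (√(ip Ψ p v v))) := by
  rw [Metric.tendsto_nhds]
  intro ε hε
  have hv : 0 < ‖v‖ + 1 := by positivity
  set ε' := ε / (‖v‖ + 1) with hε'
  have hε0 : 0 < ε' := by positivity
  have h1 := riem_up hU hΨ hp hε0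
  have h2 := riem_low hU hΨ hp hε0
  have hr := conf_ray p v
  have hr2 : Tendsto (fun t : ℝ => (p, p + t • v)) (𝓝[>] 0) (𝓝 (p, p)) :=
    (tendsto_const_nhds).prodMk_nhds hr
  have h3 : ∀ᶠ t : ℝ in 𝓝[>] (0 : ℝ), 0 < t := eventually_mem_nhdsWithin
  filter_upwards [hr2.eventually h1, hr.eventually h2, h3] with t ht1 ht2 ht
  have e1 : p - (p + t • v) = (-t) • v := by simp
  have e2 : p + t • v - p = t • v := by simp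
  rw [e1, conf_smul, Real.sqrt_mul (sq_nonneg _), Real.sqrt_sq_eq_abs, abs_neg, abs_of_pos ht,
    norm_smul, Real.norm_eq_abs, abs_neg, abs_of_pos ht] at ht1
  rw [e2, conf_smul, Real.sqrt_mul (sq_nonneg _), Real.sqrt_sq_eq_abs, abs_of_pos ht,
    norm_smul, Real.norm_eq_abs, abs_of_pos ht] at ht2
  rw [Real.dist_eq]
  have h4 : ε' * ‖v‖ < ε := by
    rw [hε', div_mul_eq_mul_div, div_lt_iff₀ hv]
    nlinarith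
  have h5 : dist (Ψ p) (Ψ (p + t • v)) / t ≤ √(ip Ψ p v v) + ε' * ‖v‖ := by
    rw [div_le_iff₀ ht]; linarith
  have h6 : √(ip Ψ p v v) - ε' * ‖v‖ ≤ dist (Ψ p) (Ψ (p + t • v)) / t := by
    rw [le_div_iff₀ ht]; linarith
  rw [abs_lt]
  constructor <;> linarith

theorem conf_ip {Ψ : ℂ → M} {U : Set ℂ} (hU : IsOpen U)
    (hΨ : ContMDiffOn 𝓘(ℝ, ℂ) (𝓡∂ 2) ∞ Ψ U) (hi : InjOn Ψ U) {ρ : M → M}
    (hρ : ContMDiff (𝓡∂ 2) (𝓡∂ 2) ∞ ρ) {p : ℂ} (hp : p ∈ U)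
    (hc : ∃ u : ℝ, Tendsto (fun y => dist (ρ (Ψ p)) (ρ y) / dist (Ψ p) y) (𝓝[≠] (Ψ p)) (𝓝 u)) :
    ∃ u : ℝ, 0 ≤ u ∧ ∀ v w, ip (ρ ∘ Ψ) p v w = u ^ 2 * ip Ψ p v w := by
  let _ := R.smooth
  obtain ⟨u, hu⟩ := hc
  have hs' : ContMDiffOn 𝓘(ℝ, ℂ) (𝓡∂ 2) ∞ (ρ ∘ Ψ) U := hρ.comp_contMDiffOn hΨ
  have hcont : ContinuousAt Ψ p := hΨ.continuousOn.continuousAt (hU.mem_nhds hp)
  have h3 : ∀ᶠ t : ℝ in 𝓝[>] (0 : ℝ), 0 < t := eventually_mem_nhdsWithin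
  -- the ratio along rays
  have hray : ∀ v : ℂ, v ≠ 0 → Tendsto (fun t : ℝ => Ψ (p + t • v)) (𝓝[>] 0) (𝓝[≠] (Ψ p)) := by
    intro v hv
    refine tendsto_nhdsWithin_iff.2 ⟨hcont.tendsto.comp (conf_ray p v), ?_⟩
    filter_upwards [(conf_ray p v).eventually (hU.mem_nhds hp), h3] with t ht1 ht2 h
    have := hi ht1 hp h
    rw [add_eq_left, smul_eq_zero] at this
    rcases this with h | h
    · exact ht2.ne' h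
    · exact hv h
  have hratio : ∀ v : ℂ, v ≠ 0 → Tendsto (fun t : ℝ => dist (ρ (Ψ p)) (ρ (Ψ (p + t • v))) /
      dist (Ψ p) (Ψ (p + t • v))) (𝓝[>] 0) (𝓝 u) := fun v hv => hu.comp (hray v hv)
  have hu0 : 0 ≤ u := ge_of_tendsto (hratio 1 one_ne_zero)
    (Eventually.of_forall fun t => div_nonneg dist_nonneg dist_nonneg)
  have hn : ∀ v : ℂ, √(ip (ρ ∘ Ψ) p v v) = u * √(ip Ψ p v v) := by
    intro v
    by_cases hv : v = 0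
    · subst hv
      have e1 : ∀ Φ : ℂ → M, ip Φ p 0 0 = 0 := fun Φ => by
        have := conf_smul Φ p 0 0
        simpa using this
      rw [e1, e1]; simp
    · have l1 := conf_lim hU hs' hp v
      have l2 := (hratio v hv).mul (conf_lim hU hΨ hp v)
      refine tendsto_nhds_unique l1 (l2.congr' ?_)
      have hne : ∀ᶠ t : ℝ in 𝓝[>] (0 : ℝ), Ψ (p + t • v) ∈ ({Ψ p}ᶜ : Set M) :=
        (tendsto_nhdsWithin_iff.1 (hray v hv)).2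
      filter_upwards [hne, h3] with t ht1 ht2
      have hd : dist (Ψ p) (Ψ (p + t • v)) ≠ 0 := by
        rw [dist_ne_zero]; exact fun h => ht1 h.symm
      simp only [Function.comp]
      field_simp
  have hq : ∀ v : ℂ, ip (ρ ∘ Ψ) p v v = u ^ 2 * ip Ψ p v v := by
    intro v
    have h1 := hn v
    have h2 : (√(ip (ρ ∘ Ψ) p v v)) ^ 2 = (u * √(ip Ψ p v v)) ^ 2 := by rw [h1]
    rw [Real.sq_sqrt (conf_nonneg _ _ _), mul_pow, Real.sq_sqrt (conf_nonneg _ _ _)] at h2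
    exact h2
  refine ⟨u, hu0, fun v w => ?_⟩
  rw [conf_polar (ρ ∘ Ψ), conf_polar Ψ, hq, hq, hq]; ring

end Pool.Agent.MIR
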