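import Mathlib
import Pool.Agent.MIR.Defs
import Pool.Agent.MIR.Basic
import Pool.Agent.MIR.Defs2

open MeasureTheory Set Filter Topology Manifold Bundle
open scoped ENNReal NNReal ContDiff

noncomputable section

namespace Pool.Agent.MIR

open Pool.Agent.H74.Surf

variable {M : Type} [MetricSpace M] [ChartedSpace (EuclideanHalfSpace 2) M]
  [R : RiemannianSpace (𝓡∂ 2) M]

theorem ext_expand (Ψ : ℂ → M) (z v w : ℂ) :
    ip Ψ z v w = v.re * w.re * ip Ψ z 1 1 + (v.re * w.im + v.im * w.re) * ip Ψ z 1 Complex.I +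
      v.im * w.im * ip Ψ z Complex.I Complex.I := by
  let _ := R.metric
  set D : ℂ →L[ℝ] TangentSpace (𝓡∂ 2) (Ψ z) := mfderiv 𝓘(ℝ, ℂ) (𝓡∂ 2) Ψ z with hD
  have hip : ∀ v w : ℂ, ip Ψ z v w = inner ℝ (D v) (D w) := fun v w => rfl
  have hv : ∀ v : ℂ, D v = v.re • D 1 + v.im • D Complex.I := by
    intro v
    rw [← map_smul, ← map_smul, ← map_add]
    congr 1
    apply Complex.ext <;> simp
  rw [hip v w, hip 1 1, hip 1 Complex.I, hip Complex.I Complex.I, hv v, hv w]
  simp only [inner_add_left, inner_add_right, real_inner_smul_left, real_inner_smul_right]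
  rw [real_inner_comm (D 1) (D Complex.I)]
  ring

theorem ext_nonneg (Ψ : ℂ → M) (z v : ℂ) : 0 ≤ ip Ψ z v v := by
  let _ := R.metric
  set D : ℂ →L[ℝ] TangentSpace (𝓡∂ 2) (Ψ z) := mfderiv 𝓘(ℝ, ℂ) (𝓡∂ 2) Ψ z with hD
  have hip : ∀ v w : ℂ, ip Ψ z v w = inner ℝ (D v) (D w) := fun v w => rfl
  rw [hip]
  exact real_inner_self_nonneg

theorem exists_T (Ψ : ℂ → M) (z : ℂ) : ∃ T : ℂ →L[ℝ] ℂ,
    (∀ v, ‖T v‖ = √(ip Ψ z v v)) ∧ |cp (T 1) (T Complex.I)| = √(gd Ψ z) := by
  set E := ip Ψ z 1 1 with hE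
  set F := ip Ψ z 1 Complex.I with hF
  set G := ip Ψ z Complex.I Complex.I with hG
  have hq : ∀ x y : ℝ, 0 ≤ x * x * E + (x * y + y * x) * F + y * y * G := by
    intro x y
    have h := ext_nonneg Ψ z (⟨x, y⟩ : ℂ)
    rwa [ext_expand] at h
  have hE0 : 0 ≤ E := by have := hq 1 0; simpa using this
  have hG0 : 0 ≤ G := by have := hq 0 1; simpa using this
  have key : ∃ a b c : ℝ, a ^ 2 = E ∧ a * b = F ∧ b ^ 2 + c ^ 2 = G := by
    rcases hE0.eq_or_lt with h0 | h0
    · have hF0 : F = 0 := by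
        have h1 := hq (-(G + 1)) F
        rw [← h0] at h1
        have h2 : 0 ≤ -(F ^ 2 * (G + 2)) := by nlinarith
        have h3 : 0 ≤ F ^ 2 * (G + 2) := by positivity
        have h4 : F ^ 2 * (G + 2) = 0 := by linarith
        have h5 : G + 2 ≠ 0 := by positivity
        rcases mul_eq_zero.1 h4 with h6 | h6
        · exact pow_eq_zero_iff (two_ne_zero) |>.1 h6
        · exact absurd h6 h5
      refine ⟨0, √G, 0, ?_, ?_, ?_⟩
      · rw [← h0]; ring
      · rw [hF0]; ring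
      · rw [Real.sq_sqrt hG0]; ring
    · have hdet : 0 ≤ G - F ^ 2 / E := by
        have h1 := hq F (-E)
        have h2 : F * F * E + (F * -E + -E * F) * F + -E * -E * G = E * (E * G - F ^ 2) := by ring
        rw [h2] at h1
        have h3 : 0 ≤ E * G - F ^ 2 := by
          by_contra hcon
          push Not at hcon
          have := mul_neg_of_pos_of_neg h0 hcon
          linarith
        have h4 : G - F ^ 2 / E = (E * G - F ^ 2) / E := by field_simp
        rw [h4]
        positivity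
      have hs : √E ≠ 0 := (Real.sqrt_pos.2 h0).ne'
      refine ⟨√E, F / √E, √(G - F ^ 2 / E), Real.sq_sqrt hE0, ?_, ?_⟩
      · field_simp
      · rw [Real.sq_sqrt hdet, div_pow, Real.sq_sqrt hE0]; ring
  obtain ⟨a, b, c, h1, h2, h3⟩ := key
  set T : ℂ →L[ℝ] ℂ := Complex.reCLM.smulRight (a : ℂ) +
    Complex.imCLM.smulRight ((b : ℂ) + c * Complex.I) with hT
  have hTv : ∀ v : ℂ, T v = ((v.re * a + v.im * b : ℝ) : ℂ) + ((v.im * c : ℝ) : ℂ) * Complex.I := by
    intro v
    simp only [hT, ContinuousLinearMap.add_apply, ContinuousLinearMap.smulRight_apply,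
      Complex.reCLM_apply, Complex.imCLM_apply, Complex.real_smul]
    push_cast
    ring
  have hre : ∀ v : ℂ, (T v).re = v.re * a + v.im * b := by intro v; rw [hTv]; simp
  have him : ∀ v : ℂ, (T v).im = v.im * c := by intro v; rw [hTv]; simp
  refine ⟨T, fun v => ?_, ?_⟩
  · rw [Complex.norm_eq_sqrt_sq_add_sq, hre, him]
    congr 1
    rw [ext_expand Ψ z v v, ← hE, ← hF, ← hG, ← h1, ← h2, ← h3]
    ring
  · unfold cp gd
    rw [hre, him, hre, him, ← hE, ← hF, ← hG, ← h1, ← h2, ← h3]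
    simp only [Complex.one_re, Complex.one_im, Complex.I_re, Complex.I_im]
    rw [← Real.sqrt_sq_eq_abs]
    congr 1
    ring

theorem ip_smul (Ψ : ℂ → M) (z v : ℂ) (t : ℝ) : ip Ψ z (t • v) (t • v) = t ^ 2 * ip Ψ z v v := by
  rw [ext_expand Ψ z (t • v) (t • v), ext_expand Ψ z v v]
  simp only [Complex.real_smul, Complex.mul_re, Complex.mul_im, Complex.ofReal_re, Complex.ofReal_im,
    zero_mul, sub_zero, add_zero]
  ring

end Pool.Agent.MIR
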