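import Mathlib
import Pool.Agent.MIR.Defs
import Pool.Agent.MIR.Basic

open MeasureTheory Set Filter Topology Manifold Bundle
open scoped ENNReal NNReal ContDiff

noncomputable section

namespace Pool.Agent.MIR

variable {k : ℕ} {c : Fin k → ℂ} {r : Fin k → ℝ} {d : ℂ → ℂ → ℝ} {N : ℂ → ℂ → Prop}

/-- The function `f ∘ hol` is Lipschitz. -/
lemma good0_lip (Hl : Holes c r) {C : ℝ} (hC : 0 ≤ C)
    (hLip : ∀ p ∈ Om c r, ∀ q ∈ Om c r, d p q ≤ C * ‖p - q‖) (j : Fin k) {f : ℂ → ℝ}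
    (hf : Lip1 (Om c r) d f) :
    LipschitzWith (Real.toNNReal (C * r j)) (fun s => f (hol (c j) (r j) s)) := by
  have hr := (Hl.pos j).le
  refine LipschitzWith.of_dist_le_mul fun p q => ?_
  rw [Real.coe_toNNReal _ (mul_nonneg hC hr), Real.dist_eq, Real.dist_eq]
  calc |f (hol (c j) (r j) p) - f (hol (c j) (r j) q)|
      ≤ d (hol (c j) (r j) p) (hol (c j) (r j) q) := hf _ (hol_mem Hl j p) _ (hol_mem Hl j q)
    _ ≤ C * ‖hol (c j) (r j) p - hol (c j) (r j) q‖ :=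
        hLip _ (hol_mem Hl j p) _ (hol_mem Hl j q)
    _ ≤ C * (r j * |p - q|) := mul_le_mul_of_nonneg_left (hol_sub_le _ hr p q) hC
    _ = C * r j * |p - q| := by ring

lemma good0_deriv_le (Hl : Holes c r) {C : ℝ} (hC : 0 ≤ C)
    (hLip : ∀ p ∈ Om c r, ∀ q ∈ Om c r, d p q ≤ C * ‖p - q‖) (j : Fin k) {f : ℂ → ℝ}
    (hf : Lip1 (Om c r) d f) (t : ℝ) :
    ‖deriv (fun s => f (hol (c j) (r j) s)) t‖ ≤ C * r j := by
  have h := norm_deriv_le_of_lipschitz (x₀ := t) (good0_lip Hl hC hLip j hf)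
  rwa [Real.coe_toNNReal _ (mul_nonneg hC (Hl.pos j).le)] at h

lemma good0_integrable (Hl : Holes c r) {C : ℝ} (hC : 0 ≤ C)
    (hLip : ∀ p ∈ Om c r, ∀ q ∈ Om c r, d p q ≤ C * ‖p - q‖) (j : Fin k) {f : ℂ → ℝ}
    (hf : Lip1 (Om c r) d f) {B : Set ℝ} (hB : volume B ≠ ⊤) :
    IntegrableOn (fun t => deriv (fun s => f (hol (c j) (r j) s)) t) B := by
  refine Measure.integrableOn_of_bounded hB (measurable_deriv _).aestronglyMeasurable
    (M := C * r j) ?_
  exact Eventually.of_forall fun t => good0_deriv_le Hl hC hLip j hf t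

/-- The fundamental theorem of calculus for `f ∘ hol`. -/
lemma good0_ftc (Hl : Holes c r) {C : ℝ} (hC : 0 ≤ C)
    (hLip : ∀ p ∈ Om c r, ∀ q ∈ Om c r, d p q ≤ C * ‖p - q‖) (j : Fin k) {f : ℂ → ℝ}
    (hf : Lip1 (Om c r) d f) {x y : ℝ} (hxy : x ≤ y) :
    ∫ t in Icc x y, deriv (fun s => f (hol (c j) (r j) s)) t =
      f (hol (c j) (r j) y) - f (hol (c j) (r j) x) := by
  have h1 : AbsolutelyContinuousOnInterval (fun s => f (hol (c j) (r j) s)) x y :=
    ((good0_lip Hl hC hLip j hf).lipschitzOnWith).absolutelyContinuousOnInterval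
  have h2 := h1.integral_deriv_eq_sub
  rw [intervalIntegral.integral_of_le hxy, ← integral_Icc_eq_integral_Ioc] at h2
  exact h2

theorem good_init (Hl : Holes c r) {C : ℝ} (hC : 0 ≤ C)
    (hLip : ∀ p ∈ Om c r, ∀ q ∈ Om c r, d p q ≤ C * ‖p - q‖)
    (hr : ∀ p ∈ Om c r, d p p = 0) (j : Fin k) :
    Good c r d (fun x u => x = u ∧ u ∈ Om c r) j (Icc 0 (2 * Real.pi)) := by
  have hpi := Real.pi_pos
  refine ⟨isCompact_Icc, subset_rfl, ?_, ?_, ?_⟩
  · intro f hf x hx y hy hxy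
    have h1 : Icc 0 (2 * Real.pi) ∩ Icc x y = Icc x y :=
      inter_eq_right.mpr (Icc_subset_Icc hx.1 hy.2)
    rw [h1]
    exact good0_ftc Hl hC hLip j hf hxy
  · intro f hf
    rw [good0_ftc Hl hC hLip j hf (by positivity)]
    have h1 := hol_two_pi (c j) (r j) 0
    rw [zero_add] at h1
    rw [h1, sub_self]
  · rintro x hx y hy z hz u ⟨rfl, hu⟩
    by_cases hxy : hol (c j) (r j) x = hol (c j) (r j) y
    · rw [← hxy, openSegment_same, mem_singleton_iff] at hz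
      rw [hz]
      exact hr _ (hol_mem Hl j x)
    · exfalso
      have hx1 : hol (c j) (r j) x ∈ Metric.closedBall (c j) (r j) := by
        rw [Metric.mem_closedBall, dist_eq_norm, norm_hol_sub _ (Hl.pos j).le]
      have hy1 : hol (c j) (r j) y ∈ Metric.closedBall (c j) (r j) := by
        rw [Metric.mem_closedBall, dist_eq_norm, norm_hol_sub _ (Hl.pos j).le]
      have h1 := (strictConvex_closedBall ℝ (c j) (r j)).openSegment_subset hx1 hy1 hxy hz
      rw [interior_closedBall _ (Hl.pos j).ne', Metric.mem_ball, dist_eq_norm] at h1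
      have h2 := hu.2.2 j
      linarith

end Pool.Agent.MIR
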