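import Mathlib
import Pool.Agent.MIR.Defs
import Pool.Agent.MIR.Basic

open MeasureTheory Set Filter Topology Manifold Bundle
open scoped ENNReal NNReal ContDiff

noncomputable section

namespace Pool.Agent.MIR

private def chord_L (c0 : ℂ) (r0 a b : ℝ) (w : ℂ) : ℝ :=
  ((w - c0) * (starRingEnd ℂ) (cis ((a + b) / 2))).re - r0 * Real.cos ((b - a) / 2)

private lemma chord_L_hol (c0 : ℂ) (r0 a b t : ℝ) :
    chord_L c0 r0 a b (hol c0 r0 t) =
      r0 * (Real.cos (t - (a + b) / 2) - Real.cos ((b - a) / 2)) := by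
  unfold chord_L hol
  rw [add_sub_cancel_left, mul_assoc, Complex.re_ofReal_mul, Complex.mul_re, Complex.conj_re,
    Complex.conj_im, cis_re, cis_re, cis_im, cis_im, Real.cos_sub]
  ring

private lemma chord_L_comb (c0 : ℂ) (r0 a b α β : ℝ) (hαβ : α + β = 1) (u v : ℂ) :
    chord_L c0 r0 a b (α • u + β • v) =
      α * chord_L c0 r0 a b u + β * chord_L c0 r0 a b v := by
  have hβ : β = 1 - α := by linarith
  subst hβ
  unfold chord_L
  simp only [Complex.real_smul, Complex.mul_re, Complex.sub_re, Complex.add_re, Complex.sub_im,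
    Complex.add_im, Complex.mul_im, Complex.ofReal_re, Complex.ofReal_im, Complex.conj_re,
    Complex.conj_im]
  ring

private lemma chord_seg {c0 : ℂ} {r0 a b : ℝ} {z : ℂ}
    (hz : z ∈ segment ℝ (hol c0 r0 a) (hol c0 r0 b)) : chord_L c0 r0 a b z = 0 := by
  obtain ⟨α, β, _, _, hαβ, rfl⟩ := hz
  rw [chord_L_comb _ _ _ _ _ _ hαβ, chord_L_hol, chord_L_hol]
  have e1 : a - (a + b) / 2 = -((b - a) / 2) := by ring
  have e2 : b - (a + b) / 2 = (b - a) / 2 := by ring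
  rw [e1, e2, Real.cos_neg]
  ring

private lemma chord_per (c0 : ℂ) (r0 t : ℝ) (n : ℤ) :
    hol c0 r0 (t + n * (2 * Real.pi)) = hol c0 r0 t := by
  unfold hol
  congr 2
  apply Complex.ext
  · rw [cis_re, cis_re, Real.cos_add_int_mul_two_pi]
  · rw [cis_im, cis_im, Real.sin_add_int_mul_two_pi]

private lemma chord_eq {c0 : ℂ} {r0 a b x : ℝ}
    (h : Real.cos (x - (a + b) / 2) = Real.cos ((b - a) / 2)) :
    hol c0 r0 x = hol c0 r0 a ∨ hol c0 r0 x = hol c0 r0 b := by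
  rw [Real.cos_eq_cos_iff] at h
  obtain ⟨n, h | h⟩ := h
  · right
    rw [← chord_per c0 r0 x n]
    congr 1
    linarith
  · left
    rw [← chord_per c0 r0 a n]
    congr 1
    linarith

private lemma chord_zero {p q α β : ℝ} (hα : 0 < α) (hβ : 0 < β) (h : α * p + β * q = 0)
    (hpq : (0 ≤ p ∧ 0 ≤ q) ∨ (p ≤ 0 ∧ q ≤ 0)) : p = 0 := by
  rcases hpq with ⟨hp, hq⟩ | ⟨hp, hq⟩
  · have h1 : 0 ≤ β * q := mul_nonneg hβ.le hq
    have h2 : α * p ≤ 0 := by linarith
    have h3 : p ≤ 0 := by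
      by_contra h4
      have := mul_pos hα (not_le.1 h4)
      linarith
    exact le_antisymm h3 hp
  · have h1 : β * q ≤ 0 := mul_nonpos_of_nonneg_of_nonpos hβ.le hq
    have h2 : 0 ≤ α * p := by linarith
    have h3 : 0 ≤ p := by
      by_contra h4
      have := mul_neg_of_pos_of_neg hα (not_le.1 h4)
      linarith
    exact le_antisymm hp h3

private lemma chord_main {c0 : ℂ} {r0 : ℝ} (hr : 0 < r0) {a b x y : ℝ} {z : ℂ}
    (hz : z ∈ openSegment ℝ (hol c0 r0 x) (hol c0 r0 y))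
    (hz' : z ∈ segment ℝ (hol c0 r0 a) (hol c0 r0 b))
    (hpq : (Real.cos ((b - a) / 2) ≤ Real.cos (x - (a + b) / 2) ∧
        Real.cos ((b - a) / 2) ≤ Real.cos (y - (a + b) / 2)) ∨
      (Real.cos (x - (a + b) / 2) ≤ Real.cos ((b - a) / 2) ∧
        Real.cos (y - (a + b) / 2) ≤ Real.cos ((b - a) / 2))) :
    hol c0 r0 x = hol c0 r0 a ∨ hol c0 r0 x = hol c0 r0 b := by
  have h0 := chord_seg hz'
  obtain ⟨α, β, hα, hβ, hαβ, rfl⟩ := hz
  rw [chord_L_comb _ _ _ _ _ _ hαβ, chord_L_hol, chord_L_hol] at h0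
  have h1 := chord_zero hα hβ h0 (by
    rcases hpq with ⟨h, h'⟩ | ⟨h, h'⟩
    · exact Or.inl ⟨mul_nonneg hr.le (by linarith), mul_nonneg hr.le (by linarith)⟩
    · exact Or.inr ⟨mul_nonpos_of_nonneg_of_nonpos hr.le (by linarith),
        mul_nonpos_of_nonneg_of_nonpos hr.le (by linarith)⟩)
  rcases mul_eq_zero.1 h1 with h2 | h2
  · exact absurd h2 hr.ne'
  · exact chord_eq (by linarith)

theorem chord_in {c0 : ℂ} {r0 : ℝ} (hr : 0 < r0) {a b x y : ℝ} (hab : a < b)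
    (hba : b ≤ a + 2 * Real.pi) (hx : x ∈ Icc a b) (hy : y ∈ Icc a b) {z : ℂ}
    (hz : z ∈ openSegment ℝ (hol c0 r0 x) (hol c0 r0 y))
    (hz' : z ∈ segment ℝ (hol c0 r0 a) (hol c0 r0 b)) :
    hol c0 r0 x = hol c0 r0 a ∨ hol c0 r0 x = hol c0 r0 b := by
  have key : ∀ t ∈ Icc a b, Real.cos ((b - a) / 2) ≤ Real.cos (t - (a + b) / 2) := by
    intro t ht
    rw [← Real.cos_abs (t - (a + b) / 2)]
    apply Real.cos_le_cos_of_nonneg_of_le_pi (abs_nonneg _)
    · linarith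
    · rw [abs_le]
      constructor
      · linarith [ht.1]
      · linarith [ht.2]
  exact chord_main hr hz hz' (Or.inl ⟨key x hx, key y hy⟩)

theorem chord_out {c0 : ℂ} {r0 : ℝ} (hr : 0 < r0) {a b x y : ℝ} (ha0 : 0 ≤ a) (hab : a < b)
    (hb2 : b ≤ 2 * Real.pi) (hx : x ∈ Icc 0 (2 * Real.pi)) (hx' : x ∈ Iic a ∪ Ici b)
    (hy : y ∈ Icc 0 (2 * Real.pi)) (hy' : y ∈ Iic a ∪ Ici b) {z : ℂ}
    (hz : z ∈ openSegment ℝ (hol c0 r0 x) (hol c0 r0 y))
    (hz' : z ∈ segment ℝ (hol c0 r0 a) (hol c0 r0 b)) :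
    hol c0 r0 x = hol c0 r0 a ∨ hol c0 r0 x = hol c0 r0 b := by
  have key0 : ∀ u : ℝ, (b - a) / 2 ≤ u → u ≤ 2 * Real.pi - (b - a) / 2 →
      Real.cos u ≤ Real.cos ((b - a) / 2) := by
    intro u h1 h2
    rcases le_total u Real.pi with h | h
    · exact Real.cos_le_cos_of_nonneg_of_le_pi (by linarith) h h1
    · rw [← Real.cos_two_pi_sub u]
      exact Real.cos_le_cos_of_nonneg_of_le_pi (by linarith) (by linarith) (by linarith)
  have key : ∀ t ∈ Icc 0 (2 * Real.pi), t ∈ Iic a ∪ Ici b →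
      Real.cos (t - (a + b) / 2) ≤ Real.cos ((b - a) / 2) := by
    intro t ht ht'
    rcases ht' with h | h
    · rw [← Real.cos_neg]
      have h' : t ≤ a := h
      exact key0 _ (by linarith) (by linarith [ht.1])
    · have h' : b ≤ t := h
      exact key0 _ (by linarith) (by linarith [ht.2])
  exact chord_main hr hz hz' (Or.inr ⟨key x hx hx', key y hy hy'⟩)

end Pool.Agent.MIR
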