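import Mathlib
import Pool.Agent.MIR.Defs
import Pool.Agent.MIR.Basic
import Pool.Agent.MIR.Chord

open MeasureTheory Set Filter Topology Manifold Bundle
open scoped ENNReal NNReal ContDiff

noncomputable section

namespace Pool.Agent.MIR

variable {k : ℕ} {c : Fin k → ℂ} {r : Fin k → ℝ} {d : ℂ → ℂ → ℝ} {N : ℂ → ℂ → Prop}

lemma gsep_lip1 {S : Set ℂ} {a b : ℂ} {f : ℂ → ℝ} (hf : Lip1 S (pinch d a b) f) : Lip1 S d f :=
  fun p hp q hq => (hf p hp q hq).trans (pinch_le a b p q)

lemma gsep_pinch_nonneg {S : Set ℂ} (P : Pic S d N) {a b p q : ℂ} (ha : a ∈ S) (hb : b ∈ S)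
    (hp : p ∈ S) (hq : q ∈ S) : 0 ≤ pinch d a b p q := by
  unfold pinch
  refine le_min (P.nonneg hp hq) (le_min ?_ ?_)
  · exact add_nonneg (P.nonneg hp ha) (P.nonneg hb hq)
  · exact add_nonneg (P.nonneg hp hb) (P.nonneg ha hq)

/-- The pinched pseudo-metric vanishes on the pair of identified points. -/
lemma gsep_pinch_zero {S : Set ℂ} (P : Pic S d N) {a b p q : ℂ} (ha : a ∈ S) (hb : b ∈ S)
    (hp : p = a ∨ p = b) (hq : q = a ∨ q = b) : pinch d a b p q = 0 := by
  have hpS : p ∈ S := by rcases hp with rfl | rfl <;> assumption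
  have hqS : q ∈ S := by rcases hq with rfl | rfl <;> assumption
  refine le_antisymm ?_ (gsep_pinch_nonneg P ha hb hpS hqS)
  rcases hp with rfl | rfl <;> rcases hq with rfl | rfl
  · exact (pinch_le _ _ _ _).trans_eq (P.refl _ ha)
  · refine (pinch_le2 _ _ _ _).trans_eq ?_
    rw [P.refl _ ha, P.refl _ hb, add_zero]
  · refine (pinch_le3 _ _ _ _).trans_eq ?_
    rw [P.refl _ ha, P.refl _ hb, add_zero]
  · exact (pinch_le _ _ _ _).trans_eq (P.refl _ hb)

/-- The property `free` for the pinched pseudo-metric. -/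
lemma gsep_free (Hl : Holes c r) (H : Half c r d N) {j : Fin k} {A : Set ℝ}
    (G : Good c r d N j A) {a b : ℂ} (ha : a ∈ Om c r) (hb : b ∈ Om c r) {x y : ℝ} (hx : x ∈ A)
    (hy : y ∈ A) {z : ℂ} (hz : z ∈ openSegment ℝ (hol (c j) (r j) x) (hol (c j) (r j) y))
    {u : ℂ} (hu : nearP N a b z u)
    (hch : z ∈ segment ℝ a b → hol (c j) (r j) x = a ∨ hol (c j) (r j) x = b) :
    pinch d a b u (hol (c j) (r j) x) = 0 := by
  rcases hu with hu | ⟨hzs, hu⟩
  · have huS := (H.near_mem z u hu).1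
    refine le_antisymm ?_ (gsep_pinch_nonneg H.toPic ha hb huS (hol_mem Hl j x))
    exact (pinch_le _ _ _ _).trans_eq (G.free x hx y hy z hz u hu)
  · exact gsep_pinch_zero H.toPic ha hb hu (hch hzs)

theorem good_sep (Hl : Holes c r) (H : Half c r d N) {j : Fin k} {A : Set ℝ}
    (G : Good c r d N j A) {a b : ℝ} (ha : a ∈ A) (hb : b ∈ A) (hab : a < b) {j' : Fin k}
    {A' : Set ℝ} (G' : Good c r d N j' A') (hsep : Sep j j' A A') :
    Good c r (pinch d (hol (c j) (r j) a) (hol (c j) (r j) b))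
      (nearP N (hol (c j) (r j) a) (hol (c j) (r j) b)) j' A' := by
  refine ⟨G'.cpt, G'.sub, fun f hf x hx y hy hxy => G'.z1 f (gsep_lip1 hf) x hx y hy hxy,
    fun f hf => G'.z2 f (gsep_lip1 hf), fun x hx y hy z hz u hu => ?_⟩
  refine gsep_free Hl H G' (hol_mem Hl j a) (hol_mem Hl j b) hx hy hz hu fun hzs => ?_
  have haI := G.sub ha
  have hbI := G.sub hb
  by_cases hj : j = j'
  · subst hj
    have hr := Hl.pos j
    rcases hsep rfl a ha b hb hab.le with hA | hA
    · exact chord_in hr hab (by linarith [haI.1, hbI.2]) (hA hx) (hA hy) hz hzs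
    · exact chord_out hr haI.1 hab hbI.2 (G'.sub hx) (hA hx) (G'.sub hy) (hA hy) hz hzs
  · exfalso
    have h1 : z ∈ Metric.closedBall (c j') (r j') := by
      refine (convex_closedBall (c j') (r j')).segment_subset ?_ ?_
        (openSegment_subset_segment ℝ _ _ hz)
      · rw [Metric.mem_closedBall, dist_eq_norm, norm_hol_sub _ (Hl.pos j').le]
      · rw [Metric.mem_closedBall, dist_eq_norm, norm_hol_sub _ (Hl.pos j').le]
    have h2 : z ∈ Metric.closedBall (c j) (r j) := by
      refine (convex_closedBall (c j) (r j)).segment_subset ?_ ?_ hzs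
      · rw [Metric.mem_closedBall, dist_eq_norm, norm_hol_sub _ (Hl.pos j).le]
      · rw [Metric.mem_closedBall, dist_eq_norm, norm_hol_sub _ (Hl.pos j).le]
    rw [Metric.mem_closedBall] at h1 h2
    have h3 := Hl.disj j j' hj
    have h4 := dist_triangle_left (c j) (c j') z
    rw [← dist_eq_norm] at h3
    linarith

end Pool.Agent.MIR
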