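import Mathlib
import Pool.Agent.MIR.Defs
import Pool.Agent.MIR.Basic
import Pool.Agent.MIR.Chord
import Pool.Agent.MIR.Good0
import Pool.Agent.MIR.GSep

open MeasureTheory Set Filter Topology Manifold Bundle
open scoped ENNReal NNReal ContDiff

noncomputable section

namespace Pool.Agent.MIR

variable {k : ℕ} {c : Fin k → ℂ} {r : Fin k → ℝ} {d : ℂ → ℂ → ℝ} {N : ℂ → ℂ → Prop}

/-- Functions that are Lipschitz for the pinched pseudo-metric agree at the identified points. -/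
lemma gin_eq {S : Set ℂ} (P : Pic S d N) {a b : ℂ} (ha : a ∈ S) (hb : b ∈ S) {f : ℂ → ℝ}
    (hf : Lip1 S (pinch d a b) f) : f b = f a := by
  have h1 := hf b hb a ha
  rw [gsep_pinch_zero P ha hb (Or.inr rfl) (Or.inl rfl)] at h1
  have h2 := abs_nonneg (f b - f a)
  have h3 : f b - f a = 0 := abs_eq_zero.mp (le_antisymm h1 h2)
  linarith

theorem good_in (Hl : Holes c r) (H : Half c r d N) {C : ℝ}
    (hLip : ∀ p ∈ Om c r, ∀ q ∈ Om c r, d p q ≤ C * ‖p - q‖) {j : Fin k} {A : Set ℝ}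
    (G : Good c r d N j A) {a b : ℝ} (ha : a ∈ A) (hb : b ∈ A) (hab : a < b) :
    Good c r (pinch d (hol (c j) (r j) a) (hol (c j) (r j) b))
      (nearP N (hol (c j) (r j) a) (hol (c j) (r j) b)) j (A ∩ Icc a b) := by
  have haM := hol_mem Hl j a
  have hbM := hol_mem Hl j b
  refine ⟨G.cpt.inter_right isClosed_Icc, inter_subset_left.trans G.sub, ?_, ?_, ?_⟩
  · intro f hf x hx y hy hxy
    have h1 : A ∩ Icc a b ∩ Icc x y = A ∩ Icc x y := by
      rw [inter_assoc, inter_eq_right.mpr (Icc_subset_Icc hx.2.1 hy.2.2)]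
    rw [h1]
    exact G.z1 f (gsep_lip1 hf) x hx.1 y hy.1 hxy
  · intro f hf
    rw [G.z1 f (gsep_lip1 hf) a ha b hb hab.le, gin_eq H.toPic haM hbM hf, sub_self]
  · intro x hx y hy z hz u hu
    refine gsep_free Hl H G haM hbM hx.1 hy.1 hz hu fun hzs => ?_
    exact chord_in (Hl.pos j) hab (by linarith [(G.sub ha).1, (G.sub hb).2]) hx.2 hy.2 hz hzs

theorem good_out (Hl : Holes c r) (H : Half c r d N) {C : ℝ}
    (hLip : ∀ p ∈ Om c r, ∀ q ∈ Om c r, d p q ≤ C * ‖p - q‖) {j : Fin k} {A : Set ℝ}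
    (G : Good c r d N j A) {a b : ℝ} (ha : a ∈ A) (hb : b ∈ A) (hab : a < b) :
    Good c r (pinch d (hol (c j) (r j) a) (hol (c j) (r j) b))
      (nearP N (hol (c j) (r j) a) (hol (c j) (r j) b)) j (A ∩ (Iic a ∪ Ici b)) := by
  have haM := hol_mem Hl j a
  have hbM := hol_mem Hl j b
  have hC : 0 ≤ max C 0 := le_max_right _ _
  have hLip' : ∀ p ∈ Om c r, ∀ q ∈ Om c r, d p q ≤ max C 0 * ‖p - q‖ := fun p hp q hq =>
    (hLip p hp q hq).trans (mul_le_mul_of_nonneg_right (le_max_left _ _) (norm_nonneg _))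
  have hz1 : ∀ f : ℂ → ℝ, Lip1 (Om c r) (pinch d (hol (c j) (r j) a) (hol (c j) (r j) b)) f →
      ∀ x ∈ A ∩ (Iic a ∪ Ici b), ∀ y ∈ A ∩ (Iic a ∪ Ici b), x ≤ y →
      ∫ t in A ∩ (Iic a ∪ Ici b) ∩ Icc x y, deriv (fun s => f (hol (c j) (r j) s)) t =
        f (hol (c j) (r j) y) - f (hol (c j) (r j) x) := by
    intro f hf x hx y hy hxy
    have hf' := gsep_lip1 hf
    rcases hx with ⟨hxA, hxa | hxb⟩
    · rcases hy with ⟨hyA, hya | hyb⟩
      · have h1 : A ∩ (Iic a ∪ Ici b) ∩ Icc x y = A ∩ Icc x y := by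
          have hsub : Icc x y ⊆ Iic a ∪ Ici b := fun t ht => Or.inl (le_trans ht.2 hya)
          rw [inter_assoc, inter_eq_right.mpr hsub]
        rw [h1]
        exact G.z1 f hf' x hxA y hyA hxy
      · have h1 : A ∩ (Iic a ∪ Ici b) ∩ Icc x y = (A ∩ Icc x a) ∪ (A ∩ Icc b y) := by
          ext t
          constructor
          · rintro ⟨⟨htA, hta | htb⟩, htx, hty⟩
            · exact Or.inl ⟨htA, htx, hta⟩
            · exact Or.inr ⟨htA, htb, hty⟩
          · rintro (⟨htA, htx, hta⟩ | ⟨htA, htb, hty⟩)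
            · exact ⟨⟨htA, Or.inl hta⟩, htx, hta.trans (hab.le.trans hyb)⟩
            · exact ⟨⟨htA, Or.inr htb⟩, (le_trans hxa hab.le).trans htb, hty⟩
        have hdis : Disjoint (A ∩ Icc x a) (A ∩ Icc b y) := by
          rw [Set.disjoint_left]
          rintro t ⟨-, -, hta⟩ ⟨-, htb, -⟩
          linarith
        have hfin : ∀ s : Set ℝ, volume (A ∩ s) ≠ ⊤ := fun s =>
          (lt_of_le_of_lt (measure_mono inter_subset_left) G.cpt.measure_lt_top).ne
        rw [h1, setIntegral_union hdis (G.cpt.measurableSet.inter measurableSet_Icc)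
          (good0_integrable Hl hC hLip' j hf' (hfin _))
          (good0_integrable Hl hC hLip' j hf' (hfin _)),
          G.z1 f hf' x hxA a ha hxa, G.z1 f hf' b hb y hyA hyb, gin_eq H.toPic haM hbM hf]
        ring
    · rcases hy with ⟨hyA, hya | hyb⟩
      · exfalso
        have h2 : b ≤ x := hxb
        have h3 : y ≤ a := hya
        linarith
      · have h1 : A ∩ (Iic a ∪ Ici b) ∩ Icc x y = A ∩ Icc x y := by
          have hsub : Icc x y ⊆ Iic a ∪ Ici b := fun t ht => Or.inr (le_trans hxb ht.1)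
          rw [inter_assoc, inter_eq_right.mpr hsub]
        rw [h1]
        exact G.z1 f hf' x hxA y hyA hxy
  refine ⟨G.cpt.inter_right (isClosed_Iic.union isClosed_Ici), inter_subset_left.trans G.sub,
    hz1, ?_, ?_⟩
  · intro f hf
    have hf' := gsep_lip1 hf
    obtain ⟨x0, hx0, hx0'⟩ := G.cpt.exists_isLeast ⟨a, ha⟩
    obtain ⟨y0, hy0, hy0'⟩ := G.cpt.exists_isGreatest ⟨a, ha⟩
    have h1 : A ∩ Icc x0 y0 = A := inter_eq_left.mpr fun t ht => ⟨hx0' ht, hy0' ht⟩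
    have h2 := G.z1 f hf' x0 hx0 y0 hy0 (hx0' hy0)
    rw [h1, G.z2 f hf'] at h2
    have h3 := hz1 f hf x0 ⟨hx0, Or.inl (hx0' ha)⟩ y0 ⟨hy0, Or.inr (hy0' hb)⟩ (hx0' hy0)
    have h4 : A ∩ (Iic a ∪ Ici b) ∩ Icc x0 y0 = A ∩ (Iic a ∪ Ici b) :=
      inter_eq_left.mpr fun t ht => ⟨hx0' ht.1, hy0' ht.1⟩
    rw [h4, ← h2] at h3
    exact h3
  · intro x hx y hy z hz u hu
    refine gsep_free Hl H G haM hbM hx.1 hy.1 hz hu fun hzs => ?_
    exact chord_out (Hl.pos j) (G.sub ha).1 hab (G.sub hb).2 (G.sub hx.1) hx.2 (G.sub hy.1) hy.2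
      hz hzs

end Pool.Agent.MIR
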