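import Mathlib
import Pool.Agent.MIR.Defs
import Pool.Agent.MIR.Basic
import Pool.Agent.MIR.Good0

open MeasureTheory Set Filter Topology Manifold Bundle
open scoped ENNReal NNReal ContDiff

noncomputable section

namespace Pool.Agent.MIR

variable {k : ℕ} {c : Fin k → ℂ} {r : Fin k → ℝ} {d : ℂ → ℂ → ℝ} {N : ℂ → ℂ → Prop}

theorem good_int (Hl : Holes c r) (H : Half c r d N) {C : ℝ} (hC : 0 ≤ C)
    (hLip : ∀ p ∈ Om c r, ∀ q ∈ Om c r, d p q ≤ C * ‖p - q‖) {j : Fin k} {A : Set ℝ}
    (G : Good c r d N j A) {f g : ℂ → ℝ} (hf : Lip1 (Om c r) d f) (hg : Lip1 (Om c r) d g) :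
    |∫ t in A, f (hol (c j) (r j) t) * deriv (fun s => g (hol (c j) (r j) s)) t| ≤
      (C * r j * volume.real A) ^ 2 := by
  rcases A.eq_empty_or_nonempty with h0 | ⟨x0, hx0⟩
  · rw [h0]
    simp
  have hr := (Hl.pos j).le
  have hCr : 0 ≤ C * r j := mul_nonneg hC hr
  have hAf : volume A ≠ ⊤ := G.cpt.measure_lt_top.ne
  have hAm : MeasurableSet A := G.cpt.measurableSet
  set v := volume.real A with hv
  have hv0 : 0 ≤ v := measureReal_nonneg
  set F : ℝ → ℝ := fun s => f (hol (c j) (r j) s) with hF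
  set K : ℝ → ℝ := fun t => deriv (fun s => g (hol (c j) (r j) s)) t with hK
  have hKb : ∀ t, ‖K t‖ ≤ C * r j := fun t => good0_deriv_le Hl hC hLip j hg t
  -- oscillation of `F` on `A`
  have hosc1 : ∀ x ∈ A, ∀ y ∈ A, x ≤ y → |F y - F x| ≤ C * r j * v := by
    intro x hx y hy hxy
    rw [hF]
    beta_reduce
    rw [← G.z1 f hf x hx y hy hxy, ← Real.norm_eq_abs]
    refine (norm_setIntegral_le_of_norm_le_const
      (lt_of_le_of_lt (measure_mono inter_subset_left) hAf.lt_top)
      fun t _ => good0_deriv_le Hl hC hLip j hf t).trans ?_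
    exact mul_le_mul_of_nonneg_left (measureReal_mono inter_subset_left hAf) hCr
  have hosc : ∀ x ∈ A, |F x - F x0| ≤ C * r j * v := by
    intro x hx
    rcases le_total x0 x with h | h
    · exact hosc1 x0 hx0 x hx h
    · rw [abs_sub_comm]
      exact hosc1 x hx x0 hx0 h
  have hFc : Continuous F := (good0_lip Hl hC hLip j hf).continuous
  have hKi : IntegrableOn K A := good0_integrable Hl hC hLip j hg hAf
  have hKm : Measurable K := measurable_deriv _
  have hFK : IntegrableOn (fun t => (F t - F x0) * K t) A := by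
    refine Measure.integrableOn_of_bounded hAf
      ((hFc.measurable.sub_const _).mul hKm).aestronglyMeasurable
      (M := C * r j * v * (C * r j)) ?_
    refine (ae_restrict_iff' hAm).mpr (Eventually.of_forall fun t ht => ?_)
    rw [norm_mul]
    exact mul_le_mul (hosc t ht) (hKb t) (norm_nonneg _) (mul_nonneg hCr hv0)
  have e1 : ∫ t in A, F t * K t = ∫ t in A, (F t - F x0) * K t := by
    have h1 : ∀ t, F t * K t = (F t - F x0) * K t + F x0 * K t := fun t => by ring
    rw [setIntegral_congr_fun hAm fun t _ => h1 t, integral_add hFK (hKi.const_mul _),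
      integral_const_mul]
    have h2 : ∫ t in A, K t = 0 := G.z2 g hg
    rw [h2, mul_zero, add_zero]
  change |∫ t in A, F t * K t| ≤ _
  rw [e1, ← Real.norm_eq_abs]
  refine (norm_setIntegral_le_of_norm_le_const hAf.lt_top (C := C * r j * v * (C * r j))
    fun t ht => ?_).trans (le_of_eq ?_)
  · rw [norm_mul]
    exact mul_le_mul (hosc t ht) (hKb t) (norm_nonneg _) (mul_nonneg hCr hv0)
  · rw [← hv]
    ring

end Pool.Agent.MIR
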