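import Mathlib
import Pool.Agent.MIR.Defs
import Pool.Agent.MIR.Basic

open MeasureTheory Set Filter Topology Manifold Bundle
open scoped ENNReal NNReal ContDiff

noncomputable section

namespace Pool.Agent.MIR

theorem exists_log {F : ℝ × ℝ → ℂ} (hF : ContinuousOn F (Icc (0 : ℝ) 1 ×ˢ Icc (0 : ℝ) 1))
    (h0 : ∀ p ∈ Icc (0 : ℝ) 1 ×ˢ Icc (0 : ℝ) 1, F p ≠ 0) :
    ∃ L : ℝ × ℝ → ℂ, ContinuousOn L (Icc (0 : ℝ) 1 ×ˢ Icc (0 : ℝ) 1) ∧
      ∀ p ∈ Icc (0 : ℝ) 1 ×ˢ Icc (0 : ℝ) 1, Complex.exp (L p) = F p := by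
  set K : Set (ℝ × ℝ) := Icc (0 : ℝ) 1 ×ˢ Icc (0 : ℝ) 1 with hK
  have cK : IsCompact K := isCompact_Icc.prod isCompact_Icc
  have star : ∀ p ∈ K, ∀ t : ℝ, 0 ≤ t → t ≤ 1 → t • p ∈ K := by
    rintro ⟨x, y⟩ ⟨⟨hx0, hx1⟩, ⟨hy0, hy1⟩⟩ t ht0 ht1
    refine ⟨⟨?_, ?_⟩, ⟨?_, ?_⟩⟩
    · exact mul_nonneg ht0 hx0
    · exact mul_le_one₀ ht1 hx0 hx1
    · exact mul_nonneg ht0 hy0
    · exact mul_le_one₀ ht1 hy0 hy1
  have norm_le : ∀ p ∈ K, ‖p‖ ≤ 1 := by
    rintro ⟨x, y⟩ ⟨⟨hx0, hx1⟩, ⟨hy0, hy1⟩⟩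
    rw [Prod.norm_def]
    exact max_le (by rw [Real.norm_eq_abs, abs_of_nonneg hx0]; exact hx1)
      (by rw [Real.norm_eq_abs, abs_of_nonneg hy0]; exact hy1)
  have zK : (0 : ℝ × ℝ) ∈ K := ⟨left_mem_Icc.2 zero_le_one, left_mem_Icc.2 zero_le_one⟩
  -- lower bound
  obtain ⟨p0, hp0, hmin⟩ := cK.exists_isMinOn ⟨0, zK⟩ hF.norm
  set m := ‖F p0‖ with hm
  have hmpos : 0 < m := norm_pos_iff.2 (h0 p0 hp0)
  have hlow : ∀ p ∈ K, m ≤ ‖F p‖ := fun p hp => hmin hp
  -- uniform continuity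
  have huc := cK.uniformContinuousOn_of_continuous hF
  obtain ⟨δ, hδ, hδ'⟩ := Metric.uniformContinuousOn_iff.1 huc m hmpos
  obtain ⟨n, hn⟩ := exists_nat_gt (1 / δ)
  have hnpos : (0 : ℝ) < n := lt_trans (by positivity) hn
  have hstep : 1 / (n : ℝ) < δ := by
    rw [div_lt_iff₀ hnpos]; rw [div_lt_iff₀ hδ] at hn; linarith
  -- points of the subdivision
  set P : ℕ → ℝ × ℝ → ℝ × ℝ := fun j p => ((j : ℝ) / n) • p with hP
  have PK : ∀ j ≤ n, ∀ p ∈ K, P j p ∈ K := fun j hj p hp =>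
    star p hp _ (by positivity) (by
      rw [div_le_one hnpos]; exact_mod_cast hj)
  have near : ∀ j < n, ∀ p ∈ K, ‖F (P (j + 1) p) / F (P j p) - 1‖ < 1 := by
    intro j hj p hp
    have h1 := PK j hj.le p hp
    have h2 := PK (j + 1) hj p hp
    have h3 : dist (P (j + 1) p) (P j p) < δ := by
      rw [dist_eq_norm, hP]
      simp only
      rw [← sub_smul, norm_smul]
      have : (((j + 1 : ℕ) : ℝ) / n - (j : ℝ) / n) = 1 / n := by push_cast; ring
      rw [this, Real.norm_eq_abs, abs_of_pos (by positivity)]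
      calc 1 / (n : ℝ) * ‖p‖ ≤ 1 / (n : ℝ) * 1 :=
            mul_le_mul_of_nonneg_left (norm_le p hp) (by positivity)
        _ < δ := by rw [mul_one]; exact hstep
    have h4 := hδ' _ h2 _ h1 h3
    rw [dist_eq_norm] at h4
    have h5 := h0 _ h1
    have h6 : F (P (j + 1) p) / F (P j p) - 1 = (F (P (j + 1) p) - F (P j p)) / F (P j p) := by
      field_simp
    rw [h6, norm_div, div_lt_one (norm_pos_iff.2 h5)]
    exact h4.trans_le (hlow _ h1)
  refine ⟨fun p => Complex.log (F 0) + ∑ j ∈ Finset.range n,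
    Complex.log (F (P (j + 1) p) / F (P j p)), ?_, ?_⟩
  · refine continuousOn_const.add (continuousOn_finsetSum _ fun j hj => ?_)
    have hj' := Finset.mem_range.1 hj
    have c1 : ContinuousOn (fun p => F (P (j + 1) p)) K :=
      hF.comp (by rw [hP]; fun_prop) (fun p hp => PK (j + 1) hj' p hp)
    have c2 : ContinuousOn (fun p => F (P j p)) K :=
      hF.comp (by rw [hP]; fun_prop) (fun p hp => PK j hj'.le p hp)
    refine ContinuousOn.clog (c1.div c2 fun p hp => h0 _ (PK j hj'.le p hp)) fun p hp => ?_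
    have := near j hj' p hp
    have h7 : F (P (j + 1) p) / F (P j p) = 1 + (F (P (j + 1) p) / F (P j p) - 1) := by ring
    rw [h7]
    exact Complex.mem_slitPlane_of_norm_lt_one this
  · intro p hp
    have tel : ∀ k ≤ n, Complex.exp (Complex.log (F 0) + ∑ j ∈ Finset.range k,
        Complex.log (F (P (j + 1) p) / F (P j p))) = F (P k p) := by
      intro k
      induction k with
      | zero =>
        intro _
        simp only [Finset.range_zero, Finset.sum_empty, add_zero]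
        rw [Complex.exp_log (h0 0 zK)]
        simp [hP]
      | succ k ih =>
        intro hk
        rw [Finset.sum_range_succ, ← add_assoc, Complex.exp_add, ih (by omega)]
        have h1 := h0 _ (PK k (by omega) p hp)
        have h2 := h0 _ (PK (k + 1) hk p hp)
        rw [Complex.exp_log (div_ne_zero h2 h1)]
        field_simp
    have := tel n le_rfl
    rw [this, hP]
    simp only
    rw [div_self hnpos.ne', one_smul]

end Pool.Agent.MIR
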