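import Mathlib
import Pool.Agent.MIR.Defs
import Pool.Agent.MIR.Basic
import Pool.Agent.MIR.Log

open MeasureTheory Set Filter Topology Manifold Bundle
open scoped ENNReal NNReal ContDiff

noncomputable section

namespace Pool.Agent.MIR

/-- A continuous function on `[0,1]` with nonnegative cosine that starts in `(-π/2, π/2)` stays in
`[-π/2, π/2]`. -/
lemma cross_stay {g : ℝ → ℝ} (hg : ContinuousOn g (Icc 0 1)) (hc : ∀ t ∈ Icc (0 : ℝ) 1, 0 ≤ Real.cos (g t))
    (h0 : |g 0| < Real.pi / 2) : |g 1| ≤ Real.pi / 2 := by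
  by_contra hcon
  push Not at hcon
  have hpi := Real.pi_pos
  -- an intermediate value with negative cosine
  have key : ∃ y ∈ Icc (0 : ℝ) 1, Real.pi / 2 < |g y| ∧ |g y| < Real.pi := by
    have hcont : ContinuousOn (fun t => |g t|) (Icc 0 1) := hg.abs
    set w := min (|g 1|) (3 * Real.pi / 4) with hw
    have hw1 : Real.pi / 2 < w := lt_min hcon (by linarith)
    have hw2 : w < Real.pi := (min_le_right _ _).trans_lt (by linarith)
    have hmem : w ∈ Icc (|g 0|) (|g 1|) := ⟨by linarith, min_le_left _ _⟩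
    obtain ⟨y, hy, hyw⟩ := intermediate_value_Icc (zero_le_one) hcont hmem
    refine ⟨y, hy, ?_, ?_⟩
    · simp only at hyw; rw [hyw]; exact hw1
    · simp only at hyw; rw [hyw]; exact hw2
  obtain ⟨y, hy, h1, h2⟩ := key
  have h3 := hc y hy
  rw [← Real.cos_abs] at h3
  have h4 := Real.cos_neg_of_pi_div_two_lt_of_lt h1 (by linarith)
  linarith

/-- The side lemma. -/
lemma cross_side {l L : ℝ → ℂ} (hL : ContinuousOn L (Icc 0 1))
    (hexp : ∀ t ∈ Icc (0 : ℝ) 1, Complex.exp (L t) = l t) {a α0 α1 p0 p1 : ℝ}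
    (hre : ∀ t ∈ Icc (0 : ℝ) 1, 0 ≤ (l t * (starRingEnd ℂ) (cis a)).re)
    (h0 : l 0 = p0 * cis α0) (h1 : l 1 = p1 * cis α1) (hp0 : 0 < p0) (hp1 : 0 < p1)
    (ha0 : |α0 - a| < Real.pi / 2) (ha1 : |α1 - a| < Real.pi / 2) :
    (L 1).im - (L 0).im = α1 - α0 := by
  have hpi := Real.pi_pos
  have form : ∀ t ∈ Icc (0 : ℝ) 1, l t * (starRingEnd ℂ) (cis a) =
      (Real.exp (L t).re : ℂ) * cis ((L t).im - a) := by
    intro t ht
    rw [← hexp t ht, ← cis_neg, sub_eq_add_neg, cis_add, ← mul_assoc]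
    congr 1
    rw [cis, Complex.ofReal_exp, ← Complex.exp_add]
    congr 1
    exact (Complex.re_add_im (L t)).symm
  have hcos : ∀ t ∈ Icc (0 : ℝ) 1, 0 ≤ Real.cos ((L t).im - a) := by
    intro t ht
    have h := hre t ht
    rw [form t ht, Complex.re_ofReal_mul, cis_re] at h
    exact nonneg_of_mul_nonneg_right h (Real.exp_pos _)
  have arg : ∀ t ∈ Icc (0 : ℝ) 1, ∀ p α : ℝ, 0 < p → l t = p * cis α →
      ∃ n : ℤ, (L t).im = α + n * (2 * Real.pi) := by
    intro t ht p α hp hl
    have h2 : Complex.exp (L t) = Complex.exp ((Real.log p : ℂ) + α * Complex.I) := by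
      rw [hexp t ht, hl, Complex.exp_add, ← Complex.ofReal_exp, Real.exp_log hp, cis]
    obtain ⟨n, hn⟩ := Complex.exp_eq_exp_iff_exists_int.1 h2
    refine ⟨n, ?_⟩
    have h3 := congrArg Complex.im hn
    simp only [Complex.add_im, Complex.mul_im, Complex.ofReal_re, Complex.ofReal_im, Complex.I_re,
      Complex.I_im, Complex.intCast_re, Complex.intCast_im, Complex.mul_re] at h3
    simp at h3
    linarith
  obtain ⟨n0, hn0⟩ := arg 0 (left_mem_Icc.2 zero_le_one) p0 α0 hp0 h0
  obtain ⟨n1, hn1⟩ := arg 1 (right_mem_Icc.2 zero_le_one) p1 α1 hp1 h1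
  have hg : ContinuousOn (fun t => (L t).im - a - n0 * (2 * Real.pi)) (Icc 0 1) := by
    have : ContinuousOn (fun t => (L t).im) (Icc 0 1) := Complex.continuous_im.comp_continuousOn hL
    fun_prop
  have hst := cross_stay hg (fun t ht => by
    have := hcos t ht
    rwa [Real.cos_sub_int_mul_two_pi]) (by
      simp only [hn0]
      have : α0 + n0 * (2 * Real.pi) - a - n0 * (2 * Real.pi) = α0 - a := by ring
      rw [this]; exact ha0)
  simp only [hn1] at hst
  -- the integers agree
  have hle : |((n1 : ℝ) - n0) * (2 * Real.pi)| < 2 * Real.pi := by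
    have e : ((n1 : ℝ) - n0) * (2 * Real.pi) =
        (α1 + n1 * (2 * Real.pi) - a - n0 * (2 * Real.pi)) - (α1 - a) := by ring
    rw [e]
    have := abs_sub (α1 + n1 * (2 * Real.pi) - a - n0 * (2 * Real.pi)) (α1 - a)
    linarith
  have hn : n1 = n0 := by
    rw [abs_mul, abs_of_pos (by positivity : (0 : ℝ) < 2 * Real.pi)] at hle
    have h5 : |(n1 : ℝ) - n0| < 1 := by
      by_contra hc
      push Not at hc
      nlinarith
    have h6 : |n1 - n0| < 1 := by
      have : ((|n1 - n0| : ℤ) : ℝ) < 1 := by push_cast; exact h5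
      exact_mod_cast this
    have := Int.abs_lt_one_iff.1 h6
    omega
  rw [hn0, hn1, hn]; ring

lemma cross_formula (x y : ℝ) : cis x - cis y =
    ((2 * Real.sin ((y - x) / 2) : ℝ) : ℂ) * cis ((x + y - Real.pi) / 2) := by
  have h1 : Real.cos ((x + y - Real.pi) / 2) = Real.sin ((x + y) / 2) := by
    rw [sub_div, Real.cos_sub_pi_div_two]
  have h2 : Real.sin ((x + y - Real.pi) / 2) = - Real.cos ((x + y) / 2) := by
    rw [sub_div, Real.sin_sub_pi_div_two]
  apply Complex.ext
  · rw [Complex.sub_re, cis_re, cis_re, Complex.re_ofReal_mul, cis_re, h1, Real.cos_sub_cos]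
    have : Real.sin ((y - x) / 2) = - Real.sin ((x - y) / 2) := by
      rw [← Real.sin_neg]; congr 1; ring
    rw [this]; ring
  · rw [Complex.sub_im, cis_im, cis_im, Complex.im_ofReal_mul, cis_im, h2, Real.sin_sub_sin]
    have : Real.sin ((y - x) / 2) = - Real.sin ((x - y) / 2) := by
      rw [← Real.sin_neg]; congr 1; ring
    rw [this]; ring

lemma cross_half {z : ℂ} (hz : ‖z‖ ≤ 1) (a : ℝ) : 0 ≤ ((cis a - z) * (starRingEnd ℂ) (cis a)).re := by
  have h1 : (cis a - z) * (starRingEnd ℂ) (cis a) = 1 - z * (starRingEnd ℂ) (cis a) := by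
    rw [sub_mul, Complex.mul_conj, Complex.normSq_eq_norm_sq, norm_cis]; simp
  rw [h1, Complex.sub_re, Complex.one_re]
  have h2 : (z * (starRingEnd ℂ) (cis a)).re ≤ ‖z * (starRingEnd ℂ) (cis a)‖ := Complex.re_le_norm _
  rw [norm_mul, RCLike.norm_conj, norm_cis, mul_one] at h2
  linarith

theorem cross {A B : Set ℂ} {a b c d : ℝ} (hA : A ⊆ Metric.closedBall 0 1)
    (hB : B ⊆ Metric.closedBall 0 1) (hab : a < b) (hbc : b < c) (hcd : c < d)
    (hda : d < a + 2 * Real.pi) (h1 : JoinedIn A (cis a) (cis c)) (h2 : JoinedIn B (cis b) (cis d)) :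
    (A ∩ B).Nonempty := by
  obtain ⟨γ, hγ⟩ := h1
  obtain ⟨δ, hδ⟩ := h2
  by_contra hne
  have hne' : ∀ s t, γ s ≠ δ t := fun s t h => hne ⟨γ s, hγ s, h ▸ hδ t⟩
  have hpi := Real.pi_pos
  -- the difference
  set γ' : ℝ → ℂ := fun s => γ (Set.projIcc 0 1 zero_le_one s) with hγ'
  set δ' : ℝ → ℂ := fun s => δ (Set.projIcc 0 1 zero_le_one s) with hδ'
  have cγ : Continuous γ' := γ.continuous.comp continuous_projIcc
  have cδ : Continuous δ' := δ.continuous.comp continuous_projIcc
  have nγ : ∀ s, ‖γ' s‖ ≤ 1 := fun s => by simpa using hA (hγ (Set.projIcc 0 1 zero_le_one s))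
  have nδ : ∀ s, ‖δ' s‖ ≤ 1 := fun s => by simpa using hB (hδ (Set.projIcc 0 1 zero_le_one s))
  have γ0 : γ' 0 = cis a := by simp [hγ']
  have γ1 : γ' 1 = cis c := by simp [hγ']
  have δ0 : δ' 0 = cis b := by simp [hδ']
  have δ1 : δ' 1 = cis d := by simp [hδ']
  obtain ⟨L, hL, hexp⟩ := exists_log (F := fun p : ℝ × ℝ => γ' p.1 - δ' p.2)
    (by fun_prop) (fun p _ => sub_ne_zero.2 (hne' _ _))
  have m0 : (0 : ℝ) ∈ Icc (0 : ℝ) 1 := left_mem_Icc.2 zero_le_one
  have m1 : (1 : ℝ) ∈ Icc (0 : ℝ) 1 := right_mem_Icc.2 zero_le_one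
  have spos : ∀ x : ℝ, 0 < x → x < 2 * Real.pi → 0 < 2 * Real.sin (x / 2) := fun x hx hx' => by
    have := Real.sin_pos_of_pos_of_lt_pi (x := x / 2) (by linarith) (by linarith)
    linarith
  -- side s = 0
  have S1 : (L (0, 1)).im - (L (0, 0)).im = (a + d - Real.pi) / 2 - (a + b - Real.pi) / 2 := by
    refine cross_side (l := fun t => cis a - δ' t) (L := fun t => L (0, t)) (a := a)
      (p0 := 2 * Real.sin ((b - a) / 2)) (p1 := 2 * Real.sin ((d - a) / 2)) ?_ ?_ ?_ ?_ ?_ ?_ ?_ ?_ ?_
    · exact hL.comp (by fun_prop) (fun t ht => ⟨m0, ht⟩)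
    · intro t ht
      have := hexp (0, t) ⟨m0, ht⟩
      simpa [γ0] using this
    · intro t _; exact cross_half (nδ t) a
    · simp only [δ0]; exact cross_formula a b
    · simp only [δ1]; exact cross_formula a d
    · exact spos _ (by linarith) (by linarith)
    · exact spos _ (by linarith) (by linarith)
    · rw [abs_lt]; constructor <;> linarith
    · rw [abs_lt]; constructor <;> linarith
  -- side t = 1
  have S2 : (L (1, 1) + Real.pi * Complex.I).im - (L (0, 1) + Real.pi * Complex.I).im =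
      (c + d + Real.pi) / 2 - (a + d + Real.pi) / 2 := by
    refine cross_side (l := fun s => cis d - γ' s) (L := fun s => L (s, 1) + Real.pi * Complex.I)
      (a := d) (p0 := 2 * Real.sin ((a + 2 * Real.pi - d) / 2))
      (p1 := 2 * Real.sin ((c + 2 * Real.pi - d) / 2)) ?_ ?_ ?_ ?_ ?_ ?_ ?_ ?_ ?_
    · refine ContinuousOn.add ?_ continuousOn_const
      exact hL.comp (by fun_prop) (fun t ht => ⟨ht, m1⟩)
    · intro s hs
      have := hexp (s, 1) ⟨hs, m1⟩
      rw [Complex.exp_add, this, Complex.exp_pi_mul_I]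
      simp [δ1]
    · intro t _; exact cross_half (nγ t) d
    · simp only [γ0]
      rw [← cis_add_two_pi a]
      have := cross_formula d (a + 2 * Real.pi)
      rw [this]; congr 2; ring
    · simp only [γ1]
      rw [← cis_add_two_pi c]
      have := cross_formula d (c + 2 * Real.pi)
      rw [this]; congr 2; ring
    · exact spos _ (by linarith) (by linarith)
    · exact spos _ (by linarith) (by linarith)
    · rw [abs_lt]; constructor <;> linarith
    · rw [abs_lt]; constructor <;> linarith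
  -- side s = 1
  have S3 : (L (1, 1)).im - (L (1, 0)).im = (c + d - Real.pi) / 2 - (b + c + Real.pi) / 2 := by
    refine cross_side (l := fun t => cis c - δ' t) (L := fun t => L (1, t)) (a := c)
      (p0 := 2 * Real.sin ((b + 2 * Real.pi - c) / 2)) (p1 := 2 * Real.sin ((d - c) / 2))
      ?_ ?_ ?_ ?_ ?_ ?_ ?_ ?_ ?_
    · exact hL.comp (by fun_prop) (fun t ht => ⟨m1, ht⟩)
    · intro t ht
      have := hexp (1, t) ⟨m1, ht⟩
      simpa [γ1] using this
    · intro t _; exact cross_half (nδ t) c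
    · simp only [δ0]
      rw [← cis_add_two_pi b]
      have := cross_formula c (b + 2 * Real.pi)
      rw [this]; congr 2; ring
    · simp only [δ1]; exact cross_formula c d
    · exact spos _ (by linarith) (by linarith)
    · exact spos _ (by linarith) (by linarith)
    · rw [abs_lt]; constructor <;> linarith
    · rw [abs_lt]; constructor <;> linarith
  -- side t = 0
  have S4 : (L (1, 0) + Real.pi * Complex.I).im - (L (0, 0) + Real.pi * Complex.I).im =
      (b + c - Real.pi) / 2 - (a + b + Real.pi) / 2 := by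
    refine cross_side (l := fun s => cis b - γ' s) (L := fun s => L (s, 0) + Real.pi * Complex.I)
      (a := b) (p0 := 2 * Real.sin ((a + 2 * Real.pi - b) / 2))
      (p1 := 2 * Real.sin ((c - b) / 2)) ?_ ?_ ?_ ?_ ?_ ?_ ?_ ?_ ?_
    · refine ContinuousOn.add ?_ continuousOn_const
      exact hL.comp (by fun_prop) (fun t ht => ⟨ht, m0⟩)
    · intro s hs
      have := hexp (s, 0) ⟨hs, m0⟩
      rw [Complex.exp_add, this, Complex.exp_pi_mul_I]
      simp [δ0]
    · intro t _; exact cross_half (nγ t) b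
    · simp only [γ0]
      rw [← cis_add_two_pi a]
      have := cross_formula b (a + 2 * Real.pi)
      rw [this]; congr 2; ring
    · simp only [γ1]
      exact cross_formula b c
    · exact spos _ (by linarith) (by linarith)
    · exact spos _ (by linarith) (by linarith)
    · rw [abs_lt]; constructor <;> linarith
    · rw [abs_lt]; constructor <;> linarith
  simp only [Complex.add_im] at S2 S4
  linarith

end Pool.Agent.MIR
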