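import Mathlib
import Pool.Agent.MIR.Defs
import Pool.Agent.MIR.Basic
import Pool.Agent.MIR.Cross

open MeasureTheory Set Filter Topology Manifold Bundle
open scoped ENNReal NNReal ContDiff

noncomputable section

namespace Pool.Agent.MIR

variable {k : ℕ} {c : Fin k → ℂ} {r : Fin k → ℝ} {d : ℂ → ℂ → ℝ} {N : ℂ → ℂ → Prop}

theorem sign_join {S : Set ℂ} (P : Pic S d N) {a b w : ℂ} (ha : a ∈ S) (hb : b ∈ S) (hw : w ∈ S)
    (h : d a w < d b w) : JoinedIn {x | ∃ u, N x u ∧ d a u < d b u} a w := by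
  refine (P.geo a ha w hw ((d b w - d a w) / 2) (by linarith)).mono ?_
  rintro x ⟨u, hu, hd⟩
  refine ⟨u, hu, ?_⟩
  have hu' := (P.near_mem x u hu).1
  have h1 := P.tri b hb u hu' w hw
  linarith

theorem sign_disj {S : Set ℂ} (P : Pic S d N) {a b x : ℂ} (ha : a ∈ S) (hb : b ∈ S)
    (h1 : ∃ u, N x u ∧ d a u < d b u) (h2 : ∃ u, N x u ∧ d b u < d a u) : False := by
  obtain ⟨u, hu, h1⟩ := h1
  obtain ⟨v, hv, h2⟩ := h2
  have hu' := (P.near_mem x u hu).1
  have hv' := (P.near_mem x v hv).1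
  have h3 := P.near_eq x u v hu hv
  have h4 := P.tri a ha u hu' v hv'
  have h5 := P.tri b hb v hv' u hu'
  rw [P.symm v hv' u hu'] at h5
  linarith

theorem sign_lemma (Hl : Holes c r) (H : Half c r d N) {a b : ℂ} (ha : a ∈ Mir c r)
    (hb : b ∈ Mir c r) {s t : ℝ} (hs : s ∈ Icc 0 (Real.pi / 2)) (ht : t ∈ Icc 0 (Real.pi / 2))
    (h1 : d a (cis s) + d b (cis (Real.pi - s)) < Real.pi)
    (h2 : d b (cis t) + d a (cis (Real.pi - t)) < Real.pi) : False := by
  have hpi := Real.pi_pos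
  have hs' : s ∈ Icc 0 Real.pi := ⟨hs.1, by linarith [hs.2]⟩
  have ht' : t ∈ Icc 0 Real.pi := ⟨ht.1, by linarith [ht.2]⟩
  have hs'' : Real.pi - s ∈ Icc 0 Real.pi := ⟨by linarith [hs'.2], by linarith [hs.1]⟩
  have ht'' : Real.pi - t ∈ Icc 0 Real.pi := ⟨by linarith [ht'.2], by linarith [ht.1]⟩
  have i1 := H.inv a ha s hs'
  have i2 := H.inv b hb s hs'
  have i3 := H.inv a ha t ht'
  have i4 := H.inv b hb t ht'
  have ha' := mir_sub ha
  have hb' := mir_sub hb
  have A1 := sign_join H.toPic ha' hb' (cis_mem Hl hs') (by linarith)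
  have A2 := sign_join H.toPic ha' hb' (cis_mem Hl ht'') (by linarith)
  have B1 := sign_join H.toPic hb' ha' (cis_mem Hl ht') (by linarith)
  have B2 := sign_join H.toPic hb' ha' (cis_mem Hl hs'') (by linarith)
  have A := A1.symm.trans A2
  have B := B1.symm.trans B2
  have hbl : ∀ a b : ℂ, {x | ∃ u, N x u ∧ d a u < d b u} ⊆ Metric.closedBall 0 1 := by
    rintro a b x ⟨u, hu, _⟩
    simpa using (H.near_mem x u hu).2
  have hs2 : s ≠ Real.pi / 2 := by
    rintro rfl
    have e : Real.pi - Real.pi / 2 = Real.pi / 2 := by ring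
    rw [e] at i1 i2 h1
    linarith
  have ht2 : t ≠ Real.pi / 2 := by
    rintro rfl
    have e : Real.pi - Real.pi / 2 = Real.pi / 2 := by ring
    rw [e] at i3 i4 h2
    linarith
  have hs3 := lt_of_le_of_ne hs.2 hs2
  have ht3 := lt_of_le_of_ne ht.2 ht2
  rcases lt_trichotomy s t with h | h | h
  · obtain ⟨x, hx1, hx2⟩ := cross (hbl a b) (hbl b a) h (by linarith : t < Real.pi - t)
      (by linarith : Real.pi - t < Real.pi - s) (by linarith [hs.1]) A B
    exact sign_disj H.toPic ha' hb' hx1 hx2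
  · subst h
    linarith
  · obtain ⟨x, hx1, hx2⟩ := cross (hbl b a) (hbl a b) h (by linarith : s < Real.pi - s)
      (by linarith : Real.pi - s < Real.pi - t) (by linarith [ht.1]) B A
    exact sign_disj H.toPic ha' hb' hx2 hx1

end Pool.Agent.MIR
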