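import Mathlib
import Pool.Agent.MIR.Defs
import Pool.Agent.MIR.Basic
import Pool.Agent.MIR.Sign

open MeasureTheory Set Filter Topology Manifold Bundle
open scoped ENNReal NNReal ContDiff

noncomputable section

namespace Pool.Agent.MIR

variable {k : ℕ} {c : Fin k → ℂ} {r : Fin k → ℝ} {d : ℂ → ℂ → ℝ} {N : ℂ → ℂ → Prop}

/-- The measure of the part of `A` up to `x`. -/
private def Tm (A : Set ℝ) (x : ℝ) : ℝ := volume.real (A ∩ Iic x)

private lemma pair_sub_ne_top {A B : Set ℝ} (hA : IsCompact A) : volume (A ∩ B) ≠ ⊤ :=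
  ((measure_mono inter_subset_left).trans_lt hA.measure_lt_top).ne

private lemma pair_diff {A : Set ℝ} (hA : IsCompact A) {x y : ℝ} (h : x ≤ y) :
    volume.real (A ∩ Icc x y) = Tm A y - Tm A x := by
  have h1 : A ∩ Iic y = (A ∩ Iic x) ∪ (A ∩ Ioc x y) := by
    rw [← inter_union_distrib_left, Iic_union_Ioc_eq_Iic h]
  have h2 : Disjoint (A ∩ Iic x) (A ∩ Ioc x y) := by
    rw [Set.disjoint_left]
    rintro z ⟨_, hz⟩ ⟨_, hz2⟩
    exact absurd hz2.1 (not_lt.2 hz)
  have h3 : volume.real (A ∩ Icc x y) = volume.real (A ∩ Ioc x y) := by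
    unfold Measure.real
    congr 1
    exact measure_congr ((ae_eq_refl A).inter Ioc_ae_eq_Icc.symm)
  have h4 : Tm A y = Tm A x + volume.real (A ∩ Ioc x y) := by
    unfold Tm
    rw [h1, measureReal_union h2 (hA.measurableSet.inter measurableSet_Ioc)
      (pair_sub_ne_top hA) (pair_sub_ne_top hA)]
  rw [h3, h4]; ring

private lemma pair_mono {A : Set ℝ} (hA : IsCompact A) : Monotone (Tm A) := by
  intro x y h
  have := pair_diff hA h
  have h2 : 0 ≤ volume.real (A ∩ Icc x y) := measureReal_nonneg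
  linarith

private lemma pair_cont {A : Set ℝ} (hA : IsCompact A) : Continuous (Tm A) := by
  have h1 : ∀ x y, x ≤ y → |Tm A x - Tm A y| ≤ |x - y| := by
    intro x y h
    have h2 := pair_diff hA h
    have h3 : 0 ≤ volume.real (A ∩ Icc x y) := measureReal_nonneg
    have h4 : volume.real (A ∩ Icc x y) ≤ volume.real (Icc x y) :=
      measureReal_mono inter_subset_right (by simp)
    rw [Real.volume_real_Icc_of_le h] at h4
    rw [abs_sub_comm, abs_of_nonneg (by linarith), abs_sub_comm, abs_of_nonneg (by linarith)]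
    linarith
  have h2 : LipschitzWith 1 (Tm A) := by
    refine LipschitzWith.of_dist_le_mul fun x y => ?_
    rw [Real.dist_eq, Real.dist_eq, NNReal.coe_one, one_mul]
    rcases le_total x y with h | h
    · exact h1 x y h
    · rw [abs_sub_comm, abs_sub_comm x]; exact h1 y x h
  exact h2.continuous

private lemma pair_point {A : Set ℝ} (hA : IsCompact A) (hs : A ⊆ Icc 0 (2 * Real.pi))
    (hv : 0 < volume.real A) {τ : ℝ} (h0 : 0 ≤ τ) (h1 : τ ≤ volume.real A) :
    ∃ x ∈ A, Tm A x = τ := by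
  have hne : A.Nonempty := by
    rw [nonempty_iff_ne_empty]
    rintro rfl
    simp at hv
  have htop : Tm A (2 * Real.pi) = volume.real A := by
    unfold Tm
    have h1 : A ∩ Iic (2 * Real.pi) = A := inter_eq_self_of_subset_left fun z hz => (hs hz).2
    rw [h1]
  have hbot : Tm A (-1) = 0 := by
    unfold Tm
    have : A ∩ Iic (-1) = ∅ := by
      ext z
      simp only [mem_inter_iff, mem_Iic, mem_empty_iff_false, iff_false, not_and, not_le]
      intro hz
      linarith [(hs hz).1]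
    rw [this]; simp
  rcases eq_or_lt_of_le h0 with h | h
  · obtain ⟨x, hx⟩ := hA.exists_isLeast hne
    refine ⟨x, hx.1, ?_⟩
    rw [← h]
    unfold Tm
    have h2 : A ∩ Iic x ⊆ {x} := by
      rintro z ⟨hz, hz2⟩
      exact le_antisymm hz2 (hx.2 hz)
    have h3 : volume (A ∩ Iic x) = 0 := measure_mono_null h2 (by simp)
    simp [Measure.real, h3]
  · have hpi := Real.pi_pos
    have h2 : τ ∈ Tm A '' Icc (-1) (2 * Real.pi) := by
      apply intermediate_value_Icc (by linarith) (pair_cont hA).continuousOn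
      rw [hbot, htop]
      exact ⟨h0, h1⟩
    obtain ⟨y, -, hy⟩ := h2
    have h3 : (A ∩ Iic y).Nonempty := by
      rw [nonempty_iff_ne_empty]
      intro h4
      unfold Tm at hy
      rw [h4] at hy
      simp at hy
      linarith
    obtain ⟨x, hx⟩ := (hA.inter_right isClosed_Iic).exists_isGreatest h3
    refine ⟨x, hx.1.1, ?_⟩
    rw [← hy]
    unfold Tm
    congr 1
    ext z
    simp only [mem_inter_iff, mem_Iic]
    constructor
    · rintro ⟨hz, hz2⟩
      exact ⟨hz, hz2.trans hx.1.2⟩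
    · rintro ⟨hz, hz2⟩
      exact ⟨hz, hx.2 ⟨hz, hz2⟩⟩

private lemma pair_dist (Hl : Holes c r) (P : Pic (Om c r) d N) {C : ℝ} (hC : 0 ≤ C)
    (hLip : ∀ p ∈ Om c r, ∀ q ∈ Om c r, d p q ≤ C * ‖p - q‖) {j : Fin k} {A : Set ℝ}
    (G : Good c r d N j A) {x y : ℝ} (hx : x ∈ A) (hy : y ∈ A) (hxy : x ≤ y) :
    d (hol (c j) (r j) x) (hol (c j) (r j) y) ≤ C * r j * (Tm A y - Tm A x) := by
  have hrj := (Hl.pos j).le
  set f : ℂ → ℝ := fun p => d (hol (c j) (r j) x) p with hf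
  have hL : Lip1 (Om c r) d f := fun p hp q hq => P.abs_sub_le (hol_mem Hl j x) hp hq
  have h1 := G.z1 f hL x hx y hy hxy
  have h2 : ∀ t, ‖deriv (fun s => f (hol (c j) (r j) s)) t‖ ≤ C * r j := by
    intro t
    have h3 : LipschitzWith (Real.toNNReal (C * r j)) (fun s => f (hol (c j) (r j) s)) := by
      refine LipschitzWith.of_dist_le_mul fun s t => ?_
      rw [Real.dist_eq, Real.dist_eq, Real.coe_toNNReal _ (mul_nonneg hC hrj)]
      calc |f (hol (c j) (r j) s) - f (hol (c j) (r j) t)|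
          ≤ d (hol (c j) (r j) s) (hol (c j) (r j) t) := hL _ (hol_mem Hl j s) _ (hol_mem Hl j t)
        _ ≤ C * ‖hol (c j) (r j) s - hol (c j) (r j) t‖ := hLip _ (hol_mem Hl j s) _ (hol_mem Hl j t)
        _ ≤ C * (r j * |s - t|) := mul_le_mul_of_nonneg_left (hol_sub_le _ hrj s t) hC
        _ = C * r j * |s - t| := by ring
    have h4 := norm_deriv_le_of_lipschitz h3 (x₀ := t)
    rwa [Real.coe_toNNReal _ (mul_nonneg hC hrj)] at h4
  have h5 := norm_setIntegral_le_of_norm_le_const (μ := volume) (s := A ∩ Icc x y)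
    (f := deriv (fun s => f (hol (c j) (r j) s))) (C := C * r j)
    ((measure_mono inter_subset_left).trans_lt G.cpt.measure_lt_top) (fun t _ => h2 t)
  rw [h1, pair_diff G.cpt hxy] at h5
  have h6 : f (hol (c j) (r j) x) = 0 := P.refl _ (hol_mem Hl j x)
  rw [h6, sub_zero] at h5
  exact (le_abs_self _).trans h5

theorem exists_pair (Hl : Holes c r) (H : Half c r d N) {C : ℝ} (hC : 0 ≤ C)
    (hLip : ∀ p ∈ Om c r, ∀ q ∈ Om c r, d p q ≤ C * ‖p - q‖) {j : Fin k} {A : Set ℝ}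
    (G : Good c r d N j A) (hv : 0 < volume.real A) :
    ∃ a ∈ A, ∃ b ∈ A, a < b ∧ volume.real (A ∩ Icc a b) = volume.real A / 2 ∧
      volume.real (A ∩ (Iic a ∪ Ici b)) = volume.real A / 2 ∧
      ∀ t ∈ Icc 0 Real.pi, Real.pi ≤
        d (hol (c j) (r j) a) (cis t) + d (hol (c j) (r j) b) (cis (Real.pi - t)) := by
  have hA := G.cpt
  have hrj := (Hl.pos j).le
  have hpi := Real.pi_pos
  have P := H.toPic
  set m := volume.real A with hm
  have hpt : ∀ τ : ℝ, ∃ x ∈ A, (0 ≤ τ → τ ≤ m → Tm A x = τ) := by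
    intro τ
    by_cases h : 0 ≤ τ ∧ τ ≤ m
    · obtain ⟨x, hx, hx2⟩ := pair_point hA G.sub hv h.1 h.2
      exact ⟨x, hx, fun _ _ => hx2⟩
    · obtain ⟨x, hx, hx2⟩ := pair_point hA G.sub hv le_rfl hv.le
      exact ⟨x, hx, fun h1 h2 => absurd ⟨h1, h2⟩ h⟩
  choose X hXA hX using hpt
  have hCr : 0 ≤ C * r j := mul_nonneg hC hrj
  -- distances between the chosen points
  have hd : ∀ s t : ℝ, 0 ≤ s → s ≤ m → 0 ≤ t → t ≤ m →
      d (hol (c j) (r j) (X s)) (hol (c j) (r j) (X t)) ≤ C * r j * |s - t| := by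
    intro s t h1 h2 h3 h4
    rcases le_total (X s) (X t) with h | h
    · have h5 := pair_dist Hl P hC hLip G (hXA s) (hXA t) h
      rw [hX s h1 h2, hX t h3 h4] at h5
      refine h5.trans (mul_le_mul_of_nonneg_left ?_ hCr)
      rw [abs_sub_comm]; exact le_abs_self _
    · have h5 := pair_dist Hl P hC hLip G (hXA t) (hXA s) h
      rw [hX s h1 h2, hX t h3 h4] at h5
      rw [P.symm _ (hol_mem Hl j _) _ (hol_mem Hl j _)]
      exact h5.trans (mul_le_mul_of_nonneg_left (le_abs_self _) hCr)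
  have hlt : ∀ s t : ℝ, 0 ≤ s → s ≤ m → 0 ≤ t → t ≤ m → s < t → X s < X t := by
    intro s t h1 h2 h3 h4 h5
    by_contra h
    have := pair_mono hA (not_lt.1 h)
    rw [hX s h1 h2, hX t h3 h4] at this
    linarith
  -- the end points are identified
  have hend : d (hol (c j) (r j) (X 0)) (hol (c j) (r j) (X m)) = 0 := by
    set f : ℂ → ℝ := fun p => d (hol (c j) (r j) (X 0)) p with hf
    have hL : Lip1 (Om c r) d f := fun p hp q hq => P.abs_sub_le (hol_mem Hl j _) hp hq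
    have hle := (hlt 0 m le_rfl hv.le hv.le le_rfl hv).le
    have h1 := G.z1 f hL _ (hXA 0) _ (hXA m) hle
    have h2 := G.z2 f hL
    have h3 : (A ∩ Icc (X 0) (X m) : Set ℝ) =ᵐ[volume] A := by
      refine ae_eq_of_subset_of_measure_ge inter_subset_left ?_
        (hA.measurableSet.inter measurableSet_Icc).nullMeasurableSet hA.measure_lt_top.ne
      have h4 := pair_diff hA hle
      rw [hX 0 le_rfl hv.le, hX m hv.le le_rfl, sub_zero] at h4
      rw [← ENNReal.toReal_le_toReal hA.measure_lt_top.ne (pair_sub_ne_top hA)]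
      exact h4.ge
    rw [setIntegral_congr_set h3, h2] at h1
    have h6 : f (hol (c j) (r j) (X 0)) = 0 := P.refl _ (hol_mem Hl j _)
    rw [h6, sub_zero] at h1
    exact h1.symm
  -- the connectedness argument
  set κ : ℝ → ℝ := fun τ => max 0 (min τ (m / 2)) with hκ
  have hκ0 : ∀ τ, 0 ≤ κ τ := fun τ => le_max_left _ _
  have hκ1 : ∀ τ, κ τ ≤ m / 2 := fun τ => max_le (by linarith) (min_le_right _ _)
  have hκc : Continuous κ := by fun_prop
  set p : ℝ → ℂ := fun τ => hol (c j) (r j) (X (κ τ)) with hp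
  set q : ℝ → ℂ := fun τ => hol (c j) (r j) (X (κ τ + m / 2)) with hq
  have hpm : ∀ τ, p τ ∈ Mir c r := fun τ => hol_mem_mir Hl j _
  have hqm : ∀ τ, q τ ∈ Mir c r := fun τ => hol_mem_mir Hl j _
  have hcont : ∀ z ∈ Om c r, Continuous (fun τ => d (p τ) z) ∧ Continuous (fun τ => d (q τ) z) := by
    intro z hz
    have key : ∀ g : ℝ → ℝ, Continuous g → (∀ τ, 0 ≤ g τ ∧ g τ ≤ m) →
        Continuous (fun τ => d (hol (c j) (r j) (X (g τ))) z) := by
      intro g hg hg2
      rw [Metric.continuous_iff]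
      intro τ ε hε
      obtain ⟨δ, hδ, hδ2⟩ := Metric.continuous_iff.1 hg τ (ε / (C * r j + 1)) (by positivity)
      refine ⟨δ, hδ, fun s hs => ?_⟩
      have h1 := hδ2 s hs
      rw [Real.dist_eq] at h1 ⊢
      have h2 := hd (g s) (g τ) (hg2 s).1 (hg2 s).2 (hg2 τ).1 (hg2 τ).2
      have h3 : |d (hol (c j) (r j) (X (g s))) z - d (hol (c j) (r j) (X (g τ))) z| ≤
          d (hol (c j) (r j) (X (g s))) (hol (c j) (r j) (X (g τ))) := by
        rw [P.symm _ (hol_mem Hl j _) _ hz, P.symm _ (hol_mem Hl j _) _ hz]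
        exact P.abs_sub_le hz (hol_mem Hl j _) (hol_mem Hl j _)
      have h4 : C * r j * |g s - g τ| < ε := by
        have h5 : 0 ≤ |g s - g τ| := abs_nonneg _
        rw [lt_div_iff₀ (by positivity)] at h1
        nlinarith
      linarith
    constructor
    · exact key κ hκc fun τ => ⟨hκ0 τ, by linarith [hκ1 τ]⟩
    · exact key (fun τ => κ τ + m / 2) (by fun_prop) fun τ =>
        ⟨by linarith [hκ0 τ], by linarith [hκ1 τ]⟩
  set U : Set ℝ := {τ | ∃ t ∈ Icc 0 (Real.pi / 2),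
    d (p τ) (cis t) + d (q τ) (cis (Real.pi - t)) < Real.pi} with hU
  set V : Set ℝ := {τ | ∃ t ∈ Icc 0 (Real.pi / 2),
    d (q τ) (cis t) + d (p τ) (cis (Real.pi - t)) < Real.pi} with hV
  have hmem : ∀ t ∈ Icc 0 (Real.pi / 2), cis t ∈ Om c r ∧ cis (Real.pi - t) ∈ Om c r := by
    intro t ht
    exact ⟨cis_mem Hl ⟨ht.1, by linarith [ht.2]⟩, cis_mem Hl ⟨by linarith [ht.2], by linarith [ht.1]⟩⟩
  have hUo : IsOpen U := by
    have : U = ⋃ t ∈ Icc 0 (Real.pi / 2),
        {τ | d (p τ) (cis t) + d (q τ) (cis (Real.pi - t)) < Real.pi} := by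
      ext τ; simp [hU]
    rw [this]
    refine isOpen_biUnion fun t ht => ?_
    exact isOpen_lt ((hcont _ (hmem t ht).1).1.add (hcont _ (hmem t ht).2).2) continuous_const
  have hVo : IsOpen V := by
    have : V = ⋃ t ∈ Icc 0 (Real.pi / 2),
        {τ | d (q τ) (cis t) + d (p τ) (cis (Real.pi - t)) < Real.pi} := by
      ext τ; simp [hV]
    rw [this]
    refine isOpen_biUnion fun t ht => ?_
    exact isOpen_lt ((hcont _ (hmem t ht).1).2.add (hcont _ (hmem t ht).2).1) continuous_const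
  have hUV : ∀ τ, ¬ (τ ∈ U ∧ τ ∈ V) := by
    rintro τ ⟨⟨s, hs, h1⟩, ⟨t, ht, h2⟩⟩
    exact sign_lemma Hl H (hpm τ) (hqm τ) hs ht h1 h2
  -- the two ends
  have hκz : κ 0 = 0 := by
    simp only [hκ]
    rw [min_eq_left (by linarith), max_self]
  have hκm : κ (m / 2) = m / 2 := by
    simp only [hκ]
    rw [min_self, max_eq_right (by linarith)]
  have hp0 : p 0 = hol (c j) (r j) (X 0) := by simp only [hp, hκz]
  have hq0 : q 0 = hol (c j) (r j) (X (m / 2)) := by simp only [hq, hκz, zero_add]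
  have hpe : p (m / 2) = q 0 := by rw [hq0]; simp only [hp, hκm]
  have hqe : q (m / 2) = hol (c j) (r j) (X m) := by simp only [hq, hκm, add_halves]
  have hqz : ∀ z ∈ Om c r, d (q (m / 2)) z = d (p 0) z := by
    intro z hz
    have h1 := P.tri _ (hol_mem Hl j (X 0)) _ (hol_mem Hl j (X m)) z hz
    have h2 := P.tri _ (hol_mem Hl j (X m)) _ (hol_mem Hl j (X 0)) z hz
    rw [P.symm _ (hol_mem Hl j (X m)) _ (hol_mem Hl j (X 0))] at h2
    rw [hend] at h1 h2
    rw [hqe, hp0]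
    linarith
  have hex1 : (0 : ℝ) ∈ U → m / 2 ∈ V := by
    rintro ⟨t, ht, h1⟩
    refine ⟨t, ht, ?_⟩
    rw [hqz _ (hmem t ht).1, hpe]
    exact h1
  have hex2 : (0 : ℝ) ∈ V → m / 2 ∈ U := by
    rintro ⟨t, ht, h1⟩
    refine ⟨t, ht, ?_⟩
    rw [hqz _ (hmem t ht).2, hpe]
    exact h1
  have hfin : ∃ τ ∈ Icc 0 (m / 2), τ ∉ U ∧ τ ∉ V := by
    by_contra hcon
    push Not at hcon
    have hcov : Icc 0 (m / 2) ⊆ U ∪ V := by
      intro τ hτ
      by_cases h : τ ∈ U
      · exact Or.inl h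
      · exact Or.inr (hcon τ hτ h)
    have h0 : (0 : ℝ) ∈ Icc 0 (m / 2) := ⟨le_rfl, by linarith⟩
    have hm2 : m / 2 ∈ Icc 0 (m / 2) := ⟨by linarith, le_rfl⟩
    have hpre := isPreconnected_Icc (a := (0 : ℝ)) (b := m / 2)
    have hne : (Icc 0 (m / 2) ∩ U).Nonempty ∧ (Icc 0 (m / 2) ∩ V).Nonempty := by
      rcases hcov h0 with h | h
      · exact ⟨⟨0, h0, h⟩, ⟨m / 2, hm2, hex1 h⟩⟩
      · exact ⟨⟨m / 2, hm2, hex2 h⟩, ⟨0, h0, h⟩⟩
    obtain ⟨τ, -, hτ⟩ := hpre U V hUo hVo hcov hne.1 hne.2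
    exact hUV τ hτ
  obtain ⟨τ, hτ, hτU, hτV⟩ := hfin
  have hκτ : κ τ = τ := by
    simp only [hκ]
    rw [min_eq_left hτ.2, max_eq_right hτ.1]
  have hτ0 : 0 ≤ τ := hτ.1
  have hτm : τ ≤ m := by linarith [hτ.2]
  have hτ2 : 0 ≤ τ + m / 2 := by linarith [hτ.1]
  have hτm2 : τ + m / 2 ≤ m := by linarith [hτ.2]
  have hab := hlt τ (τ + m / 2) hτ0 hτm hτ2 hτm2 (by linarith)
  have hI : volume.real (A ∩ Icc (X τ) (X (τ + m / 2))) = m / 2 := by
    rw [pair_diff hA hab.le, hX τ hτ0 hτm, hX _ hτ2 hτm2]; ring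
  refine ⟨X τ, hXA τ, X (τ + m / 2), hXA _, hab, hI, ?_, ?_⟩
  · have h1 : (A ∩ (Iic (X τ) ∪ Ici (X (τ + m / 2))) : Set ℝ) =ᵐ[volume]
        (A ∩ (Iio (X τ) ∪ Ioi (X (τ + m / 2))) : Set ℝ) :=
      (ae_eq_refl A).inter (Iio_ae_eq_Iic.symm.union Ioi_ae_eq_Ici.symm)
    have h2 : volume.real (A ∩ (Iic (X τ) ∪ Ici (X (τ + m / 2)))) =
        volume.real (A ∩ (Iio (X τ) ∪ Ioi (X (τ + m / 2)))) := by
      unfold Measure.real
      rw [measure_congr h1]
    have h3 : A ∩ (Iio (X τ) ∪ Ioi (X (τ + m / 2))) = A \ (A ∩ Icc (X τ) (X (τ + m / 2))) := by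
      ext z
      simp only [mem_inter_iff, mem_union, mem_Iio, mem_Ioi, Set.mem_sdiff, mem_Icc, not_and, not_le]
      constructor
      · rintro ⟨hz, hz2⟩
        refine ⟨hz, fun _ h4 => ?_⟩
        rcases hz2 with h5 | h5
        · exact absurd h5 (not_lt.2 h4)
        · exact h5
      · rintro ⟨hz, hz2⟩
        refine ⟨hz, ?_⟩
        by_cases h4 : z < X τ
        · exact Or.inl h4
        · exact Or.inr (hz2 hz (not_lt.1 h4))
    rw [h2, h3, measureReal_sdiff inter_subset_left (hA.measurableSet.inter measurableSet_Icc)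
      hA.measure_lt_top.ne, hI]
    ring
  · intro t ht
    by_cases h : t ≤ Real.pi / 2
    · by_contra hcon
      apply hτU
      refine ⟨t, ⟨ht.1, h⟩, ?_⟩
      simp only [hp, hq, hκτ]
      exact not_le.1 hcon
    · by_contra hcon
      apply hτV
      refine ⟨Real.pi - t, ⟨by linarith [ht.2], by linarith [not_le.1 h]⟩, ?_⟩
      simp only [hp, hq, hκτ, sub_sub_cancel]
      rw [add_comm]
      exact not_le.1 hcon

end Pool.Agent.MIR
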