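import Mathlib
import Pool.Agent.MIR.Defs
import Pool.Agent.MIR.Basic

open MeasureTheory Set Filter Topology Manifold Bundle
open scoped ENNReal NNReal ContDiff

noncomputable section

namespace Pool.Agent.MIR

variable {k : ℕ} {c : Fin k → ℂ} {r : Fin k → ℝ} {d : ℂ → ℂ → ℝ} {N : ℂ → ℂ → Prop}

lemma pinch_ge {L : ℝ} {a b p q : ℂ} (h1 : L ≤ d p q) (h2 : L ≤ d p a + d b q)
    (h3 : L ≤ d p b + d a q) : L ≤ pinch d a b p q :=
  le_min h1 (le_min h2 h3)

lemma pinch_nonneg {S : Set ℂ} (P : Pic S d N) {a b p q : ℂ} (ha : a ∈ S) (hb : b ∈ S)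
    (hp : p ∈ S) (hq : q ∈ S) : 0 ≤ pinch d a b p q :=
  pinch_ge (P.nonneg hp hq) (add_nonneg (P.nonneg hp ha) (P.nonneg hb hq))
    (add_nonneg (P.nonneg hp hb) (P.nonneg ha hq))

theorem pinch_pic {S : Set ℂ} (hS : ∀ z ∈ S, ‖z‖ ≤ 1) (P : Pic S d N) {a b : ℂ} (ha : a ∈ S)
    (hb : b ∈ S) (hfree : ∀ x ∈ openSegment ℝ a b, ∀ u, N x u → d u a = 0 ∨ d u b = 0) :
    Pic S (pinch d a b) (nearP N a b) where
  refl p hp := le_antisymm ((pinch_le a b p p).trans (P.refl p hp).le)
    (pinch_nonneg P ha hb hp hp)
  symm p hp q hq := by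
    unfold pinch
    rw [P.symm q hq p hp, P.symm q hq a ha, P.symm b hb p hp, P.symm q hq b hb,
      P.symm a ha p hp, add_comm (d p b) (d a q), add_comm (d p a) (d b q)]
    congr 1
    exact min_comm _ _
  tri p hp q hq x hx := by
    have e1 := P.symm q hq a ha
    have e2 := P.symm q hq b hb
    have t1 := P.tri p hp q hq x hx
    have t2 := P.tri p hp q hq a ha
    have t3 := P.tri p hp q hq b hb
    have t4 := P.tri a ha q hq x hx
    have t5 := P.tri b hb q hq x hx
    have t6 := P.tri p hp a ha x hx
    have t7 := P.tri p hp b hb x hx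
    have n1 := P.nonneg hb hq
    have n2 := P.nonneg ha hq
    have l1 := pinch_le (d := d) a b p x
    have l2 := pinch_le2 (d := d) a b p x
    have l3 := pinch_le3 (d := d) a b p x
    rcases pinch_cases d a b p q with h | h | h <;> rcases pinch_cases d a b q x with h' | h' | h' <;>
      rw [h, h'] <;> linarith
  near_self p hp := Or.inl (P.near_self p hp)
  near_mem x u hxu := by
    rcases hxu with h | ⟨h1, h2⟩
    · exact P.near_mem x u h
    · refine ⟨?_, ?_⟩
      · rcases h2 with h | h
        · exact h ▸ ha
        · exact h ▸ hb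
      · have h3 : segment ℝ a b ⊆ Metric.closedBall (0 : ℂ) 1 :=
          (convex_closedBall (0 : ℂ) 1).segment_subset (by simpa using hS a ha)
            (by simpa using hS b hb)
        simpa using h3 h1
  near_eq := by
    have key : ∀ x u, N x u → x ∈ segment ℝ a b → u ∈ S ∧ (d u a = 0 ∨ d u b = 0) := by
      intro x u hxu hx
      have hu := (P.near_mem x u hxu).1
      refine ⟨hu, ?_⟩
      rw [← insert_endpoints_openSegment] at hx
      rcases hx with h | h | h
      · subst h
        exact Or.inl (P.near_eq _ _ _ hxu (P.near_self _ ha))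
      · subst h
        exact Or.inr (P.near_eq _ _ _ hxu (P.near_self _ hb))
      · exact hfree x h u hxu
    have key2 : ∀ x u, N x u → x ∈ segment ℝ a b → u ∈ S ∧ pinch d a b u a = 0 ∧
        pinch d a b u b = 0 := by
      intro x u hxu hx
      obtain ⟨hu, h⟩ := key x u hxu hx
      have l1 := pinch_le (d := d) a b u a
      have l2 := pinch_le (d := d) a b u b
      have l3 := pinch_le3 (d := d) a b u a
      have l4 := pinch_le2 (d := d) a b u b
      have n1 := pinch_nonneg P ha hb hu ha
      have n2 := pinch_nonneg P ha hb hu hb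
      have r1 := P.refl a ha
      have r2 := P.refl b hb
      refine ⟨hu, ?_, ?_⟩ <;> rcases h with h | h <;> linarith
    have hsy : ∀ u ∈ S, ∀ v ∈ S, pinch d a b u v = pinch d a b v u := by
      intro p hp q hq
      unfold pinch
      rw [P.symm q hq p hp, P.symm q hq a ha, P.symm b hb p hp, P.symm q hq b hb,
        P.symm a ha p hp, add_comm (d p b) (d a q), add_comm (d p a) (d b q)]
      congr 1
      exact min_comm _ _
    intro x u v hu hv
    rcases hu with hu | ⟨hx, hu⟩ <;> rcases hv with hv | ⟨hx', hv⟩
    · have hu1 := (P.near_mem x u hu).1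
      have hv1 := (P.near_mem x v hv).1
      exact le_antisymm ((pinch_le a b u v).trans (P.near_eq x u v hu hv).le)
        (pinch_nonneg P ha hb hu1 hv1)
    · obtain ⟨h1, h2, h3⟩ := key2 x u hu hx'
      rcases hv with hv | hv
      · rw [hv]; exact h2
      · rw [hv]; exact h3
    · obtain ⟨h1, h2, h3⟩ := key2 x v hv hx
      rcases hu with hu | hu
      · rw [hu, hsy a ha v h1]; exact h2
      · rw [hu, hsy b hb v h1]; exact h3
    · have r1 := P.refl a ha
      have r2 := P.refl b hb
      rcases hu with hu | hu <;> rcases hv with hv | hv <;> rw [hu, hv]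
      · have l := pinch_le (d := d) a b a a
        have n := pinch_nonneg P ha hb ha ha
        linarith
      · have l := pinch_le2 (d := d) a b a b
        have n := pinch_nonneg P ha hb ha hb
        linarith
      · have l := pinch_le3 (d := d) a b b a
        have n := pinch_nonneg P ha hb hb ha
        linarith
      · have l := pinch_le (d := d) a b b b
        have n := pinch_nonneg P ha hb hb hb
        linarith
  geo p hp q hq ε hε := by
    have seg : ∀ x ∈ segment ℝ a b, nearP N a b x a ∧ nearP N a b x b := fun x hx =>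
      ⟨Or.inr ⟨hx, Or.inl rfl⟩, Or.inr ⟨hx, Or.inr rfl⟩⟩
    have r1 := P.refl a ha
    have r2 := P.refl b hb
    rcases pinch_cases d a b p q with h | h | h
    · refine (P.geo p hp q hq ε hε).mono ?_
      rintro x ⟨u, hu, hu2⟩
      refine ⟨u, Or.inl hu, ?_⟩
      have l1 := pinch_le (d := d) a b p u
      have l2 := pinch_le (d := d) a b u q
      rw [h]
      linarith
    · have j1 : JoinedIn {x | ∃ u, nearP N a b x u ∧
          pinch d a b p u + pinch d a b u q ≤ pinch d a b p q + ε} p a := by
        refine (P.geo p hp a ha ε hε).mono ?_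
        rintro x ⟨u, hu, hu2⟩
        refine ⟨u, Or.inl hu, ?_⟩
        have l1 := pinch_le (d := d) a b p u
        have l2 := pinch_le2 (d := d) a b u q
        rw [h]
        linarith
      have j2 : JoinedIn {x | ∃ u, nearP N a b x u ∧
          pinch d a b p u + pinch d a b u q ≤ pinch d a b p q + ε} a b := by
        refine JoinedIn.of_segment_subset ?_
        intro x hx
        refine ⟨a, (seg x hx).1, ?_⟩
        have l1 := pinch_le (d := d) a b p a
        have l2 := pinch_le2 (d := d) a b a q
        rw [h]
        linarith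
      have j3 : JoinedIn {x | ∃ u, nearP N a b x u ∧
          pinch d a b p u + pinch d a b u q ≤ pinch d a b p q + ε} b q := by
        refine (P.geo b hb q hq ε hε).mono ?_
        rintro x ⟨u, hu, hu2⟩
        refine ⟨u, Or.inl hu, ?_⟩
        have l1 := pinch_le2 (d := d) a b p u
        have l2 := pinch_le (d := d) a b u q
        rw [h]
        linarith
      exact (j1.trans j2).trans j3
    · have j1 : JoinedIn {x | ∃ u, nearP N a b x u ∧
          pinch d a b p u + pinch d a b u q ≤ pinch d a b p q + ε} p b := by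
        refine (P.geo p hp b hb ε hε).mono ?_
        rintro x ⟨u, hu, hu2⟩
        refine ⟨u, Or.inl hu, ?_⟩
        have l1 := pinch_le (d := d) a b p u
        have l2 := pinch_le3 (d := d) a b u q
        rw [h]
        linarith
      have j2 : JoinedIn {x | ∃ u, nearP N a b x u ∧
          pinch d a b p u + pinch d a b u q ≤ pinch d a b p q + ε} b a := by
        refine JoinedIn.of_segment_subset ?_
        intro x hx
        rw [segment_symm] at hx
        refine ⟨b, (seg x hx).2, ?_⟩
        have l1 := pinch_le (d := d) a b p b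
        have l2 := pinch_le3 (d := d) a b b q
        rw [h]
        linarith
      have j3 : JoinedIn {x | ∃ u, nearP N a b x u ∧
          pinch d a b p u + pinch d a b u q ≤ pinch d a b p q + ε} a q := by
        refine (P.geo a ha q hq ε hε).mono ?_
        rintro x ⟨u, hu, hu2⟩
        refine ⟨u, Or.inl hu, ?_⟩
        have l1 := pinch_le3 (d := d) a b p u
        have l2 := pinch_le (d := d) a b u q
        rw [h]
        linarith
      exact (j1.trans j2).trans j3

theorem pinch_half (Hl : Holes c r) (H : Half c r d N) {a b : ℂ} (ha : a ∈ Mir c r) (hb : b ∈ Mir c r)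
    (hab : ∀ t ∈ Icc 0 Real.pi, Real.pi ≤ d a (cis t) + d b (cis (Real.pi - t)))
    (hfree : ∀ x ∈ openSegment ℝ a b, ∀ u, N x u → d u a = 0 ∨ d u b = 0) :
    Half c r (pinch d a b) (nearP N a b) := by
  have haO : a ∈ Om c r := ha.1
  have hbO : b ∈ Om c r := hb.1
  have hcirc : ∀ t ∈ Icc 0 Real.pi, cis t ∈ Om c r := fun t ht => cis_mem Hl ht
  refine { pinch_pic (fun z hz => hz.1) H.toPic haO hbO hfree with
    upper := ?_
    circ := ?_
    inv := ?_ }
  · intro x u hxu
    rcases hxu with h | ⟨h, _⟩
    · exact H.upper x u h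
    · have hconv : Convex ℝ {z : ℂ | 0 ≤ z.im} := convex_halfSpace_im_ge 0
      exact hconv.segment_subset haO.2.1 hbO.2.1 h
  · intro s hs t ht
    have hs' : Real.pi - s ∈ Icc 0 Real.pi := ⟨by linarith [hs.2], by linarith [hs.1]⟩
    have ht' : Real.pi - t ∈ Icc 0 Real.pi := ⟨by linarith [ht.2], by linarith [ht.1]⟩
    have c0 := H.circ s hs t ht
    refine le_antisymm ((pinch_le a b _ _).trans c0.le) ?_
    have m1 := hcirc s hs
    have m2 := hcirc t ht
    have m3 := hcirc _ hs'
    have m4 := hcirc _ ht'
    have hpi : ∀ x y : ℝ, x ∈ Icc 0 Real.pi → y ∈ Icc 0 Real.pi →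
        |x - y| ≤ Real.pi - |Real.pi - x - y| := by
      intro x y hx hy
      rcases abs_cases (x - y) with h | h <;> rcases abs_cases (Real.pi - x - y) with h' | h' <;>
        linarith [hx.1, hx.2, hy.1, hy.2]
    have g := hpi s t hs ht
    refine pinch_ge c0.ge ?_ ?_
    · have a1 := hab s hs
      have a2 := H.tri b hbO (cis t) m2 (cis (Real.pi - s)) m3
      have a3 := H.circ t ht _ hs'
      have a4 := H.symm a haO (cis s) m1
      have a5 : |t - (Real.pi - s)| = |Real.pi - s - t| := by
        rw [← abs_neg]
        congr 1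
        ring
      rw [a5] at a3
      linarith
    · have a1 := hab t ht
      have a2 := H.tri b hbO (cis s) m1 (cis (Real.pi - t)) m4
      have a3 := H.circ s hs _ ht'
      have a4 := H.symm b hbO (cis s) m1
      have a5 : |s - (Real.pi - t)| = |Real.pi - s - t| := by
        rw [← abs_neg]
        congr 1
        ring
      rw [a5] at a3
      linarith
  · intro x hx t ht
    have hxO : x ∈ Om c r := hx.1
    have ht' : Real.pi - t ∈ Icc 0 Real.pi := ⟨by linarith [ht.2], by linarith [ht.1]⟩
    have m2 := hcirc t ht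
    have m4 := hcirc _ ht'
    have e1 := H.symm a haO x hxO
    have e2 := H.symm b hbO x hxO
    have n1 := H.nonneg hxO haO
    have n2 := H.nonneg hxO hbO
    have i0 := H.inv x hx t ht
    have i1 := H.inv a ha t ht
    have i2 := H.inv b hb t ht
    have j1 := hab t ht
    have j2 := hab _ ht'
    rw [sub_sub_cancel] at j2
    have t1 := H.tri a haO x hxO (cis t) m2
    have t2 := H.tri a haO x hxO (cis (Real.pi - t)) m4
    have t3 := H.tri b hbO x hxO (cis t) m2
    have t4 := H.tri b hbO x hxO (cis (Real.pi - t)) m4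
    rcases pinch_cases d a b x (cis t) with h | h | h <;>
      rcases pinch_cases d a b x (cis (Real.pi - t)) with h' | h' | h' <;>
      rw [h, h'] <;> linarith

theorem pinch_loc (H : Half c r d N) {a b : ℂ} (ha : a ∈ Mir c r) (hb : b ∈ Mir c r) :
    Loc c r d (pinch d a b) := by
  intro δ p hp hδ
  have haO : a ∈ Om c r := ha.1
  have hbO : b ∈ Om c r := hb.1
  have ha' := hδ a ha
  have hb' := hδ b hb
  refine ⟨fun y hy => ?_, fun q hq => ?_⟩
  · have n1 := H.nonneg haO hy.1
    have n2 := H.nonneg hbO hy.1
    exact pinch_ge (hδ y hy) (by linarith) (by linarith)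
  · have n1 := H.nonneg haO hq
    have n2 := H.nonneg hbO hq
    exact pinch_ge (min_le_left _ _) ((min_le_right _ _).trans (by linarith))
      ((min_le_right _ _).trans (by linarith))

end Pool.Agent.MIR
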