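import Mathlib
import Pool.Agent.MIR.Defs
import Pool.Agent.MIR.Basic
import Pool.Agent.MIR.Pinch
import Pool.Agent.MIR.GIn
import Pool.Agent.MIR.GSep
import Pool.Agent.MIR.Pair
import Pool.Agent.MIR.GInt

open MeasureTheory Set Filter Topology Manifold Bundle
open scoped ENNReal NNReal ContDiff

noncomputable section

namespace Pool.Agent.MIR

variable {k : ℕ} {c : Fin k → ℂ} {r : Fin k → ℝ} {d : ℂ → ℂ → ℝ} {N : ℂ → ℂ → Prop}

private lemma rec_loc_refl (d : ℂ → ℂ → ℝ) : Loc c r d d := fun _ _ _ h =>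
  ⟨h, fun _ _ => min_le_left _ _⟩

private lemma rec_loc_trans {d d' d'' : ℂ → ℂ → ℝ} (h1 : Loc c r d d') (h2 : Loc c r d' d'') :
    Loc c r d d'' := by
  intro δ p hp h
  obtain ⟨a1, a2⟩ := h1 δ p hp h
  obtain ⟨b1, b2⟩ := h2 δ p hp a1
  exact ⟨b1, fun q hq => le_trans (le_min (a2 q hq) (min_le_right _ _)) (b2 q hq)⟩

private lemma rec_split (Hl : Holes c r) {C : ℝ} (hC : 0 ≤ C)
    (hLip : ∀ p ∈ Om c r, ∀ q ∈ Om c r, d p q ≤ C * ‖p - q‖) (j : Fin k) {A : Set ℝ}
    (hA : IsCompact A) {a b : ℝ} (hab : a < b) {f g : ℂ → ℝ} (hf : Lip1 (Om c r) d f)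
    (hg : Lip1 (Om c r) d g) :
    ∫ t in A, f (hol (c j) (r j) t) * deriv (fun s => g (hol (c j) (r j) s)) t =
      (∫ t in A ∩ Icc a b, f (hol (c j) (r j) t) * deriv (fun s => g (hol (c j) (r j) s)) t) +
      ∫ t in A ∩ (Iic a ∪ Ici b),
        f (hol (c j) (r j) t) * deriv (fun s => g (hol (c j) (r j) s)) t := by
  have hAf : volume A ≠ ⊤ := hA.measure_lt_top.ne
  have hfc := (good0_lip Hl hC hLip j hf).continuous
  have hInt : IntegrableOn (fun t => f (hol (c j) (r j) t) *
      deriv (fun s => g (hol (c j) (r j) s)) t) A := by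
    obtain ⟨M, hM⟩ := hA.exists_bound_of_continuousOn hfc.continuousOn
    refine Measure.integrableOn_of_bounded hAf
      (hfc.measurable.mul (measurable_deriv _)).aestronglyMeasurable (M := M * (C * r j)) ?_
    refine (ae_restrict_iff' hA.measurableSet).mpr (Eventually.of_forall fun t ht => ?_)
    rw [norm_mul]
    exact mul_le_mul (hM t ht) (good0_deriv_le Hl hC hLip j hg t) (norm_nonneg _)
      ((norm_nonneg _).trans (hM t ht))
  have hU : A = (A ∩ Icc a b) ∪ (A ∩ (Iic a ∪ Ici b)) := by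
    rw [← inter_union_distrib_left]
    refine (inter_eq_left.mpr fun t _ => ?_).symm
    by_cases h1 : t ≤ a
    · exact Or.inr (Or.inl h1)
    · by_cases h2 : b ≤ t
      · exact Or.inr (Or.inr h2)
      · exact Or.inl ⟨(not_le.mp h1).le, (not_le.mp h2).le⟩
  have hdis : AEDisjoint volume (A ∩ Icc a b) (A ∩ (Iic a ∪ Ici b)) := by
    refine measure_mono_null (t := {a, b}) ?_ ((Set.toFinite {a, b}).measure_zero volume)
    rintro t ⟨⟨-, h1, h2⟩, -, h3 | h3⟩
    · exact Or.inl (le_antisymm h3 h1)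
    · exact Or.inr (le_antisymm h2 h3)
  conv_lhs => rw [hU]
  exact setIntegral_union₀ hdis
    (hA.measurableSet.inter (measurableSet_Iic.union measurableSet_Ici)).nullMeasurableSet
    (hInt.mono_set inter_subset_left) (hInt.mono_set inter_subset_left)

theorem hole_rec (Hl : Holes c r) {C : ℝ} (hC : 0 ≤ C) (j : Fin k) (n : ℕ) :
    ∀ (d : ℂ → ℂ → ℝ) (N : ℂ → ℂ → Prop) (A : Set ℝ), Half c r d N →
      (∀ p ∈ Om c r, ∀ q ∈ Om c r, d p q ≤ C * ‖p - q‖) → Good c r d N j A →
      ∃ (d' : ℂ → ℂ → ℝ) (N' : ℂ → ℂ → Prop), Half c r d' N' ∧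
        (∀ p ∈ Om c r, ∀ q ∈ Om c r, d' p q ≤ d p q) ∧ Loc c r d d' ∧
        (∀ f g : ℂ → ℝ, Lip1 (Om c r) d' f → Lip1 (Om c r) d' g →
          |∫ t in A, f (hol (c j) (r j) t) * deriv (fun s => g (hol (c j) (r j) s)) t| ≤
            (C * r j * volume.real A) ^ 2 / 2 ^ n) ∧
        ∀ (j' : Fin k) (A' : Set ℝ), Good c r d N j' A' → Sep j j' A A' → Good c r d' N' j' A' := by
  induction n with
  | zero =>
    intro d N A H hLip G
    refine ⟨d, N, H, fun _ _ _ _ => le_rfl, rec_loc_refl d, fun f g hf hg => ?_,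
      fun _ _ h _ => h⟩
    rw [pow_zero, div_one]
    exact good_int Hl H hC hLip G hf hg
  | succ n ih =>
    intro d N A H hLip G
    have hv0 : 0 ≤ volume.real A := measureReal_nonneg
    rcases hv0.eq_or_lt with hv | hv
    · refine ⟨d, N, H, fun _ _ _ _ => le_rfl, rec_loc_refl d, fun f g hf hg => ?_,
        fun _ _ h _ => h⟩
      have h1 := good_int Hl H hC hLip G hf hg
      rw [← hv] at h1 ⊢
      refine h1.trans ?_
      simp
    · obtain ⟨a, ha, b, hb, hab, hv1, hv2, hpair⟩ := exists_pair Hl H hC hLip G hv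
      have haM := hol_mem_mir Hl j a
      have hbM := hol_mem_mir Hl j b
      set a' := hol (c j) (r j) a with ha'
      set b' := hol (c j) (r j) b with hb'
      have H1 : Half c r (pinch d a' b') (nearP N a' b') :=
        pinch_half Hl H haM hbM hpair fun x hx u hu => Or.inl (G.free a ha b hb x hx u hu)
      have hLip1 : ∀ p ∈ Om c r, ∀ q ∈ Om c r, pinch d a' b' p q ≤ C * ‖p - q‖ :=
        fun p hp q hq => (pinch_le _ _ _ _).trans (hLip p hp q hq)
      have L1 : Loc c r d (pinch d a' b') := pinch_loc H haM hbM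
      have G1 := good_in Hl H hLip G ha hb hab
      have G2 := good_out Hl H hLip G ha hb hab
      obtain ⟨d2, N2, H2, le2, L2, B2, K2⟩ := ih (pinch d a' b') (nearP N a' b') _ H1 hLip1 G1
      have G2' : Good c r d2 N2 j (A ∩ (Iic a ∪ Ici b)) := by
        refine K2 j _ G2 fun _ x hx y hy _ => Or.inr ?_
        rintro t ⟨-, ht | ht⟩
        · exact Or.inl (le_trans ht hx.2.1)
        · exact Or.inr (le_trans hy.2.2 ht)
      have hLip2 : ∀ p ∈ Om c r, ∀ q ∈ Om c r, d2 p q ≤ C * ‖p - q‖ :=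
        fun p hp q hq => (le2 p hp q hq).trans (hLip1 p hp q hq)
      obtain ⟨d3, N3, H3, le3, L3, B3, K3⟩ := ih d2 N2 _ H2 hLip2 G2'
      refine ⟨d3, N3, H3, fun p hp q hq => ?_, rec_loc_trans L1 (rec_loc_trans L2 L3),
        fun f g hf hg => ?_, fun j' A' G' hsep => ?_⟩
      · exact (le3 p hp q hq).trans ((le2 p hp q hq).trans (pinch_le _ _ _ _))
      · have hLip3 : ∀ p ∈ Om c r, ∀ q ∈ Om c r, d3 p q ≤ C * ‖p - q‖ :=
          fun p hp q hq => (le3 p hp q hq).trans (hLip2 p hp q hq)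
        have hf2 : Lip1 (Om c r) d2 f := fun p hp q hq => (hf p hp q hq).trans (le3 p hp q hq)
        have hg2 : Lip1 (Om c r) d2 g := fun p hp q hq => (hg p hp q hq).trans (le3 p hp q hq)
        rw [rec_split Hl hC hLip3 j G.cpt hab hf hg]
        refine (abs_add_le _ _).trans ?_
        have e1 := B2 f g hf2 hg2
        have e2 := B3 f g hf hg
        rw [hv1] at e1
        rw [hv2] at e2
        have e3 : (C * r j * volume.real A) ^ 2 / 2 ^ (n + 1) =
            (C * r j * (volume.real A / 2)) ^ 2 / 2 ^ n +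
              (C * r j * (volume.real A / 2)) ^ 2 / 2 ^ n := by
          rw [pow_succ]
          field_simp
          ring
        rw [e3]
        exact add_le_add e1 e2
      · have G1' := good_sep Hl H G ha hb hab G' hsep
        have G2'' := K2 j' A' G1' fun hj x hx y hy hxy => hsep hj x hx.1 y hy.1 hxy
        exact K3 j' A' G2'' fun hj x hx y hy hxy => hsep hj x hx.1 y hy.1 hxy

end Pool.Agent.MIR
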