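import Mathlib
import Pool.Agent.MIR.Defs
import Pool.Agent.MIR.Basic
import Pool.Agent.MIR.Good0
import Pool.Agent.MIR.Rec

open MeasureTheory Set Filter Topology Manifold Bundle
open scoped ENNReal NNReal ContDiff

noncomputable section

namespace Pool.Agent.MIR

variable {k : ℕ} {c : Fin k → ℂ} {r : Fin k → ℝ} {d : ℂ → ℂ → ℝ} {N : ℂ → ℂ → Prop}

lemma allh_loc_refl : Loc c r d d := by
  intro δ p _ h
  exact ⟨h, fun q _ => min_le_left _ _⟩

lemma allh_loc_trans {d' d'' : ℂ → ℂ → ℝ} (h1 : Loc c r d d') (h2 : Loc c r d' d'') :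
    Loc c r d d'' := by
  intro δ p hp h
  obtain ⟨a1, a2⟩ := h1 δ p hp h
  obtain ⟨b1, b2⟩ := h2 δ p hp a1
  refine ⟨b1, fun q hq => le_trans ?_ (b2 q hq)⟩
  exact le_min (a2 q hq) (min_le_right _ _)

lemma allh_pow (X : ℝ) {η : ℝ} (hη : 0 < η) : ∃ n : ℕ, X / 2 ^ n ≤ η := by
  obtain ⟨n, hn⟩ := pow_unbounded_of_one_lt (X / η) (one_lt_two : (1 : ℝ) < 2)
  refine ⟨n, ?_⟩
  have h2 : (0 : ℝ) < 2 ^ n := by positivity
  rw [div_le_iff₀ h2]
  have := (div_lt_iff₀ hη).1 hn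
  nlinarith

theorem all_holes (Hl : Holes c r) {C : ℝ} (hC : 0 ≤ C)
    (H : Half c r d (fun x u => x = u ∧ u ∈ Om c r))
    (hLip : ∀ p ∈ Om c r, ∀ q ∈ Om c r, d p q ≤ C * ‖p - q‖) {η : ℝ} (hη : 0 < η) :
    ∃ (d' : ℂ → ℂ → ℝ) (N' : ℂ → ℂ → Prop), Half c r d' N' ∧
      (∀ p ∈ Om c r, ∀ q ∈ Om c r, d' p q ≤ d p q) ∧ Loc c r d d' ∧
      ∀ j, ∀ f g : ℂ → ℝ, Lip1 (Om c r) d' f → Lip1 (Om c r) d' g →
        |∫ t in (0 : ℝ)..(2 * Real.pi),
          f (hol (c j) (r j) t) * deriv (fun s => g (hol (c j) (r j) s)) t| ≤ η := by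
  have key : ∀ s : Finset (Fin k), ∃ (d' : ℂ → ℂ → ℝ) (N' : ℂ → ℂ → Prop), Half c r d' N' ∧
      (∀ p ∈ Om c r, ∀ q ∈ Om c r, d' p q ≤ d p q) ∧ Loc c r d d' ∧
      (∀ j ∈ s, ∀ f g : ℂ → ℝ, Lip1 (Om c r) d' f → Lip1 (Om c r) d' g →
        |∫ t in Icc (0 : ℝ) (2 * Real.pi),
          f (hol (c j) (r j) t) * deriv (fun s => g (hol (c j) (r j) s)) t| ≤ η) ∧
      ∀ j ∉ s, Good c r d' N' j (Icc 0 (2 * Real.pi)) := by
    intro s
    induction s using Finset.induction_on with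
    | empty =>
      refine ⟨d, _, H, fun p _ q _ => le_refl _, allh_loc_refl, by simp, fun j _ => ?_⟩
      exact good_init Hl hC hLip H.refl j
    | insert a s ha ih =>
      obtain ⟨d1, N1, hH, hle, hloc, hb, hg⟩ := ih
      obtain ⟨n, hn⟩ := allh_pow ((C * r a * volume.real (Icc (0 : ℝ) (2 * Real.pi))) ^ 2) hη
      obtain ⟨d2, N2, hH2, hle2, hloc2, hb2, hg2⟩ := hole_rec Hl hC a n d1 N1
        (Icc 0 (2 * Real.pi)) hH
        (fun p hp q hq => (hle p hp q hq).trans (hLip p hp q hq)) (hg a ha)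
      refine ⟨d2, N2, hH2, fun p hp q hq => (hle2 p hp q hq).trans (hle p hp q hq),
        allh_loc_trans hloc hloc2, ?_, ?_⟩
      · intro j hj f g hf hg'
        rcases Finset.mem_insert.1 hj with rfl | hj
        · exact (hb2 f g hf hg').trans hn
        · exact hb j hj f g (fun p hp q hq => (hf p hp q hq).trans (hle2 p hp q hq))
            (fun p hp q hq => (hg' p hp q hq).trans (hle2 p hp q hq))
      · intro j hj
        have hj1 : j ≠ a := fun h => hj (by simp [h])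
        have hj2 : j ∉ s := fun h => hj (Finset.mem_insert_of_mem h)
        exact hg2 j _ (hg j hj2) (fun h => absurd h.symm hj1)
  obtain ⟨d', N', hH, hle, hloc, hb, -⟩ := key Finset.univ
  refine ⟨d', N', hH, hle, hloc, fun j f g hf hg => ?_⟩
  rw [intervalIntegral.integral_of_le (by positivity), ← integral_Icc_eq_integral_Ioc]
  exact hb j (Finset.mem_univ j) f g hf hg

end Pool.Agent.MIR
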