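import Mathlib
import Pool.Agent.MIR.Defs
import Pool.Agent.MIR.Basic

open MeasureTheory Set Filter Topology Manifold Bundle
open scoped ENNReal NNReal ContDiff

noncomputable section

namespace Pool.Agent.MIR

variable {k : ℕ} {c : Fin k → ℂ} {r : Fin k → ℝ} {d : ℂ → ℂ → ℝ} {N : ℂ → ℂ → Prop}

private lemma dblc_fold_nonneg {z : ℂ} (h : 0 ≤ z.im) : fold z = z := by
  unfold fold
  rw [if_pos h]

private lemma dblc_fold_nonpos {z : ℂ} (h : z.im ≤ 0) : fold z = (starRingEnd ℂ) z := by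
  unfold fold
  split_ifs with h1
  · have h2 : z.im = 0 := le_antisymm h h1
    apply Complex.ext
    · simp
    · simp [h2]
  · rfl

private lemma dblc_norm_fold (z : ℂ) : ‖fold z‖ = ‖z‖ := by
  rcases le_total 0 z.im with h | h
  · rw [dblc_fold_nonneg h]
  · rw [dblc_fold_nonpos h, Complex.norm_conj]

private lemma dblc_real {z : ℂ} (h : z.im = 0) : ((z.re : ℝ) : ℂ) = z := by
  apply Complex.ext
  · simp
  · simp [h]

private lemma dblc_bdd (Hl : Holes c r) (H : Half c r d N) {p q : ℂ} (hp : p ∈ Om c r)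
    (hq : q ∈ Om c r) :
    BddBelow (range fun e : Icc (-1 : ℝ) 1 => d p ((e : ℝ) : ℂ) + d ((e : ℝ) : ℂ) q) := by
  refine ⟨0, ?_⟩
  rintro _ ⟨e, rfl⟩
  have he := mir_sub (ofReal_mem_mir Hl e.2)
  exact add_nonneg (H.toPic.nonneg hp he) (H.toPic.nonneg he hq)

private lemma dblc_mem_real (Hl : Holes c r) {p : ℂ} (hp : p ∈ Om c r) (h : p.im = 0) :
    p.re ∈ Icc (-1 : ℝ) 1 := by
  have h1 := (Complex.abs_re_le_norm p).trans hp.1
  exact abs_le.1 h1

/-- the value of the double for points on different sides (possibly on the real axis) -/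
private lemma dblc_opp (Hl : Holes c r) (H : Half c r d N) {p q : ℂ} (hp : fold p ∈ Om c r)
    (hq : fold q ∈ Om c r) (h1 : 0 ≤ p.im) (h2 : q.im ≤ 0) :
    dbl d p q = ⨅ e : Icc (-1 : ℝ) 1, (d (fold p) ((e : ℝ) : ℂ) + d ((e : ℝ) : ℂ) (fold q)) := by
  unfold dbl
  split_ifs with h
  · have hb := dblc_bdd Hl H hp hq
    apply le_antisymm
    · have : Nonempty (Icc (-1 : ℝ) 1) := ⟨⟨0, by norm_num, by norm_num⟩⟩
      refine le_ciInf fun e => ?_
      exact H.tri _ hp _ (mir_sub (ofReal_mem_mir Hl e.2)) _ hq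
    · rcases h with h | h
      · have h3 : q.im = 0 := le_antisymm h2 h.2
        have h4 : fold q = q := dblc_fold_nonneg h.2
        have h5 : q.re ∈ Icc (-1 : ℝ) 1 := dblc_mem_real Hl (h4 ▸ hq) h3
        have h6 := ciInf_le hb ⟨q.re, h5⟩
        simp only at h6
        rw [dblc_real h3, h4, H.refl q (h4 ▸ hq), add_zero] at h6
        rw [h4]
        exact h6
      · have h3 : p.im = 0 := le_antisymm h.1 h1
        have h4 : fold p = p := dblc_fold_nonneg h1
        have h5 : p.re ∈ Icc (-1 : ℝ) 1 := dblc_mem_real Hl (h4 ▸ hp) h3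
        have h6 := ciInf_le hb ⟨p.re, h5⟩
        simp only at h6
        rw [dblc_real h3, h4, H.refl p (h4 ▸ hp), zero_add] at h6
        rw [h4]
        exact h6
  · rfl

theorem dbl_conj (p q : ℂ) :
    dbl d ((starRingEnd ℂ) p) ((starRingEnd ℂ) q) = dbl d p q := by
  have hf : ∀ z : ℂ, fold ((starRingEnd ℂ) z) = fold z := by
    intro z
    rcases le_total 0 z.im with h | h
    · rw [dblc_fold_nonpos (by simpa using h), dblc_fold_nonneg h, Complex.conj_conj]
    · rw [dblc_fold_nonneg (by simpa using h), dblc_fold_nonpos h]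
  unfold dbl
  rw [hf, hf]
  have hc : ((0 ≤ ((starRingEnd ℂ) p).im ∧ 0 ≤ ((starRingEnd ℂ) q).im) ∨
      (((starRingEnd ℂ) p).im ≤ 0 ∧ ((starRingEnd ℂ) q).im ≤ 0)) ↔
      ((0 ≤ p.im ∧ 0 ≤ q.im) ∨ (p.im ≤ 0 ∧ q.im ≤ 0)) := by
    simp only [Complex.conj_im, Left.nonneg_neg_iff, Left.neg_nonpos_iff]
    exact or_comm
  by_cases h : ((0 ≤ p.im ∧ 0 ≤ q.im) ∨ (p.im ≤ 0 ∧ q.im ≤ 0))
  · rw [if_pos h, if_pos (hc.2 h)]
  · rw [if_neg h, if_neg (fun h' => h (hc.1 h'))]

private lemma dblc_cis_fold {t : ℝ} (ht : t ∈ Icc (-Real.pi) 0) : fold (cis t) = cis (-t) := by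
  rw [dblc_fold_nonpos, cis_neg]
  rw [cis_im]
  have := Real.sin_nonneg_of_mem_Icc (x := -t) ⟨by linarith [ht.2], by linarith [ht.1]⟩
  rw [Real.sin_neg] at this
  linarith

private lemma dblc_cis_im {t : ℝ} (ht : t ∈ Icc (-Real.pi) 0) : (cis t).im ≤ 0 := by
  rw [cis_im]
  have := Real.sin_nonneg_of_mem_Icc (x := -t) ⟨by linarith [ht.2], by linarith [ht.1]⟩
  rw [Real.sin_neg] at this
  linarith

private lemma dblc_cis_im' {t : ℝ} (ht : t ∈ Icc 0 Real.pi) : 0 ≤ (cis t).im := by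
  rw [cis_im]
  exact Real.sin_nonneg_of_mem_Icc ht

private lemma dblc_norm1 {x : ℝ} (hx : |x| ≤ Real.pi) :
    ‖((x : ℝ) : AddCircle (2 * Real.pi))‖ = |x| := by
  rw [AddCircle.norm_coe_eq_abs_iff (2 * Real.pi) Real.two_pi_pos.ne']
  rw [abs_of_pos Real.two_pi_pos]
  linarith

private lemma dblc_norm2 {x : ℝ} (h0 : 0 ≤ x) (h1 : x ≤ 2 * Real.pi) :
    ‖((x : ℝ) : AddCircle (2 * Real.pi))‖ = Real.pi - |Real.pi - x| := by
  rcases le_total x Real.pi with h | h
  · rw [dblc_norm1 (by rw [abs_of_nonneg h0]; exact h), abs_of_nonneg h0,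
      abs_of_nonneg (by linarith)]
    ring
  · have e : ((x : ℝ) : AddCircle (2 * Real.pi)) = ((x - 2 * Real.pi : ℝ) : AddCircle (2 * Real.pi)) := by
      rw [AddCircle.coe_sub, AddCircle.coe_period, sub_zero]
    rw [e, dblc_norm1, abs_of_nonpos (by linarith : x - 2 * Real.pi ≤ 0),
      abs_of_nonpos (by linarith : Real.pi - x ≤ 0)]
    · ring
    · rw [abs_of_nonpos (by linarith : x - 2 * Real.pi ≤ 0)]
      linarith

/-- first angle in the upper half, second in the lower half -/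
private lemma dblc_mixed (Hl : Holes c r) (H : Half c r d N) {s t : ℝ} (hs : s ∈ Icc 0 Real.pi)
    (ht : t ∈ Icc (-Real.pi) 0) :
    dbl d (cis s) (cis t) = ‖((s - t : ℝ) : AddCircle (2 * Real.pi))‖ := by
  have hpi := Real.pi_pos
  have hu : -t ∈ Icc 0 Real.pi := ⟨by linarith [ht.2], by linarith [ht.1]⟩
  have hfs : fold (cis s) = cis s := dblc_fold_nonneg (dblc_cis_im' hs)
  have hft := dblc_cis_fold ht
  have hms : cis s ∈ Om c r := cis_mem Hl hs
  have hmt : cis (-t) ∈ Om c r := cis_mem Hl hu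
  rw [dblc_opp Hl H (by rw [hfs]; exact hms) (by rw [hft]; exact hmt) (dblc_cis_im' hs)
    (dblc_cis_im ht), hfs, hft, dblc_norm2 (by linarith [hs.1, ht.2]) (by linarith [hs.2, ht.1])]
  have hb := dblc_bdd Hl H hms hmt
  apply le_antisymm
  · -- upper bounds from the two points `1`, `-1`
    have h0 : (0 : ℝ) ∈ Icc 0 Real.pi := ⟨le_rfl, hpi.le⟩
    have hπ : Real.pi ∈ Icc 0 Real.pi := ⟨hpi.le, le_rfl⟩
    have e1 := ciInf_le hb ⟨1, by norm_num, le_rfl⟩
    have e2 := ciInf_le hb ⟨-1, le_rfl, by norm_num⟩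
    simp only at e1 e2
    have c1 : (((1 : ℝ)) : ℂ) = cis 0 := by rw [cis_zero]; simp
    have c2 : (((-1 : ℝ)) : ℂ) = cis Real.pi := by rw [cis_pi]; simp
    rw [c1, H.circ s hs 0 h0, H.circ 0 h0 (-t) hu, sub_zero, zero_sub, neg_neg, abs_of_nonneg hs.1,
      abs_of_nonpos ht.2] at e1
    rw [c2, H.circ s hs _ hπ, H.circ _ hπ (-t) hu, abs_of_nonpos (by linarith [hs.2]),
      abs_of_nonneg (by linarith [ht.1])] at e2
    rcases le_total (s - t) Real.pi with h | h
    · rw [abs_of_nonneg (by linarith)]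
      linarith
    · rw [abs_of_nonpos (by linarith)]
      linarith
  · have : Nonempty (Icc (-1 : ℝ) 1) := ⟨⟨0, by norm_num, by norm_num⟩⟩
    refine le_ciInf fun e => ?_
    have heM := ofReal_mem_mir Hl e.2
    have he := mir_sub heM
    have h1 := H.inv _ heM s hs
    have hps : Real.pi - s ∈ Icc 0 Real.pi := ⟨by linarith [hs.2], by linarith [hs.1]⟩
    have h2 := H.tri _ he _ hmt _ (cis_mem Hl hps)
    rw [H.circ _ hu _ hps] at h2
    rw [H.symm _ hms _ he]
    have h3 : |(-t) - (Real.pi - s)| = |Real.pi - (s - t)| := by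
      rw [← abs_neg]
      congr 1
      ring
    rw [h3] at h2
    linarith

private lemma dblc_neg (s t : ℝ) : dbl d (cis (-s)) (cis (-t)) = dbl d (cis s) (cis t) := by
  rw [cis_neg, cis_neg, dbl_conj]

private lemma dblc_red (Hl : Holes c r) (H : Half c r d N) {s t : ℝ}
    (hs : s ∈ Icc (-Real.pi) Real.pi) (ht : t ∈ Icc (-Real.pi) Real.pi) :
    dbl d (cis s) (cis t) = ‖((s - t : ℝ) : AddCircle (2 * Real.pi))‖ := by
  -- both in the upper half
  have hup : ∀ s t : ℝ, s ∈ Icc 0 Real.pi → t ∈ Icc 0 Real.pi →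
      dbl d (cis s) (cis t) = ‖((s - t : ℝ) : AddCircle (2 * Real.pi))‖ := by
    intro s t hs ht
    unfold dbl
    rw [if_pos (Or.inl ⟨dblc_cis_im' hs, dblc_cis_im' ht⟩), dblc_fold_nonneg (dblc_cis_im' hs),
      dblc_fold_nonneg (dblc_cis_im' ht), H.circ s hs t ht, dblc_norm1]
    rw [abs_le]
    constructor
    · linarith [hs.1, ht.2]
    · linarith [hs.2, ht.1]
  have hneg : ∀ x : ℝ, ‖((-x : ℝ) : AddCircle (2 * Real.pi))‖ =
      ‖((x : ℝ) : AddCircle (2 * Real.pi))‖ := by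
    intro x
    rw [AddCircle.coe_neg, norm_neg]
  rcases le_total 0 s with h | h
  · rcases le_total 0 t with h' | h'
    · exact hup s t ⟨h, hs.2⟩ ⟨h', ht.2⟩
    · exact dblc_mixed Hl H ⟨h, hs.2⟩ ⟨ht.1, h'⟩
  · have hs' : -s ∈ Icc 0 Real.pi := ⟨by linarith, by linarith [hs.1]⟩
    have e : (-s - -t : ℝ) = -(s - t) := by ring
    rcases le_total 0 t with h' | h'
    · have h1 := dblc_mixed (d := d) Hl H hs' (t := -t) ⟨by linarith [ht.2], by linarith⟩
      rw [dblc_neg, e, hneg] at h1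
      exact h1
    · have h1 := hup (-s) (-t) hs' ⟨by linarith, by linarith [ht.1]⟩
      rw [dblc_neg, e, hneg] at h1
      exact h1

private lemma dblc_mod (s : ℝ) : ∃ s' ∈ Icc (-Real.pi) Real.pi, cis s' = cis s ∧
    ((s' : ℝ) : AddCircle (2 * Real.pi)) = ((s : ℝ) : AddCircle (2 * Real.pi)) := by
  refine ⟨toIocMod Real.two_pi_pos (-Real.pi) s, ?_, ?_, ?_⟩
  · have := toIocMod_mem_Ioc Real.two_pi_pos (-Real.pi) s
    exact ⟨this.1.le, by linarith [this.2]⟩
  · have h : toIocMod Real.two_pi_pos (-Real.pi) s =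
        s - toIocDiv Real.two_pi_pos (-Real.pi) s • (2 * Real.pi) := rfl
    rw [h, zsmul_eq_mul]
    apply Complex.ext
    · rw [cis_re, cis_re, Real.cos_sub_int_mul_two_pi]
    · rw [cis_im, cis_im, Real.sin_sub_int_mul_two_pi]
  · have h : toIocMod Real.two_pi_pos (-Real.pi) s =
        s - toIocDiv Real.two_pi_pos (-Real.pi) s • (2 * Real.pi) := rfl
    rw [h, AddCircle.coe_sub, AddCircle.coe_zsmul, AddCircle.coe_period, smul_zero, sub_zero]

theorem dbl_circ (Hl : Holes c r) (H : Half c r d N) (s t : ℝ) :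
    dbl d (cis s) (cis t) = ‖((s - t : ℝ) : AddCircle (2 * Real.pi))‖ := by
  obtain ⟨s', hs', e1, e2⟩ := dblc_mod s
  obtain ⟨t', ht', f1, f2⟩ := dblc_mod t
  rw [← e1, ← f1, dblc_red Hl H hs' ht', AddCircle.coe_sub, AddCircle.coe_sub, e2, f2]

private lemma dblc_lip1 (Hl : Holes c r) (H : Half c r d N) {C : ℝ} (hC : 0 ≤ C)
    (hLip : ∀ p ∈ Om c r, ∀ q ∈ Om c r, d p q ≤ C * ‖p - q‖) {p q : ℂ} (hp : p ∈ DOm c r)
    (hq : q ∈ DOm c r) (h1 : 0 < p.im) (h2 : q.im < 0) : dbl d p q ≤ C * ‖p - q‖ := by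
  have hp' : fold p ∈ Om c r := hp
  have hq' : fold q ∈ Om c r := hq
  have hfp : fold p = p := dblc_fold_nonneg h1.le
  have hfq : fold q = (starRingEnd ℂ) q := dblc_fold_nonpos h2.le
  rw [dblc_opp Hl H hp' hq' h1.le h2.le]
  set l : ℝ := p.im / (p.im - q.im) with hl
  have hpos : 0 < p.im - q.im := by linarith
  have hl0 : 0 ≤ l := by rw [hl]; positivity
  have hl1 : l ≤ 1 := by
    rw [hl, div_le_one hpos]
    linarith
  set e : ℂ := (1 - l) • p + l • q with he
  have heim : e.im = 0 := by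
    rw [he]
    simp only [Complex.add_im, Complex.real_smul, Complex.mul_im, Complex.ofReal_re,
      Complex.ofReal_im, zero_mul, add_zero]
    rw [hl]
    field_simp
    ring
  have hpn : ‖p‖ ≤ 1 := by rw [← hfp]; exact hp'.1
  have hqn : ‖q‖ ≤ 1 := by
    have := hq'.1
    rwa [hfq, Complex.norm_conj] at this
  have hen : ‖e‖ ≤ 1 := by
    rw [he]
    calc ‖(1 - l) • p + l • q‖ ≤ ‖(1 - l) • p‖ + ‖l • q‖ := norm_add_le _ _
      _ = (1 - l) * ‖p‖ + l * ‖q‖ := by
          rw [norm_smul, norm_smul, Real.norm_eq_abs, Real.norm_eq_abs, abs_of_nonneg hl0,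
            abs_of_nonneg (by linarith)]
      _ ≤ 1 := by nlinarith
  have heM := real_mem_mir Hl heim hen
  have heO := mir_sub heM
  have her : e.re ∈ Icc (-1 : ℝ) 1 := dblc_mem_real Hl heO heim
  have h3 := ciInf_le (dblc_bdd Hl H hp' hq') ⟨e.re, her⟩
  simp only at h3
  rw [dblc_real heim] at h3
  refine h3.trans ?_
  have h4 := hLip _ hp' _ heO
  have h5 := hLip _ heO _ hq'
  have h6 : fold p - e = l • (p - q) := by
    rw [hfp, he]
    simp only [Complex.real_smul]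
    push_cast
    ring
  have h7 : ‖e - fold q‖ = ‖e - q‖ := by
    rw [hfq]
    have : e - (starRingEnd ℂ) q = (starRingEnd ℂ) (e - q) := by
      rw [map_sub]
      congr 1
      apply Complex.ext
      · simp
      · simp [heim]
    rw [this, Complex.norm_conj]
  have h8 : e - q = (1 - l) • (p - q) := by
    rw [he]
    simp only [Complex.real_smul]
    push_cast
    ring
  rw [h6, norm_smul, Real.norm_eq_abs, abs_of_nonneg hl0] at h4
  rw [h7, h8, norm_smul, Real.norm_eq_abs, abs_of_nonneg (by linarith)] at h5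
  calc d (fold p) e + d e (fold q) ≤ C * (l * ‖p - q‖) + C * ((1 - l) * ‖p - q‖) :=
        add_le_add h4 h5
    _ = C * ‖p - q‖ := by ring

theorem dbl_lip (Hl : Holes c r) (H : Half c r d N) {C : ℝ} (hC : 0 ≤ C)
    (hLip : ∀ p ∈ Om c r, ∀ q ∈ Om c r, d p q ≤ C * ‖p - q‖) :
    ∀ p ∈ DOm c r, ∀ q ∈ DOm c r, dbl d p q ≤ C * ‖p - q‖ := by
  intro p hp q hq
  have hp' : fold p ∈ Om c r := hp
  have hq' : fold q ∈ Om c r := hq
  by_cases h : ((0 ≤ p.im ∧ 0 ≤ q.im) ∨ (p.im ≤ 0 ∧ q.im ≤ 0))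
  · have h1 := hLip _ hp' _ hq'
    unfold dbl
    rw [if_pos h]
    rcases h with h | h
    · rwa [dblc_fold_nonneg h.1, dblc_fold_nonneg h.2] at h1 ⊢
    · rw [dblc_fold_nonpos h.1, dblc_fold_nonpos h.2] at h1 ⊢
      rw [← map_sub, Complex.norm_conj] at h1
      exact h1
  · rw [not_or, not_and_or, not_and_or, not_le, not_le, not_le, not_le] at h
    obtain ⟨ha, hb⟩ := h
    rcases ha with ha | ha
    · rcases hb with hb | hb
      · exact absurd ha (not_lt.2 hb.le)
      · -- `p` below, `q` above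
        have hpc : (starRingEnd ℂ) p ∈ DOm c r := by
          change fold ((starRingEnd ℂ) p) ∈ Om c r
          rw [dblc_fold_nonneg (by simpa using ha.le), ← dblc_fold_nonpos ha.le]
          exact hp'
        have hqc : (starRingEnd ℂ) q ∈ DOm c r := by
          change fold ((starRingEnd ℂ) q) ∈ Om c r
          rw [dblc_fold_nonpos (by simpa using hb.le), Complex.conj_conj, ← dblc_fold_nonneg hb.le]
          exact hq'
        have h1 := dblc_lip1 Hl H hC hLip hpc hqc (by simpa using ha) (by simpa using hb)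
        rw [dbl_conj, ← map_sub, Complex.norm_conj] at h1
        exact h1
    · rcases hb with hb | hb
      · exact dblc_lip1 Hl H hC hLip hp hq hb ha
      · exact absurd ha (not_lt.2 hb.le)

end Pool.Agent.MIR
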