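import Mathlib
import Pool.Agent.MIR.Defs
import Pool.Agent.MIR.Basic

open MeasureTheory Set Filter Topology Manifold Bundle
open scoped ENNReal NNReal ContDiff

noncomputable section

namespace Pool.Agent.MIR

variable {k : ℕ} {c : Fin k → ℂ} {r : Fin k → ℝ} {d : ℂ → ℂ → ℝ} {N : ℂ → ℂ → Prop}

lemma dblp_fold_up {z : ℂ} (h : 0 ≤ z.im) : fold z = z := if_pos h

lemma dblp_fold_down {z : ℂ} (h : z.im ≤ 0) : fold z = (starRingEnd ℂ) z := by
  rcases lt_or_eq_of_le h with h | h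
  · exact if_neg (not_le.2 h)
  · rw [dblp_fold_up h.ge]
    apply Complex.ext
    · simp
    · simp [h]

/-- `p` and `q` lie in the same closed half plane. -/
def dblpSame (p q : ℂ) : Prop := (0 ≤ p.im ∧ 0 ≤ q.im) ∨ (p.im ≤ 0 ∧ q.im ≤ 0)

lemma dblp_same {p q : ℂ} (h : dblpSame p q) : dbl d p q = d (fold p) (fold q) := if_pos h

lemma dblp_diff {p q : ℂ} (h : ¬ dblpSame p q) :
    dbl d p q = ⨅ e : Icc (-1 : ℝ) 1, (d (fold p) ((e : ℝ) : ℂ) + d ((e : ℝ) : ℂ) (fold q)) :=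
  if_neg h

lemma dblp_real_mem (Hl : Holes c r) (e : Icc (-1 : ℝ) 1) : ((e : ℝ) : ℂ) ∈ Om c r :=
  mir_sub (ofReal_mem_mir Hl e.2)

lemma dblp_bdd (Hl : Holes c r) (H : Pic (Om c r) d N) {P Q : ℂ} (hP : P ∈ Om c r)
    (hQ : Q ∈ Om c r) :
    BddBelow (range fun e : Icc (-1 : ℝ) 1 => d P ((e : ℝ) : ℂ) + d ((e : ℝ) : ℂ) Q) := by
  refine ⟨0, ?_⟩
  rintro _ ⟨e, rfl⟩
  exact add_nonneg (H.nonneg hP (dblp_real_mem Hl e)) (H.nonneg (dblp_real_mem Hl e) hQ)

lemma dblp_ge (Hl : Holes c r) (H : Pic (Om c r) d N) {p q : ℂ} (hp : p ∈ DOm c r)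
    (hq : q ∈ DOm c r) : d (fold p) (fold q) ≤ dbl d p q := by
  by_cases h : dblpSame p q
  · rw [dblp_same h]
  · rw [dblp_diff h]
    haveI : Nonempty (Icc (-1 : ℝ) 1) := ⟨⟨0, by norm_num, by norm_num⟩⟩
    exact le_ciInf fun e => H.tri _ hp _ (dblp_real_mem Hl e) _ hq

lemma dblp_le (Hl : Holes c r) (H : Pic (Om c r) d N) {p q : ℂ} (hp : p ∈ DOm c r)
    (hq : q ∈ DOm c r) (e : Icc (-1 : ℝ) 1) :
    dbl d p q ≤ d (fold p) ((e : ℝ) : ℂ) + d ((e : ℝ) : ℂ) (fold q) := by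
  by_cases h : dblpSame p q
  · rw [dblp_same h]
    exact H.tri _ hp _ (dblp_real_mem Hl e) _ hq
  · rw [dblp_diff h]
    exact ciInf_le (dblp_bdd Hl H hp hq) e

lemma dblp_norm_fold (p : ℂ) : ‖fold p‖ = ‖p‖ := by
  unfold fold
  split_ifs
  · rfl
  · exact Complex.norm_conj p

lemma dblp_real {p : ℂ} (hp : p ∈ DOm c r) (h : p.im = 0) :
    ∃ e : Icc (-1 : ℝ) 1, ((e : ℝ) : ℂ) = p := by
  have h1 : ‖p‖ ≤ 1 := by
    rw [← dblp_norm_fold]
    exact hp.1
  have h2 : |p.re| ≤ 1 := (Complex.abs_re_le_norm p).trans h1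
  refine ⟨⟨p.re, abs_le.1 h2⟩, ?_⟩
  apply Complex.ext
  · simp
  · simp [h]

/-- `p` and `q` lie in opposite closed half planes. -/
def dblpOpp (p q : ℂ) : Prop := (0 ≤ p.im ∧ q.im ≤ 0) ∨ (p.im ≤ 0 ∧ 0 ≤ q.im)

lemma dblp_opp (Hl : Holes c r) (H : Pic (Om c r) d N) {p q : ℂ} (hp : p ∈ DOm c r)
    (hq : q ∈ DOm c r) (ho : dblpOpp p q) {ε : ℝ} (hε : 0 < ε) :
    ∃ e : Icc (-1 : ℝ) 1,
      d (fold p) ((e : ℝ) : ℂ) + d ((e : ℝ) : ℂ) (fold q) < dbl d p q + ε := by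
  by_cases h : dblpSame p q
  · rw [dblp_same h]
    have h2 : p.im = 0 ∨ q.im = 0 := by
      rcases h with h | h <;> rcases ho with ho | ho
      · right; linarith [h.2, ho.2]
      · left; linarith [h.1, ho.1]
      · left; linarith [h.1, ho.1]
      · right; linarith [h.2, ho.2]
    rcases h2 with h2 | h2
    · obtain ⟨e, he⟩ := dblp_real hp h2
      refine ⟨e, ?_⟩
      have h3 : fold p = p := dblp_fold_up h2.ge
      have h4 : p ∈ Om c r := by rw [← h3]; exact hp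
      rw [he, h3, H.refl p h4]
      linarith
    · obtain ⟨e, he⟩ := dblp_real hq h2
      refine ⟨e, ?_⟩
      have h3 : fold q = q := dblp_fold_up h2.ge
      have h4 : q ∈ Om c r := by rw [← h3]; exact hq
      rw [he, h3, H.refl q h4]
      linarith
  · rw [dblp_diff h]
    haveI : Nonempty (Icc (-1 : ℝ) 1) := ⟨⟨0, by norm_num, by norm_num⟩⟩
    exact exists_lt_of_ciInf_lt (lt_add_of_pos_right _ hε)

lemma dblp_opp_symm {p q : ℂ} (h : dblpOpp p q) : dblpOpp q p := by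
  rcases h with h | h
  · exact Or.inr ⟨h.2, h.1⟩
  · exact Or.inl ⟨h.2, h.1⟩

lemma dblp_tri (Hl : Holes c r) (H : Pic (Om c r) d N) {p q x : ℂ} (hp : p ∈ DOm c r)
    (hq : q ∈ DOm c r) (hx : x ∈ DOm c r) : dbl d p x ≤ dbl d p q + dbl d q x := by
  by_cases h : dblpSame p x
  · rw [dblp_same h]
    have h1 := H.tri _ hp _ hq _ hx
    have h2 := dblp_ge Hl H hp hq
    have h3 := dblp_ge Hl H hq hx
    linarith
  · have hcase : (dblpSame p q ∧ dblpOpp q x) ∨ (dblpOpp p q ∧ dblpSame q x) := by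
      unfold dblpSame at h ⊢
      unfold dblpOpp
      rcases le_total 0 p.im with h1 | h1 <;> rcases le_total 0 q.im with h2 | h2 <;>
        rcases le_total 0 x.im with h3 | h3 <;> tauto
    apply le_of_forall_pos_le_add
    intro ε hε
    rcases hcase with ⟨h1, h2⟩ | ⟨h1, h2⟩
    · obtain ⟨e, he⟩ := dblp_opp Hl H hq hx h2 hε
      have h3 := dblp_le Hl H hp hx e
      have h4 := H.tri _ hp _ hq _ (dblp_real_mem Hl e)
      rw [dblp_same h1]
      linarith
    · obtain ⟨e, he⟩ := dblp_opp Hl H hp hq h1 hε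
      have h3 := dblp_le Hl H hp hx e
      have h4 := H.tri _ (dblp_real_mem Hl e) _ hq _ hx
      rw [dblp_same h2]
      linarith

lemma dblp_symm (H : Pic (Om c r) d N) (Hl : Holes c r) {p q : ℂ} (hp : p ∈ DOm c r)
    (hq : q ∈ DOm c r) : dbl d p q = dbl d q p := by
  by_cases h : dblpSame p q
  · have h' : dblpSame q p := by
      rcases h with h | h
      · exact Or.inl ⟨h.2, h.1⟩
      · exact Or.inr ⟨h.2, h.1⟩
    rw [dblp_same h, dblp_same h', H.symm _ hp _ hq]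
  · have h' : ¬ dblpSame q p := by
      intro h2
      apply h
      rcases h2 with h | h
      · exact Or.inl ⟨h.2, h.1⟩
      · exact Or.inr ⟨h.2, h.1⟩
    rw [dblp_diff h, dblp_diff h']
    congr 1
    ext e
    rw [H.symm _ hp _ (dblp_real_mem Hl e), H.symm _ (dblp_real_mem Hl e) _ hq, add_comm]

lemma dblp_side (H : Half c r d N) {p q : ℂ} (hp : p ∈ DOm c r)
    (hq : q ∈ DOm c r) (hs : dblpSame p q) {ε : ℝ} (hε : 0 < ε) :
    JoinedIn {x | ∃ u, nearD N x u ∧ u ∈ DOm c r ∧ dbl d p u = d (fold p) (fold u) ∧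
      dbl d u q = d (fold u) (fold q) ∧
      d (fold p) (fold u) + d (fold u) (fold q) ≤ d (fold p) (fold q) + ε} p q := by
  have hg := H.geo (fold p) hp (fold q) hq ε hε
  rcases hs with ⟨h1, h2⟩ | ⟨h1, h2⟩
  · have e1 := dblp_fold_up h1
    have e2 := dblp_fold_up h2
    rw [e1, e2] at hg ⊢
    refine hg.mono ?_
    rintro x ⟨u, hN, hu⟩
    have hu1 := (H.near_mem x u hN).1
    have hu2 : 0 ≤ u.im := hu1.2.1
    have hx2 : 0 ≤ x.im := H.upper x u hN
    have e3 := dblp_fold_up hu2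
    refine ⟨u, Or.inl ⟨hx2, hu2, hN⟩, ?_, ?_, ?_, ?_⟩
    · show fold u ∈ Om c r
      rw [e3]; exact hu1
    · rw [dblp_same (Or.inl ⟨h1, hu2⟩), e1]
    · rw [dblp_same (Or.inl ⟨hu2, h2⟩), e2]
    · rw [e3]; exact hu
  · have e1 := dblp_fold_down h1
    have e2 := dblp_fold_down h2
    obtain ⟨γ, hγ⟩ := hg
    have hc : Continuous (fun z : ℂ => (starRingEnd ℂ) z) := Complex.continuous_conj
    refine ⟨⟨⟨fun t => (starRingEnd ℂ) (γ t), hc.comp γ.continuous⟩, ?_, ?_⟩, ?_⟩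
    · show (starRingEnd ℂ) (γ 0) = p
      rw [γ.source, e1, Complex.conj_conj]
    · show (starRingEnd ℂ) (γ 1) = q
      rw [γ.target, e2, Complex.conj_conj]
    · intro t
      obtain ⟨u, hN, hu⟩ := hγ t
      have hu1 := (H.near_mem _ u hN).1
      have hu2 : 0 ≤ u.im := hu1.2.1
      have hx2 : 0 ≤ (γ t).im := H.upper _ u hN
      have hu3 : ((starRingEnd ℂ) u).im ≤ 0 := by
        rw [Complex.conj_im]; linarith
      have hx3 : ((starRingEnd ℂ) (γ t)).im ≤ 0 := by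
        rw [Complex.conj_im]; linarith
      have e3 : fold ((starRingEnd ℂ) u) = u := by
        rw [dblp_fold_down hu3, Complex.conj_conj]
      refine ⟨(starRingEnd ℂ) u, Or.inr ⟨hx3, hu3, ?_⟩, ?_, ?_, ?_, ?_⟩
      · show N ((starRingEnd ℂ) ((starRingEnd ℂ) (γ t))) ((starRingEnd ℂ) ((starRingEnd ℂ) u))
        rw [Complex.conj_conj, Complex.conj_conj]
        exact hN
      · show fold ((starRingEnd ℂ) u) ∈ Om c r
        rw [e3]; exact hu1
      · exact dblp_same (Or.inr ⟨h1, hu3⟩)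
      · exact dblp_same (Or.inr ⟨hu3, h2⟩)
      · rw [e3]; exact hu

lemma dblp_geo (Hl : Holes c r) (H : Half c r d N) {p q : ℂ} (hp : p ∈ DOm c r)
    (hq : q ∈ DOm c r) {ε : ℝ} (hε : 0 < ε) :
    JoinedIn {x | ∃ u, nearD N x u ∧ dbl d p u + dbl d u q ≤ dbl d p q + ε} p q := by
  by_cases hs : dblpSame p q
  · refine (dblp_side H hp hq hs hε).mono ?_
    rintro x ⟨u, h1, _, h3, h4, h5⟩
    refine ⟨u, h1, ?_⟩
    rw [h3, h4, dblp_same hs]
    exact h5
  · have ho : dblpOpp p q := by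
      unfold dblpSame at hs
      unfold dblpOpp
      rcases le_total 0 p.im with h1 | h1 <;> rcases le_total 0 q.im with h2 | h2 <;> tauto
    have hε3 : 0 < ε / 3 := by positivity
    obtain ⟨e, he⟩ := dblp_opp Hl H.toPic hp hq ho hε3
    have heim : (((e : ℝ) : ℂ)).im = 0 := Complex.ofReal_im _
    have hef : fold ((e : ℝ) : ℂ) = ((e : ℝ) : ℂ) := dblp_fold_up heim.ge
    have heD : ((e : ℝ) : ℂ) ∈ DOm c r := by
      show fold ((e : ℝ) : ℂ) ∈ Om c r
      rw [hef]; exact dblp_real_mem Hl e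
    have hs1 : dblpSame p ((e : ℝ) : ℂ) := by
      rcases le_total 0 p.im with h1 | h1
      · exact Or.inl ⟨h1, heim.ge⟩
      · exact Or.inr ⟨h1, heim.le⟩
    have hs2 : dblpSame ((e : ℝ) : ℂ) q := by
      rcases le_total 0 q.im with h1 | h1
      · exact Or.inl ⟨heim.ge, h1⟩
      · exact Or.inr ⟨heim.le, h1⟩
    have g1 := dblp_side H hp heD hs1 hε3
    have g2 := dblp_side H heD hq hs2 hε3
    refine JoinedIn.trans (y := ((e : ℝ) : ℂ)) (g1.mono ?_) (g2.mono ?_)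
    · rintro x ⟨u, h1, h2, h3, _, h5⟩
      refine ⟨u, h1, ?_⟩
      rw [hef] at h5
      have h6 := dblp_le Hl H.toPic h2 hq e
      rw [h3]
      linarith
    · rintro x ⟨u, h1, h2, _, h4, h5⟩
      refine ⟨u, h1, ?_⟩
      rw [hef] at h5
      have h6 := dblp_le Hl H.toPic hp h2 e
      rw [h4]
      linarith

lemma dblp_near_eq (Hl : Holes c r) (H : Half c r d N) {x u v : ℂ} (hu : nearD N x u)
    (hv : nearD N x v) (huD : u ∈ DOm c r) (hvD : v ∈ DOm c r) : dbl d u v = 0 := by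
  have mixed : ∀ u v : ℂ, u ∈ DOm c r → v ∈ DOm c r → (0 ≤ x.im ∧ 0 ≤ u.im ∧ N x u) →
      (x.im ≤ 0 ∧ v.im ≤ 0 ∧ N ((starRingEnd ℂ) x) ((starRingEnd ℂ) v)) → dbl d u v = 0 := by
    rintro u v huD hvD ⟨h1, h2, h3⟩ ⟨h4, h5, h6⟩
    have hx0 : x.im = 0 := le_antisymm h4 h1
    have hxc : (starRingEnd ℂ) x = x := by
      apply Complex.ext
      · simp
      · simp [hx0]
    rw [hxc] at h6
    have hxm : x ∈ Om c r := mir_sub (real_mem_mir Hl hx0 (H.near_mem x u h3).2)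
    have hxD : x ∈ DOm c r := by
      show fold x ∈ Om c r
      rw [dblp_fold_up h1]; exact hxm
    have hN := H.near_self x hxm
    have e1 : d u x = 0 := H.near_eq x u x h3 hN
    have e2 : d x ((starRingEnd ℂ) v) = 0 := H.near_eq x x _ hN h6
    obtain ⟨e, he⟩ := dblp_real hxD hx0
    have h7 := dblp_le Hl H.toPic huD hvD e
    rw [he, dblp_fold_up h2, dblp_fold_down h5, e1, e2] at h7
    have h8 := (H.toPic.nonneg huD hvD).trans (dblp_ge Hl H.toPic huD hvD)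
    linarith
  rcases hu with hu | hu <;> rcases hv with hv | hv
  · rw [dblp_same (Or.inl ⟨hu.2.1, hv.2.1⟩), dblp_fold_up hu.2.1, dblp_fold_up hv.2.1]
    exact H.near_eq x u v hu.2.2 hv.2.2
  · exact mixed u v huD hvD hu hv
  · rw [dblp_symm H.toPic Hl huD hvD]
    exact mixed v u hvD huD hv hu
  · rw [dblp_same (Or.inr ⟨hu.2.1, hv.2.1⟩), dblp_fold_down hu.2.1, dblp_fold_down hv.2.1]
    exact H.near_eq _ _ _ hu.2.2 hv.2.2

lemma dblp_near_mem (H : Half c r d N) {x u : ℂ} (h : nearD N x u) :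
    u ∈ DOm c r ∧ ‖x‖ ≤ 1 := by
  rcases h with ⟨_, h2, h3⟩ | ⟨_, h2, h3⟩
  · have := H.near_mem x u h3
    refine ⟨?_, this.2⟩
    show fold u ∈ Om c r
    rw [dblp_fold_up h2]
    exact this.1
  · have := H.near_mem _ _ h3
    refine ⟨?_, ?_⟩
    · show fold u ∈ Om c r
      rw [dblp_fold_down h2]
      exact this.1
    · rw [← Complex.norm_conj]; exact this.2

theorem dbl_pic (Hl : Holes c r) (H : Half c r d N) : Pic (DOm c r) (dbl d) (nearD N) where
  refl := by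
    intro p hp
    have hs : dblpSame p p := by
      rcases le_total 0 p.im with h | h
      · exact Or.inl ⟨h, h⟩
      · exact Or.inr ⟨h, h⟩
    rw [dblp_same hs]
    exact H.refl _ hp
  symm := fun p hp q hq => dblp_symm H.toPic Hl hp hq
  tri := fun p hp q hq x hx => dblp_tri Hl H.toPic hp hq hx
  near_self := by
    intro p hp
    rcases le_total 0 p.im with h | h
    · have h1 : p ∈ Om c r := by rw [← dblp_fold_up h]; exact hp
      exact Or.inl ⟨h, h, H.near_self p h1⟩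
    · have h1 : (starRingEnd ℂ) p ∈ Om c r := by rw [← dblp_fold_down h]; exact hp
      exact Or.inr ⟨h, h, H.near_self _ h1⟩
  near_mem := fun x u h => dblp_near_mem H h
  near_eq := fun x u v hu hv =>
    dblp_near_eq Hl H hu hv (dblp_near_mem H hu).1 (dblp_near_mem H hv).1
  geo := fun p hp q hq ε hε => dblp_geo Hl H hp hq hε

end Pool.Agent.MIR
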