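import Mathlib
import Pool.Agent.MIR.Defs
import Pool.Agent.MIR.Basic

open MeasureTheory Set Filter Topology Manifold Bundle
open scoped ENNReal NNReal ContDiff

noncomputable section

namespace Pool.Agent.MIR

variable {k : ℕ} {c : Fin k → ℂ} {r : Fin k → ℝ} {d : ℂ → ℂ → ℝ} {N : ℂ → ℂ → Prop}

private lemma dblt_anti {T : ℂ →L[ℝ] ℂ} (hinj : ∀ v, T v = 0 → v = 0) :
    ∃ κ : ℝ, 0 < κ ∧ ∀ v, κ * ‖v‖ ≤ ‖T v‖ := by
  have hker : LinearMap.ker (T : ℂ →ₗ[ℝ] ℂ) = ⊥ := by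
    rw [LinearMap.ker_eq_bot']
    intro v hv
    exact hinj v hv
  obtain ⟨K, hK, hA⟩ := LinearMap.exists_antilipschitzWith (T : ℂ →ₗ[ℝ] ℂ) hker
  refine ⟨(K : ℝ)⁻¹, inv_pos.2 hK, fun v => ?_⟩
  have h1 := hA.le_mul_dist v 0
  rw [dist_zero_right, map_zero, dist_zero_right] at h1
  have hK' : (0 : ℝ) < K := hK
  rw [inv_mul_le_iff₀ hK']
  exact h1

private lemma dblt_not_mir (Hl : Holes c r) {p : ℂ} (hp : p ∈ interior (Om c r)) :
    p ∉ Mir c r := by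
  obtain ⟨-, h2, h3⟩ := interior_Om_sub hp Hl
  rintro ⟨-, h | ⟨j, hj⟩⟩
  · exact h2.ne' h
  · exact (h3 j).ne' hj

/-- the distance from an interior point to the mirror is positive -/
private lemma dblt_delta (Hl : Holes c r) (H : Half c r d (fun x u => x = u ∧ u ∈ Om c r))
    {p : ℂ} (hp : p ∈ interior (Om c r)) {T : ℂ →L[ℝ] ℂ} (hT : Tan d p T)
    (hinj : ∀ v, T v = 0 → v = 0) : ∃ δ : ℝ, 0 < δ ∧ ∀ y ∈ Mir c r, δ ≤ d p y := by
  obtain ⟨κ, hκ, hTκ⟩ := dblt_anti hinj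
  have h1 : ∀ᶠ q in 𝓝 p, ‖d p q - ‖T (q - p)‖‖ ≤ κ / 2 * ‖q - p‖ :=
    Asymptotics.IsLittleO.bound hT (by positivity)
  have h2 : ∀ᶠ q in 𝓝 p, q ∈ interior (Om c r) := isOpen_interior.mem_nhds hp
  obtain ⟨ρ, hρ, hball⟩ := Metric.nhds_basis_closedBall.mem_iff.1 (h1.and h2)
  refine ⟨κ / 2 * ρ, by positivity, ?_⟩
  intro y hy
  have hpO : p ∈ Om c r := interior_subset hp
  have hyO : y ∈ Om c r := mir_sub hy
  have hfar : ρ ≤ ‖y - p‖ := by
    by_contra h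
    have h3 : y ∈ Metric.closedBall p ρ := by
      rw [Metric.mem_closedBall, dist_eq_norm]
      exact (not_le.1 h).le
    exact dblt_not_mir Hl (hball h3).2 hy
  refine le_of_forall_pos_le_add fun ε hε => ?_
  obtain ⟨γ, hγ⟩ := H.geo p hpO y hyO ε hε
  have hcont : Continuous fun t => ‖γ t - p‖ := by
    have := γ.continuous
    fun_prop
  obtain ⟨t, ht⟩ := mem_range_of_exists_le_of_exists_ge hcont (c := ρ)
    ⟨0, by simp [hρ.le]⟩ ⟨1, by simpa using hfar⟩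
  obtain ⟨u, ⟨hu1, hu2⟩, hu3⟩ := hγ t
  subst hu1
  have h4 : γ t ∈ Metric.closedBall p ρ := by
    rw [Metric.mem_closedBall, dist_eq_norm]
    exact ht.le
  have h5 := (hball h4).1
  simp only at ht
  rw [ht, Real.norm_eq_abs] at h5
  have h6 := hTκ (γ t - p)
  rw [ht] at h6
  have h7 := (abs_le.1 h5).1
  have h8 := H.toPic.nonneg hu2 hyO
  linarith

theorem dbl_tan (Hl : Holes c r) (H : Half c r d (fun x u => x = u ∧ u ∈ Om c r))
    {d' : ℂ → ℂ → ℝ} (H' : Half c r d' N) (hle : ∀ p ∈ Om c r, ∀ q ∈ Om c r, d' p q ≤ d p q)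
    (hloc : Loc c r d d') {p : ℂ} (hp : p ∈ interior (Om c r)) {T : ℂ →L[ℝ] ℂ}
    (hT : Tan d p T) (hinj : ∀ v, T v = 0 → v = 0) :
    Tan (dbl d') p T := by
  obtain ⟨δ, hδ, hmir⟩ := dblt_delta Hl H hp hT hinj
  have hpO : p ∈ Om c r := interior_subset hp
  have hl := (hloc δ p hpO hmir).2
  have h1 : ∀ᶠ q in 𝓝 p, ‖d p q - ‖T (q - p)‖‖ ≤ 1 * ‖q - p‖ :=
    Asymptotics.IsLittleO.bound hT one_pos
  have h2 : ∀ᶠ q in 𝓝 p, q ∈ interior (Om c r) := isOpen_interior.mem_nhds hp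
  have h3 : ∀ᶠ q in 𝓝 p, ‖T (q - p)‖ + 1 * ‖q - p‖ < δ := by
    have hc : ContinuousAt (fun q : ℂ => ‖T (q - p)‖ + 1 * ‖q - p‖) p := by fun_prop
    have h0 : (fun q : ℂ => ‖T (q - p)‖ + 1 * ‖q - p‖) p < δ := by simpa using hδ
    exact hc.eventually_lt continuousAt_const h0
  unfold Tan
  refine Asymptotics.IsLittleO.congr' hT ?_ (EventuallyEq.refl _ _)
  filter_upwards [h1, h2, h3] with q hq1 hq2 hq3
  have hqO : q ∈ Om c r := interior_subset hq2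
  rw [Real.norm_eq_abs] at hq1
  have h4 : d p q < δ := by
    have := (abs_le.1 hq1).2
    linarith
  have h5 := hl q hqO
  rw [min_eq_left h4.le] at h5
  have h6 : d' p q = d p q := le_antisymm (hle p hpO q hqO) h5
  have h7 : dbl d' p q = d' p q := by
    unfold dbl fold
    rw [if_pos (Or.inl ⟨hpO.2.1, hqO.2.1⟩), if_pos hpO.2.1, if_pos hqO.2.1]
  rw [h7, h6]

end Pool.Agent.MIR
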