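import Mathlib
import Pool.Agent.MIR.Defs
import Pool.Agent.MIR.Basic
import Pool.Agent.H74.FAC.HP3

open MeasureTheory Set Filter Topology Manifold Bundle
open scoped ENNReal NNReal ContDiff

noncomputable section

namespace Pool.Agent.MIR

/-- the circle integral -/
def disc_G (f g : ℂ → ℝ) (s : ℝ) : ℝ :=
  ∫ t in (0 : ℝ)..(2 * Real.pi), f (hol 0 s t) * deriv (fun τ => g (hol 0 s τ)) t

private lemma disc_lip {f : ℂ → ℝ} {K : ℝ≥0} (hf : LipschitzWith K f) {s : ℝ} (hs : 0 ≤ s) :
    LipschitzWith (K * ⟨s, hs⟩) (fun t => f (hol 0 s t)) := by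
  apply hf.comp
  apply LipschitzWith.of_dist_le_mul
  intro x y
  rw [dist_eq_norm, Real.dist_eq]
  exact hol_sub_le 0 hs x y

private lemma disc_ac {f : ℂ → ℝ} {K : ℝ≥0} (hf : LipschitzWith K f) {s : ℝ} (hs : 0 ≤ s) (a b : ℝ) :
    AbsolutelyContinuousOnInterval (fun t => f (hol 0 s t)) a b :=
  (disc_lip hf hs).lipschitzOnWith.absolutelyContinuousOnInterval

private lemma disc_dbound {f : ℂ → ℝ} {K : ℝ≥0} (hf : LipschitzWith K f) {s : ℝ} (hs : 0 ≤ s) (t : ℝ) :
    ‖deriv (fun t => f (hol 0 s t)) t‖ ≤ K * s := by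
  have := norm_deriv_le_of_lipschitz (x₀ := t) (disc_lip hf hs)
  rw [NNReal.coe_mul] at this
  exact this

private lemma disc_per (f : ℂ → ℝ) (s : ℝ) : f (hol 0 s (2 * Real.pi)) = f (hol 0 s 0) := by
  have := hol_two_pi 0 s 0
  rw [zero_add] at this
  rw [this]

private lemma disc_ibp {f g : ℂ → ℝ} {K L : ℝ≥0} (hf : LipschitzWith K f) (hg : LipschitzWith L g) {s s' : ℝ}
    (hs : 0 ≤ s) (hs' : 0 ≤ s') :
    ∫ t in (0 : ℝ)..(2 * Real.pi), f (hol 0 s' t) * deriv (fun τ => g (hol 0 s τ)) t =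
      - ∫ t in (0 : ℝ)..(2 * Real.pi), deriv (fun τ => f (hol 0 s' τ)) t * g (hol 0 s t) := by
  rw [(disc_ac hf hs' 0 (2 * Real.pi)).integral_mul_deriv_eq_deriv_mul (disc_ac hg hs 0 (2 * Real.pi)),
    disc_per f s', disc_per g s, sub_self, zero_sub]

private lemma disc_rad {f : ℂ → ℝ} {K : ℝ≥0} (hf : LipschitzWith K f) (s s' t : ℝ) :
    |f (hol 0 s t) - f (hol 0 s' t)| ≤ K * |s - s'| := by
  have h1 := hf.dist_le_mul (hol 0 s t) (hol 0 s' t)
  rw [Real.dist_eq, dist_eq_norm] at h1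
  have h2 : hol 0 s t - hol 0 s' t = ((s - s' : ℝ) : ℂ) * cis t := by
    simp [hol]; ring
  rw [h2, norm_mul, norm_cis, mul_one, Complex.norm_real, Real.norm_eq_abs] at h1
  exact h1

private lemma disc_G_sub {f g : ℂ → ℝ} {K L : ℝ≥0} (hf : LipschitzWith K f) (hg : LipschitzWith L g)
    {R s s' : ℝ} (hs : 0 ≤ s) (hs' : 0 ≤ s') (hsR : s ≤ R) (hsR' : s' ≤ R) :
    |disc_G f g s - disc_G f g s'| ≤ (4 * Real.pi * K * L * R) * |s - s'| := by
  have hpi := Real.pi_pos
  have i1 : ∀ {a b : ℝ}, 0 ≤ a → 0 ≤ b → IntervalIntegrable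
      (fun t => f (hol 0 a t) * deriv (fun τ => g (hol 0 b τ)) t) volume 0 (2 * Real.pi) := by
    intro a b ha hb
    exact (disc_ac hg hb 0 (2 * Real.pi)).intervalIntegrable_deriv.continuousOn_mul
      (disc_ac hf ha 0 (2 * Real.pi)).continuousOn
  have i2 : ∀ {a b : ℝ}, 0 ≤ a → 0 ≤ b → IntervalIntegrable
      (fun t => deriv (fun τ => f (hol 0 a τ)) t * g (hol 0 b t)) volume 0 (2 * Real.pi) := by
    intro a b ha hb
    exact (disc_ac hf ha 0 (2 * Real.pi)).intervalIntegrable_deriv.mul_continuousOn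
      (disc_ac hg hb 0 (2 * Real.pi)).continuousOn
  have e1 : disc_G f g s - disc_G f g s' =
      (∫ t in (0 : ℝ)..(2 * Real.pi), (f (hol 0 s t) - f (hol 0 s' t)) * deriv (fun τ => g (hol 0 s τ)) t)
      - ∫ t in (0 : ℝ)..(2 * Real.pi), deriv (fun τ => f (hol 0 s' τ)) t * (g (hol 0 s t) - g (hol 0 s' t)) := by
    simp_rw [sub_mul, mul_sub]
    rw [intervalIntegral.integral_sub (i1 hs hs) (i1 hs' hs), intervalIntegral.integral_sub (i2 hs' hs) (i2 hs' hs')]
    rw [disc_ibp hf hg hs hs']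
    have h2 := disc_ibp hf hg hs' hs'
    simp only [disc_G]
    rw [h2]
    ring
  rw [e1]
  have b1 : ‖∫ t in (0 : ℝ)..(2 * Real.pi), (f (hol 0 s t) - f (hol 0 s' t)) *
      deriv (fun τ => g (hol 0 s τ)) t‖ ≤ (K * |s - s'| * (L * R)) * |2 * Real.pi - 0| := by
    apply intervalIntegral.norm_integral_le_of_norm_le_const
    intro t _
    rw [norm_mul, Real.norm_eq_abs]
    have h1 := disc_rad hf s s' t
    have h2 := disc_dbound hg hs t
    have h3 : (L : ℝ) * s ≤ L * R := by gcongr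
    have h4 := h2.trans h3
    gcongr
  have b2 : ‖∫ t in (0 : ℝ)..(2 * Real.pi), deriv (fun τ => f (hol 0 s' τ)) t *
      (g (hol 0 s t) - g (hol 0 s' t))‖ ≤ ((K * R) * (L * |s - s'|)) * |2 * Real.pi - 0| := by
    apply intervalIntegral.norm_integral_le_of_norm_le_const
    intro t _
    rw [norm_mul]
    have h1 := disc_rad hg s s' t
    have h2 := disc_dbound hf hs' t
    have h3 : (K : ℝ) * s' ≤ K * R := by gcongr
    have h4 := h2.trans h3
    have hR : 0 ≤ R := hs.trans hsR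
    rw [Real.norm_eq_abs (g (hol 0 s t) - g (hol 0 s' t))]
    gcongr
  rw [Real.norm_eq_abs] at b1 b2
  have h0 : |2 * Real.pi - 0| = 2 * Real.pi := by rw [sub_zero, abs_of_pos (by positivity)]
  rw [h0] at b1 b2
  refine (abs_sub _ _).trans ((add_le_add b1 b2).trans (le_of_eq ?_))
  ring

/-- the derivative along the circles -/
def disc_D (g : ℂ → ℝ) (z : ℂ) : ℝ := deriv (fun τ => g (z * cis τ)) 0

private lemma disc_D_hol (g : ℂ → ℝ) (s t : ℝ) :
    disc_D g (hol 0 s t) = deriv (fun τ => g (hol 0 s τ)) t := by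
  have h1 : (fun τ => g (hol 0 s t * cis τ)) = fun τ => (fun τ => g (hol 0 s τ)) (t + τ) := by
    funext τ
    simp only [hol, zero_add]
    rw [cis_add]
    congr 1; ring
  rw [disc_D, h1]
  have h2 := deriv_comp_const_add (f := fun τ => g (hol 0 s τ)) t 0
  rw [add_zero] at h2
  exact h2

private lemma disc_hasDeriv_cis : HasDerivAt cis Complex.I 0 := by
  have h1 : HasDerivAt (fun t : ℝ => (t : ℂ) * Complex.I) Complex.I 0 := by
    simpa using (Complex.ofRealCLM.hasDerivAt (x := (0 : ℝ))).mul_const Complex.I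
  have h2 := h1.cexp
  change HasDerivAt (fun t : ℝ => Complex.exp (t * Complex.I)) Complex.I 0
  simpa using h2

private lemma disc_D_fderiv {g : ℂ → ℝ} {z : ℂ} (hz : DifferentiableAt ℝ g z) :
    disc_D g z = fderiv ℝ g z (Complex.I * z) := by
  have h1 : HasDerivAt (fun τ : ℝ => z * cis τ) (z * Complex.I) 0 := disc_hasDeriv_cis.const_mul z
  have h2 : HasFDerivAt g (fderiv ℝ g z) (z * cis 0) := by
    rw [cis_zero, mul_one]; exact hz.hasFDerivAt
  have h3 := (h2.comp_hasDerivAt (0 : ℝ) h1).deriv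
  rw [disc_D, mul_comm Complex.I z]
  exact h3

private lemma disc_polar {f g : ℂ → ℝ} {K L : ℝ≥0} (hf : LipschitzWith K f) (hg : LipschitzWith L g)
    {a R : ℝ} (ha : 0 ≤ a) :
    ∫ z, {z : ℂ | a < ‖z‖ ∧ ‖z‖ < R}.indicator (fun z => f z * disc_D g z / ‖z‖) z =
      ∫ s in Ioo a R, disc_G f g s := by
  have hpi := Real.pi_pos
  set F : ℂ → ℝ := {z : ℂ | a < ‖z‖ ∧ ‖z‖ < R}.indicator (fun z => f z * disc_D g z / ‖z‖) with hF
  set Φ : ℝ × ℝ → ℝ := fun p => f (hol 0 p.1 p.2) * deriv (fun τ => g (hol 0 p.1 τ)) p.2 with hΦ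
  have cont : Continuous (fun p : ℝ × ℝ => hol 0 p.1 p.2) := by
    unfold hol
    have := continuous_cis
    fun_prop
  rw [← Complex.integral_comp_polarCoord_symm]
  have hT : (polarCoord.target : Set (ℝ × ℝ)) = Ioi (0 : ℝ) ×ˢ Ioo (-Real.pi) Real.pi := rfl
  have mT : MeasurableSet (polarCoord.target : Set (ℝ × ℝ)) := by
    rw [hT]; exact measurableSet_Ioi.prod measurableSet_Ioo
  have mS : MeasurableSet (Ioo a R ×ˢ (univ : Set ℝ)) := measurableSet_Ioo.prod MeasurableSet.univ
  have e1 : ∫ p in polarCoord.target, p.1 • F (Complex.polarCoord.symm p) =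
      ∫ p in polarCoord.target, (Ioo a R ×ˢ (univ : Set ℝ)).indicator Φ p := by
    apply setIntegral_congr_fun mT
    rintro ⟨s, t⟩ hp
    rw [hT] at hp
    obtain ⟨hs, ht⟩ := hp
    simp only [mem_Ioi] at hs
    have e2 : Complex.polarCoord.symm (s, t) = hol 0 s t := by
      rw [Complex.polarCoord_symm_apply]
      simp only [hol, zero_add]
      congr 1
      apply Complex.ext
      · rw [cis_re]; simp [Complex.cos_ofReal_re]
      · rw [cis_im]; simp [Complex.sin_ofReal_re]
    have e3 : ‖hol 0 s t‖ = s := by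
      have := norm_hol_sub 0 hs.le t
      rwa [sub_zero] at this
    simp only []
    rw [e2]
    by_cases h : a < s ∧ s < R
    · rw [hF, indicator_of_mem (show hol 0 s t ∈ {z : ℂ | a < ‖z‖ ∧ ‖z‖ < R} by
          simp only [mem_ofPred_eq, e3]; exact h),
        indicator_of_mem (show ((s, t) : ℝ × ℝ) ∈ Ioo a R ×ˢ (univ : Set ℝ) from ⟨h, mem_univ _⟩), e3, disc_D_hol]
      simp only [hΦ, smul_eq_mul]
      field_simp
    · rw [hF, indicator_of_notMem (show hol 0 s t ∉ {z : ℂ | a < ‖z‖ ∧ ‖z‖ < R} by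
          simp only [mem_ofPred_eq, e3]; exact h),
        indicator_of_notMem (show ((s, t) : ℝ × ℝ) ∉ Ioo a R ×ˢ (univ : Set ℝ) from fun h' => h h'.1), smul_zero]
  rw [e1, setIntegral_indicator mS]
  have e4 : (polarCoord.target : Set (ℝ × ℝ)) ∩ (Ioo a R ×ˢ (univ : Set ℝ)) =
      Ioo a R ×ˢ Ioo (-Real.pi) Real.pi := by
    rw [hT]
    ext ⟨s, t⟩
    simp only [mem_inter_iff, mem_prod, mem_Ioi, mem_Ioo, mem_univ, and_true]
    constructor
    · rintro ⟨⟨_, h1⟩, h2⟩; exact ⟨h2, h1⟩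
    · rintro ⟨h2, h1⟩; exact ⟨⟨ha.trans_lt h2.1, h1⟩, h2⟩
  rw [e4]
  have iΦ : IntegrableOn Φ (Ioo a R ×ˢ Ioo (-Real.pi) Real.pi) (volume.prod volume) := by
    apply Measure.integrableOn_of_bounded (M := (|f 0| + K * R) * (L * R))
    · rw [Measure.prod_prod]
      simp only [Real.volume_Ioo]
      exact ENNReal.mul_ne_top ENNReal.ofReal_ne_top ENNReal.ofReal_ne_top
    · apply AEStronglyMeasurable.mul
      · exact (hf.continuous.comp cont).aestronglyMeasurable
      · exact aestronglyMeasurable_deriv_with_param (f := fun s τ => g (hol 0 s τ))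
          (hg.continuous.comp cont) _
    · rw [ae_restrict_iff' (measurableSet_Ioo.prod measurableSet_Ioo)]
      filter_upwards with p hp
      obtain ⟨⟨h1, h2⟩, _⟩ := hp
      have h0 : 0 ≤ p.1 := ha.trans h1.le
      simp only [hΦ]
      rw [norm_mul]
      have b1 : ‖f (hol 0 p.1 p.2)‖ ≤ |f 0| + K * R := by
        have h3 := hf.dist_le_mul (hol 0 p.1 p.2) 0
        have e3 : ‖hol 0 p.1 p.2‖ = p.1 := by
          have := norm_hol_sub 0 h0 p.2
          rwa [sub_zero] at this
        rw [Real.dist_eq, dist_zero_right, e3] at h3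
        have h4 : (K : ℝ) * p.1 ≤ K * R := by gcongr
        have h5 := abs_sub_abs_le_abs_sub (f (hol 0 p.1 p.2)) (f 0)
        rw [Real.norm_eq_abs]
        linarith
      have b2 : ‖deriv (fun τ => g (hol 0 p.1 τ)) p.2‖ ≤ L * R :=
        (disc_dbound hg h0 p.2).trans (by gcongr)
      have b3 : 0 ≤ |f 0| + K * R := (norm_nonneg _).trans b1
      gcongr
  rw [Measure.volume_eq_prod, setIntegral_prod _ iΦ]
  apply setIntegral_congr_fun measurableSet_Ioo
  intro s hs
  have hs0 : 0 ≤ s := ha.trans hs.1.le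
  simp only [hΦ]
  rw [← integral_Ioc_eq_integral_Ioo, ← intervalIntegral.integral_of_le (by linarith)]
  have hper : Function.Periodic (fun t => f (hol 0 s t) * deriv (fun τ => g (hol 0 s τ)) t) (2 * Real.pi) := by
    intro t
    simp only []
    rw [hol_two_pi]
    congr 1
    rw [← deriv_comp_add_const (fun τ => g (hol 0 s τ)) (2 * Real.pi) t]
    simp only [hol_two_pi]
  have h1 := hper.intervalIntegral_add_eq (-Real.pi) 0
  have h2 : -Real.pi + 2 * Real.pi = Real.pi := by ring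
  rw [h2, zero_add] at h1
  rw [h1, disc_G]

private lemma disc_ae {f : ℂ → ℝ} {K : ℝ≥0} (hf : LipschitzWith K f) (v : ℂ) :
    (fun z => lineDeriv ℝ f z v) =ᵐ[volume] fun z => fderiv ℝ f z v := by
  filter_upwards [hf.ae_differentiableAt (μ := volume)] with z hz
  exact hz.lineDeriv_eq_fderiv

private lemma disc_prodint {f g : ℂ → ℝ} {K L : ℝ≥0} (hf : LipschitzWith K f) (cf : HasCompactSupport f)
    (hg : LipschitzWith L g) (v w : ℂ) :
    Integrable (fun z => fderiv ℝ f z v * fderiv ℝ g z w) := by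
  have h1 : Integrable (fun z => fderiv ℝ f z v) :=
    (Pool.Agent.H74.FAC.integrable_lineDeriv (μ := volume) hf cf v).congr (disc_ae hf v)
  refine h1.mul_bdd (c := L * ‖w‖) ?_ ?_
  · exact (measurable_fderiv_apply_const ℝ g w).aestronglyMeasurable
  · filter_upwards with x
    exact ((fderiv ℝ g x).le_opNorm w).trans
      (mul_le_mul_of_nonneg_right (norm_fderiv_le_of_lipschitz ℝ hg) (norm_nonneg _))

private lemma disc_Jint {f g : ℂ → ℝ} {K L : ℝ≥0} (hf : LipschitzWith K f) (cf : HasCompactSupport f)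
    (hg : LipschitzWith L g) : Integrable (Jw f g) :=
  (disc_prodint hf cf hg 1 Complex.I).sub (disc_prodint hf cf hg Complex.I 1)

private lemma disc_J0 {f g : ℂ → ℝ} {K L : ℝ≥0} (hf : LipschitzWith K f) (cf : HasCompactSupport f)
    (hg : LipschitzWith L g) (cg : HasCompactSupport g) : ∫ z, Jw f g z = 0 := by
  simp only [Jw]
  rw [integral_sub (disc_prodint hf cf hg 1 Complex.I) (disc_prodint hf cf hg Complex.I 1)]
  have h := Pool.Agent.H74.FAC.integral_lineDeriv_swap (μ := (volume : Measure ℂ)) hf cf hg cg 1 Complex.I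
  have e1 : ∫ z, lineDeriv ℝ f z 1 * lineDeriv ℝ g z Complex.I = ∫ z, fderiv ℝ f z 1 * fderiv ℝ g z Complex.I := by
    apply integral_congr_ae
    filter_upwards [disc_ae hf 1, disc_ae hg Complex.I] with z h1 h2
    rw [h1, h2]
  have e2 : ∫ z, lineDeriv ℝ f z Complex.I * lineDeriv ℝ g z 1 = ∫ z, fderiv ℝ f z Complex.I * fderiv ℝ g z 1 := by
    apply integral_congr_ae
    filter_upwards [disc_ae hf Complex.I, disc_ae hg 1] with z h1 h2
    rw [h1, h2]
  rw [← e1, ← e2, h, sub_self]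

/-- the radial cut-off -/
def disc_rho (R ε : ℝ) (z : ℂ) : ℝ := max 0 (min 1 ((R - ‖z‖) / ε))

private lemma disc_rho_lip {R ε : ℝ} (hε : 0 < ε) : LipschitzWith ⟨1 / ε, by positivity⟩ (disc_rho R ε) := by
  apply LipschitzWith.const_max
  apply LipschitzWith.const_min
  apply LipschitzWith.of_dist_le_mul
  intro z w
  rw [Real.dist_eq, dist_eq_norm]
  have h1 : (R - ‖z‖) / ε - (R - ‖w‖) / ε = (‖w‖ - ‖z‖) / ε := by ring
  rw [h1, abs_div, abs_of_pos hε]
  have h2 : |‖w‖ - ‖z‖| ≤ ‖z - w‖ := by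
    rw [norm_sub_rev z w]; exact abs_norm_sub_norm_le w z
  change |‖w‖ - ‖z‖| / ε ≤ 1 / ε * ‖z - w‖
  rw [div_eq_mul_one_div, mul_comm]
  gcongr

private lemma disc_rho_abs (R ε : ℝ) (z : ℂ) : |disc_rho R ε z| ≤ 1 := by
  rw [disc_rho, abs_of_nonneg (le_max_left _ _)]
  exact max_le zero_le_one (min_le_left _ _)

private lemma disc_rho_in {R ε : ℝ} (hε : 0 < ε) {z : ℂ} (hz : ‖z‖ < R - ε) :
    fderiv ℝ (disc_rho R ε) z = 0 := by
  have h : disc_rho R ε =ᶠ[𝓝 z] fun _ => (1 : ℝ) := by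
    have h1 : ∀ᶠ w in 𝓝 z, ‖w‖ < R - ε := continuous_norm.continuousAt.eventually_lt_const hz
    filter_upwards [h1] with w hw
    have h2 : 1 ≤ (R - ‖w‖) / ε := by rw [le_div_iff₀ hε]; linarith
    rw [disc_rho, min_eq_left h2, max_eq_right zero_le_one]
  rw [h.fderiv_eq, fderiv_fun_const]
  rfl

private lemma disc_rho_out {R ε : ℝ} (hε : 0 < ε) {z : ℂ} (hz : R < ‖z‖) :
    fderiv ℝ (disc_rho R ε) z = 0 := by
  have h : disc_rho R ε =ᶠ[𝓝 z] fun _ => (0 : ℝ) := by
    have h1 : ∀ᶠ w in 𝓝 z, R < ‖w‖ := continuous_norm.continuousAt.eventually_const_lt hz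
    filter_upwards [h1] with w hw
    have h2 : (R - ‖w‖) / ε ≤ 0 := div_nonpos_of_nonpos_of_nonneg (by linarith) hε.le
    rw [disc_rho, max_eq_left ((min_le_right _ _).trans h2)]
  rw [h.fderiv_eq, fderiv_fun_const]
  rfl

private lemma disc_norm_fderiv {z : ℂ} (hz : z ≠ 0) (v : ℂ) :
    HasFDerivAt (fun w : ℂ => ‖w‖) (fderiv ℝ (fun w : ℂ => ‖w‖) z) z ∧
    fderiv ℝ (fun w : ℂ => ‖w‖) z v = (z.re * v.re + z.im * v.im) / ‖z‖ := by
  have h0 : ‖z‖ ≠ 0 := norm_ne_zero_iff.2 hz
  have h1 : HasFDerivAt (fun w : ℂ => w.re ^ 2 + w.im ^ 2)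
      ((2 * z.re) • Complex.reCLM + (2 * z.im) • Complex.imCLM) z := by
    have a := (Complex.reCLM.hasFDerivAt (x := z)).pow 2
    have b := (Complex.imCLM.hasFDerivAt (x := z)).pow 2
    refine (a.add b).congr_fderiv ?_
    ext w <;> simp
  have h2 : (fun w : ℂ => ‖w‖) = fun w : ℂ => √(w.re ^ 2 + w.im ^ 2) := by
    funext w
    rw [Complex.norm_eq_sqrt_sq_add_sq]
  have h3 : z.re ^ 2 + z.im ^ 2 ≠ 0 := by
    intro h
    apply h0
    rw [Complex.norm_eq_sqrt_sq_add_sq, h, Real.sqrt_zero]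
  have h4 := h1.sqrt h3
  have h5 : HasFDerivAt (fun w : ℂ => ‖w‖) (fderiv ℝ (fun w : ℂ => ‖w‖) z) z := by
    rw [h2]
    exact h4.differentiableAt.hasFDerivAt
  refine ⟨h5, ?_⟩
  rw [h2, h4.fderiv]
  simp only [smul_apply, add_apply, Complex.reCLM_apply,
    Complex.imCLM_apply, smul_eq_mul]
  rw [Complex.norm_eq_sqrt_sq_add_sq]
  have h6 : √(z.re ^ 2 + z.im ^ 2) ≠ 0 := by
    rw [← Complex.norm_eq_sqrt_sq_add_sq]; exact h0
  field_simp

private lemma disc_rho_mid {R ε : ℝ} (hε : 0 < ε) (hεR : ε ≤ R) {z : ℂ} (h1 : R - ε < ‖z‖) (h2 : ‖z‖ < R)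
    (v : ℂ) : fderiv ℝ (disc_rho R ε) z v = - (1 / ε) * ((z.re * v.re + z.im * v.im) / ‖z‖) := by
  have hz : z ≠ 0 := by
    intro h
    rw [h, norm_zero] at h1
    linarith
  have h : disc_rho R ε =ᶠ[𝓝 z] fun w => (R - ‖w‖) / ε := by
    have a1 : ∀ᶠ w in 𝓝 z, R - ε < ‖w‖ := continuous_norm.continuousAt.eventually_const_lt h1
    have a2 : ∀ᶠ w in 𝓝 z, ‖w‖ < R := continuous_norm.continuousAt.eventually_lt_const h2
    filter_upwards [a1, a2] with w hw1 hw2
    have h3 : (R - ‖w‖) / ε ≤ 1 := by rw [div_le_one hε]; linarith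
    have h4 : 0 ≤ (R - ‖w‖) / ε := div_nonneg (by linarith) hε.le
    rw [disc_rho, min_eq_right h3, max_eq_right h4]
  obtain ⟨d1, d2⟩ := disc_norm_fderiv hz v
  have d3 : HasFDerivAt (fun w : ℂ => (R - ‖w‖) / ε) ((-(1 / ε)) • fderiv ℝ (fun w : ℂ => ‖w‖) z) z := by
    have h5 := (d1.const_sub R).mul_const (1 / ε)
    have h6 : (fun w : ℂ => (R - ‖w‖) / ε) = fun w : ℂ => (R - ‖w‖) * (1 / ε) := by
      funext w; ring
    rw [h6]
    refine h5.congr_fderiv ?_
    rw [smul_neg, neg_smul]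
  rw [h.fderiv_eq, d3.fderiv]
  simp only [smul_apply, smul_eq_mul, d2]

private lemma disc_cut {f g : ℂ → ℝ} {K L : ℝ≥0} (hf : LipschitzWith K f) (cf : HasCompactSupport f)
    (hg : LipschitzWith L g) (cg : HasCompactSupport g) {R ε : ℝ} (hε : 0 < ε) (hεR : ε ≤ R) :
    ∫ z, disc_rho R ε z * Jw f g z = (1 / ε) * ∫ s in Ioo (R - ε) R, disc_G f g s := by
  obtain ⟨B, hB⟩ := cf.exists_bound_of_continuous hf.continuous
  obtain ⟨C, hC⟩ := Pool.Agent.H74.FAC.lip_mul (disc_rho_lip (R := R) hε) hf (disc_rho_abs R ε)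
    (fun x => by simpa [Real.norm_eq_abs] using hB x)
  have cs : HasCompactSupport (fun z => disc_rho R ε z * f z) := cf.mul_left
  have z0 := disc_J0 hC cs hg cg
  have i1 := disc_Jint hC cs hg
  have i2 : Integrable (fun z => disc_rho R ε z * Jw f g z) := by
    refine (disc_Jint hf cf hg).bdd_mul (c := 1) ?_ ?_
    · exact (disc_rho_lip hε).continuous.aestronglyMeasurable
    · filter_upwards with x
      rw [Real.norm_eq_abs]; exact disc_rho_abs R ε x
  set S : Set ℂ := {z : ℂ | R - ε < ‖z‖ ∧ ‖z‖ < R} with hS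
  have key : ∀ᵐ z, S.indicator (fun z => f z * disc_D g z / ‖z‖) z =
      ε * (disc_rho R ε z * Jw f g z - Jw (fun z => disc_rho R ε z * f z) g z) := by
    have n1 : ∀ r : ℝ, ∀ᵐ z : ℂ, ‖z‖ ≠ r := by
      intro r
      have := Measure.addHaar_sphere (volume : Measure ℂ) 0 r
      rw [ae_iff]
      convert this using 2
      ext z
      simp
    filter_upwards [hf.ae_differentiableAt (μ := volume), hg.ae_differentiableAt (μ := volume),
      (disc_rho_lip (R := R) hε).ae_differentiableAt (μ := volume), n1 R, n1 (R - ε)] with z d1 d2 d3 n2 n3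
    have hJ : Jw (fun z => disc_rho R ε z * f z) g z = disc_rho R ε z * Jw f g z + f z * Jw (disc_rho R ε) g z := by
      simp only [Jw]
      rw [fderiv_fun_mul d3 d1]
      simp only [add_apply, smul_apply, smul_eq_mul]
      ring
    rw [hJ]
    rcases lt_or_gt_of_ne n2 with h2 | h2
    · rcases lt_or_gt_of_ne n3 with h3 | h3
      · rw [indicator_of_notMem (fun h => absurd h.1 (not_lt.2 h3.le))]
        simp only [Jw, disc_rho_in hε h3, zero_apply]
        ring
      · rw [indicator_of_mem (show z ∈ S from ⟨h3, h2⟩), disc_D_fderiv d2]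
        have hz : ‖z‖ ≠ 0 := by
          intro h
          rw [h] at h3
          linarith
        have hI : fderiv ℝ g z (Complex.I * z) = z.re * fderiv ℝ g z Complex.I - z.im * fderiv ℝ g z 1 := by
          have : Complex.I * z = z.re • Complex.I - z.im • (1 : ℂ) := by
            apply Complex.ext <;> simp
          rw [this, map_sub, map_smul, map_smul, smul_eq_mul, smul_eq_mul]
        rw [hI]
        simp only [Jw, disc_rho_mid hε hεR h3 h2, Complex.one_re, Complex.one_im, Complex.I_re, Complex.I_im]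
        field_simp
        ring
    · rw [indicator_of_notMem (fun h => absurd h.2 (not_lt.2 h2.le))]
      simp only [Jw, disc_rho_out hε h2, zero_apply]
      ring
  have h1 := disc_polar hf hg (a := R - ε) (R := R) (by linarith)
  rw [← h1, integral_congr_ae key, integral_const_mul, integral_sub i2 i1, z0, sub_zero]
  field_simp

private lemma disc_avg {f g : ℂ → ℝ} {K L : ℝ≥0} (hf : LipschitzWith K f) (hg : LipschitzWith L g)
    {R ε : ℝ} (hε : 0 < ε) (hεR : ε ≤ R) :
    |(1 / ε) * (∫ s in Ioo (R - ε) R, disc_G f g s) - disc_G f g R| ≤ (4 * Real.pi * K * L * R) * ε := by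
  have hpi := Real.pi_pos
  have hR : 0 < R := by linarith
  have hL : ∀ x ∈ Icc 0 R, ∀ y ∈ Icc 0 R, dist (disc_G f g x) (disc_G f g y) ≤
      (⟨4 * Real.pi * K * L * R, by positivity⟩ : ℝ≥0) * dist x y := by
    intro x hx y hy
    rw [Real.dist_eq, Real.dist_eq]
    exact disc_G_sub hf hg hx.1 hy.1 hx.2 hy.2
  have hc : ContinuousOn (disc_G f g) (Icc 0 R) := (LipschitzOnWith.of_dist_le_mul hL).continuousOn
  have hi : IntegrableOn (disc_G f g) (Ioo (R - ε) R) :=
    (hc.integrableOn_Icc).mono_set (fun x hx => ⟨by linarith [hx.1], hx.2.le⟩)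
  have hvol : (volume : Measure ℝ).real (Ioo (R - ε) R) = ε := by
    rw [Measure.real, Real.volume_Ioo, ENNReal.toReal_ofReal (by linarith)]; ring
  have e : (1 / ε) * (∫ s in Ioo (R - ε) R, disc_G f g s) - disc_G f g R =
      (1 / ε) * ∫ s in Ioo (R - ε) R, (disc_G f g s - disc_G f g R) := by
    rw [integral_sub hi (integrableOn_const (by simp)), setIntegral_const, hvol, smul_eq_mul]
    field_simp
  rw [e, abs_mul, abs_of_pos (by positivity : 0 < 1 / ε)]
  have hb := norm_setIntegral_le_of_norm_le_const (μ := volume) (s := Ioo (R - ε) R)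
    (f := fun s => disc_G f g s - disc_G f g R) (C := (4 * Real.pi * K * L * R) * ε) (by simp) (fun s hs => by
      rw [Real.norm_eq_abs]
      refine (disc_G_sub hf hg (by linarith [hs.1]) hR.le hs.2.le le_rfl).trans ?_
      have : |s - R| ≤ ε := by rw [abs_le]; constructor <;> linarith [hs.1, hs.2]
      gcongr)
  rw [Real.norm_eq_abs, hvol] at hb
  calc 1 / ε * |∫ s in Ioo (R - ε) R, (disc_G f g s - disc_G f g R)|
      ≤ 1 / ε * ((4 * Real.pi * K * L * R) * ε * ε) := by gcongr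
    _ = (4 * Real.pi * K * L * R) * ε := by field_simp

private lemma disc_core {f g : ℂ → ℝ} {K L : ℝ≥0} (hf : LipschitzWith K f) (cf : HasCompactSupport f)
    (hg : LipschitzWith L g) (cg : HasCompactSupport g) {R : ℝ} (hR : 0 < R) :
    ∫ z in Metric.ball 0 R, Jw f g z = disc_G f g R := by
  have hpi := Real.pi_pos
  set e : ℕ → ℝ := fun n => R / ((n : ℝ) + 1) with he
  have he0 : ∀ n, 0 < e n := fun n => by positivity
  have heR : ∀ n, e n ≤ R := fun n => by
    rw [he]; simp only []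
    rw [div_le_iff₀ (by positivity)]
    nlinarith [Nat.cast_nonneg (α := ℝ) n]
  have helim : Tendsto e atTop (𝓝 0) := by
    have := (tendsto_one_div_add_atTop_nhds_zero_nat (𝕜 := ℝ)).const_mul R
    rw [mul_zero] at this
    refine this.congr fun n => ?_
    rw [he]; simp only []; ring
  have L1 : Tendsto (fun n : ℕ => ∫ z, disc_rho R (e n) z * Jw f g z) atTop
      (𝓝 (∫ z in Metric.ball 0 R, Jw f g z)) := by
    rw [← integral_indicator Metric.isOpen_ball.measurableSet]
    apply tendsto_integral_of_dominated_convergence (fun z => ‖Jw f g z‖)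
    · intro n
      exact ((disc_rho_lip (he0 n)).continuous.aestronglyMeasurable).mul
        (disc_Jint hf cf hg).aestronglyMeasurable
    · exact (disc_Jint hf cf hg).norm
    · intro n
      filter_upwards with z
      rw [norm_mul, Real.norm_eq_abs]
      calc |disc_rho R (e n) z| * ‖Jw f g z‖ ≤ 1 * ‖Jw f g z‖ := by
            gcongr
            exact disc_rho_abs _ _ z
        _ = _ := one_mul _
    · filter_upwards with z
      by_cases hz : z ∈ Metric.ball (0 : ℂ) R
      · rw [indicator_of_mem hz]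
        rw [mem_ball_zero_iff] at hz
        have t0 := helim.eventually_lt_const (sub_pos.2 hz)
        apply tendsto_const_nhds.congr'
        filter_upwards [t0] with n hn
        have : 1 ≤ (R - ‖z‖) / e n := by
          rw [one_le_div (he0 n)]; exact hn.le
        rw [disc_rho, min_eq_left this, max_eq_right zero_le_one, one_mul]
      · rw [indicator_of_notMem hz]
        rw [mem_ball_zero_iff, not_lt] at hz
        apply tendsto_const_nhds.congr'
        filter_upwards with n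
        have h1 : (R - ‖z‖) / e n ≤ 0 := div_nonpos_of_nonpos_of_nonneg (by linarith) (he0 n).le
        rw [disc_rho, max_eq_left ((min_le_right _ _).trans h1), zero_mul]
  have L2 : Tendsto (fun n : ℕ => ∫ z, disc_rho R (e n) z * Jw f g z) atTop (𝓝 (disc_G f g R)) := by
    rw [tendsto_iff_dist_tendsto_zero]
    have lim : Tendsto (fun n : ℕ => (4 * Real.pi * K * L * R) * e n) atTop (𝓝 0) := by
      simpa using helim.const_mul (4 * Real.pi * K * L * R)
    apply squeeze_zero (fun _ => dist_nonneg) _ lim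
    intro n
    rw [Real.dist_eq, disc_cut hf cf hg cg (he0 n) (heR n)]
    exact disc_avg hf hg (he0 n) (heR n)
  exact tendsto_nhds_unique L1 L2

private lemma disc_trunc {f : ℂ → ℝ} {K : ℝ≥0} (hf : LipschitzWith K f) {R : ℝ} (hR : 0 < R) :
    ∃ (f1 : ℂ → ℝ) (C : ℝ≥0), LipschitzWith C f1 ∧ HasCompactSupport f1 ∧ ∀ z, ‖z‖ < R → f1 z = f z := by
  set M : ℝ := |f 0| + (K + (K + 1)) * R with hM
  set B : ℂ → ℝ := fun z => max 0 (M - (K + 1) * ‖z‖) with hB
  have hK0 : (0 : ℝ) ≤ K := K.2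
  have hM0 : 0 ≤ M := by positivity
  have hB0 : ∀ z, 0 ≤ B z := fun z => le_max_left _ _
  have hBL : LipschitzWith (K + 1) B := by
    apply LipschitzWith.const_max
    apply LipschitzWith.of_dist_le_mul
    intro z w
    rw [Real.dist_eq, dist_eq_norm]
    have h1 : M - (K + 1) * ‖z‖ - (M - (K + 1) * ‖w‖) = (K + 1) * (‖w‖ - ‖z‖) := by ring
    rw [h1, abs_mul, abs_of_pos (by positivity)]
    have h2 : |‖w‖ - ‖z‖| ≤ ‖z - w‖ := by
      rw [norm_sub_rev z w]; exact abs_norm_sub_norm_le w z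
    push_cast
    gcongr
  refine ⟨fun z => max (-B z) (min (f z) (B z)), max (K + 1) (max K (K + 1)), ?_, ?_, ?_⟩
  · exact hBL.neg.max (hf.min hBL)
  · apply HasCompactSupport.of_support_subset_isCompact (isCompact_closedBall (0 : ℂ) (M / (K + 1)))
    intro z hz
    rw [mem_closedBall_zero_iff]
    by_contra h
    push Not at h
    apply hz
    have h1 : M - (K + 1) * ‖z‖ ≤ 0 := by
      rw [div_lt_iff₀ (by positivity)] at h
      linarith
    have h2 : B z = 0 := max_eq_left h1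
    simp only [h2, neg_zero]
    exact max_eq_left (min_le_right _ _)
  · intro z hz
    have h1 := hf.dist_le_mul z 0
    rw [Real.dist_eq, dist_zero_right] at h1
    have h5 := abs_sub_abs_le_abs_sub (f z) (f 0)
    have h6 : |f z| ≤ B z := by
      refine le_trans ?_ (le_max_right _ _)
      have h7 : (K : ℝ) * ‖z‖ ≤ K * R := by gcongr
      have h8 : ((K : ℝ) + 1) * ‖z‖ ≤ (K + 1) * R := by gcongr
      simp only [hM]
      linarith
    have h9 := abs_le.1 h6
    simp only []
    rw [min_eq_left h9.2, max_eq_right h9.1]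

private lemma disc_zero {f g : ℂ → ℝ} {K : ℝ≥0} (hf : LipschitzWith K f) (hg : LipschitzWith K g)
    {R : ℝ} (hR : 0 < R) : ∫ z in Metric.ball 0 R, Jw f g z = disc_G f g R := by
  obtain ⟨f1, C, hf1, cf1, ef⟩ := disc_trunc hf (R := R + 1) (by linarith)
  obtain ⟨g1, D, hg1, cg1, eg⟩ := disc_trunc hg (R := R + 1) (by linarith)
  have h1 := disc_core hf1 cf1 hg1 cg1 hR
  have e1 : ∫ z in Metric.ball 0 R, Jw f1 g1 z = ∫ z in Metric.ball 0 R, Jw f g z := by
    apply setIntegral_congr_fun Metric.isOpen_ball.measurableSet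
    intro z hz
    rw [mem_ball_zero_iff] at hz
    have h2 : ∀ᶠ w in 𝓝 z, ‖w‖ < R + 1 := continuous_norm.continuousAt.eventually_lt_const (by linarith)
    have h3 : f1 =ᶠ[𝓝 z] f := by filter_upwards [h2] with w hw using ef w hw
    have h4 : g1 =ᶠ[𝓝 z] g := by filter_upwards [h2] with w hw using eg w hw
    simp only [Jw]
    rw [h3.fderiv_eq, h4.fderiv_eq]
  have e2 : disc_G f1 g1 R = disc_G f g R := by
    have hn : ∀ t, ‖hol 0 R t‖ < R + 1 := by
      intro t
      have := norm_hol_sub 0 hR.le t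
      rw [sub_zero] at this
      linarith
    simp only [disc_G, ef _ (hn _), eg _ (hn _)]
  rw [← e1, ← e2, h1]

theorem disc_stokes {f g : ℂ → ℝ} {K : ℝ≥0} (hf : LipschitzWith K f) (hg : LipschitzWith K g)
    (c : ℂ) {R : ℝ} (hR : 0 < R) :
    ∫ z in Metric.ball c R, Jw f g z =
      ∫ t in (0 : ℝ)..(2 * Real.pi), f (hol c R t) * deriv (fun s => g (hol c R s)) t := by
  have hl : ∀ {h : ℂ → ℝ}, LipschitzWith K h → LipschitzWith K (fun z => h (c + z)) := by
    intro h hh
    have := hh.comp ((LipschitzWith.const c).add LipschitzWith.id :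
      LipschitzWith (0 + 1) (fun x : ℂ => c + x))
    simpa [Function.comp_def] using this
  have h1 := disc_zero (hl hf) (hl hg) hR
  have e1 : ∫ z in Metric.ball 0 R, Jw (fun z => f (c + z)) (fun z => g (c + z)) z =
      ∫ z in Metric.ball c R, Jw f g z := by
    rw [← integral_indicator Metric.isOpen_ball.measurableSet,
      ← integral_indicator Metric.isOpen_ball.measurableSet,
      ← integral_add_left_eq_self (fun z => (Metric.ball c R).indicator (Jw f g) z) c]
    congr 1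
    funext z
    by_cases hz : z ∈ Metric.ball (0 : ℂ) R
    · have hz2 : c + z ∈ Metric.ball c R := by
        rw [mem_ball_zero_iff] at hz
        rw [mem_ball_iff_norm, add_sub_cancel_left]; exact hz
      rw [indicator_of_mem hz, indicator_of_mem hz2]
      simp only [Jw, fderiv_comp_add_left]
    · have hz2 : c + z ∉ Metric.ball c R := by
        rw [mem_ball_zero_iff] at hz
        rw [mem_ball_iff_norm, add_sub_cancel_left]; exact hz
      rw [indicator_of_notMem hz, indicator_of_notMem hz2]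
  rw [← e1, h1]
  simp only [disc_G, hol, zero_add]

end Pool.Agent.MIR
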