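import Mathlib
import Pool.Agent.MIR.Defs
import Pool.Agent.MIR.Basic

open MeasureTheory Set Filter Topology Manifold Bundle
open scoped ENNReal NNReal ContDiff

noncomputable section

namespace Pool.Agent.MIR

lemma out_piece {h g : ℝ → ℝ} {x y : ℝ} (hxy : x ≤ y) (hg : Continuous g)
    (hh : ∀ t ∈ Ioo x y, h t = g t) :
    IntervalIntegrable h volume x y ∧ ∫ t in x..y, h t = ∫ t in x..y, g t := by
  have e : g =ᵐ[volume.restrict (Set.uIoc x y)] h := by
    rw [uIoc_of_le hxy, ← restrict_Ioo_eq_restrict_Ioc]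
    exact (ae_restrict_iff' measurableSet_Ioo).2 (ae_of_all _ fun t ht => (hh t ht).symm)
  exact ⟨(hg.intervalIntegrable x y).congr_ae e, intervalIntegral.integral_congr_ae_restrict e.symm⟩

lemma out_norm {x : ℝ} (hx : |x| ≤ Real.pi) : ‖(x : AddCircle (2 * Real.pi))‖ = |x| := by
  have hp := Real.two_pi_pos
  rw [AddCircle.norm_coe_eq_abs_iff _ hp.ne', abs_of_pos hp]
  linarith

lemma out_per (x : ℝ) : ‖((x + 2 * Real.pi : ℝ) : AddCircle (2 * Real.pi))‖ =
    ‖(x : AddCircle (2 * Real.pi))‖ := by
  rw [AddCircle.coe_add_period]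

lemma out_deriv_neg {b t : ℝ} (h1 : b - Real.pi < t) (h2 : t < b) :
    deriv (fun s => ‖((b - s : ℝ) : AddCircle (2 * Real.pi))‖) t = -1 := by
  have e : (fun s => ‖((b - s : ℝ) : AddCircle (2 * Real.pi))‖) =ᶠ[𝓝 t] fun s => b - s := by
    filter_upwards [Ioo_mem_nhds h1 h2] with s hs
    rw [out_norm (by rw [abs_of_pos (by linarith [hs.2])]; linarith [hs.1]),
      abs_of_pos (by linarith [hs.2])]
  rw [e.deriv_eq]
  simp

lemma out_deriv_pos {b t : ℝ} (h1 : b < t) (h2 : t < b + Real.pi) :
    deriv (fun s => ‖((b - s : ℝ) : AddCircle (2 * Real.pi))‖) t = 1 := by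
  have e : (fun s => ‖((b - s : ℝ) : AddCircle (2 * Real.pi))‖) =ᶠ[𝓝 t] fun s => s - b := by
    filter_upwards [Ioo_mem_nhds h1 h2] with s hs
    rw [out_norm (by rw [abs_of_neg (by linarith [hs.1])]; linarith [hs.2]),
      abs_of_neg (by linarith [hs.1])]
    ring
  rw [e.deriv_eq]
  simp

lemma out_one (a D : ℝ) (hD0 : 0 ≤ D) (hD : D ≤ Real.pi) :
    ∫ t in (0 : ℝ)..(2 * Real.pi), ‖((a - t : ℝ) : AddCircle (2 * Real.pi))‖ *
      deriv (fun s => ‖((a + D - s : ℝ) : AddCircle (2 * Real.pi))‖) t =
      2 * Real.pi * D - 2 * D ^ 2 := by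
  set h : ℝ → ℝ := fun t => ‖((a - t : ℝ) : AddCircle (2 * Real.pi))‖ *
    deriv (fun s => ‖((a + D - s : ℝ) : AddCircle (2 * Real.pi))‖) t with hh
  have hpi := Real.pi_pos
  have hper : Function.Periodic h (2 * Real.pi) := by
    intro t
    have e1 : ‖((a - (t + 2 * Real.pi) : ℝ) : AddCircle (2 * Real.pi))‖ =
        ‖((a - t : ℝ) : AddCircle (2 * Real.pi))‖ := by
      rw [← out_per (a - (t + 2 * Real.pi))]
      congr 2
      ring
    have e2 : deriv (fun s => ‖((a + D - s : ℝ) : AddCircle (2 * Real.pi))‖) (t + 2 * Real.pi) =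
        deriv (fun s => ‖((a + D - s : ℝ) : AddCircle (2 * Real.pi))‖) t := by
      rw [← deriv_comp_add_const]
      congr 1
      funext s
      rw [← out_per (a + D - (s + 2 * Real.pi))]
      congr 2
      ring
    simp only [hh]
    rw [e1, e2]
  have e0 := hper.intervalIntegral_add_eq 0 (a + D - Real.pi)
  rw [zero_add] at e0
  rw [e0]
  have p1 := out_piece (h := h) (g := fun t => t - a) (x := a + D - Real.pi) (y := a)
    (by linarith) (by fun_prop) (by
      intro t ht
      simp only [hh]
      rw [out_deriv_neg (by linarith [ht.1]) (by linarith [ht.2]),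
        out_norm (by rw [abs_of_pos (by linarith [ht.2])]; linarith [ht.1]),
        abs_of_pos (by linarith [ht.2])]
      ring)
  have p2 := out_piece (h := h) (g := fun t => a - t) (x := a) (y := a + D)
    (by linarith) (by fun_prop) (by
      intro t ht
      simp only [hh]
      rw [out_deriv_neg (by linarith [ht.1]) (by linarith [ht.2]),
        out_norm (by rw [abs_of_neg (by linarith [ht.1])]; linarith [ht.2]),
        abs_of_neg (by linarith [ht.1])]
      ring)
  have p3 := out_piece (h := h) (g := fun t => t - a) (x := a + D) (y := a + Real.pi)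
    (by linarith) (by fun_prop) (by
      intro t ht
      simp only [hh]
      rw [out_deriv_pos (by linarith [ht.1]) (by linarith [ht.2]),
        out_norm (by rw [abs_of_neg (by linarith [ht.1])]; linarith [ht.2]),
        abs_of_neg (by linarith [ht.1])]
      ring)
  have p4 := out_piece (h := h) (g := fun t => a - t + 2 * Real.pi) (x := a + Real.pi)
    (y := a + D + Real.pi) (by linarith) (by fun_prop) (by
      intro t ht
      simp only [hh]
      rw [out_deriv_pos (by linarith [ht.1]) (by linarith [ht.2]), ← out_per (a - t),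
        out_norm (by rw [abs_of_pos (by linarith [ht.2])]; linarith [ht.1]),
        abs_of_pos (by linarith [ht.2])]
      ring)
  have e1 : a + D - Real.pi + 2 * Real.pi = a + D + Real.pi := by ring
  rw [e1, ← intervalIntegral.integral_add_adjacent_intervals (p1.1.trans (p2.1.trans p3.1)) p4.1,
    ← intervalIntegral.integral_add_adjacent_intervals (p1.1.trans p2.1) p3.1,
    ← intervalIntegral.integral_add_adjacent_intervals p1.1 p2.1, p1.2, p2.2, p3.2, p4.2]
  have i1 : ∀ x y : ℝ, ∫ t in x..y, (t - a) = ((y - a) ^ 2 - (x - a) ^ 2) / 2 := by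
    intro x y
    rw [intervalIntegral.integral_sub (Continuous.intervalIntegrable (by fun_prop) _ _)
      (Continuous.intervalIntegrable (by fun_prop) _ _), integral_id,
      intervalIntegral.integral_const]
    simp only [smul_eq_mul]
    ring
  have i2 : ∀ x y : ℝ, ∫ t in x..y, (a - t) = ((x - a) ^ 2 - (y - a) ^ 2) / 2 := by
    intro x y
    rw [intervalIntegral.integral_sub (Continuous.intervalIntegrable (by fun_prop) _ _)
      (Continuous.intervalIntegrable (by fun_prop) _ _), integral_id,
      intervalIntegral.integral_const]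
    simp only [smul_eq_mul]
    ring
  have i3 : ∀ x y : ℝ, ∫ t in x..y, (a - t + 2 * Real.pi) =
      ((x - a) ^ 2 - (y - a) ^ 2) / 2 + (y - x) * (2 * Real.pi) := by
    intro x y
    rw [intervalIntegral.integral_add (Continuous.intervalIntegrable (by fun_prop) _ _)
      (Continuous.intervalIntegrable (by fun_prop) _ _), i2,
      intervalIntegral.integral_const]
    simp only [smul_eq_mul]
  rw [i1, i1, i2, i3]
  ring

theorem out_sum {M : ℕ} (hM : 2 ≤ M) :
    ∑ i ∈ Finset.range M, ∫ t in (0 : ℝ)..(2 * Real.pi),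
      ‖((2 * Real.pi * i / M - t : ℝ) : AddCircle (2 * Real.pi))‖ *
        deriv (fun s => ‖((2 * Real.pi * (i + 1 : ℕ) / M - s : ℝ) : AddCircle (2 * Real.pi))‖) t =
      4 * Real.pi ^ 2 - 8 * Real.pi ^ 2 / M := by
  have hM0 : (0 : ℝ) < M := by
    have : 0 < M := by omega
    exact_mod_cast this
  have hM2 : (2 : ℝ) ≤ M := by exact_mod_cast hM
  have hpi := Real.pi_pos
  have key : ∀ i ∈ Finset.range M, ∫ t in (0 : ℝ)..(2 * Real.pi),
      ‖((2 * Real.pi * i / M - t : ℝ) : AddCircle (2 * Real.pi))‖ *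
        deriv (fun s => ‖((2 * Real.pi * (i + 1 : ℕ) / M - s : ℝ) : AddCircle (2 * Real.pi))‖) t =
      2 * Real.pi * (2 * Real.pi / M) - 2 * (2 * Real.pi / M) ^ 2 := by
    intro i _
    have e : 2 * Real.pi * ((i + 1 : ℕ) : ℝ) / M = 2 * Real.pi * i / M + 2 * Real.pi / M := by
      push_cast
      ring
    rw [e]
    refine out_one _ _ (by positivity) ?_
    rw [div_le_iff₀ hM0]
    nlinarith
  rw [Finset.sum_congr rfl key, Finset.sum_const, Finset.card_range, nsmul_eq_mul]
  field_simp
  ring

end Pool.Agent.MIR
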