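import Mathlib
import Pool.Agent.MIR.Defs
import Pool.Agent.MIR.Basic

open MeasureTheory Set Filter Topology Manifold Bundle
open scoped ENNReal NNReal ContDiff

noncomputable section

namespace Pool.Agent.MIR

private lemma pw_angle (z : ℂ) (hz : ‖z‖ = 1) : ∃ b : ℝ, 0 ≤ b ∧ b < 2 * Real.pi ∧ z = cis b := by
  have h1 : z = cis (Complex.arg z) := by
    have := Complex.norm_mul_exp_arg_mul_I z
    rw [hz] at this
    simp only [Complex.ofReal_one, one_mul] at this
    rw [cis, this]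
  have h2 := Complex.neg_pi_lt_arg z
  have h3 := Complex.arg_le_pi z
  have h4 := Real.pi_pos
  by_cases h : 0 ≤ Complex.arg z
  · exact ⟨Complex.arg z, h, by linarith, h1⟩
  · push Not at h
    exact ⟨Complex.arg z + 2 * Real.pi, by linarith, by linarith, by rw [cis_add_two_pi]; exact h1⟩

private lemma pw_seg {L : ℂ → ℝ} (hadd : ∀ a b : ℝ, ∀ x y : ℂ, L (a • x + b • y) = a * L x + b * L y)
    {x y z w : ℂ} {t : ℝ} (h : (segment ℝ x z ∩ segment ℝ y w).Nonempty) (hx : L x = t) (hz : L z = t) :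
    ¬ (t < L y ∧ t < L w) ∧ ¬ (L y < t ∧ L w < t) := by
  obtain ⟨p, ⟨a, b, ha, hb, hab, hp⟩, ⟨a', b', ha', hb', hab', hp'⟩⟩ := h
  have h1 : L p = t := by
    rw [← hp, hadd, hx, hz, ← add_mul, hab, one_mul]
  have h2 : L p = a' * L y + b' * L w := by rw [← hp', hadd]
  have hb'' : b' = 1 - a' := by linarith
  subst hb''
  constructor
  · rintro ⟨h3, h4⟩
    rcases eq_or_lt_of_le ha' with h5 | h5
    · rw [← h5] at h2; linarith
    · nlinarith [mul_pos h5 (sub_pos.2 h3), mul_nonneg hb' (sub_nonneg.2 h4.le)]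
  · rintro ⟨h3, h4⟩
    rcases eq_or_lt_of_le ha' with h5 | h5
    · rw [← h5] at h2; linarith
    · nlinarith [mul_pos h5 (sub_pos.2 h3), mul_nonneg hb' (sub_nonneg.2 h4.le)]

private lemma pw_lt {b c : ℝ} (hb : 0 < b) (hc : 0 ≤ c) (hc2 : c < 2 * Real.pi) (h : b < c) :
    Real.cos (c / 2) < Real.cos (b - c / 2) := by
  rw [← Real.cos_abs (b - c / 2)]
  apply Real.cos_lt_cos_of_nonneg_of_le_pi (abs_nonneg _)
  · linarith
  · rw [abs_lt]; constructor <;> linarith

private lemma pw_gt {b c : ℝ} (hb : b < 2 * Real.pi) (hc : 0 ≤ c) (hc2 : c < 2 * Real.pi) (h : c < b) :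
    Real.cos (b - c / 2) < Real.cos (c / 2) := by
  rw [← Real.cos_abs (b - c / 2), abs_of_pos (by linarith)]
  by_cases h1 : b - c / 2 ≤ Real.pi
  · exact Real.cos_lt_cos_of_nonneg_of_le_pi (by linarith) h1 (by linarith)
  · push Not at h1
    rw [← Real.cos_two_pi_sub (b - c / 2)]
    exact Real.cos_lt_cos_of_nonneg_of_le_pi (by linarith) (by linarith) (by linarith)

private lemma pw_sin_le {x : ℝ} (h0 : 0 ≤ x) : |Real.sin x| ≤ x := by
  have := Real.abs_sin_le_abs (x := x)
  rwa [abs_of_nonneg h0] at this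

private lemma pw_sin_le2 {x : ℝ} (h0 : x ≤ 2 * Real.pi) : |Real.sin x| ≤ 2 * Real.pi - x := by
  have h1 : Real.sin x = - Real.sin (2 * Real.pi - x) := by rw [Real.sin_two_pi_sub, neg_neg]
  rw [h1, abs_neg]
  exact pw_sin_le (by linarith)

theorem pw {M : ℕ} {v : ℕ → ℂ} (hv : ∀ i, ‖v i‖ = 1) (hper : v M = v 0)
    (hcr : ∀ i j k l, i < j → j < k → k < l → l < M →
      (segment ℝ (v i) (v k) ∩ segment ℝ (v j) (v l)).Nonempty) :
    |∑ i ∈ Finset.range M, cp (v i) (v (i + 1))| ≤ 2 * Real.pi := by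
  have hpi := Real.pi_pos
  have hex : ∀ i, ∃ b : ℝ, 0 ≤ b ∧ b < 2 * Real.pi ∧ (starRingEnd ℂ) (v 0) * v i = cis b := by
    intro i
    apply pw_angle
    rw [norm_mul, Complex.norm_conj, hv, hv, one_mul]
  choose β hβ0 hβ1 hβ using hex
  have hunit : v 0 * (starRingEnd ℂ) (v 0) = 1 := by
    rw [Complex.mul_conj, Complex.normSq_eq_norm_sq, hv]; simp
  have hvi : ∀ i, v i = v 0 * cis (β i) := by
    intro i
    rw [← hβ i, ← mul_assoc, hunit, one_mul]
  have hz0 : β 0 = 0 := by
    have h1 : cis (β 0) = 1 := by rw [← hβ 0, mul_comm, hunit]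
    by_contra h
    have h2 : 0 < β 0 := lt_of_le_of_ne (hβ0 0) (Ne.symm h)
    have h3 : Real.cos (β 0) = 1 := by rw [← cis_re, h1, Complex.one_re]
    rw [Real.cos_eq_one_iff_of_lt_of_lt (by linarith) (hβ1 0)] at h3
    exact h h3
  have hinj : ∀ i, v i = v 0 → β i = 0 := by
    intro i hi
    have h1 : cis (β i) = 1 := by rw [← hβ i, hi, mul_comm, hunit]
    have h3 : Real.cos (β i) = 1 := by rw [← cis_re, h1, Complex.one_re]
    rwa [Real.cos_eq_one_iff_of_lt_of_lt (by linarith [hβ0 i]) (hβ1 i)] at h3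
  have hzM : β M = 0 := hinj M hper
  have hcp : ∀ i, cp (v i) (v (i + 1)) = Real.sin (β (i + 1) - β i) := by
    intro i
    have hn : (v 0).re ^ 2 + (v 0).im ^ 2 = 1 := by
      have h1 : Complex.normSq (v 0) = 1 := by rw [Complex.normSq_eq_norm_sq, hv]; simp
      rw [Complex.normSq_apply] at h1; nlinarith
    rw [hvi i, hvi (i + 1), Real.sin_sub]
    simp only [cp, Complex.mul_re, Complex.mul_im, cis_re, cis_im]
    linear_combination (Real.sin (β (i + 1)) * Real.cos (β i) - Real.cos (β (i + 1)) * Real.sin (β i)) * hn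
  -- betweenness
  have hbtw : ∀ i j k, 0 < i → i < j → j < k → k < M → β i ≠ 0 → β k ≠ 0 →
      β j ≠ 0 ∧ |β j - β i| + |β k - β j| ≤ |β k - β i| := by
    intro i j k h0 hij hjk hkM hi hk
    have hi' : 0 < β i := lt_of_le_of_ne (hβ0 i) (Ne.symm hi)
    have hk' : 0 < β k := lt_of_le_of_ne (hβ0 k) (Ne.symm hk)
    have hseg := hcr 0 i j k h0 hij hjk hkM
    set L : ℂ → ℝ := fun z => ((starRingEnd ℂ) (v 0) * z * cis (-(β j / 2))).re with hL
    have hLc : ∀ l, L (v l) = Real.cos (β l - β j / 2) := by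
      intro l
      simp only [hL]
      rw [hβ l, ← cis_add, cis_re, sub_eq_add_neg]
    have hLadd : ∀ a b : ℝ, ∀ x y : ℂ, L (a • x + b • y) = a * L x + b * L y := by
      intro a b x y
      simp only [hL, Complex.real_smul, Complex.mul_re, Complex.mul_im, Complex.add_re, Complex.add_im,
        Complex.ofReal_re, Complex.ofReal_im]
      ring
    have hL0 : L (v 0) = Real.cos (β j / 2) := by rw [hLc, hz0, zero_sub, Real.cos_neg]
    have hLj : L (v j) = Real.cos (β j / 2) := by rw [hLc]; congr 1; ring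
    obtain ⟨c1, c2⟩ := pw_seg hLadd hseg hL0 hLj
    rw [hLc, hLc] at c1 c2
    have hj : β j ≠ 0 := by
      intro hj0
      apply c2
      constructor
      · exact pw_gt (hβ1 i) (hβ0 j) (hβ1 j) (by rw [hj0]; exact hi')
      · exact pw_gt (hβ1 k) (hβ0 j) (hβ1 j) (by rw [hj0]; exact hk')
    refine ⟨hj, ?_⟩
    by_cases hA : β i ≤ β j
    · by_cases hB : β j ≤ β k
      · rw [abs_of_nonneg (by linarith), abs_of_nonneg (by linarith), abs_of_nonneg (by linarith)]
        linarith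
      · push Not at hB
        rcases eq_or_lt_of_le hA with hA' | hA'
        · rw [hA']; simp
        · exact absurd ⟨pw_lt hi' (hβ0 j) (hβ1 j) hA', pw_lt hk' (hβ0 j) (hβ1 j) hB⟩ c1
    · push Not at hA
      by_cases hB : β k ≤ β j
      · rw [abs_of_nonpos (by linarith), abs_of_nonpos (by linarith), abs_of_nonpos (by linarith)]
        linarith
      · push Not at hB
        exact absurd ⟨pw_gt (hβ1 i) (hβ0 j) (hβ1 j) hA, pw_gt (hβ1 k) (hβ0 j) (hβ1 j) hB⟩ c2
  -- the sum of absolute values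
  have hsum : |∑ i ∈ Finset.range M, cp (v i) (v (i + 1))| ≤
      ∑ i ∈ Finset.range M, |Real.sin (β (i + 1) - β i)| := by
    refine (Finset.abs_sum_le_sum_abs _ _).trans (le_of_eq ?_)
    exact Finset.sum_congr rfl fun i _ => by rw [hcp]
  refine hsum.trans ?_
  by_cases hall : ∀ i, i ≤ M → β i = 0
  · have : ∑ i ∈ Finset.range M, |Real.sin (β (i + 1) - β i)| = 0 := by
      apply Finset.sum_eq_zero
      intro i hi
      rw [Finset.mem_range] at hi
      rw [hall i hi.le, hall (i + 1) hi]; simp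
    rw [this]; positivity
  push Not at hall
  -- the first index
  have hex1 : ∃ a, a ≤ M ∧ β a ≠ 0 := hall
  classical
  obtain ⟨a, ⟨haM, ha⟩, hamin⟩ : ∃ a, (a ≤ M ∧ β a ≠ 0) ∧ ∀ i, i < a → β i = 0 := by
    refine ⟨Nat.find hex1, Nat.find_spec hex1, fun i hi => ?_⟩
    have h1 := Nat.find_min hex1 hi
    push Not at h1
    exact h1 (hi.le.trans (Nat.find_spec hex1).1)
  obtain ⟨b, ⟨hbM, hb⟩, hbmax⟩ : ∃ b, (b ≤ M ∧ β b ≠ 0) ∧ ∀ i, b < i → i ≤ M → β i = 0 := by
    obtain ⟨b, hb1, hb2⟩ := (Finset.exists_max_image ((Finset.range (M + 1)).filter (fun i => β i ≠ 0)) id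
      ⟨a, by simp only [Finset.mem_filter, Finset.mem_range]; exact ⟨by omega, ha⟩⟩)
    simp only [Finset.mem_filter, Finset.mem_range, id] at hb1 hb2
    refine ⟨b, ⟨by omega, hb1.2⟩, fun i hi hiM => ?_⟩
    by_contra hne
    have := hb2 i ⟨by omega, hne⟩
    omega
  have ha0 : 0 < a := by
    rcases Nat.eq_zero_or_pos a with h | h
    · rw [h] at ha; exact absurd hz0 ha
    · exact h
  have hbM' : b < M := by
    rcases eq_or_lt_of_le hbM with h | h
    · rw [h] at hb; exact absurd hzM hb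
    · exact h
  have hab : a ≤ b := by
    by_contra h
    push Not at h
    exact hb (hamin b h)
  have hnz : ∀ i, a ≤ i → i ≤ b → β i ≠ 0 := by
    intro i h1 h2
    rcases eq_or_lt_of_le h1 with h3 | h3
    · rw [← h3]; exact ha
    · rcases eq_or_lt_of_le h2 with h4 | h4
      · rw [h4]; exact hb
      · exact (hbtw a i b ha0 h3 h4 hbM' ha hb).1
  -- the middle part
  have hmid : ∀ n, a ≤ n → n ≤ b → ∑ i ∈ Finset.Ico a n, |Real.sin (β (i + 1) - β i)| ≤ |β n - β a| := by
    intro n hn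
    induction n, hn using Nat.le_induction with
    | base => intro _; simp
    | succ n hn ih =>
      intro hnb
      rw [Finset.sum_Ico_succ_top hn]
      have h1 := ih (by omega)
      have h2 : |Real.sin (β (n + 1) - β n)| ≤ |β (n + 1) - β n| := Real.abs_sin_le_abs
      rcases eq_or_lt_of_le hn with h3 | h3
      · rw [← h3] at h1 h2 ⊢
        simp only [Finset.Ico_self, Finset.sum_empty, zero_add]
        exact h2
      · have h4 := (hbtw a n (n + 1) ha0 h3 (by omega) (by omega) ha (hnz (n + 1) (by omega) hnb)).2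
        linarith
  have hlow : ∑ i ∈ Finset.Ico 0 a, |Real.sin (β (i + 1) - β i)| = |Real.sin (β a)| := by
    obtain ⟨a', rfl⟩ : ∃ a', a = a' + 1 := ⟨a - 1, by omega⟩
    rw [Finset.sum_Ico_succ_top (by omega), Finset.sum_eq_zero, zero_add, hamin a' (by omega), sub_zero]
    intro i hi
    rw [Finset.mem_Ico] at hi
    rw [hamin i (by omega), hamin (i + 1) (by omega)]; simp
  have hup : ∑ i ∈ Finset.Ico b M, |Real.sin (β (i + 1) - β i)| = |Real.sin (β b)| := by
    rw [Finset.sum_eq_sum_Ico_succ_bot hbM', hbmax (b + 1) (by omega) (by omega), zero_sub,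
      Real.sin_neg, abs_neg, Finset.sum_eq_zero, add_zero]
    intro i hi
    rw [Finset.mem_Ico] at hi
    rw [hbmax i (by omega) (by omega), hbmax (i + 1) (by omega) (by omega)]; simp
  rw [Finset.range_eq_Ico, ← Finset.sum_Ico_consecutive _ (Nat.zero_le a) haM,
    ← Finset.sum_Ico_consecutive _ hab hbM, hlow, hup]
  have h1 := hmid b hab le_rfl
  have h2 := pw_sin_le (hβ0 a)
  have h3 := pw_sin_le (hβ0 b)
  have h4 := pw_sin_le2 (hβ1 a).le
  have h5 := pw_sin_le2 (hβ1 b).le
  rcases le_total (β a) (β b) with h6 | h6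
  · rw [abs_of_nonneg (by linarith)] at h1; linarith
  · rw [abs_of_nonpos (by linarith)] at h1; linarith

end Pool.Agent.MIR
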