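import Mathlib
import Pool.Agent.MIR.Defs
import Pool.Agent.MIR.Basic

open MeasureTheory Set Filter Topology Manifold Bundle
open scoped ENNReal NNReal ContDiff

noncomputable section

namespace Pool.Agent.MIR

theorem star_grad {d : ℂ → ℂ → ℝ} {p : ℂ} {T : ℂ →L[ℝ] ℂ} (hT : Tan d p T) {f : ℂ → ℝ}
    (hf : ∀ᶠ q in 𝓝 p, |f q - f p| ≤ d p q) {L : ℂ →L[ℝ] ℝ} (hL : HasFDerivAt f L p) (v : ℂ) :
    |L v| ≤ ‖T v‖ := by
  refine le_of_forall_pos_le_add fun ε hε => ?_
  set ε' := ε / (2 * (‖v‖ + 1)) with hε'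
  have hv : 0 < ‖v‖ + 1 := by positivity
  have hε0 : 0 < ε' := by positivity
  have h1 := hL.isLittleO.def hε0
  have h2 := hT.def hε0
  -- along the ray
  have hray : Tendsto (fun t : ℝ => p + t • v) (𝓝[>] 0) (𝓝 p) := by
    have : Tendsto (fun t : ℝ => p + t • v) (𝓝 0) (𝓝 (p + (0 : ℝ) • v)) := by
      apply Continuous.tendsto; fun_prop
    rw [zero_smul, add_zero] at this
    exact this.mono_left nhdsWithin_le_nhds
  have h3 : ∀ᶠ t : ℝ in 𝓝[>] (0 : ℝ), 0 < t := eventually_mem_nhdsWithin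
  obtain ⟨t, ⟨ht1, ht2, ht3⟩, ht⟩ := ((hray.eventually (h1.and (h2.and hf))).and h3).exists
  simp only [add_sub_cancel_left] at ht1 ht2
  rw [map_smul] at ht1 ht2
  simp only [Real.norm_eq_abs, norm_smul, smul_eq_mul, abs_of_pos ht] at ht1 ht2
  have h4 : |t * L v| ≤ t * ‖T v‖ + 2 * (ε' * (t * ‖v‖)) := by
    have e1 := abs_le.1 ht1
    have e2 := abs_le.1 ht2
    have e3 := abs_le.1 ht3
    rw [abs_le]
    constructor <;> linarith
  rw [abs_mul, abs_of_pos ht] at h4
  have h5 : t * |L v| ≤ t * (‖T v‖ + ε) := by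
    refine h4.trans ?_
    have h6 : 2 * (ε' * ‖v‖) ≤ ε := by
      rw [hε']
      rw [div_mul_eq_mul_div, mul_div_assoc', div_le_iff₀ (by positivity)]
      nlinarith [norm_nonneg v]
    nlinarith
  exact le_of_mul_le_mul_left h5 ht

theorem jw_zero {p : ℂ} {T : ℂ →L[ℝ] ℂ} (hT : cp (T 1) (T Complex.I) = 0) {f g : ℂ → ℝ}
    (hf : ∀ v, |fderiv ℝ f p v| ≤ ‖T v‖) (hg : ∀ v, |fderiv ℝ g p v| ≤ ‖T v‖) :
    Jw f g p = 0 := by
  -- a nonzero kernel vector
  obtain ⟨w, hw, hTw⟩ : ∃ w : ℂ, w ≠ 0 ∧ T w = 0 := by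
    by_cases h1 : T 1 = 0
    · exact ⟨1, one_ne_zero, h1⟩
    · -- T I = λ T 1
      have hn : 0 < (T 1).re ^ 2 + (T 1).im ^ 2 := by
        rcases lt_or_eq_of_le (by positivity : (0 : ℝ) ≤ (T 1).re ^ 2 + (T 1).im ^ 2) with h | h
        · exact h
        · exfalso; apply h1
          apply Complex.ext
          · simp only [Complex.zero_re]; nlinarith [sq_nonneg (T 1).re, sq_nonneg (T 1).im]
          · simp only [Complex.zero_im]; nlinarith [sq_nonneg (T 1).re, sq_nonneg (T 1).im]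
      set l : ℝ := ((T 1).re * (T Complex.I).re + (T 1).im * (T Complex.I).im) /
        ((T 1).re ^ 2 + (T 1).im ^ 2) with hl
      refine ⟨Complex.I - l • (1 : ℂ), ?_, ?_⟩
      · intro h
        have := congrArg Complex.im h
        simp at this
      · rw [map_sub, map_smul, sub_eq_zero]
        unfold cp at hT
        apply Complex.ext
        · rw [Complex.smul_re, smul_eq_mul, hl, div_mul_eq_mul_div, eq_div_iff hn.ne']
          linear_combination (-(T 1).im) * hT
        · rw [Complex.smul_im, smul_eq_mul, hl, div_mul_eq_mul_div, eq_div_iff hn.ne']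
          linear_combination ((T 1).re) * hT
  have f0 : fderiv ℝ f p w = 0 := by
    have := hf w; rw [hTw, norm_zero] at this; exact abs_nonpos_iff.1 this
  have g0 : fderiv ℝ g p w = 0 := by
    have := hg w; rw [hTw, norm_zero] at this; exact abs_nonpos_iff.1 this
  have hexp : ∀ L : ℂ →L[ℝ] ℝ, L w = w.re * L 1 + w.im * L Complex.I := by
    intro L
    have : w = w.re • (1 : ℂ) + w.im • Complex.I := by
      apply Complex.ext <;> simp
    conv_lhs => rw [this]
    rw [map_add, map_smul, map_smul, smul_eq_mul, smul_eq_mul]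
  rw [hexp] at f0 g0
  unfold Jw
  have hw' : w.re ≠ 0 ∨ w.im ≠ 0 := by
    by_contra hc
    push Not at hc
    exact hw (Complex.ext hc.1 hc.2)
  rcases hw' with h | h
  · have : w.re * (fderiv ℝ f p 1 * fderiv ℝ g p Complex.I - fderiv ℝ f p Complex.I * fderiv ℝ g p 1)
        = 0 := by
      linear_combination (fderiv ℝ g p Complex.I) * f0 - (fderiv ℝ f p Complex.I) * g0
    exact (mul_eq_zero.1 this).resolve_left h
  · have : w.im * (fderiv ℝ f p 1 * fderiv ℝ g p Complex.I - fderiv ℝ f p Complex.I * fderiv ℝ g p 1)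
        = 0 := by
      linear_combination (-(fderiv ℝ g p 1)) * f0 + (fderiv ℝ f p 1) * g0
    exact (mul_eq_zero.1 this).resolve_left h

end Pool.Agent.MIR
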