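import Mathlib
import Pool.Agent.MIR.Defs
import Pool.Agent.MIR.Basic
import Pool.Agent.MIR.StarG

open MeasureTheory Set Filter Topology Manifold Bundle
open scoped ENNReal NNReal ContDiff

noncomputable section

namespace Pool.Agent.MIR

variable {S : Set ℂ} {d : ℂ → ℂ → ℝ} {N : ℂ → ℂ → Prop}

theorem stare_anti {T : ℂ →L[ℝ] ℂ} (hinj : ∀ v, T v = 0 → v = 0) :
    ∃ C > 0, ∀ w, ‖w‖ ≤ C * ‖T w‖ := by
  have hker : LinearMap.ker (T : ℂ →ₗ[ℝ] ℂ) = ⊥ := by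
    rw [LinearMap.ker_eq_bot']
    exact hinj
  obtain ⟨K, hK, hanti⟩ := (T : ℂ →ₗ[ℝ] ℂ).exists_antilipschitzWith hker
  refine ⟨K, by exact_mod_cast hK, fun w => ?_⟩
  have := hanti.le_mul_dist w 0
  simpa [dist_eq_norm] using this

theorem stare_surj {T : ℂ →L[ℝ] ℂ} (hinj : ∀ v, T v = 0 → v = 0) (y : ℂ) : ∃ w, T w = y := by
  have h1 : Function.Injective (T : ℂ →ₗ[ℝ] ℂ) := by
    rw [injective_iff_map_eq_zero]
    exact hinj
  exact LinearMap.injective_iff_surjective.1 h1 y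

theorem stare_aux (P : Pic S d N) {p : ℂ} (hp : S ∈ 𝓝 p) {T : ℂ →L[ℝ] ℂ}
    (hinj : ∀ v, T v = 0 → v = 0) (hT : Tan d p T) {z : ℂ} (hz : z ∈ S) (hzp : z ≠ p)
    {v : ℂ} (hL : HasFDerivAt (fun q => d z q)
      ((innerSL ℝ v : ℂ →L[ℝ] ℝ).comp T) p) {δ : ℝ} (hδ : 0 < δ) :
    ∀ᶠ ρ in 𝓝[>] (0 : ℝ), ∃ q : ℂ, ‖T (q - p)‖ = ρ ∧ inner ℝ v (T (q - p)) ≤ (δ - 1) * ρ := by
  obtain ⟨C, hC, hanti⟩ := stare_anti hinj
  have hpS : p ∈ S := mem_of_mem_nhds hp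
  have e1 := hT.def (show 0 < δ / 3 / C by positivity)
  have e2 := hL.isLittleO.def (show 0 < δ / 3 / C by positivity)
  have e0 : ∀ᶠ q in 𝓝 p, q ∈ S := hp
  obtain ⟨R, hR, hball⟩ := Metric.eventually_nhds_iff_ball.1 (e0.and (e1.and e2))
  have hzT : 0 < ‖T (z - p)‖ := by
    rw [norm_pos_iff]
    intro h
    exact hzp (sub_eq_zero.1 (hinj _ h))
  have hev : ∀ᶠ ρ in 𝓝[>] (0 : ℝ), ρ ∈ Ioo 0 (min (R / C) ‖T (z - p)‖) :=
    Ioo_mem_nhdsGT (lt_min (by positivity) hzT)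
  filter_upwards [hev] with ρ hρ
  have hρ0 := hρ.1
  have hρ1 : ρ < R / C := hρ.2.trans_le (min_le_left _ _)
  have hρ2 : ρ < ‖T (z - p)‖ := hρ.2.trans_le (min_le_right _ _)
  obtain ⟨γ, hγ⟩ := P.geo p hpS z hz (δ / 3 * ρ) (by positivity)
  have hcont : Continuous fun t => ‖T (γ t - p)‖ := by
    have := γ.continuous
    fun_prop
  have hivt := intermediate_value_univ 0 1 hcont
  have hmem : ρ ∈ Icc ‖T (γ 0 - p)‖ ‖T (γ 1 - p)‖ := by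
    rw [γ.source, γ.target, sub_self, map_zero, norm_zero]
    exact ⟨hρ0.le, hρ2.le⟩
  obtain ⟨t, ht⟩ := hivt hmem
  obtain ⟨u, hNu, hdu⟩ := hγ t
  set x := γ t with hx
  simp only at ht
  have hxp : ‖x - p‖ ≤ C * ρ := by rw [← ht]; exact hanti _
  have hxp2 : ‖x - p‖ < R := by
    refine hxp.trans_lt ?_
    rw [lt_div_iff₀ hC] at hρ1
    linarith
  obtain ⟨hxS, h1, h2⟩ := hball x (by rwa [Metric.mem_ball, dist_eq_norm])
  have huS := (P.near_mem x u hNu).1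
  have hux := P.near_eq x u x hNu (P.near_self x hxS)
  have hxu : d x u = 0 := by rw [P.symm x hxS u huS, hux]
  have t1 := P.tri p hpS u huS x hxS
  have t2 := P.tri x hxS u huS z hz
  have hb : δ / 3 / C * ‖x - p‖ ≤ δ / 3 * ρ := by
    calc δ / 3 / C * ‖x - p‖ ≤ δ / 3 / C * (C * ρ) :=
          mul_le_mul_of_nonneg_left hxp (by positivity)
      _ = δ / 3 * ρ := by field_simp
  refine ⟨x, ht, ?_⟩
  have h1' := (abs_le.1 (h1.trans hb)).1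
  have h2' := (abs_le.1 (h2.trans hb)).1
  have hin : ((innerSL ℝ v : ℂ →L[ℝ] ℝ).comp T) (x - p) = inner ℝ v (T (x - p)) := rfl
  rw [hin] at h2'
  have s1 := P.symm z hz x hxS
  have s2 := P.symm z hz p hpS
  have : inner ℝ v (T (x - p)) ≤ δ * ρ - ρ := by linarith
  linarith

theorem star_exit (P : Pic S d N) {p : ℂ} (hp : S ∈ 𝓝 p) {T : ℂ →L[ℝ] ℂ}
    (hinj : ∀ v, T v = 0 → v = 0) (hT : Tan d p T) {z : ℂ} (hz : z ∈ S) (hzp : z ≠ p)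
    {v : ℂ} (hL : HasFDerivAt (fun q => d z q)
      ((innerSL ℝ v : ℂ →L[ℝ] ℝ).comp T) p) :
    ‖v‖ = 1 ∧ ∀ κ > 0, ∀ᶠ ρ in 𝓝[>] (0 : ℝ), ∃ q : ℂ, ‖T (q - p)‖ = ρ ∧
      ‖T (q - p) + ρ • v‖ ≤ κ * ρ := by
  have hpS : p ∈ S := mem_of_mem_nhds hp
  have hv1 : ‖v‖ ≤ 1 := by
    obtain ⟨w, hw⟩ := stare_surj hinj v
    have hf : ∀ᶠ q in 𝓝 p, |d z q - d z p| ≤ d p q := by
      filter_upwards [hp] with q hq
      rw [P.symm p hpS q hq]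
      exact P.abs_sub_le hz hq hpS
    have h1 := star_grad hT hf hL w
    have hin : ((innerSL ℝ v : ℂ →L[ℝ] ℝ).comp T) w = inner ℝ v (T w) := rfl
    rw [hin, hw, real_inner_self_eq_norm_sq, abs_of_nonneg (by positivity)] at h1
    by_contra hc
    push Not at hc
    nlinarith
  have hv2 : 1 ≤ ‖v‖ := by
    by_contra hc
    push Not at hc
    have h1 := stare_aux P hp hinj hT hz hzp hL (show 0 < (1 - ‖v‖) / 2 by linarith)
    have h2 : ∀ᶠ ρ in 𝓝[>] (0 : ℝ), 0 < ρ := self_mem_nhdsWithin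
    obtain ⟨ρ, ⟨q, hq1, hq2⟩, hρ⟩ := (h1.and h2).exists
    have h3 := neg_le_of_abs_le (abs_real_inner_le_norm v (T (q - p)))
    rw [hq1] at h3
    nlinarith
  have hv : ‖v‖ = 1 := le_antisymm hv1 hv2
  refine ⟨hv, fun κ hκ => ?_⟩
  have h1 := stare_aux P hp hinj hT hz hzp hL (show 0 < κ ^ 2 / 2 by positivity)
  have h2 : ∀ᶠ ρ in 𝓝[>] (0 : ℝ), 0 < ρ := self_mem_nhdsWithin
  filter_upwards [h1, h2] with ρ hq hρ
  obtain ⟨q, hq1, hq2⟩ := hq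
  refine ⟨q, hq1, ?_⟩
  refine le_of_sq_le_sq ?_ (by positivity)
  rw [norm_add_sq_real, norm_smul, real_inner_smul_right, real_inner_comm, hq1, hv]
  rw [Real.norm_eq_abs, abs_of_pos hρ]
  nlinarith

end Pool.Agent.MIR
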