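import Mathlib
import Pool.Agent.MIR.Defs
import Pool.Agent.MIR.Basic
import Pool.Agent.MIR.StarE
import Pool.Agent.MIR.Cross

open MeasureTheory Set Filter Topology Manifold Bundle
open scoped ENNReal NNReal ContDiff

noncomputable section

namespace Pool.Agent.MIR

variable {S : Set ℂ} {d : ℂ → ℂ → ℝ} {N : ℂ → ℂ → Prop}

lemma star_aux_near {p : ℂ} (hp : S ∈ 𝓝 p) {T : ℂ →L[ℝ] ℂ} (hinj : ∀ v, T v = 0 → v = 0)
    {f : ℂ → ℝ} {v : ℂ} (hL : HasFDerivAt f ((innerSL ℝ v : ℂ →L[ℝ] ℝ).comp T) p) {κ : ℝ}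
    (hκ : 0 < κ) : ∀ᶠ ρ in 𝓝[>] (0 : ℝ), ∀ x, ‖T (x - p)‖ ≤ ρ →
      x ∈ S ∧ |f x - f p - inner ℝ v (T (x - p))| ≤ κ * ρ := by
  have hker : LinearMap.ker (T : ℂ →ₗ[ℝ] ℂ) = ⊥ := by
    rw [LinearMap.ker_eq_bot']; exact fun m hm => hinj m hm
  obtain ⟨K, hK, hanti⟩ := LinearMap.exists_antilipschitzWith (T : ℂ →ₗ[ℝ] ℂ) hker
  have hK' : (0 : ℝ) < K := hK
  have hb : ∀ x, ‖x‖ ≤ K * ‖T x‖ := fun x => by
    have := hanti.le_mul_dist x 0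
    simpa using this
  have h1 := hL.isLittleO.def (c := κ / K) (by positivity)
  obtain ⟨δ, hδ, hball⟩ := Metric.mem_nhds_iff.1 (Filter.inter_mem hp h1)
  have h2 : ∀ᶠ ρ in 𝓝[>] (0 : ℝ), ρ < δ / K :=
    Filter.Eventually.filter_mono nhdsWithin_le_nhds (eventually_lt_nhds (by positivity))
  have h3 : ∀ᶠ ρ in 𝓝[>] (0 : ℝ), 0 < ρ := eventually_mem_nhdsWithin
  filter_upwards [h2, h3] with ρ hρ hρ0 x hx
  have h4 : ‖x - p‖ ≤ K * ρ := (hb _).trans (mul_le_mul_of_nonneg_left hx hK'.le)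
  have h5 : x ∈ Metric.ball p δ := by
    rw [mem_ball_iff_norm]
    refine h4.trans_lt ?_
    rw [lt_div_iff₀ hK'] at hρ
    linarith
  obtain ⟨h6, h7⟩ := hball h5
  refine ⟨h6, ?_⟩
  simp only [mem_ofPred_eq, ContinuousLinearMap.comp_apply, innerSL_apply_apply,
    Real.norm_eq_abs] at h7
  refine h7.trans ?_
  calc κ / K * ‖x - p‖ ≤ κ / K * (K * ρ) := mul_le_mul_of_nonneg_left h4 (by positivity)
    _ = κ * ρ := by field_simp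

lemma star_aux_pair (P : Pic S d N) {x z z' q q' : ℂ} (hz : z ∈ S) (hz' : z' ∈ S) (hq : q ∈ S)
    (hq' : q' ∈ S) {ε : ℝ} (hx : ∃ u, N x u ∧ d q u + d u z ≤ d q z + ε)
    (hx' : ∃ u, N x u ∧ d q' u + d u z' ≤ d q' z' + ε) :
    d q' z + d q z' ≤ d q z + d q' z' + 2 * ε := by
  obtain ⟨u, hu, h1⟩ := hx
  obtain ⟨u', hu', h2⟩ := hx'
  have mu := (P.near_mem x u hu).1
  have mu' := (P.near_mem x u' hu').1
  have e1 := P.near_eq x u u' hu hu'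
  have e2 := P.near_eq x u' u hu' hu
  have t1 := P.tri q' hq' u' mu' z hz
  have t2 := P.tri u' mu' u mu z hz
  have t3 := P.tri q hq u mu z' hz'
  have t4 := P.tri u mu u' mu' z' hz'
  linarith

lemma star_aux_gap {v₀ v₁ v₂ v₃ : ℂ} (h : ¬ (segment ℝ v₀ v₂ ∩ segment ℝ v₁ v₃).Nonempty) :
    ∃ η > 0, ∀ y ∈ segment ℝ v₀ v₂, ∀ y' ∈ segment ℝ v₁ v₃, η ≤ ‖y - y'‖ := by
  have c1 : ∀ a b : ℂ, IsCompact (segment ℝ a b) := fun a b => by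
    rw [segment_eq_image]
    exact isCompact_Icc.image (by fun_prop)
  obtain ⟨w, hw, hmin⟩ := ((c1 v₀ v₂).prod (c1 v₁ v₃)).exists_isMinOn
    ⟨(v₀, v₁), left_mem_segment ℝ _ _, left_mem_segment ℝ _ _⟩
    (f := fun w : ℂ × ℂ => ‖w.1 - w.2‖) (by fun_prop)
  refine ⟨‖w.1 - w.2‖, ?_, fun y hy y' hy' => hmin (show (y, y') ∈ _ from ⟨hy, hy'⟩)⟩
  rw [gt_iff_lt, norm_pos_iff, sub_ne_zero]
  intro heq
  exact h ⟨w.1, hw.1, heq ▸ hw.2⟩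

/-- Description of the points of the segment between two exit points. -/
lemma star_aux_seg {p q q' v v' x : ℂ} {T : ℂ →L[ℝ] ℂ} {ρ κ : ℝ}
    (h1 : ‖T (q - p)‖ = ρ) (h1' : ‖T (q' - p)‖ = ρ) (h2 : ‖T (q - p) + ρ • v‖ ≤ κ * ρ)
    (h2' : ‖T (q' - p) + ρ • v'‖ ≤ κ * ρ) (hx : x ∈ segment ℝ q q') :
    ‖T (x - p)‖ ≤ ρ ∧ ∃ y ∈ segment ℝ v v', ‖T (x - p) + ρ • y‖ ≤ κ * ρ := by
  obtain ⟨a, b, ha, hb, hab, rfl⟩ := hx
  have e : T (a • q + b • q' - p) = a • T (q - p) + b • T (q' - p) := by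
    rw [← map_smul, ← map_smul, ← map_add]
    congr 1
    have : p = a • p + b • p := by rw [← add_smul, hab, one_smul]
    nth_rewrite 1 [this]
    simp only [smul_sub]; ring
  refine ⟨?_, a • v + b • v', ⟨a, b, ha, hb, hab, rfl⟩, ?_⟩
  · rw [e]
    calc ‖a • T (q - p) + b • T (q' - p)‖ ≤ ‖a • T (q - p)‖ + ‖b • T (q' - p)‖ := norm_add_le _ _
      _ = a * ρ + b * ρ := by
        rw [norm_smul, norm_smul, h1, h1', Real.norm_of_nonneg ha, Real.norm_of_nonneg hb]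
      _ = ρ := by rw [← add_mul, hab, one_mul]
  · rw [e]
    have : a • T (q - p) + b • T (q' - p) + ρ • (a • v + b • v') =
        a • (T (q - p) + ρ • v) + b • (T (q' - p) + ρ • v') := by
      simp only [smul_add, smul_smul, mul_comm ρ]; abel
    rw [this]
    calc ‖a • (T (q - p) + ρ • v) + b • (T (q' - p) + ρ • v')‖
        ≤ ‖a • (T (q - p) + ρ • v)‖ + ‖b • (T (q' - p) + ρ • v')‖ := norm_add_le _ _
      _ = a * ‖T (q - p) + ρ • v‖ + b * ‖T (q' - p) + ρ • v'‖ := by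
        rw [norm_smul, norm_smul, Real.norm_of_nonneg ha, Real.norm_of_nonneg hb]
      _ ≤ a * (κ * ρ) + b * (κ * ρ) :=
        add_le_add (mul_le_mul_of_nonneg_left h2 ha) (mul_le_mul_of_nonneg_left h2' hb)
      _ = κ * ρ := by rw [← add_mul, hab, one_mul]

lemma star_aux_inner {v w y : ℂ} {ρ κ : ℝ} (hv : ‖v‖ = 1) (h : ‖w + ρ • y‖ ≤ κ * ρ) :
    |inner ℝ v w + ρ * inner ℝ v y| ≤ κ * ρ := by
  have h1 : inner ℝ v w + ρ * inner ℝ v y = inner ℝ v (w + ρ • y) := by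
    rw [inner_add_right, inner_smul_right]
  rw [h1]
  refine (abs_real_inner_le_norm _ _).trans ?_
  rw [hv, one_mul]; exact h

lemma star_aux_dist {v y : ℂ} {κ : ℝ} (hv : ‖v‖ = 1) (hy : ‖y‖ ≤ 1)
    (h : 1 - 5 * κ ≤ inner ℝ v y) : ‖v - y‖ ^ 2 ≤ 10 * κ := by
  rw [norm_sub_sq_real, hv]
  nlinarith [norm_nonneg y]

lemma star_aux_seg_norm {v v' y : ℂ} (hv : ‖v‖ = 1) (hv' : ‖v'‖ = 1) (hy : y ∈ segment ℝ v v') :
    ‖y‖ ≤ 1 := by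
  have : segment ℝ v v' ⊆ Metric.closedBall 0 1 :=
    (convex_closedBall (0 : ℂ) 1).segment_subset (by simp [hv]) (by simp [hv'])
  simpa using this hy

/-- Two near minimising curves with different directions do not meet. -/
lemma star_aux_gg (P : Pic S d N) {p : ℂ} {T : ℂ →L[ℝ] ℂ} {z z' q q' v v' x : ℂ} {ρ κ η : ℝ}
    (hρ : 0 < ρ) (hz : z ∈ S) (hz' : z' ∈ S) (hq : q ∈ S) (hq' : q' ∈ S)
    (hv : ‖v‖ = 1) (hv' : ‖v'‖ = 1)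
    (a1 : |d z q - d z p - inner ℝ v (T (q - p))| ≤ κ * ρ)
    (a2 : |d z q' - d z p - inner ℝ v (T (q' - p))| ≤ κ * ρ)
    (a3 : |d z' q - d z' p - inner ℝ v' (T (q - p))| ≤ κ * ρ)
    (a4 : |d z' q' - d z' p - inner ℝ v' (T (q' - p))| ≤ κ * ρ)
    (b1 : ‖T (q - p) + ρ • v‖ ≤ κ * ρ) (b2 : ‖T (q' - p) + ρ • v'‖ ≤ κ * ρ)
    (hη : 0 < η) (hκ : κ ≤ η ^ 2 / 20) (hgap : η ≤ ‖v - v'‖)
    (hx : ∃ u, N x u ∧ d q u + d u z ≤ d q z + κ * ρ)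
    (hx' : ∃ u, N x u ∧ d q' u + d u z' ≤ d q' z' + κ * ρ) : False := by
  have h1 := star_aux_pair P hz hz' hq hq' hx hx'
  rw [P.symm q' hq' z hz, P.symm q hq z' hz', P.symm q hq z hz, P.symm q' hq' z' hz'] at h1
  have c1 := star_aux_inner hv b1
  have c2 := star_aux_inner hv b2
  have c3 := star_aux_inner hv' b1
  have c4 := star_aux_inner hv' b2
  rw [real_inner_self_eq_norm_sq, hv] at c1
  rw [real_inner_self_eq_norm_sq, hv'] at c4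
  rw [real_inner_comm] at c3
  rw [abs_le] at a1 a2 a3 a4 c1 c2 c3 c4
  have h2 : 1 - 5 * κ ≤ inner ℝ v v' := by
    have h3 : ρ * (1 - 5 * κ) ≤ ρ * inner ℝ v v' := by
      have e : inner ℝ v' v = (inner ℝ v v' : ℝ) := real_inner_comm _ _
      rw [real_inner_comm] at c3
      rw [e] at c3
      nlinarith
    exact le_of_mul_le_mul_left h3 hρ
  have h4 := star_aux_dist hv hv'.le h2
  have h5 : η ^ 2 ≤ ‖v - v'‖ ^ 2 := pow_le_pow_left₀ hη.le hgap 2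
  have : 0 < η ^ 2 := by positivity
  linarith

/-- A near minimising curve does not meet a segment between other exit points. -/
lemma star_aux_gs (P : Pic S d N) {p : ℂ} {T : ℂ →L[ℝ] ℂ} {z q v x y : ℂ} {ρ κ η : ℝ}
    (hρ : 0 < ρ) (hz : z ∈ S) (hq : q ∈ S) (hxS : x ∈ S)
    (hv : ‖v‖ = 1) (hy : ‖y‖ ≤ 1)
    (a1 : |d z q - d z p - inner ℝ v (T (q - p))| ≤ κ * ρ)
    (a2 : |d z x - d z p - inner ℝ v (T (x - p))| ≤ κ * ρ)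
    (b1 : ‖T (q - p) + ρ • v‖ ≤ κ * ρ) (b2 : ‖T (x - p) + ρ • y‖ ≤ κ * ρ)
    (hη : 0 < η) (hκ : κ ≤ η ^ 2 / 20) (hgap : η ≤ ‖v - y‖)
    (hx : ∃ u, N x u ∧ d q u + d u z ≤ d q z + κ * ρ) : False := by
  obtain ⟨u, hu, h1⟩ := hx
  have mu := (P.near_mem x u hu).1
  have e1 := P.near_eq x x u (P.near_self x hxS) hu
  have t1 := P.tri x hxS u mu z hz
  have t2 := P.nonneg hq mu
  rw [P.symm q hq z hz] at h1
  rw [P.symm x hxS z hz] at t1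
  have c1 := star_aux_inner hv b1
  have c2 := star_aux_inner hv b2
  rw [real_inner_self_eq_norm_sq, hv] at c1
  rw [abs_le] at a1 a2 c1 c2
  have h2 : 1 - 5 * κ ≤ inner ℝ v y := by
    have h3 : ρ * (1 - 5 * κ) ≤ ρ * inner ℝ v y := by nlinarith
    exact le_of_mul_le_mul_left h3 hρ
  have h4 := star_aux_dist hv hy h2
  have h5 : η ^ 2 ≤ ‖v - y‖ ^ 2 := pow_le_pow_left₀ hη.le hgap 2
  have : 0 < η ^ 2 := by positivity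
  linarith

theorem star (P : Pic S d N) {p : ℂ} (hp : S ∈ 𝓝 p) (hp1 : ‖p‖ < 1) {T : ℂ →L[ℝ] ℂ}
    (hinj : ∀ v, T v = 0 → v = 0) (hT : Tan d p T) {θ₀ θ₁ θ₂ θ₃ : ℝ} (h01 : θ₀ < θ₁)
    (h12 : θ₁ < θ₂) (h23 : θ₂ < θ₃) (h30 : θ₃ < θ₀ + 2 * Real.pi) (hz₀ : cis θ₀ ∈ S)
    (hz₁ : cis θ₁ ∈ S) (hz₂ : cis θ₂ ∈ S) (hz₃ : cis θ₃ ∈ S) {v₀ v₁ v₂ v₃ : ℂ}
    (hL₀ : HasFDerivAt (fun q => d (cis θ₀) q) ((innerSL ℝ v₀ : ℂ →L[ℝ] ℝ).comp T) p)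
    (hL₁ : HasFDerivAt (fun q => d (cis θ₁) q) ((innerSL ℝ v₁ : ℂ →L[ℝ] ℝ).comp T) p)
    (hL₂ : HasFDerivAt (fun q => d (cis θ₂) q) ((innerSL ℝ v₂ : ℂ →L[ℝ] ℝ).comp T) p)
    (hL₃ : HasFDerivAt (fun q => d (cis θ₃) q) ((innerSL ℝ v₃ : ℂ →L[ℝ] ℝ).comp T) p) :
    (segment ℝ v₀ v₂ ∩ segment ℝ v₁ v₃).Nonempty := by
  by_contra hcon
  obtain ⟨η, hη, hgap⟩ := star_aux_gap hcon
  have hne : ∀ θ : ℝ, cis θ ≠ p := fun θ h => by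
    have := norm_cis θ
    rw [h] at this
    linarith
  obtain ⟨n₀, e₀⟩ := star_exit P hp hinj hT hz₀ (hne _) hL₀
  obtain ⟨n₁, e₁⟩ := star_exit P hp hinj hT hz₁ (hne _) hL₁
  obtain ⟨n₂, e₂⟩ := star_exit P hp hinj hT hz₂ (hne _) hL₂
  obtain ⟨n₃, e₃⟩ := star_exit P hp hinj hT hz₃ (hne _) hL₃
  set κ := min (η ^ 2 / 20) (η / 4) with hκ
  have hκ0 : 0 < κ := lt_min (by positivity) (by positivity)
  have hκ1 : κ ≤ η ^ 2 / 20 := min_le_left _ _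
  have hκ2 : κ ≤ η / 4 := min_le_right _ _
  have h3 : ∀ᶠ ρ in 𝓝[>] (0 : ℝ), 0 < ρ := eventually_mem_nhdsWithin
  obtain ⟨ρ, hρ, ⟨q₀, r₀, s₀⟩, ⟨q₁, r₁, s₁⟩, ⟨q₂, r₂, s₂⟩, ⟨q₃, r₃, s₃⟩, w₀, w₁, w₂, w₃⟩ :=
    (h3.and ((e₀ κ hκ0).and ((e₁ κ hκ0).and ((e₂ κ hκ0).and ((e₃ κ hκ0).and
      ((star_aux_near hp hinj hL₀ hκ0).and ((star_aux_near hp hinj hL₁ hκ0).and
      ((star_aux_near hp hinj hL₂ hκ0).and (star_aux_near hp hinj hL₃ hκ0))))))))).exists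
  have m₀ := (w₀ q₀ r₀.le).1
  have m₁ := (w₀ q₁ r₁.le).1
  have m₂ := (w₀ q₂ r₂.le).1
  have m₃ := (w₀ q₃ r₃.le).1
  -- the two sets
  set G : ℂ → ℂ → Set ℂ := fun q z => {x | ∃ u, N x u ∧ d q u + d u z ≤ d q z + κ * ρ} with hG
  have g₀ : JoinedIn (G q₀ (cis θ₀)) q₀ (cis θ₀) := P.geo q₀ m₀ _ hz₀ _ (by positivity)
  have g₁ : JoinedIn (G q₁ (cis θ₁)) q₁ (cis θ₁) := P.geo q₁ m₁ _ hz₁ _ (by positivity)
  have g₂ : JoinedIn (G q₂ (cis θ₂)) q₂ (cis θ₂) := P.geo q₂ m₂ _ hz₂ _ (by positivity)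
  have g₃ : JoinedIn (G q₃ (cis θ₃)) q₃ (cis θ₃) := P.geo q₃ m₃ _ hz₃ _ (by positivity)
  have joinA : JoinedIn (G q₀ (cis θ₀) ∪ segment ℝ q₀ q₂ ∪ G q₂ (cis θ₂)) (cis θ₀) (cis θ₂) :=
    ((g₀.symm.mono (subset_union_left.trans subset_union_left)).trans
      ((JoinedIn.of_segment_subset (Subset.refl _)).mono
        (subset_union_right.trans subset_union_left))).trans (g₂.mono subset_union_right)
  have joinB : JoinedIn (G q₁ (cis θ₁) ∪ segment ℝ q₁ q₃ ∪ G q₃ (cis θ₃)) (cis θ₁) (cis θ₃) :=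
    ((g₁.symm.mono (subset_union_left.trans subset_union_left)).trans
      ((JoinedIn.of_segment_subset (Subset.refl _)).mono
        (subset_union_right.trans subset_union_left))).trans (g₃.mono subset_union_right)
  have Gball : ∀ q z, G q z ⊆ Metric.closedBall 0 1 := fun q z x ⟨u, hu, _⟩ => by
    simpa using (P.near_mem x u hu).2
  have Sball : ∀ x ∈ S, x ∈ Metric.closedBall (0 : ℂ) 1 := fun x hx => by
    simpa using (P.near_mem x x (P.near_self x hx)).2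
  have segA : ∀ x ∈ segment ℝ q₀ q₂, ‖T (x - p)‖ ≤ ρ ∧ ∃ y ∈ segment ℝ v₀ v₂,
      ‖T (x - p) + ρ • y‖ ≤ κ * ρ := fun x hx => star_aux_seg r₀ r₂ s₀ s₂ hx
  have segB : ∀ x ∈ segment ℝ q₁ q₃, ‖T (x - p)‖ ≤ ρ ∧ ∃ y ∈ segment ℝ v₁ v₃,
      ‖T (x - p) + ρ • y‖ ≤ κ * ρ := fun x hx => star_aux_seg r₁ r₃ s₁ s₃ hx
  obtain ⟨x, hxA, hxB⟩ := cross
    (union_subset (union_subset (Gball _ _) fun x hx => Sball x (w₀ x (segA x hx).1).1) (Gball _ _))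
    (union_subset (union_subset (Gball _ _) fun x hx => Sball x (w₀ x (segB x hx).1).1) (Gball _ _))
    h01 h12 h23 h30 joinA joinB
  have L0 := left_mem_segment ℝ v₀ v₂
  have R0 := right_mem_segment ℝ v₀ v₂
  have L1 := left_mem_segment ℝ v₁ v₃
  have R1 := right_mem_segment ℝ v₁ v₃
  have gap' : ∀ y ∈ segment ℝ v₀ v₂, ∀ y' ∈ segment ℝ v₁ v₃, η ≤ ‖y' - y‖ := fun y hy y' hy' => by
    rw [norm_sub_rev]; exact hgap y hy y' hy'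
  rcases hxA with (hx0 | hxs) | hx2
  · rcases hxB with (hx1 | hxt) | hx3
    · exact star_aux_gg P hρ hz₀ hz₁ m₀ m₁ n₀ n₁ (w₀ q₀ r₀.le).2 (w₀ q₁ r₁.le).2 (w₁ q₀ r₀.le).2
        (w₁ q₁ r₁.le).2 s₀ s₁ hη hκ1 (hgap _ L0 _ L1) hx0 hx1
    · obtain ⟨k1, y, hy, k2⟩ := segB x hxt
      exact star_aux_gs P hρ hz₀ m₀ (w₀ x k1).1 n₀ (star_aux_seg_norm n₁ n₃ hy) (w₀ q₀ r₀.le).2
        (w₀ x k1).2 s₀ k2 hη hκ1 (hgap _ L0 _ hy) hx0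
    · exact star_aux_gg P hρ hz₀ hz₃ m₀ m₃ n₀ n₃ (w₀ q₀ r₀.le).2 (w₀ q₃ r₃.le).2 (w₃ q₀ r₀.le).2
        (w₃ q₃ r₃.le).2 s₀ s₃ hη hκ1 (hgap _ L0 _ R1) hx0 hx3
  · obtain ⟨k1, y, hy, k2⟩ := segA x hxs
    have hyn := star_aux_seg_norm n₀ n₂ hy
    rcases hxB with (hx1 | hxt) | hx3
    · exact star_aux_gs P hρ hz₁ m₁ (w₀ x k1).1 n₁ hyn (w₁ q₁ r₁.le).2
        (w₁ x k1).2 s₁ k2 hη hκ1 (gap' _ hy _ L1) hx1
    · obtain ⟨_, y', hy', k3⟩ := segB x hxt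
      have h5 : ‖y - y'‖ * ρ ≤ 2 * κ * ρ := by
        have e : ρ • (y - y') = (T (x - p) + ρ • y) - (T (x - p) + ρ • y') := by
          rw [smul_sub]; abel
        have := norm_sub_le (T (x - p) + ρ • y) (T (x - p) + ρ • y')
        rw [← e, norm_smul, Real.norm_of_nonneg hρ.le] at this
        linarith
      have h6 := le_of_mul_le_mul_right h5 hρ
      have h7 := hgap y hy y' hy'
      linarith
    · exact star_aux_gs P hρ hz₃ m₃ (w₀ x k1).1 n₃ hyn (w₃ q₃ r₃.le).2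
        (w₃ x k1).2 s₃ k2 hη hκ1 (gap' _ hy _ R1) hx3
  · rcases hxB with (hx1 | hxt) | hx3
    · exact star_aux_gg P hρ hz₂ hz₁ m₂ m₁ n₂ n₁ (w₂ q₂ r₂.le).2 (w₂ q₁ r₁.le).2 (w₁ q₂ r₂.le).2
        (w₁ q₁ r₁.le).2 s₂ s₁ hη hκ1 (hgap _ R0 _ L1) hx2 hx1
    · obtain ⟨k1, y, hy, k2⟩ := segB x hxt
      exact star_aux_gs P hρ hz₂ m₂ (w₂ x k1).1 n₂ (star_aux_seg_norm n₁ n₃ hy) (w₂ q₂ r₂.le).2
        (w₂ x k1).2 s₂ k2 hη hκ1 (hgap _ R0 _ hy) hx2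
    · exact star_aux_gg P hρ hz₂ hz₃ m₂ m₃ n₂ n₃ (w₂ q₂ r₂.le).2 (w₂ q₃ r₃.le).2 (w₃ q₂ r₂.le).2
        (w₃ q₃ r₃.le).2 s₂ s₃ hη hκ1 (hgap _ R0 _ R1) hx2 hx3

end Pool.Agent.MIR
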