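import Mathlib
import Pool.Agent.MIR.Defs
import Pool.Agent.MIR.Basic
import Pool.Agent.MIR.Star
import Pool.Agent.MIR.StarE
import Pool.Agent.MIR.PW

open MeasureTheory Set Filter Topology Manifold Bundle
open scoped ENNReal NNReal ContDiff

noncomputable section

namespace Pool.Agent.MIR

variable {S : Set ℂ} {d : ℂ → ℂ → ℝ} {N : ℂ → ℂ → Prop}

lemma point_inner (v w : ℂ) : inner ℝ v w = v.re * w.re + v.im * w.im := by
  rw [Complex.inner]
  simp [Complex.mul_re]
  ring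

theorem point (P : Pic S d N) {p : ℂ} (hp : S ∈ 𝓝 p) (hp1 : ‖p‖ < 1) {T : ℂ →L[ℝ] ℂ}
    (hinj : ∀ v, T v = 0 → v = 0) (hT : Tan d p T) {M : ℕ} (hM : 0 < M) {f : ℕ → ℂ → ℝ}
    (hz : ∀ i : ℕ, cis (2 * Real.pi * i / M) ∈ S)
    (hf : ∀ i : ℕ, f i =ᶠ[𝓝 p] fun q => d (cis (2 * Real.pi * i / M)) q)
    (hdiff : ∀ i, DifferentiableAt ℝ (f i) p) :
    |∑ i ∈ Finset.range M, Jw (f i) (f (i + 1)) p| ≤ 2 * Real.pi * |cp (T 1) (T Complex.I)| := by
  have hM' : (0 : ℝ) < M := by exact_mod_cast hM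
  have hinj' : Function.Injective (T : ℂ →ₗ[ℝ] ℂ) := by
    rw [injective_iff_map_eq_zero]
    exact fun a ha => hinj a ha
  let e : ℂ ≃ₗ[ℝ] ℂ := LinearEquiv.ofInjectiveEndo (T : ℂ →ₗ[ℝ] ℂ) hinj'
  let Ti : ℂ →L[ℝ] ℂ := LinearMap.toContinuousLinearMap (e.symm : ℂ →ₗ[ℝ] ℂ)
  have hTi : ∀ x, Ti (T x) = x := by
    intro x
    have h1 : e x = T x := rfl
    change e.symm (T x) = x
    rw [← h1, LinearEquiv.symm_apply_apply]
  let G : ℂ → ℂ := fun z =>
    (InnerProductSpace.toDual ℝ ℂ).symm ((fderiv ℝ (fun q => d z q) p).comp Ti)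
  have hG : ∀ z, (innerSL ℝ (G z) : ℂ →L[ℝ] ℝ).comp T = fderiv ℝ (fun q => d z q) p := by
    intro z
    ext1 x
    have h1 : inner ℝ (G z) (T x) = ((fderiv ℝ (fun q => d z q) p).comp Ti) (T x) := by
      exact InnerProductSpace.toDual_symm_apply
    simp only [ContinuousLinearMap.comp_apply, innerSL_apply_apply]
    rw [h1, ContinuousLinearMap.comp_apply, hTi]
  let zz : ℕ → ℂ := fun i => cis (2 * Real.pi * i / M)
  let v : ℕ → ℂ := fun i => G (zz i)
  have hd : ∀ i, HasFDerivAt (fun q => d (zz i) q) (fderiv ℝ (f i) p) p := fun i =>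
    (hdiff i).hasFDerivAt.congr_of_eventuallyEq (hf i).symm
  have hL : ∀ i, HasFDerivAt (fun q => d (zz i) q) ((innerSL ℝ (v i) : ℂ →L[ℝ] ℝ).comp T) p := by
    intro i
    rw [hG, (hd i).fderiv]
    exact hd i
  have hfd : ∀ i, fderiv ℝ (f i) p = (innerSL ℝ (v i) : ℂ →L[ℝ] ℝ).comp T := by
    intro i
    rw [hG, (hd i).fderiv]
  have hv : ∀ i, ‖v i‖ = 1 := by
    intro i
    refine (star_exit P hp hinj hT (hz i) ?_ (hL i)).1
    intro h
    have h2 : ‖cis (2 * Real.pi * i / M)‖ < 1 := by rw [h]; exact hp1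
    rw [norm_cis] at h2
    exact lt_irrefl _ h2
  have hper : v M = v 0 := by
    have h1 : zz M = zz 0 := by
      change cis (2 * Real.pi * (M : ℕ) / M) = cis (2 * Real.pi * ((0 : ℕ) : ℝ) / M)
      rw [mul_div_assoc, div_self hM'.ne', mul_one]
      have := cis_add_two_pi 0
      rw [zero_add] at this
      rw [this]
      simp
    change G (zz M) = G (zz 0)
    rw [h1]
  have hmono : ∀ i j : ℕ, i < j → 2 * Real.pi * i / M < 2 * Real.pi * j / M := by
    intro i j hij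
    have : (i : ℝ) < j := by exact_mod_cast hij
    have := Real.pi_pos
    gcongr
  have hcr : ∀ i j k l, i < j → j < k → k < l → l < M →
      (segment ℝ (v i) (v k) ∩ segment ℝ (v j) (v l)).Nonempty := by
    intro i j k l hij hjk hkl hl
    refine star P hp hp1 hinj hT (hmono i j hij) (hmono j k hjk) (hmono k l hkl) ?_
      (hz i) (hz j) (hz k) (hz l) (hL i) (hL j) (hL k) (hL l)
    have h1 : (l : ℝ) < M := by exact_mod_cast hl
    have h2 : 2 * Real.pi * l / M < 2 * Real.pi := by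
      rw [div_lt_iff₀ hM']
      exact mul_lt_mul_of_pos_left h1 (by positivity)
    have h3 : 0 ≤ 2 * Real.pi * (i : ℝ) / M := by positivity
    linarith
  have hJ : ∀ i, Jw (f i) (f (i + 1)) p = cp (v i) (v (i + 1)) * cp (T 1) (T Complex.I) := by
    intro i
    simp only [Jw, hfd, ContinuousLinearMap.comp_apply, innerSL_apply_apply, point_inner, cp]
    ring
  simp only [hJ]
  rw [← Finset.sum_mul, abs_mul]
  exact mul_le_mul_of_nonneg_right (pw hv hper hcr) (abs_nonneg _)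

end Pool.Agent.MIR
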