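import Mathlib
import Pool.Agent.MIR.Defs
import Pool.Agent.MIR.Basic
import Pool.Agent.MIR.AllH
import Pool.Agent.MIR.DblP
import Pool.Agent.MIR.DblC
import Pool.Agent.MIR.DblT
import Pool.Agent.MIR.Point
import Pool.Agent.MIR.StarG
import Pool.Agent.MIR.Disc
import Pool.Agent.MIR.Out

open MeasureTheory Set Filter Topology Manifold Bundle
open scoped ENNReal NNReal ContDiff

noncomputable section

namespace Pool.Agent.MIR

variable {k : ℕ} {c : Fin k → ℂ} {r : Fin k → ℝ} {d : ℂ → ℂ → ℝ} {N : ℂ → ℂ → Prop}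

/-! ### Folding -/

private lemma core_fold_of_nonneg {z : ℂ} (h : 0 ≤ z.im) : fold z = z := by
  simp [fold, h]

private lemma core_fold_conj (z : ℂ) : fold ((starRingEnd ℂ) z) = fold z := by
  unfold fold
  rcases lt_trichotomy z.im 0 with h | h | h
  · have h1 : (0 : ℝ) ≤ ((starRingEnd ℂ) z).im := by
      rw [Complex.conj_im]; linarith
    rw [if_pos h1, if_neg (not_le.2 h)]
  · have h1 : (starRingEnd ℂ) z = z := Complex.conj_eq_iff_im.2 h
    rw [if_pos (by rw [h1]; exact h.ge), if_pos h.ge, h1]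
  · have h1 : ¬ (0 : ℝ) ≤ ((starRingEnd ℂ) z).im := by
      rw [Complex.conj_im]; linarith
    rw [if_neg h1, if_pos h.le, Complex.conj_conj]

private lemma core_mem_DOm_conj {z : ℂ} : (starRingEnd ℂ) z ∈ DOm c r ↔ z ∈ DOm c r := by
  simp only [DOm, mem_ofPred_eq, core_fold_conj]

private lemma core_cis_mem_DOm (Hl : Holes c r) (t : ℝ) : cis t ∈ DOm c r := by
  change fold (cis t) ∈ Om c r
  unfold fold
  split_ifs with h
  · exact unit_mem Hl (norm_cis t) h
  · refine unit_mem Hl ?_ ?_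
    · rw [Complex.norm_conj, norm_cis]
    · rw [Complex.conj_im]; linarith

private lemma core_Om_sub_DOm : Om c r ⊆ DOm c r := fun z hz => by
  change fold z ∈ Om c r
  rwa [core_fold_of_nonneg hz.2.1]

private lemma core_dbl_eq {D : ℂ → ℂ → ℝ} {p q : ℂ} (hp : 0 ≤ p.im) (hq : 0 ≤ q.im) :
    dbl D p q = D p q := by
  unfold dbl
  rw [if_pos (Or.inl ⟨hp, hq⟩), core_fold_of_nonneg hp, core_fold_of_nonneg hq]

private lemma core_dbl_conj_right (D : ℂ → ℂ → ℝ) (p q : ℂ) :
    dbl D p ((starRingEnd ℂ) q) = dbl D ((starRingEnd ℂ) p) q := by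
  rw [← dbl_conj ((starRingEnd ℂ) p) q, Complex.conj_conj]

/-! ### Tangent norms and conjugation -/

private lemma core_tan_conj {D : ℂ → ℂ → ℝ} {p : ℂ} {T : ℂ →L[ℝ] ℂ} (h : Tan D p T) :
    Tan (fun x y => D ((starRingEnd ℂ) x) ((starRingEnd ℂ) y)) ((starRingEnd ℂ) p)
      (T.comp (Complex.conjCLE : ℂ →L[ℝ] ℂ)) := by
  unfold Tan at h ⊢
  have ht : Tendsto (fun q : ℂ => (starRingEnd ℂ) q) (𝓝 ((starRingEnd ℂ) p)) (𝓝 p) := by
    have := Complex.continuous_conj.tendsto ((starRingEnd ℂ) p)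
    rwa [Complex.conj_conj] at this
  have h1 := h.comp_tendsto ht
  have h2 : (fun q : ℂ => q - (starRingEnd ℂ) p) =
      fun q => (starRingEnd ℂ) ((fun q => q - p) ((starRingEnd ℂ) q)) := by
    funext q; simp
  refine (Asymptotics.IsLittleO.congr_left h1 ?_).trans_isBigO ?_
  · intro q
    simp
  · rw [Asymptotics.isBigO_iff]
    refine ⟨1, Filter.Eventually.of_forall fun q => ?_⟩
    rw [one_mul]
    have h3 : q - (starRingEnd ℂ) p = (starRingEnd ℂ) ((starRingEnd ℂ) q - p) := by simp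
    rw [h3, Complex.norm_conj]
    rfl

/-! ### The pointwise bound -/

private lemma core_point {S : Set ℂ} {D : ℂ → ℂ → ℝ} (P : Pic S D N) {p : ℂ} (hp : S ∈ 𝓝 p)
    (hp1 : ‖p‖ < 1) {T : ℂ →L[ℝ] ℂ} (hTi : (∀ v, T v = 0 → v = 0) → Tan D p T)
    {E : ℂ → ℂ → ℝ} (hE : Tan E p T) (hDE : ∀ᶠ q in 𝓝 p, D p q ≤ E p q) {M : ℕ} (hM : 0 < M)
    {f : ℕ → ℂ → ℝ} (hz : ∀ i : ℕ, cis (2 * Real.pi * i / M) ∈ S)
    (hf : ∀ i : ℕ, f i =ᶠ[𝓝 p] fun q => D (cis (2 * Real.pi * i / M)) q)
    (hdiff : ∀ i, DifferentiableAt ℝ (f i) p) :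
    |∑ i ∈ Finset.range M, Jw (f i) (f (i + 1)) p| ≤
      2 * Real.pi * |cp (T 1) (T Complex.I)| := by
  by_cases hinj : ∀ v, T v = 0 → v = 0
  · exact point P hp hp1 hinj (hTi hinj) hM hz hf hdiff
  · push Not at hinj
    obtain ⟨v, hv, hv0⟩ := hinj
    have hTv : T v = v.re • T 1 + v.im • T Complex.I := by
      rw [← map_smul, ← map_smul, ← map_add]
      congr 1
      apply Complex.ext <;> simp
    have hre : v.re * (T 1).re + v.im * (T Complex.I).re = 0 := by
      have := congrArg Complex.re (hTv.symm.trans hv)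
      simpa using this
    have him : v.re * (T 1).im + v.im * (T Complex.I).im = 0 := by
      have := congrArg Complex.im (hTv.symm.trans hv)
      simpa using this
    have hcp : cp (T 1) (T Complex.I) = 0 := by
      unfold cp
      by_cases h : v.re = 0
      · have h' : v.im ≠ 0 := fun h' => hv0 (Complex.ext h h')
        have h1 : v.im * ((T 1).re * (T Complex.I).im - (T 1).im * (T Complex.I).re) = 0 := by
          linear_combination (T 1).re * him - (T 1).im * hre
        exact (mul_eq_zero.1 h1).resolve_left h'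
      · have h1 : v.re * ((T 1).re * (T Complex.I).im - (T 1).im * (T Complex.I).re) = 0 := by
          linear_combination (T Complex.I).im * hre - (T Complex.I).re * him
        exact (mul_eq_zero.1 h1).resolve_left h
    have hpS : p ∈ S := mem_of_mem_nhds hp
    have hg : ∀ i, ∀ w, |fderiv ℝ (f i) p w| ≤ ‖T w‖ := by
      intro i w
      refine star_grad hE ?_ (hdiff i).hasFDerivAt w
      filter_upwards [hf i, hDE, hp] with q hq hq2 hqS
      rw [hq, (hf i).self_of_nhds]
      have h1 := P.abs_sub_le (hz i) hqS hpS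
      rw [P.symm q hqS p hpS] at h1
      exact h1.trans hq2
    have h0 : ∑ i ∈ Finset.range M, Jw (f i) (f (i + 1)) p = 0 :=
      Finset.sum_eq_zero fun i _ => jw_zero hcp (hg i) (hg (i + 1))
    rw [h0, hcp]
    simp

/-! ### The finite estimate -/

private lemma core_measurable_Jw (f g : ℂ → ℝ) : Measurable (Jw f g) := by
  unfold Jw
  exact ((measurable_fderiv_apply_const ℝ f 1).mul
    (measurable_fderiv_apply_const ℝ g Complex.I)).sub
    ((measurable_fderiv_apply_const ℝ f Complex.I).mul (measurable_fderiv_apply_const ℝ g 1))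

private lemma core_abs_Jw_le {f g : ℂ → ℝ} {K : ℝ≥0} (hf : LipschitzWith K f)
    (hg : LipschitzWith K g) (z : ℂ) : ‖Jw f g z‖ ≤ 2 * (K : ℝ) ^ 2 := by
  have hb : ∀ {h : ℂ → ℝ}, LipschitzWith K h → ∀ v : ℂ, ‖v‖ = 1 → |fderiv ℝ h z v| ≤ K := by
    intro h hh v hv
    have h1 := (fderiv ℝ h z).le_opNorm v
    have h2 := norm_fderiv_le_of_lipschitz ℝ (x₀ := z) hh
    rw [hv, mul_one, Real.norm_eq_abs] at h1
    exact h1.trans h2
  unfold Jw
  rw [Real.norm_eq_abs]
  have a1 := hb hf 1 (by simp)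
  have a2 := hb hg Complex.I (by simp)
  have a3 := hb hf Complex.I (by simp)
  have a4 := hb hg 1 (by simp)
  have e1 : |fderiv ℝ f z 1 * fderiv ℝ g z Complex.I| ≤ (K : ℝ) * K := by
    rw [abs_mul]; exact mul_le_mul a1 a2 (abs_nonneg _) K.2
  have e2 : |fderiv ℝ f z Complex.I * fderiv ℝ g z 1| ≤ (K : ℝ) * K := by
    rw [abs_mul]; exact mul_le_mul a3 a4 (abs_nonneg _) K.2
  have := abs_sub (fderiv ℝ f z 1 * fderiv ℝ g z Complex.I)
    (fderiv ℝ f z Complex.I * fderiv ℝ g z 1)
  nlinarith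

private lemma core_integrableOn {f g : ℂ → ℝ} {K : ℝ≥0} (hf : LipschitzWith K f)
    (hg : LipschitzWith K g) (x : ℂ) (R : ℝ) : IntegrableOn (Jw f g) (Metric.ball x R) := by
  refine Measure.integrableOn_of_bounded (M := 2 * (K : ℝ) ^ 2) ?_
    (core_measurable_Jw f g).aestronglyMeasurable
    (Eventually.of_forall fun z => core_abs_Jw_le hf hg z)
  exact measure_ball_lt_top.ne

private lemma core_tan_dbl (Hl : Holes c r) (H : Half c r d (fun x u => x = u ∧ u ∈ Om c r))
    {d' : ℂ → ℂ → ℝ} (H' : Half c r d' N) (hle : ∀ p ∈ Om c r, ∀ q ∈ Om c r, d' p q ≤ d p q)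
    (hloc : Loc c r d d') {p : ℂ} (hp : p ∈ interior (Om c r)) {T : ℂ →L[ℝ] ℂ}
    (hT : Tan d p T) (hinj : ∀ v, T v = 0 → v = 0) :
    Tan (dbl d') ((starRingEnd ℂ) p) (T.comp (Complex.conjCLE : ℂ →L[ℝ] ℂ)) := by
  have h1 := core_tan_conj (dbl_tan Hl H H' hle hloc hp hT hinj)
  have h2 : (fun x y => dbl d' ((starRingEnd ℂ) x) ((starRingEnd ℂ) y)) = dbl d' := by
    funext x y; exact dbl_conj x y
  rwa [h2] at h1

private lemma core_vol_real : volume {z : ℂ | z.im = 0} = 0 := by
  have h1 : {z : ℂ | z.im = 0} = (LinearMap.ker Complex.imLm : Set ℂ) := by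
    ext z; simp
  rw [h1]
  refine Measure.addHaar_submodule volume _ ?_
  intro h
  have h2 : Complex.I ∈ LinearMap.ker Complex.imLm := by rw [h]; trivial
  simp at h2

private lemma core_interior {z : ℂ} (h1 : ‖z‖ < 1) (h2 : 0 < z.im) (h3 : ∀ j, r j < ‖z - c j‖) :
    z ∈ interior (Om c r) := by
  have hopen : IsOpen {z : ℂ | ‖z‖ < 1 ∧ 0 < z.im ∧ ∀ j, r j < ‖z - c j‖} := by
    have : {z : ℂ | ‖z‖ < 1 ∧ 0 < z.im ∧ ∀ j, r j < ‖z - c j‖} =
        {z : ℂ | ‖z‖ < 1} ∩ {z : ℂ | 0 < z.im} ∩ ⋂ j, {z : ℂ | r j < ‖z - c j‖} := by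
      ext z
      simp only [mem_ofPred_eq, mem_inter_iff, mem_iInter]
      tauto
    rw [this]
    refine (IsOpen.inter ?_ ?_).inter (isOpen_iInter_of_finite fun j => ?_)
    · exact isOpen_lt continuous_norm continuous_const
    · exact isOpen_lt continuous_const Complex.continuous_im
    · exact isOpen_lt continuous_const (by fun_prop)
  refine mem_interior.2 ⟨_, ?_, hopen, ⟨h1, h2, h3⟩⟩
  rintro w ⟨a, b, e⟩
  exact ⟨a.le, b.le, fun j => (e j).le⟩

/-- Centres of the holes and of their mirror images. -/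
private def core_cc (c : Fin k → ℂ) (x : Fin k × Bool) : ℂ :=
  if x.2 then c x.1 else (starRingEnd ℂ) (c x.1)

private lemma core_cc_dist (Hl : Holes c r) {x y : Fin k × Bool} (hxy : x ≠ y) :
    r x.1 + r y.1 ≤ dist (core_cc c x) (core_cc c y) := by
  obtain ⟨i, a⟩ := x
  obtain ⟨j, b⟩ := y
  have him : ∀ z w : ℂ, z.im - w.im ≤ dist z w := fun z w => by
    rw [dist_eq_norm, ← Complex.sub_im]
    exact (le_abs_self _).trans (Complex.abs_im_le_norm _)
  have hai := Hl.above i
  have haj := Hl.above j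
  rcases a with _ | _ <;> rcases b with _ | _ <;> simp only [core_cc, if_true, if_false,
    Bool.false_eq_true]
  · have hij : i ≠ j := fun h => hxy (by rw [h])
    rw [Complex.dist_conj_conj, dist_eq_norm]
    exact (Hl.disj i j hij).le
  · rw [dist_comm]
    have := him (c j) ((starRingEnd ℂ) (c i))
    rw [Complex.conj_im] at this
    linarith
  · have := him (c i) ((starRingEnd ℂ) (c j))
    rw [Complex.conj_im] at this
    linarith
  · have hij : i ≠ j := fun h => hxy (by rw [h])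
    rw [dist_eq_norm]
    exact (Hl.disj i j hij).le

private lemma core_cc_sub (Hl : Holes c r) (x : Fin k × Bool) :
    Metric.ball (core_cc c x) (r x.1) ⊆ Metric.ball 0 1 := by
  intro z hz
  have h0 : ‖core_cc c x‖ = ‖c x.1‖ := by
    unfold core_cc; split_ifs
    · rfl
    · exact Complex.norm_conj _
  rw [Metric.mem_ball, dist_eq_norm] at hz
  rw [mem_ball_zero_iff]
  have h1 : ‖z‖ ≤ ‖z - core_cc c x‖ + ‖core_cc c x‖ := by
    simpa using norm_add_le (z - core_cc c x) (core_cc c x)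
  have := Hl.inside x.1
  linarith

private lemma core_cover : Metric.ball (0 : ℂ) 1 \ (⋃ x, Metric.ball (core_cc c x) (r x.1)) ⊆
    (interior (Om c r) ∪ (fun z : ℂ => (starRingEnd ℂ) z) ⁻¹' interior (Om c r)) ∪
      ({z : ℂ | z.im = 0} ∪ ⋃ x, Metric.sphere (core_cc c x) (r x.1)) := by
  rintro z ⟨hz1, hz2⟩
  rw [mem_ball_zero_iff] at hz1
  simp only [mem_iUnion, Metric.mem_ball, not_exists, not_lt] at hz2
  by_cases him : z.im = 0
  · exact Or.inr (Or.inl him)
  by_cases hs : ∃ x, z ∈ Metric.sphere (core_cc c x) (r x.1)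
  · exact Or.inr (Or.inr (mem_iUnion.2 hs))
  push Not at hs
  have h3 : ∀ x : Fin k × Bool, r x.1 < ‖z - core_cc c x‖ := fun x => by
    rw [← dist_eq_norm]
    refine lt_of_le_of_ne (hz2 x) fun h => hs x ?_
    rw [Metric.mem_sphere]; exact h.symm
  left
  rcases lt_or_gt_of_ne him with h | h
  · right
    refine core_interior ?_ ?_ fun j => ?_
    · rw [Complex.norm_conj]; exact hz1
    · rw [Complex.conj_im]; linarith
    · have := h3 (j, false)
      simp only [core_cc, Bool.false_eq_true, if_false] at this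
      rw [← Complex.norm_conj, map_sub, Complex.conj_conj]
      exact this
  · left
    refine core_interior hz1 h fun j => ?_
    have := h3 (j, true)
    simpa only [core_cc, if_true] using this

/-- Orientation reversal of the boundary integral. -/
private lemma core_reverse (F G : ℝ → ℝ) :
    ∫ t in (0 : ℝ)..(2 * Real.pi), F (2 * Real.pi - t) *
        deriv (fun s => G (2 * Real.pi - s)) t =
      -∫ t in (0 : ℝ)..(2 * Real.pi), F t * deriv G t := by
  have h1 : ∀ t, F (2 * Real.pi - t) * deriv (fun s => G (2 * Real.pi - s)) t =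
      (fun u => -(F u * deriv G u)) (2 * Real.pi - t) := by
    intro t
    rw [deriv_comp_const_sub]
    ring
  simp only [h1]
  rw [intervalIntegral.integral_comp_sub_left (fun u => -(F u * deriv G u)) (2 * Real.pi)]
  simp

private lemma core_aux (Hl : Holes c r) {C : ℝ} (hC : 0 ≤ C)
    (H : Half c r d (fun x u => x = u ∧ u ∈ Om c r))
    (hLip : ∀ p ∈ Om c r, ∀ q ∈ Om c r, d p q ≤ C * ‖p - q‖) (T : ℂ → ℂ →L[ℝ] ℂ)
    (hT : ∀ p ∈ interior (Om c r), Tan d p (T p)) {M : ℕ} (hM : 2 ≤ M) {η : ℝ} (hη : 0 < η) :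
    ENNReal.ofReal (4 * Real.pi ^ 2 - 8 * Real.pi ^ 2 / M) ≤
      ENNReal.ofReal (2 * k * M * η) + ENNReal.ofReal (4 * Real.pi) *
        ∫⁻ p in interior (Om c r), ENNReal.ofReal |cp (T p 1) (T p Complex.I)| := by
  obtain ⟨d', N', H', hle, hloc, hη'⟩ := all_holes Hl hC H hLip hη
  have hLip' : ∀ p ∈ Om c r, ∀ q ∈ Om c r, d' p q ≤ C * ‖p - q‖ :=
    fun p hp q hq => (hle p hp q hq).trans (hLip p hp q hq)
  have P := dbl_pic Hl H'
  have hDL := dbl_lip Hl H' hC hLip'
  have hext : ∀ i : ℕ, ∃ g : ℂ → ℝ, LipschitzWith ⟨C, hC⟩ g ∧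
      EqOn (fun q => dbl d' (cis (2 * Real.pi * i / M)) q) g (DOm c r) := by
    intro i
    have h1 : LipschitzOnWith ⟨C, hC⟩ (fun q => dbl d' (cis (2 * Real.pi * i / M)) q)
        (DOm c r) := by
      apply LipschitzOnWith.of_dist_le_mul
      intro p hp q hq
      rw [Real.dist_eq, dist_eq_norm]
      exact (P.abs_sub_le (core_cis_mem_DOm Hl _) hp hq).trans (hDL p hp q hq)
    exact h1.extend_real
  choose f hf hfe using hext
  set S : ℂ → ℝ := fun z => ∑ i ∈ Finset.range M, Jw (f i) (f (i + 1)) z with hS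
  have hSm : Measurable S := by
    rw [hS]
    exact Finset.measurable_sum _ fun i _ => core_measurable_Jw _ _
  have hint : ∀ i x R, IntegrableOn (Jw (f i) (f (i + 1))) (Metric.ball x R) :=
    fun i x R => core_integrableOn (hf i) (hf (i + 1)) x R
  have hSint : ∀ x R, IntegrableOn S (Metric.ball x R) := fun x R => by
    rw [hS]
    exact integrable_finsetSum _ fun i _ => hint i x R
  -- the outer boundary
  have hout : ∫ z in Metric.ball (0 : ℂ) 1, S z =
      4 * Real.pi ^ 2 - 8 * Real.pi ^ 2 / M := by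
    rw [← out_sum hM]
    simp only [hS]
    rw [integral_finsetSum _ (fun i _ => hint i _ _)]
    refine Finset.sum_congr rfl fun i _ => ?_
    rw [disc_stokes (hf i) (hf (i + 1)) 0 one_pos]
    have h0 : ∀ (i : ℕ) (t : ℝ), f i (hol 0 1 t) =
        ‖((2 * Real.pi * i / M - t : ℝ) : AddCircle (2 * Real.pi))‖ := by
      intro i t
      have h1 : hol 0 1 t = cis t := by simp [hol]
      rw [h1, ← hfe i (core_cis_mem_DOm Hl t)]
      exact dbl_circ Hl H' _ _
    simp only [h0]
  -- the holes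
  have hlip1 : ∀ θ, Lip1 (Om c r) d' (fun z => dbl d' (cis θ) z) := by
    intro θ p hp q hq
    have h1 := P.abs_sub_le (core_cis_mem_DOm Hl θ) (core_Om_sub_DOm hp) (core_Om_sub_DOm hq)
    rwa [core_dbl_eq hp.2.1 hq.2.1] at h1
  have hhole : ∀ (x : Fin k × Bool) (i : ℕ),
      |∫ z in Metric.ball (core_cc c x) (r x.1), Jw (f i) (f (i + 1)) z| ≤ η := by
    rintro ⟨j, b⟩ i
    cases b with
    | true =>
      simp only [core_cc, if_true]
      rw [disc_stokes (hf i) (hf (i + 1)) (c j) (Hl.pos j)]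
      have h0 : ∀ (i : ℕ) (t : ℝ), f i (hol (c j) (r j) t) =
          dbl d' (cis (2 * Real.pi * i / M)) (hol (c j) (r j) t) :=
        fun i t => (hfe i (core_Om_sub_DOm (hol_mem Hl j t))).symm
      simp only [h0]
      exact hη' j _ _ (hlip1 _) (hlip1 _)
    | false =>
      simp only [core_cc, Bool.false_eq_true, if_false]
      rw [disc_stokes (hf i) (hf (i + 1)) _ (Hl.pos j)]
      have h0 : ∀ (i : ℕ) (t : ℝ), f i (hol ((starRingEnd ℂ) (c j)) (r j) t) =
          dbl d' (cis (-(2 * Real.pi * i / M))) (hol (c j) (r j) (2 * Real.pi - t)) := by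
        intro i t
        have h1 : hol ((starRingEnd ℂ) (c j)) (r j) t =
            (starRingEnd ℂ) (hol (c j) (r j) (2 * Real.pi - t)) := by
          have h2 : 2 * Real.pi - t = -t + 2 * Real.pi := by ring
          rw [h2, hol_two_pi]
          simp [hol, cis_neg]
        rw [h1, ← hfe i (core_mem_DOm_conj.2 (core_Om_sub_DOm (hol_mem Hl j _)))]
        rw [cis_neg]
        exact core_dbl_conj_right _ _ _
      simp only [h0]
      rw [core_reverse (fun t => dbl d' (cis (-(2 * Real.pi * i / M))) (hol (c j) (r j) t))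
        (fun t => dbl d' (cis (-(2 * Real.pi * (i + 1 : ℕ) / M))) (hol (c j) (r j) t)), abs_neg]
      exact hη' j _ _ (hlip1 _) (hlip1 _)
  set V : Set ℂ := ⋃ x, Metric.ball (core_cc c x) (r x.1) with hV
  have hVm : MeasurableSet V := MeasurableSet.iUnion fun x => Metric.isOpen_ball.measurableSet
  have hVB : V ⊆ Metric.ball 0 1 := iUnion_subset fun x => core_cc_sub Hl x
  have hVint : |∫ z in V, S z| ≤ 2 * k * M * η := by
    rw [hV, integral_iUnion_fintype (fun x => Metric.isOpen_ball.measurableSet)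
      (fun x y hxy => Metric.ball_disjoint_ball (core_cc_dist Hl hxy))
      (fun x => hSint _ _)]
    refine (Finset.abs_sum_le_sum_abs _ _).trans ?_
    have h1 : ∀ x ∈ (Finset.univ : Finset (Fin k × Bool)),
        |∫ z in Metric.ball (core_cc c x) (r x.1), S z| ≤ M * η := by
      intro x _
      simp only [hS]
      rw [integral_finsetSum _ (fun i _ => hint i _ _)]
      refine (Finset.abs_sum_le_sum_abs _ _).trans ?_
      refine (Finset.sum_le_card_nsmul _ _ η fun i _ => hhole x i).trans ?_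
      simp
    refine (Finset.sum_le_card_nsmul _ _ _ h1).trans ?_
    simp only [Finset.card_univ, Fintype.card_prod, Fintype.card_fin, Fintype.card_bool,
      nsmul_eq_mul]
    push_cast
    apply le_of_eq; ring
  have hsplit : ∫ z in Metric.ball (0 : ℂ) 1 \ V, S z =
      (∫ z in Metric.ball (0 : ℂ) 1, S z) - ∫ z in V, S z :=
    setIntegral_sdiff hVm (hSint 0 1) hVB
  -- pointwise bounds
  have hMpos : 0 < M := by omega
  have hpt : ∀ p ∈ interior (Om c r), (∀ i, DifferentiableAt ℝ (f i) p) →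
      |S p| ≤ 2 * Real.pi * |cp (T p 1) (T p Complex.I)| := by
    intro p hp hdiff
    have hOm : Om c r ∈ 𝓝 p := mem_interior_iff_mem_nhds.1 hp
    have hD : DOm c r ∈ 𝓝 p := mem_of_superset hOm core_Om_sub_DOm
    have hpO : p ∈ Om c r := interior_subset hp
    refine core_point P hD (interior_Om_sub hp Hl).1
      (fun hinj => dbl_tan Hl H H' hle hloc hp (hT p hp) hinj) (hT p hp) ?_ hMpos
      (fun i => core_cis_mem_DOm Hl _) ?_ hdiff
    · filter_upwards [hOm] with q hq
      rw [core_dbl_eq hpO.2.1 hq.2.1]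
      exact hle p hpO q hq
    · intro i
      filter_upwards [hD] with q hq
      exact (hfe i hq).symm
  have hpt' : ∀ p ∈ interior (Om c r),
      (∀ i, DifferentiableAt ℝ (f i) ((starRingEnd ℂ) p)) →
      |S ((starRingEnd ℂ) p)| ≤ 2 * Real.pi * |cp (T p 1) (T p Complex.I)| := by
    intro p hp hdiff
    have hOm : Om c r ∈ 𝓝 p := mem_interior_iff_mem_nhds.1 hp
    have hD : DOm c r ∈ 𝓝 p := mem_of_superset hOm core_Om_sub_DOm
    have hpO : p ∈ Om c r := interior_subset hp
    have hconj : Tendsto (fun q : ℂ => (starRingEnd ℂ) q) (𝓝 ((starRingEnd ℂ) p)) (𝓝 p) := by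
      have := Complex.continuous_conj.tendsto ((starRingEnd ℂ) p)
      rwa [Complex.conj_conj] at this
    have hD' : DOm c r ∈ 𝓝 ((starRingEnd ℂ) p) := by
      filter_upwards [hconj hD] with q hq
      exact core_mem_DOm_conj.1 hq
    have hcp : |cp (T p 1) (T p Complex.I)| =
        |cp ((T p).comp (Complex.conjCLE : ℂ →L[ℝ] ℂ) 1)
          ((T p).comp (Complex.conjCLE : ℂ →L[ℝ] ℂ) Complex.I)| := by
      have h1 : (T p).comp (Complex.conjCLE : ℂ →L[ℝ] ℂ) 1 = T p 1 := by simp
      have h2 : (T p).comp (Complex.conjCLE : ℂ →L[ℝ] ℂ) Complex.I = -T p Complex.I := by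
        simp
      rw [h1, h2]
      unfold cp
      rw [Complex.neg_im, Complex.neg_re, ← abs_neg]
      congr 1; ring
    rw [hcp]
    refine core_point P hD' (by rw [Complex.norm_conj]; exact (interior_Om_sub hp Hl).1)
      (fun hinj => core_tan_dbl Hl H H' hle hloc hp (hT p hp) ?_) (core_tan_conj (hT p hp)) ?_
      hMpos (fun i => core_cis_mem_DOm Hl _) ?_ hdiff
    · intro v hv
      have h1 := hinj ((starRingEnd ℂ) v) (by simpa using hv)
      simpa using h1
    · filter_upwards [hconj hOm] with q hq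
      rw [Complex.conj_conj, ← core_dbl_conj_right]
      have hq' : (starRingEnd ℂ) q ∈ Om c r := hq
      have h1 : dbl d' p ((starRingEnd ℂ) q) = d' p ((starRingEnd ℂ) q) :=
        core_dbl_eq hpO.2.1 hq'.2.1
      rw [h1]
      exact hle p hpO _ hq'
    · intro i
      filter_upwards [hD'] with q hq
      exact (hfe i hq).symm
  -- the bounds in the mean
  set F : ℂ → ℝ≥0∞ := fun p => ENNReal.ofReal |cp (T p 1) (T p Complex.I)| with hF
  have hae : ∀ᵐ z : ℂ, ∀ i, DifferentiableAt ℝ (f i) z :=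
    ae_all_iff.2 fun i => (hf i).ae_differentiableAt
  have hconv : ∀ (x a : ℝ), |x| ≤ 2 * Real.pi * |a| →
      ‖x‖ₑ ≤ ENNReal.ofReal (2 * Real.pi) * ENNReal.ofReal |a| := by
    intro x a hxa
    rw [Real.enorm_eq_ofReal_abs, ← ENNReal.ofReal_mul (by positivity)]
    exact ENNReal.ofReal_le_ofReal hxa
  have hI1 : ∫⁻ z in interior (Om c r), ‖S z‖ₑ ≤
      ENNReal.ofReal (2 * Real.pi) * ∫⁻ p in interior (Om c r), F p := by
    rw [← lintegral_const_mul' _ _ ENNReal.ofReal_ne_top]
    refine lintegral_mono_ae ?_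
    filter_upwards [ae_restrict_of_ae hae, ae_restrict_mem isOpen_interior.measurableSet]
      with p h1 h2
    exact hconv _ _ (hpt p h2 h1)
  have hconjmp : MeasurePreserving (fun z : ℂ => (starRingEnd ℂ) z) volume volume :=
    Complex.conjLIE.measurePreserving
  have hconjme : MeasurableEmbedding (fun z : ℂ => (starRingEnd ℂ) z) :=
    Complex.conjLIE.toHomeomorph.measurableEmbedding
  have hI2 : ∫⁻ z in (fun z : ℂ => (starRingEnd ℂ) z) ⁻¹' interior (Om c r), ‖S z‖ₑ ≤
      ENNReal.ofReal (2 * Real.pi) * ∫⁻ p in interior (Om c r), F p := by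
    rw [← lintegral_const_mul' _ _ ENNReal.ofReal_ne_top,
      ← hconjmp.setLIntegral_comp_preimage_emb hconjme
        (fun p => ENNReal.ofReal (2 * Real.pi) * F p) (interior (Om c r))]
    refine lintegral_mono_ae ?_
    filter_upwards [ae_restrict_of_ae hae, ae_restrict_mem
      (Complex.continuous_conj.measurable isOpen_interior.measurableSet)] with z h1 h2
    have h3 := hpt' ((starRingEnd ℂ) z) h2 (by rw [Complex.conj_conj]; exact h1)
    rw [Complex.conj_conj] at h3
    exact hconv _ _ h3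
  have hnull : volume ({z : ℂ | z.im = 0} ∪ ⋃ x, Metric.sphere (core_cc c x) (r x.1)) = 0 :=
    measure_union_null core_vol_real (measure_iUnion_null fun x => Measure.addHaar_sphere _ _ _)
  have hrest : ∫⁻ z in Metric.ball (0 : ℂ) 1 \ V, ‖S z‖ₑ ≤
      ENNReal.ofReal (4 * Real.pi) * ∫⁻ p in interior (Om c r), F p := by
    refine (lintegral_mono_set core_cover).trans ?_
    refine (lintegral_union_le _ _ _).trans ?_
    rw [setLIntegral_measure_zero _ _ hnull, add_zero]
    refine (lintegral_union_le _ _ _).trans ?_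
    refine (add_le_add hI1 hI2).trans ?_
    rw [← add_mul, ← ENNReal.ofReal_add (by positivity) (by positivity)]
    apply le_of_eq; congr 2; ring
  rw [← hout]
  have hS1 : ∫ z in Metric.ball (0 : ℂ) 1, S z =
      (∫ z in V, S z) + ∫ z in Metric.ball (0 : ℂ) 1 \ V, S z := by
    rw [hsplit]; ring
  rw [hS1]
  refine ENNReal.ofReal_add_le.trans ?_
  refine add_le_add (ENNReal.ofReal_le_ofReal ((le_abs_self _).trans hVint)) ?_
  refine (ENNReal.ofReal_le_ofReal (le_abs_self _)).trans ?_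
  rw [← Real.enorm_eq_ofReal_abs]
  exact (enorm_integral_le_lintegral_enorm _).trans hrest

theorem core (Hl : Holes c r) {C : ℝ} (hC : 0 ≤ C)
    (H : Half c r d (fun x u => x = u ∧ u ∈ Om c r))
    (hLip : ∀ p ∈ Om c r, ∀ q ∈ Om c r, d p q ≤ C * ‖p - q‖) (T : ℂ → ℂ →L[ℝ] ℂ)
    (hT : ∀ p ∈ interior (Om c r), Tan d p (T p)) :
    ENNReal.ofReal Real.pi ≤
      ∫⁻ p in interior (Om c r), ENNReal.ofReal |cp (T p 1) (T p Complex.I)| := by
  by_contra hcon
  rw [not_le] at hcon
  have haux := fun (M : ℕ) (hM : 2 ≤ M) (η : ℝ) (hη : 0 < η) =>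
    core_aux Hl hC H hLip T hT hM hη
  generalize ∫⁻ p in interior (Om c r), ENNReal.ofReal |cp (T p 1) (T p Complex.I)| = J
    at hcon haux
  have hJ : J ≠ ⊤ := ne_top_of_lt hcon
  obtain ⟨x, hx0, rfl⟩ : ∃ x : ℝ, 0 ≤ x ∧ J = ENNReal.ofReal x :=
    ⟨J.toReal, ENNReal.toReal_nonneg, (ENNReal.ofReal_toReal hJ).symm⟩
  have hxpi : x < Real.pi := (ENNReal.ofReal_lt_ofReal_iff Real.pi_pos).1 hcon
  have hreal : ∀ (M : ℕ) (_ : 2 ≤ M) (η : ℝ) (_ : 0 < η),
      4 * Real.pi ^ 2 - 8 * Real.pi ^ 2 / M ≤ 2 * k * M * η + 4 * Real.pi * x := by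
    intro M hM η hη
    have h1 := haux M hM η hη
    have hpi := Real.pi_pos
    rw [← ENNReal.ofReal_mul (by positivity), ← ENNReal.ofReal_add (by positivity)
      (by positivity)] at h1
    exact (ENNReal.ofReal_le_ofReal_iff (by positivity)).1 h1
  have hpi := Real.pi_pos
  have hδ : 0 < Real.pi - x := by linarith
  obtain ⟨M, hM⟩ := exists_nat_gt (max 2 (4 * Real.pi / (Real.pi - x)))
  have hM2 : (2 : ℝ) < M := (le_max_left _ _).trans_lt hM
  have hM3 : 4 * Real.pi / (Real.pi - x) < M := (le_max_right _ _).trans_lt hM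
  have hM2' : 2 ≤ M := by exact_mod_cast hM2.le
  have hMpos : (0 : ℝ) < M := by linarith
  have hkM : (0 : ℝ) ≤ 2 * k * M := by positivity
  have h1 := hreal M hM2' (Real.pi * (Real.pi - x) / (2 * k * M + 1)) (by positivity)
  have h2 : 2 * k * M * (Real.pi * (Real.pi - x) / (2 * k * M + 1)) ≤
      Real.pi * (Real.pi - x) := by
    rw [mul_div_assoc', div_le_iff₀ (by positivity)]
    nlinarith [mul_pos hpi hδ]
  have h3 : 8 * Real.pi ^ 2 / M < 2 * Real.pi * (Real.pi - x) := by
    rw [div_lt_iff₀ hMpos]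
    rw [div_lt_iff₀ hδ] at hM3
    nlinarith
  nlinarith [mul_pos hpi hδ]

end Pool.Agent.MIR
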