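import Mathlib
import Pool.Agent.MIR.Defs
import Pool.Agent.MIR.Basic
import Pool.Agent.MIR.Defs2

open MeasureTheory Set Filter Topology Manifold Bundle
open scoped ENNReal NNReal ContDiff

noncomputable section

namespace Pool.Agent.MIR

theorem pl_le_of_curve {M : Type} [MetricSpace M] (Ψ Ψ' : ℂ → M) {S : Set ℂ} {p q : ℂ} {γ : ℝ → ℂ}
    {a b : ℝ} (hab : a ≤ b) (hγ : ContinuousOn γ (Icc a b)) (hS : MapsTo γ (Icc a b) S)
    (ha : γ a = p) (hb : γ b = q) :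
    PL Ψ Ψ' S p q ≤ (eVariationOn (Ψ ∘ γ) (Icc a b) + eVariationOn (Ψ' ∘ γ) (Icc a b)) / 2 :=
  iInf_le_of_le γ (iInf_le_of_le a (iInf_le_of_le b (iInf_le_of_le ⟨hab, hγ, hS, ha, hb⟩ le_rfl)))

theorem le_pl {M : Type} [MetricSpace M] (Ψ Ψ' : ℂ → M) {S : Set ℂ} {p q : ℂ} {B : ℝ≥0∞}
    (h : ∀ (γ : ℝ → ℂ) (a b : ℝ), a ≤ b → ContinuousOn γ (Icc a b) → MapsTo γ (Icc a b) S →
      γ a = p → γ b = q →
      B ≤ (eVariationOn (Ψ ∘ γ) (Icc a b) + eVariationOn (Ψ' ∘ γ) (Icc a b)) / 2) :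
    B ≤ PL Ψ Ψ' S p q :=
  le_iInf fun γ => le_iInf fun a => le_iInf fun b => le_iInf fun hh =>
    h γ a b hh.1 hh.2.1 hh.2.2.1 hh.2.2.2.1 hh.2.2.2.2

theorem pl_refl {M : Type} [MetricSpace M] (Ψ Ψ' : ℂ → M) {S : Set ℂ} {p : ℂ} (hp : p ∈ S) :
    PL Ψ Ψ' S p p = 0 := by
  have h := pl_le_of_curve Ψ Ψ' (S := S) (γ := fun _ => p) (le_refl (0 : ℝ)) continuousOn_const
    (fun _ _ => hp) rfl rfl
  rw [eVariationOn.subsingleton _ (by simp), eVariationOn.subsingleton _ (by simp)] at h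
  simpa using h

theorem pl_symm_le {M : Type} [MetricSpace M] (Ψ Ψ' : ℂ → M) {S : Set ℂ} (p q : ℂ) :
    PL Ψ Ψ' S p q ≤ PL Ψ Ψ' S q p := by
  refine le_pl Ψ Ψ' fun γ a b hab hγ hS ha hb => ?_
  have hmaps : MapsTo (fun t : ℝ => a + b - t) (Icc a b) (Icc a b) := fun t ht => by
    simp only [mem_Icc] at ht ⊢
    exact ⟨by linarith, by linarith⟩
  have hanti : AntitoneOn (fun t : ℝ => a + b - t) (Icc a b) := fun s _ t _ hst => by
    simp only
    linarith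
  refine (pl_le_of_curve Ψ Ψ' (γ := γ ∘ fun t : ℝ => a + b - t) hab
    (hγ.comp (by fun_prop) hmaps) (hS.comp hmaps) (by simp [hb]) (by simp [ha])).trans ?_
  have h1 := eVariationOn.comp_le_of_antitoneOn (Ψ ∘ γ) _ hanti hmaps
  have h2 := eVariationOn.comp_le_of_antitoneOn (Ψ' ∘ γ) _ hanti hmaps
  exact ENNReal.div_le_div_right (add_le_add h1 h2) 2

theorem pl_symm {M : Type} [MetricSpace M] (Ψ Ψ' : ℂ → M) {S : Set ℂ} (p q : ℂ) :
    PL Ψ Ψ' S p q = PL Ψ Ψ' S q p :=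
  le_antisymm (pl_symm_le Ψ Ψ' p q) (pl_symm_le Ψ Ψ' q p)

theorem pl_tri {M : Type} [MetricSpace M] (Ψ Ψ' : ℂ → M) {S : Set ℂ} (p q x : ℂ) :
    PL Ψ Ψ' S p x ≤ PL Ψ Ψ' S p q + PL Ψ Ψ' S q x := by
  -- for all pairs of curves
  have key : ∀ (γ : ℝ → ℂ) (a b : ℝ), a ≤ b → ContinuousOn γ (Icc a b) → MapsTo γ (Icc a b) S →
      γ a = p → γ b = q → ∀ (γ' : ℝ → ℂ) (a' b' : ℝ), a' ≤ b' → ContinuousOn γ' (Icc a' b') →
      MapsTo γ' (Icc a' b') S → γ' a' = q → γ' b' = x →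
      PL Ψ Ψ' S p x ≤ (eVariationOn (Ψ ∘ γ) (Icc a b) + eVariationOn (Ψ' ∘ γ) (Icc a b)) / 2 +
        (eVariationOn (Ψ ∘ γ') (Icc a' b') + eVariationOn (Ψ' ∘ γ') (Icc a' b')) / 2 := by
    intro γ a b hab hγ hS ha hb γ' a' b' hab' hγ' hS' ha' hb'
    set e : ℝ := b + (b' - a') with he
    have hbe : b ≤ e := by linarith
    set g : ℝ → ℂ := fun t => if t ≤ b then γ t else γ' (t - b + a') with hg
    have hg1 : EqOn g γ (Icc a b) := fun t ht => by simp [hg, ht.2]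
    have hg2 : EqOn g (γ' ∘ fun t => t - b + a') (Icc b e) := fun t ht => by
      simp only [hg, Function.comp]
      split_ifs with h
      · have : t = b := le_antisymm h ht.1
        rw [this, hb]
        simp [ha']
      · rfl
    have hmaps : MapsTo (fun t : ℝ => t - b + a') (Icc b e) (Icc a' b') := fun t ht => by
      simp only [mem_Icc] at ht ⊢
      exact ⟨by linarith, by linarith⟩
    have hmono : MonotoneOn (fun t : ℝ => t - b + a') (Icc b e) := fun s _ t _ hst => by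
      simp only
      linarith
    have hU : Icc a b ∪ Icc b e = Icc a e := Icc_union_Icc_eq_Icc hab hbe
    have hgc : ContinuousOn g (Icc a e) := by
      rw [← hU]
      refine ContinuousOn.union_of_isClosed ?_ ?_ isClosed_Icc isClosed_Icc
      · exact hγ.congr hg1
      · exact (hγ'.comp (by fun_prop) hmaps).congr hg2
    have hgS : MapsTo g (Icc a e) S := by
      rw [← hU]
      rintro t (ht | ht)
      · rw [hg1 ht]; exact hS ht
      · rw [hg2 ht]; exact hS' (hmaps ht)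
    have hvar : ∀ Φ : ℂ → M, eVariationOn (Φ ∘ g) (Icc a e) ≤
        eVariationOn (Φ ∘ γ) (Icc a b) + eVariationOn (Φ ∘ γ') (Icc a' b') := by
      intro Φ
      have h1 := eVariationOn.Icc_add_Icc (Φ ∘ g) (s := univ) hab hbe (mem_univ b)
      simp only [univ_inter] at h1
      rw [← h1]
      refine add_le_add ?_ ?_
      · exact (eVariationOn.eq_of_eqOn fun t ht => by simp only [Function.comp, hg1 ht]).le
      · have h2 : eVariationOn (Φ ∘ g) (Icc b e) =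
            eVariationOn ((Φ ∘ γ') ∘ fun t => t - b + a') (Icc b e) :=
          eVariationOn.eq_of_eqOn fun t ht => by
            have := hg2 ht
            simp only [Function.comp] at this ⊢
            rw [this]
        rw [h2]
        exact eVariationOn.comp_le_of_monotoneOn (Φ ∘ γ') _ hmono hmaps
    refine (pl_le_of_curve Ψ Ψ' (hab.trans hbe) hgc hgS (by simp [hg, hab, ha]) ?_).trans ?_
    · rw [hg2 ⟨hbe, le_rfl⟩]
      simp only [Function.comp, he]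
      rw [← hb']
      congr 1
      ring
    · rw [← ENNReal.add_div]
      refine ENNReal.div_le_div_right ?_ 2
      calc _ ≤ (eVariationOn (Ψ ∘ γ) (Icc a b) + eVariationOn (Ψ ∘ γ') (Icc a' b')) +
            (eVariationOn (Ψ' ∘ γ) (Icc a b) + eVariationOn (Ψ' ∘ γ') (Icc a' b')) :=
            add_le_add (hvar Ψ) (hvar Ψ')
        _ = _ := by ring
  conv_rhs => rw [PL, PL]
  simp only [ENNReal.iInf_add, ENNReal.add_iInf]
  refine le_iInf fun γ => le_iInf fun a => le_iInf fun b => le_iInf fun h => le_iInf fun γ' =>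
    le_iInf fun a' => le_iInf fun b' => le_iInf fun h' => ?_
  exact key γ' a' b' h'.1 h'.2.1 h'.2.2.1 h'.2.2.2.1 h'.2.2.2.2 γ a b h.1 h.2.1 h.2.2.1
    h.2.2.2.1 h.2.2.2.2

theorem pl_geo {M : Type} [MetricSpace M] (Ψ Ψ' : ℂ → M) {S : Set ℂ} {p q : ℂ}
    (hfin : PL Ψ Ψ' S p q ≠ ⊤) {ε : ℝ} (hε : 0 < ε) :
    JoinedIn {x | x ∈ S ∧ PL Ψ Ψ' S p x ≠ ⊤ ∧ PL Ψ Ψ' S x q ≠ ⊤ ∧
      (PL Ψ Ψ' S p x).toReal + (PL Ψ Ψ' S x q).toReal ≤ (PL Ψ Ψ' S p q).toReal + ε} p q := by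
  have hlt : PL Ψ Ψ' S p q < PL Ψ Ψ' S p q + ENNReal.ofReal ε :=
    ENNReal.lt_add_right hfin (by simpa using hε)
  have hlt' := hlt
  conv_lhs at hlt' => rw [PL]
  simp only [iInf_lt_iff] at hlt'
  obtain ⟨γ, a, b, ⟨hab, hγ, hS, ha, hb⟩, hV⟩ := hlt'
  have hmain : ∀ s ∈ Icc a b, PL Ψ Ψ' S p (γ s) + PL Ψ Ψ' S (γ s) q <
      PL Ψ Ψ' S p q + ENNReal.ofReal ε := by
    intro s hs
    refine lt_of_le_of_lt ?_ hV
    have i1 : Icc a s ⊆ Icc a b := Icc_subset_Icc_right hs.2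
    have i2 : Icc s b ⊆ Icc a b := Icc_subset_Icc_left hs.1
    have e1 := pl_le_of_curve Ψ Ψ' hs.1 (hγ.mono i1) (hS.mono_left i1) ha rfl
    have e2 := pl_le_of_curve Ψ Ψ' hs.2 (hγ.mono i2) (hS.mono_left i2) rfl hb
    refine (add_le_add e1 e2).trans ?_
    rw [← ENNReal.add_div]
    refine ENNReal.div_le_div_right ?_ 2
    have h1 := eVariationOn.Icc_add_Icc (Ψ ∘ γ) (s := univ) hs.1 hs.2 (mem_univ s)
    have h2 := eVariationOn.Icc_add_Icc (Ψ' ∘ γ) (s := univ) hs.1 hs.2 (mem_univ s)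
    simp only [univ_inter] at h1 h2
    rw [← h1, ← h2]
    exact le_of_eq (by ring)
  refine JoinedIn.ofLine (f := fun t : ℝ => γ (a + t * (b - a))) ?_ (by simp [ha]) (by simp [hb]) ?_
  · refine hγ.comp (by fun_prop) fun t ht => ?_
    simp only [mem_Icc] at ht ⊢
    constructor
    · nlinarith [mul_nonneg ht.1 (sub_nonneg.2 hab)]
    · nlinarith [mul_nonneg (sub_nonneg.2 ht.2) (sub_nonneg.2 hab)]
  · rintro _ ⟨t, ht, rfl⟩
    have hs : a + t * (b - a) ∈ Icc a b := by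
      simp only [mem_Icc] at ht ⊢
      constructor
      · nlinarith [mul_nonneg ht.1 (sub_nonneg.2 hab)]
      · nlinarith [mul_nonneg (sub_nonneg.2 ht.2) (sub_nonneg.2 hab)]
    have h := hmain _ hs
    have hT : PL Ψ Ψ' S p q + ENNReal.ofReal ε ≠ ⊤ := by simp [hfin]
    have hT' := h.ne_top
    simp only [ne_eq, ENNReal.add_eq_top, not_or] at hT'
    refine ⟨hS hs, hT'.1, hT'.2, ?_⟩
    rw [← ENNReal.toReal_add hT'.1 hT'.2]
    have := ENNReal.toReal_mono hT h.le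
    rwa [ENNReal.toReal_add hfin (by simp), ENNReal.toReal_ofReal hε.le] at this

theorem pl_ge {M : Type} [MetricSpace M] (Ψ Ψ' : ℂ → M) {S : Set ℂ} (p q : ℂ) :
    ENNReal.ofReal ((dist (Ψ p) (Ψ q) + dist (Ψ' p) (Ψ' q)) / 2) ≤ PL Ψ Ψ' S p q := by
  refine le_pl Ψ Ψ' fun γ a b hab hγ hS ha hb => ?_
  rw [ENNReal.ofReal_div_of_pos (by norm_num), ENNReal.ofReal_add dist_nonneg dist_nonneg,
    ← edist_dist, ← edist_dist]
  have h1 := eVariationOn.edist_le (Ψ ∘ γ) (left_mem_Icc.2 hab) (right_mem_Icc.2 hab)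
  have h2 := eVariationOn.edist_le (Ψ' ∘ γ) (left_mem_Icc.2 hab) (right_mem_Icc.2 hab)
  simp only [Function.comp, ha, hb] at h1 h2
  have h3 : ENNReal.ofReal 2 = 2 := by simp
  rw [h3]
  exact ENNReal.div_le_div_right (add_le_add h1 h2) 2

theorem pl_var_le {M : Type} [MetricSpace M] {g : ℝ → M} {a b : ℝ} (hab : a ≤ b) {K : ℝ}
    (hK : 0 ≤ K) (hd : ∀ s ∈ Icc a b, ∀ t ∈ Icc a b, dist (g s) (g t) ≤ K * |s - t|) :
    eVariationOn g (Icc a b) ≤ ENNReal.ofReal (K * (b - a)) := by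
  have hL : LipschitzOnWith (Real.toNNReal K) g (Icc a b) := by
    refine LipschitzOnWith.of_dist_le_mul fun s hs t ht => ?_
    rw [Real.coe_toNNReal _ hK, Real.dist_eq]
    exact hd s hs t ht
  have h1 := hL.comp_eVariationOn_le (f := g) (g := fun x : ℝ => x) (s := Icc a b)
    (fun x hx => hx)
  have h2 : eVariationOn (fun x : ℝ => x) (Icc a b) ≤ ENNReal.ofReal (b - a) :=
    (eVariationOn_id_Icc a b).le
  calc eVariationOn g (Icc a b) ≤ (Real.toNNReal K) * eVariationOn (fun x : ℝ => x) (Icc a b) := h1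
    _ ≤ (Real.toNNReal K) * ENNReal.ofReal (b - a) := mul_le_mul_right h2 _
    _ = ENNReal.ofReal (K * (b - a)) := by
        rw [ENNReal.ofReal_mul hK]
        rfl

theorem pl_le {M : Type} [MetricSpace M] (Ψ Ψ' : ℂ → M) {S : Set ℂ} {γ : ℝ → ℂ} {a b : ℝ}
    (hab : a ≤ b) (hγ : ContinuousOn γ (Icc a b)) (hS : MapsTo γ (Icc a b) S) {K K' : ℝ}
    (hK : 0 ≤ K) (hK' : 0 ≤ K')
    (hd : ∀ s ∈ Icc a b, ∀ t ∈ Icc a b, dist (Ψ (γ s)) (Ψ (γ t)) ≤ K * |s - t|)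
    (hd' : ∀ s ∈ Icc a b, ∀ t ∈ Icc a b, dist (Ψ' (γ s)) (Ψ' (γ t)) ≤ K' * |s - t|) :
    PL Ψ Ψ' S (γ a) (γ b) ≤ ENNReal.ofReal ((K + K') / 2 * (b - a)) := by
  refine (pl_le_of_curve Ψ Ψ' hab hγ hS rfl rfl).trans ?_
  have h1 := pl_var_le (g := Ψ ∘ γ) hab hK hd
  have h2 := pl_var_le (g := Ψ' ∘ γ) hab hK' hd'
  have h0 : 0 ≤ b - a := by linarith
  have h3 : (K + K') / 2 * (b - a) = (K * (b - a) + K' * (b - a)) / 2 := by ring
  rw [h3, ENNReal.ofReal_div_of_pos (by norm_num), ENNReal.ofReal_add (by positivity) (by positivity)]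
  have h4 : ENNReal.ofReal 2 = 2 := by simp
  rw [h4]
  exact ENNReal.div_le_div_right (add_le_add h1 h2) 2

end Pool.Agent.MIR
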