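import Mathlib
import Pool.Agent.MIR.Defs
import Pool.Agent.MIR.Basic

open MeasureTheory Set Filter Topology Manifold Bundle
open scoped ENNReal NNReal ContDiff

noncomputable section

namespace Pool.Agent.MIR

variable {k : ℕ} {c : Fin k → ℂ} {r : Fin k → ℝ}

lemma qc_chord {x : ℝ} (hx : |x| ≤ Real.pi) : |x| ≤ Real.pi / 2 * ‖cis x - 1‖ := by
  have h1 : cis x = Complex.exp (Complex.I * x) := by rw [cis, mul_comm]
  rw [h1, Complex.norm_exp_I_mul_ofReal_sub_one]
  have h2 : ‖2 * Real.sin (x / 2)‖ = 2 * |Real.sin (x / 2)| := by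
    rw [norm_mul, Real.norm_eq_abs, Real.norm_eq_abs, abs_of_pos (two_pos)]
  rw [h2]
  have h3 : 2 / Real.pi * (|x| / 2) ≤ Real.sin (|x| / 2) :=
    Real.mul_le_sin (by positivity) (by linarith)
  have h4 : Real.sin (|x| / 2) ≤ |Real.sin (x / 2)| := by
    rcases abs_cases x with ⟨h, _⟩ | ⟨h, _⟩
    · rw [h]; exact le_abs_self _
    · rw [h, neg_div, Real.sin_neg]; exact neg_le_abs _
  have hpi := Real.pi_pos
  have h5 : 2 / Real.pi * (|x| / 2) = |x| / Real.pi := by ring
  rw [h5] at h3
  have h6 : |x| / Real.pi ≤ |Real.sin (x / 2)| := h3.trans h4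
  rw [div_le_iff₀ hpi] at h6
  linarith

lemma qc_arc (a : ℂ) {ρ : ℝ} (hρ : 0 < ρ) {u v : ℂ} (hu : ‖u - a‖ = ρ) (hv : ‖v - a‖ = ρ) :
    ∃ s t : ℝ, hol a ρ s = u ∧ hol a ρ t = v ∧ ρ * |s - t| ≤ Real.pi / 2 * ‖u - v‖ := by
  have hρ' : (ρ : ℂ) ≠ 0 := by exact_mod_cast hρ.ne'
  have hcis : ∀ w : ℂ, ‖w‖ = 1 → cis (Complex.arg w) = w := by
    intro w hw
    have := Complex.norm_mul_exp_arg_mul_I w
    rw [hw] at this
    simpa [cis] using this
  have hun : ‖(u - a) / ρ‖ = 1 := by
    rw [norm_div, hu, Complex.norm_real, Real.norm_eq_abs, abs_of_pos hρ, div_self hρ.ne']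
  have hvn : ‖(v - a) / ρ‖ = 1 := by
    rw [norm_div, hv, Complex.norm_real, Real.norm_eq_abs, abs_of_pos hρ, div_self hρ.ne']
  have hune : (u - a) / ρ ≠ 0 := by
    intro h; rw [h, norm_zero] at hun; exact zero_ne_one hun
  have hua : u - a ≠ 0 := fun h => hune (by rw [h, zero_div])
  set s := Complex.arg ((u - a) / ρ) with hs
  set w := ((v - a) / ρ) / ((u - a) / ρ) with hw
  have hwn : ‖w‖ = 1 := by rw [hw, norm_div, hun, hvn, div_one]
  set x := Complex.arg w with hx
  have h1 : cis s = (u - a) / ρ := hcis _ hun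
  have h2 : cis x = w := hcis _ hwn
  refine ⟨s, s + x, ?_, ?_, ?_⟩
  · rw [hol, h1]; field_simp; ring
  · rw [hol, cis_add, h1, h2, hw, mul_div_cancel₀ _ hune]; field_simp; ring
  · have h3 : |s - (s + x)| = |x| := by
      rw [show s - (s + x) = -x by ring, abs_neg]
    rw [h3]
    have h4 := qc_chord (Complex.abs_arg_le_pi w)
    rw [← hx, h2] at h4
    have h5 : ρ * ‖w - 1‖ = ‖u - v‖ := by
      have h6 : w - 1 = (v - u) / ρ / ((u - a) / ρ) := by
        rw [hw, eq_div_iff hune, sub_mul, div_mul_cancel₀ _ hune]; field_simp; ring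
      rw [h6, norm_div, hun, div_one, norm_div, Complex.norm_real, Real.norm_eq_abs, abs_of_pos hρ,
        norm_sub_rev v u]
      field_simp
    calc ρ * |x| ≤ ρ * (Real.pi / 2 * ‖w - 1‖) := mul_le_mul_of_nonneg_left h4 hρ.le
      _ = Real.pi / 2 * (ρ * ‖w - 1‖) := by ring
      _ = Real.pi / 2 * ‖u - v‖ := by rw [h5]

/-- Splitting a segment that meets the open disc. -/
lemma qc_split {a : ℂ} {ρ : ℝ} {p z : ℂ} (hp : ρ ≤ ‖p - a‖)
    (hza : ‖z - a‖ < ρ) :
    ∃ u ∈ segment ℝ p z, ‖u - a‖ = ρ ∧ ∀ w ∈ segment ℝ p u, ρ ≤ ‖w - a‖ := by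
  have hcont : ContinuousOn (fun t : ℝ => ‖AffineMap.lineMap p z t - a‖) (Icc (0 : ℝ) 1) := by
    apply Continuous.continuousOn
    have : Continuous (fun t : ℝ => (AffineMap.lineMap p z t : ℂ)) :=
      AffineMap.lineMap_continuous
    fun_prop
  have h0 : ‖(AffineMap.lineMap p z (0 : ℝ) : ℂ) - a‖ = ‖p - a‖ := by simp
  have h1 : ‖(AffineMap.lineMap p z (1 : ℝ) : ℂ) - a‖ = ‖z - a‖ := by simp
  have hiv := intermediate_value_Icc' (zero_le_one) hcont
  simp only [h0, h1] at hiv
  obtain ⟨t, ht, htρ⟩ := hiv ⟨hza.le, hp⟩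
  simp only at htρ
  refine ⟨AffineMap.lineMap p z t, ?_, htρ, ?_⟩
  · rw [segment_eq_image_lineMap]; exact ⟨t, ht, rfl⟩
  · intro w hw
    by_contra hlt
    push Not at hlt
    -- u lies between w and z, both in the open ball
    rw [segment_eq_image_lineMap] at hw
    obtain ⟨s, hs, rfl⟩ := hw
    have hu : (AffineMap.lineMap p z t : ℂ) ∈ segment ℝ
        (AffineMap.lineMap p (AffineMap.lineMap p z t) s : ℂ) z := by
      have hst0 : 0 ≤ s * t := mul_nonneg hs.1 ht.1
      have hst : s * t ≤ t := by nlinarith [hs.2, ht.1]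
      have e1 : (AffineMap.lineMap p (AffineMap.lineMap p z t) s : ℂ) =
          AffineMap.lineMap p z (s * t) := by
        simp only [AffineMap.lineMap_apply_module', Complex.real_smul]
        push_cast; ring
      rw [e1]
      by_cases hst1 : s * t = 1
      · have : t = 1 := le_antisymm ht.2 (by linarith)
        rw [hst1, this]
        simp
      · have hlt1 : 0 < 1 - s * t := by
          have : s * t ≤ 1 := hst.trans ht.2
          have := lt_of_le_of_ne this hst1
          linarith
        rw [segment_eq_image_lineMap]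
        refine ⟨(t - s * t) / (1 - s * t), ⟨div_nonneg (by linarith) hlt1.le, ?_⟩, ?_⟩
        · rw [div_le_one hlt1]; linarith [ht.2]
        · simp only [AffineMap.lineMap_apply_module', Complex.real_smul]
          have h7 : (((t - s * t) / (1 - s * t) * (1 - s * t) : ℝ) : ℂ) = ((t - s * t : ℝ) : ℂ) := by
            rw [div_mul_cancel₀ _ hlt1.ne']
          rw [Complex.ofReal_mul] at h7
          set lam : ℂ := (((t - s * t) / (1 - s * t) : ℝ) : ℂ) with hlam
          push_cast at h7 ⊢
          linear_combination (z - p) * h7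
    have hconv := (convex_ball a ρ).segment_subset (x := (AffineMap.lineMap p
      (AffineMap.lineMap p z t) s : ℂ)) (y := z) (by rw [Metric.mem_ball, dist_eq_norm]; exact hlt)
      (by rw [Metric.mem_ball, dist_eq_norm]; exact hza)
    have h8 := hconv hu
    rw [Metric.mem_ball, dist_eq_norm] at h8
    exact absurd htρ h8.ne

lemma qc_half {p q : ℂ} (hp : p ∈ Om c r) (hq : q ∈ Om c r) {z : ℂ}
    (hz : z ∈ segment ℝ p q) : ‖z‖ ≤ 1 ∧ 0 ≤ z.im := by
  constructor
  · have h1 := (convex_closedBall (0 : ℂ) 1).segment_subset (x := p) (y := q)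
      (by simpa using hp.1) (by simpa using hq.1) hz
    simpa using h1
  · obtain ⟨a, b, ha, hb, hab, rfl⟩ := hz
    simp only [Complex.add_im, Complex.real_smul, Complex.mul_im, Complex.ofReal_re,
      Complex.ofReal_im, zero_mul, add_zero]
    have := hp.2.1
    have := hq.2.1
    positivity

theorem qc (Hl : Holes c r) {E : ℂ → ℂ → ℝ≥0∞} {K : ℝ} (hK : 0 ≤ K)
    (htri : ∀ p ∈ Om c r, ∀ q ∈ Om c r, ∀ x ∈ Om c r, E p x ≤ E p q + E q x)
    (hseg : ∀ p q, segment ℝ p q ⊆ Om c r → E p q ≤ ENNReal.ofReal (K * ‖p - q‖))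
    (harc : ∀ j, ∀ s t : ℝ, E (hol (c j) (r j) s) (hol (c j) (r j) t) ≤
      ENNReal.ofReal (K * (r j * |s - t|))) :
    ∀ p ∈ Om c r, ∀ q ∈ Om c r, E p q ≤ ENNReal.ofReal (2 * K * ‖p - q‖) := by
  have main : ∀ s : Finset (Fin k), ∀ p ∈ Om c r, ∀ q ∈ Om c r,
      (∀ j, (∃ z ∈ segment ℝ p q, ‖z - c j‖ < r j) → j ∈ s) →
      E p q ≤ ENNReal.ofReal (2 * K * ‖p - q‖) := by
    intro s
    induction s using Finset.induction_on with
    | empty =>
      intro p hp q hq hs
      refine (hseg p q ?_).trans (ENNReal.ofReal_le_ofReal ?_)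
      · intro z hz
        obtain ⟨h1, h2⟩ := qc_half hp hq hz
        refine ⟨h1, h2, fun j => ?_⟩
        by_contra h
        push Not at h
        exact absurd (hs j ⟨z, hz, h⟩) (Finset.notMem_empty j)
      · nlinarith [mul_nonneg hK (norm_nonneg (p - q))]
    | insert j s hj ih =>
      intro p hp q hq hs
      by_cases hmeet : ∃ z ∈ segment ℝ p q, ‖z - c j‖ < r j
      · obtain ⟨z, hz, hzj⟩ := hmeet
        obtain ⟨u, hu, huj, hu'⟩ := qc_split (hp.2.2 j) hzj
        obtain ⟨v, hv, hvj, hv'⟩ := qc_split (hq.2.2 j) hzj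
        have hzp : segment ℝ p z ⊆ segment ℝ p q :=
          (convex_segment p q).segment_subset (left_mem_segment ℝ p q) hz
        have hzq : segment ℝ q z ⊆ segment ℝ p q :=
          (convex_segment p q).segment_subset (right_mem_segment ℝ p q) hz
        have hup : u ∈ segment ℝ p q := hzp hu
        have hvp : v ∈ segment ℝ p q := hzq hv
        have hpu : segment ℝ p u ⊆ segment ℝ p q :=
          (convex_segment p q).segment_subset (left_mem_segment ℝ p q) hup
        have hqv : segment ℝ v q ⊆ segment ℝ p q :=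
          (convex_segment p q).segment_subset hvp (right_mem_segment ℝ p q)
        obtain ⟨a, b, ha, hb, hab⟩ := qc_arc (c j) (Hl.pos j) huj hvj
        have huO : u ∈ Om c r := ha ▸ hol_mem Hl j a
        have hvO : v ∈ Om c r := hb ▸ hol_mem Hl j b
        have i1 := ih p hp u huO (by
          rintro i ⟨w, hw, hwi⟩
          have h1 := hs i ⟨w, hpu hw, hwi⟩
          rcases Finset.mem_insert.1 h1 with h2 | h2
          · subst h2
            exact absurd hwi (not_lt.2 (hu' w hw))
          · exact h2)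
        have i2 := ih v hvO q hq (by
          rintro i ⟨w, hw, hwi⟩
          have h1 := hs i ⟨w, hqv hw, hwi⟩
          rcases Finset.mem_insert.1 h1 with h2 | h2
          · subst h2
            exact absurd hwi (not_lt.2 (hv' w (segment_symm ℝ v q ▸ hw)))
          · exact h2)
        have i3 : E u v ≤ ENNReal.ofReal (2 * K * ‖u - v‖) := by
          have h1 := harc j a b
          rw [ha, hb] at h1
          refine h1.trans (ENNReal.ofReal_le_ofReal ?_)
          have h2 : Real.pi / 2 * ‖u - v‖ ≤ 2 * ‖u - v‖ :=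
            mul_le_mul_of_nonneg_right (by linarith [Real.pi_le_four]) (norm_nonneg _)
          nlinarith [mul_le_mul_of_nonneg_left (hab.trans h2) hK]
        have hsum : ‖p - u‖ + ‖u - v‖ + ‖v - q‖ ≤ ‖p - q‖ := by
          have h1 : dist p u + dist u z = dist p z := dist_add_dist_of_mem_segment hu
          have h2 : dist q v + dist v z = dist q z := dist_add_dist_of_mem_segment hv
          have h3 : dist p z + dist z q = dist p q := dist_add_dist_of_mem_segment hz
          have h4 : dist u v ≤ dist u z + dist z v := dist_triangle _ _ _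
          rw [dist_comm z v] at h4
          rw [dist_comm q v, dist_comm q z] at h2
          simp only [dist_eq_norm] at *
          linarith
        calc E p q ≤ E p u + E u q := htri p hp u huO q hq
          _ ≤ E p u + (E u v + E v q) := by gcongr; exact htri u huO v hvO q hq
          _ ≤ ENNReal.ofReal (2 * K * ‖p - u‖) + (ENNReal.ofReal (2 * K * ‖u - v‖) +
              ENNReal.ofReal (2 * K * ‖v - q‖)) := by gcongr
          _ = ENNReal.ofReal (2 * K * ‖p - u‖ + (2 * K * ‖u - v‖ + 2 * K * ‖v - q‖)) := by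
              rw [ENNReal.ofReal_add, ENNReal.ofReal_add] <;> positivity
          _ ≤ ENNReal.ofReal (2 * K * ‖p - q‖) := by
              apply ENNReal.ofReal_le_ofReal
              have : 0 ≤ 2 * K := by linarith
              nlinarith [mul_le_mul_of_nonneg_left hsum this]
      · refine ih p hp q hq fun i hi => ?_
        rcases Finset.mem_insert.1 (hs i hi) with h2 | h2
        · subst h2
          exact absurd hi hmeet
        · exact h2
  intro p hp q hq
  exact main Finset.univ p hp q hq fun j _ => Finset.mem_univ j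

end Pool.Agent.MIR
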