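import Mathlib
import Pool.Agent.MIR.Defs
import Pool.Agent.MIR.Basic
import Pool.Agent.MIR.Defs2
import Pool.Agent.MIR.Qc
import Pool.Agent.MIR.Pl
import Pool.Agent.MIR.Core

open MeasureTheory Set Filter Topology Manifold Bundle
open scoped ENNReal NNReal ContDiff

noncomputable section

namespace Pool.Agent.MIR

variable {k : ℕ} {c : Fin k → ℂ} {r : Fin k → ℝ}

theorem metr_lip (Hl : Holes c r) {M : Type} [MetricSpace M] {Ψ Ψ' : ℂ → M} {K : ℝ≥0}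
    (hL : LipschitzOnWith K Ψ (Om c r)) (hL' : LipschitzOnWith K Ψ' (Om c r)) :
    ∀ p ∈ Om c r, ∀ q ∈ Om c r, PL Ψ Ψ' (Om c r) p q ≤ ENNReal.ofReal (2 * K * ‖p - q‖) := by
  have harc : ∀ j, ∀ s t : ℝ, s ≤ t → PL Ψ Ψ' (Om c r) (hol (c j) (r j) s) (hol (c j) (r j) t) ≤
      ENNReal.ofReal (K * (r j * |s - t|)) := by
    intro j s t hst
    have hr := (Hl.pos j).le
    have hd : ∀ Φ : ℂ → M, LipschitzOnWith K Φ (Om c r) → ∀ u ∈ Icc s t, ∀ v ∈ Icc s t,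
        dist (Φ (hol (c j) (r j) u)) (Φ (hol (c j) (r j) v)) ≤ (K * r j) * |u - v| := by
      intro Φ hΦ u _ v _
      refine (hΦ.dist_le_mul _ (hol_mem Hl j u) _ (hol_mem Hl j v)).trans ?_
      rw [dist_eq_norm, mul_assoc]
      exact mul_le_mul_of_nonneg_left (hol_sub_le _ hr u v) K.2
    have h := pl_le Ψ Ψ' (S := Om c r) (γ := hol (c j) (r j)) hst (continuous_hol _ _).continuousOn
      (fun u _ => hol_mem Hl j u) (by positivity) (by positivity) (hd Ψ hL) (hd Ψ' hL')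
    refine h.trans (ENNReal.ofReal_le_ofReal (le_of_eq ?_))
    rw [abs_sub_comm, abs_of_nonneg (by linarith)]
    ring
  refine qc Hl K.2 (fun p _ q _ x _ => pl_tri Ψ Ψ' p q x) ?_ ?_
  · intro p q hseg
    have hmem : ∀ t ∈ Icc (0 : ℝ) 1, p + (t : ℂ) * (q - p) ∈ Om c r := by
      intro t ht
      apply hseg
      rw [segment_eq_image']
      exact ⟨t, ht, by simp⟩
    have hd : ∀ Φ : ℂ → M, LipschitzOnWith K Φ (Om c r) → ∀ u ∈ Icc (0 : ℝ) 1, ∀ v ∈ Icc (0 : ℝ) 1,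
        dist (Φ (p + (u : ℂ) * (q - p))) (Φ (p + (v : ℂ) * (q - p))) ≤ (K * ‖p - q‖) * |u - v| := by
      intro Φ hΦ u hu v hv
      refine (hΦ.dist_le_mul _ (hmem u hu) _ (hmem v hv)).trans ?_
      rw [dist_eq_norm, mul_assoc]
      refine mul_le_mul_of_nonneg_left (le_of_eq ?_) K.2
      have : p + (u : ℂ) * (q - p) - (p + (v : ℂ) * (q - p)) = ((u - v : ℝ) : ℂ) * (q - p) := by
        push_cast; ring
      rw [this, norm_mul, Complex.norm_real, Real.norm_eq_abs, norm_sub_rev q p, mul_comm]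
    have h := pl_le Ψ Ψ' (S := Om c r) (γ := fun t : ℝ => p + (t : ℂ) * (q - p)) zero_le_one
      (by fun_prop) hmem (by positivity) (by positivity) (hd Ψ hL) (hd Ψ' hL')
    simp only [Complex.ofReal_zero, zero_mul, add_zero, Complex.ofReal_one, one_mul,
      add_sub_cancel] at h
    refine h.trans (ENNReal.ofReal_le_ofReal (le_of_eq ?_))
    ring
  · intro j s t
    rcases le_total s t with h | h
    · exact harc j s t h
    · rw [pl_symm, abs_sub_comm]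
      exact harc j t s h

theorem metr_circle {s t : ℝ} (h : |s - t| ≤ Real.pi) :
    dist (s : AddCircle (2 * Real.pi)) (t : AddCircle (2 * Real.pi)) = |s - t| := by
  have hp : (2 * Real.pi) ≠ 0 := by positivity
  rw [dist_eq_norm, ← AddCircle.coe_sub, AddCircle.norm_coe_eq_abs_iff _ hp]
  have hp2 : |2 * Real.pi| = 2 * Real.pi := abs_of_pos (by positivity)
  rw [hp2]
  linarith

theorem metr_half (Hl : Holes c r) {M : Type} [MetricSpace M] {φ : AddCircle (2 * Real.pi) → M}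
    (hφ : ∀ s t, dist (φ s) (φ t) = dist s t) {Ψ Ψ' : ℂ → M} {K : ℝ≥0}
    (hL : LipschitzOnWith K Ψ (Om c r)) (hL' : LipschitzOnWith K Ψ' (Om c r))
    (hb : ∀ t ∈ Icc 0 Real.pi, Ψ (cis t) = φ (t : ℝ))
    (hb' : ∀ t ∈ Icc 0 Real.pi, Ψ' (cis t) = φ ((-t : ℝ)))
    (hm : ∀ z ∈ Mir c r, Ψ z = Ψ' z) :
    Half c r (fun p q => (PL Ψ Ψ' (Om c r) p q).toReal) (fun x u => x = u ∧ u ∈ Om c r) := by
  have hlip := metr_lip Hl hL hL'
  have hfin : ∀ p ∈ Om c r, ∀ q ∈ Om c r, PL Ψ Ψ' (Om c r) p q ≠ ⊤ := fun p hp q hq =>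
    ne_top_of_le_ne_top ENNReal.ofReal_ne_top (hlip p hp q hq)
  have hge : ∀ p ∈ Om c r, ∀ q ∈ Om c r, (dist (Ψ p) (Ψ q) + dist (Ψ' p) (Ψ' q)) / 2 ≤
      (PL Ψ Ψ' (Om c r) p q).toReal := by
    intro p hp q hq
    have h := ENNReal.toReal_mono (hfin p hp q hq) (pl_ge Ψ Ψ' (S := Om c r) p q)
    rwa [ENNReal.toReal_ofReal (by positivity)] at h
  have hcirc : ∀ s ∈ Icc 0 Real.pi, ∀ t ∈ Icc 0 Real.pi, s ≤ t →
      (PL Ψ Ψ' (Om c r) (cis s) (cis t)).toReal = |s - t| := by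
    intro s hs t ht hst
    have hsub : ∀ u ∈ Icc s t, u ∈ Icc 0 Real.pi := fun u hu =>
      ⟨hs.1.trans hu.1, hu.2.trans ht.2⟩
    have habs : ∀ u ∈ Icc 0 Real.pi, ∀ v ∈ Icc 0 Real.pi, |u - v| ≤ Real.pi := by
      intro u hu v hv
      rw [abs_le]
      constructor <;> linarith [hu.1, hu.2, hv.1, hv.2]
    have e1 : ∀ u ∈ Icc 0 Real.pi, ∀ v ∈ Icc 0 Real.pi, dist (Ψ (cis u)) (Ψ (cis v)) = |u - v| := by
      intro u hu v hv
      rw [hb u hu, hb v hv, hφ, metr_circle (habs u hu v hv)]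
    have e2 : ∀ u ∈ Icc 0 Real.pi, ∀ v ∈ Icc 0 Real.pi,
        dist (Ψ' (cis u)) (Ψ' (cis v)) = |u - v| := by
      intro u hu v hv
      have h1 : |(-u) - (-v)| = |u - v| := by
        rw [abs_sub_comm u v]
        congr 1
        ring
      rw [hb' u hu, hb' v hv, hφ, metr_circle (by rw [h1]; exact habs u hu v hv), h1]
    refine le_antisymm ?_ ?_
    · have h := pl_le Ψ Ψ' (S := Om c r) (γ := cis) (K := 1) (K' := 1) hst continuous_cis.continuousOn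
        (fun u hu => cis_mem Hl (hsub u hu)) zero_le_one zero_le_one
        (fun u hu v hv => by rw [one_mul, e1 u (hsub u hu) v (hsub v hv)])
        (fun u hu v hv => by rw [one_mul, e2 u (hsub u hu) v (hsub v hv)])
      have h' := ENNReal.toReal_mono ENNReal.ofReal_ne_top h
      rw [ENNReal.toReal_ofReal (by nlinarith)] at h'
      refine h'.trans (le_of_eq ?_)
      rw [abs_sub_comm, abs_of_nonneg (by linarith)]
      ring
    · have h := hge _ (cis_mem Hl hs) _ (cis_mem Hl ht)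
      rw [e1 s hs t ht, e2 s hs t ht] at h
      linarith
  refine { refl := ?_, symm := ?_, tri := ?_, near_self := ?_, near_mem := ?_, near_eq := ?_,
           geo := ?_, upper := ?_, circ := ?_, inv := ?_ }
  · intro p hp
    simp only [pl_refl Ψ Ψ' hp, ENNReal.toReal_zero]
  · intro p _ q _
    simp only [pl_symm Ψ Ψ' p q]
  · intro p hp q hq x hx
    rw [← ENNReal.toReal_add (hfin p hp q hq) (hfin q hq x hx)]
    exact ENNReal.toReal_mono (by simp [hfin p hp q hq, hfin q hq x hx]) (pl_tri Ψ Ψ' p q x)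
  · intro p hp
    exact ⟨rfl, hp⟩
  · rintro x u ⟨rfl, hu⟩
    exact ⟨hu, hu.1⟩
  · rintro x u v ⟨rfl, hu⟩ ⟨rfl, _⟩
    simp only [pl_refl Ψ Ψ' hu, ENNReal.toReal_zero]
  · intro p hp q hq ε hε
    refine (pl_geo Ψ Ψ' (hfin p hp q hq) hε).mono ?_
    rintro x ⟨hx, _, _, h⟩
    exact ⟨x, ⟨rfl, hx⟩, h⟩
  · rintro x u ⟨rfl, hu⟩
    exact hu.2.1
  · intro s hs t ht
    rcases le_total s t with h | h
    · exact hcirc s hs t ht h
    · rw [pl_symm, abs_sub_comm]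
      exact hcirc t ht s hs h
  · intro x hx t ht
    have ht' : Real.pi - t ∈ Icc 0 Real.pi := ⟨by linarith [ht.2], by linarith [ht.1]⟩
    have h1 := hge x (mir_sub hx) _ (cis_mem Hl ht)
    have h2 := hge x (mir_sub hx) _ (cis_mem Hl ht')
    rw [hb t ht, hb' t ht] at h1
    rw [hb _ ht', hb' _ ht'] at h2
    rw [← hm x hx] at h1 h2
    have hpp := Real.pi_pos
    have h3 : Real.pi ≤ dist (Ψ x) (φ (t : ℝ)) + dist (Ψ x) (φ ((-(Real.pi - t) : ℝ))) := by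
      have h4 := dist_triangle_left (φ (t : ℝ)) (φ ((-(Real.pi - t) : ℝ))) (Ψ x)
      have h5 : |t - (-(Real.pi - t))| = Real.pi := by
        rw [show t - (-(Real.pi - t)) = Real.pi by ring, abs_of_pos hpp]
      rw [hφ, metr_circle h5.le, h5] at h4
      exact h4
    have h6 : Real.pi ≤ dist (Ψ x) (φ ((-t : ℝ))) + dist (Ψ x) (φ ((Real.pi - t : ℝ))) := by
      have h4 := dist_triangle_left (φ ((-t : ℝ))) (φ ((Real.pi - t : ℝ))) (Ψ x)
      have h5 : |(-t) - (Real.pi - t)| = Real.pi := by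
        rw [show (-t) - (Real.pi - t) = -Real.pi by ring, abs_neg, abs_of_pos hpp]
      rw [hφ, metr_circle h5.le, h5] at h4
      exact h4
    linarith

theorem metr_tan (Hl : Holes c r) {M : Type} [MetricSpace M] {Ψ Ψ' : ℂ → M} {K : ℝ≥0}
    (hL : LipschitzOnWith K Ψ (Om c r)) (hL' : LipschitzOnWith K Ψ' (Om c r))
    {p : ℂ} (hp : p ∈ interior (Om c r)) {T : ℂ →L[ℝ] ℂ} {n n' : ℂ → ℝ}
    (hn0 : ∀ v, 0 ≤ n v) (hn0' : ∀ v, 0 ≤ n' v)
    (hnh : ∀ v, ∀ t : ℝ, n (t • v) = |t| * n v)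
    (hnh' : ∀ v, ∀ t : ℝ, n' (t • v) = |t| * n' v)
    (hT : ∀ v, ‖T v‖ = (n v + n' v) / 2)
    (hup : ∀ ε > 0, ∀ᶠ x : ℂ × ℂ in 𝓝 (p, p),
      dist (Ψ x.1) (Ψ x.2) ≤ n (x.1 - x.2) + ε * ‖x.1 - x.2‖)
    (hup' : ∀ ε > 0, ∀ᶠ x : ℂ × ℂ in 𝓝 (p, p),
      dist (Ψ' x.1) (Ψ' x.2) ≤ n' (x.1 - x.2) + ε * ‖x.1 - x.2‖)
    (hlow : ∀ ε > 0, ∀ᶠ q : ℂ in 𝓝 p, n (q - p) ≤ dist (Ψ p) (Ψ q) + ε * ‖q - p‖)
    (hlow' : ∀ ε > 0, ∀ᶠ q : ℂ in 𝓝 p, n' (q - p) ≤ dist (Ψ' p) (Ψ' q) + ε * ‖q - p‖) :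
    Tan (fun p q => (PL Ψ Ψ' (Om c r) p q).toReal) p T := by
  have hlip := metr_lip Hl hL hL'
  have hfin : ∀ p ∈ Om c r, ∀ q ∈ Om c r, PL Ψ Ψ' (Om c r) p q ≠ ⊤ := fun p hp q hq =>
    ne_top_of_le_ne_top ENNReal.ofReal_ne_top (hlip p hp q hq)
  have hpO : Om c r ∈ 𝓝 p := mem_interior_iff_mem_nhds.1 hp
  rw [Tan, Asymptotics.isLittleO_iff]
  intro ε hε
  have hup2 := (hup ε hε).and (hup' ε hε)
  rw [nhds_prod_eq] at hup2
  obtain ⟨W, hW, hW2⟩ := Filter.mem_prod_self_iff.1 hup2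
  obtain ⟨δ, hδ, hball⟩ := Metric.mem_nhds_iff.1 (inter_mem hpO hW)
  filter_upwards [Metric.ball_mem_nhds p hδ, hlow ε hε, hlow' ε hε] with q hq h1 h2
  have hpm : p ∈ Metric.ball p δ := Metric.mem_ball_self hδ
  have hseg : ∀ t ∈ Icc (0 : ℝ) 1, p + (t : ℂ) * (q - p) ∈ Metric.ball p δ := by
    intro t ht
    rw [Metric.mem_ball, dist_eq_norm] at hq ⊢
    rw [add_sub_cancel_left, norm_mul, Complex.norm_real, Real.norm_eq_abs, abs_of_nonneg ht.1]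
    refine lt_of_le_of_lt ?_ hq
    exact mul_le_of_le_one_left (norm_nonneg _) ht.2
  have hdiff : ∀ u v : ℝ, p + (u : ℂ) * (q - p) - (p + (v : ℂ) * (q - p)) = (u - v) • (q - p) := by
    intro u v
    rw [Complex.real_smul]
    push_cast; ring
  have hup3 : PL Ψ Ψ' (Om c r) p q ≤ ENNReal.ofReal
      (((n (q - p) + ε * ‖q - p‖) + (n' (q - p) + ε * ‖q - p‖)) / 2 * (1 - 0)) := by
    have h := pl_le Ψ Ψ' (S := Om c r) (γ := fun t : ℝ => p + (t : ℂ) * (q - p))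
      (K := n (q - p) + ε * ‖q - p‖) (K' := n' (q - p) + ε * ‖q - p‖) (zero_le_one (α := ℝ))
      (by fun_prop) (fun t ht => (hball (hseg t ht)).1)
      (add_nonneg (hn0 _) (by positivity)) (add_nonneg (hn0' _) (by positivity)) ?_ ?_
    · simpa using h
    · intro u hu v hv
      have h3 := (hW2 (mk_mem_prod (hball (hseg u hu)).2 (hball (hseg v hv)).2)).1
      simp only [hdiff, hnh, norm_smul, Real.norm_eq_abs] at h3
      refine h3.trans (le_of_eq ?_)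
      ring
    · intro u hu v hv
      have h3 := (hW2 (mk_mem_prod (hball (hseg u hu)).2 (hball (hseg v hv)).2)).2
      simp only [hdiff, hnh', norm_smul, Real.norm_eq_abs] at h3
      refine h3.trans (le_of_eq ?_)
      ring
  have hup4 := ENNReal.toReal_mono ENNReal.ofReal_ne_top hup3
  have hnn : 0 ≤ ((n (q - p) + ε * ‖q - p‖) + (n' (q - p) + ε * ‖q - p‖)) / 2 * (1 - 0) := by
    have := hn0 (q - p)
    have := hn0' (q - p)
    positivity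
  rw [ENNReal.toReal_ofReal hnn] at hup4
  have hge : (dist (Ψ p) (Ψ q) + dist (Ψ' p) (Ψ' q)) / 2 ≤ (PL Ψ Ψ' (Om c r) p q).toReal := by
    have h := ENNReal.toReal_mono (hfin p (hball hpm).1 q (hball hq).1)
      (pl_ge Ψ Ψ' (S := Om c r) p q)
    rwa [ENNReal.toReal_ofReal (by positivity)] at h
  rw [Real.norm_eq_abs, hT, abs_le]
  constructor <;> linarith

theorem metric_half (Hl : Holes c r) {M : Type} [MetricSpace M] {φ : AddCircle (2 * Real.pi) → M}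
    (hφ : ∀ s t, dist (φ s) (φ t) = dist s t) {Ψ Ψ' : ℂ → M} {K : ℝ≥0}
    (hL : LipschitzOnWith K Ψ (Om c r)) (hL' : LipschitzOnWith K Ψ' (Om c r))
    (hb : ∀ t ∈ Icc 0 Real.pi, Ψ (cis t) = φ (t : ℝ))
    (hb' : ∀ t ∈ Icc 0 Real.pi, Ψ' (cis t) = φ ((-t : ℝ)))
    (hm : ∀ z ∈ Mir c r, Ψ z = Ψ' z) (T : ℂ → ℂ →L[ℝ] ℂ) {n n' : ℂ → ℂ → ℝ}
    (hn0 : ∀ p v, 0 ≤ n p v) (hn0' : ∀ p v, 0 ≤ n' p v)
    (hnh : ∀ p v, ∀ t : ℝ, n p (t • v) = |t| * n p v)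
    (hnh' : ∀ p v, ∀ t : ℝ, n' p (t • v) = |t| * n' p v)
    (hT : ∀ p ∈ interior (Om c r), ∀ v, ‖T p v‖ = (n p v + n' p v) / 2)
    (hup : ∀ p ∈ interior (Om c r), ∀ ε > 0, ∀ᶠ x : ℂ × ℂ in 𝓝 (p, p),
      dist (Ψ x.1) (Ψ x.2) ≤ n p (x.1 - x.2) + ε * ‖x.1 - x.2‖)
    (hup' : ∀ p ∈ interior (Om c r), ∀ ε > 0, ∀ᶠ x : ℂ × ℂ in 𝓝 (p, p),
      dist (Ψ' x.1) (Ψ' x.2) ≤ n' p (x.1 - x.2) + ε * ‖x.1 - x.2‖)
    (hlow : ∀ p ∈ interior (Om c r), ∀ ε > 0, ∀ᶠ q : ℂ in 𝓝 p,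
      n p (q - p) ≤ dist (Ψ p) (Ψ q) + ε * ‖q - p‖)
    (hlow' : ∀ p ∈ interior (Om c r), ∀ ε > 0, ∀ᶠ q : ℂ in 𝓝 p,
      n' p (q - p) ≤ dist (Ψ' p) (Ψ' q) + ε * ‖q - p‖) :
    ENNReal.ofReal Real.pi ≤
      ∫⁻ p in interior (Om c r), ENNReal.ofReal |cp (T p 1) (T p Complex.I)| := by
  refine core Hl (C := 2 * K) (by positivity) (metr_half Hl hφ hL hL' hb hb' hm) ?_ T ?_
  · intro p hp q hq
    have h := ENNReal.toReal_mono ENNReal.ofReal_ne_top (metr_lip Hl hL hL' p hp q hq)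
    rwa [ENNReal.toReal_ofReal (by positivity)] at h
  · intro p hp
    exact metr_tan Hl hL hL' hp (hn0 p) (hn0' p) (hnh p) (hnh' p) (hT p hp) (hup p hp) (hup' p hp)
      (hlow p hp) (hlow' p hp)

end Pool.Agent.MIR
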