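import Mathlib
import Pool.Agent.MIR.Defs
import Pool.Agent.MIR.Basic
import Pool.Agent.MIR.Defs2
import Pool.Agent.H74.FAC.Riem2

open MeasureTheory Set Filter Topology Manifold Bundle
open scoped ENNReal NNReal ContDiff

set_option linter.unusedSectionVars false

noncomputable section

namespace Pool.Agent.MIR

open Pool.Agent.H74.Surf

section

open Pool.Agent.H74.FAC

variable {M : Type} [MetricSpace M] [ChartedSpace HP M] [IsManifold (𝓡∂ 2) ∞ M]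
  [RiemannianBundle (fun x : M => TangentSpace (𝓡∂ 2) x)]
  [IsContMDiffRiemannianBundle (𝓡∂ 2) ∞ E2 (fun x : M => TangentSpace (𝓡∂ 2) x)]

/-- derivative of a map read in a chart -/
def slip_dv (ρ : M → M) (e : OpenPartialHomeomorph M HP) (z v : E2) :
    TangentSpace (𝓡∂ 2) ((ρ ∘ (e.extend (𝓡∂ 2)).symm) z) :=
  mfderivWithin 𝓘(ℝ, E2) (𝓡∂ 2) (ρ ∘ (e.extend (𝓡∂ 2)).symm) (e.extend (𝓡∂ 2)).target z v

variable {ρ : M → M} {e : OpenPartialHomeomorph M HP}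

theorem slip_cmd (hρ : ContMDiff (𝓡∂ 2) (𝓡∂ 2) ∞ ρ) (he : e ∈ IsManifold.maximalAtlas (𝓡∂ 2) ∞ M) :
    ContMDiffOn 𝓘(ℝ, E2) (𝓡∂ 2) ∞ (ρ ∘ (e.extend (𝓡∂ 2)).symm) (e.extend (𝓡∂ 2)).target :=
  hρ.comp_contMDiffOn (cmd_symm he)

theorem slip_cont (hρ : ContMDiff (𝓡∂ 2) (𝓡∂ 2) ∞ ρ) (he : e ∈ IsManifold.maximalAtlas (𝓡∂ 2) ∞ M)
    (v : E2) :
    ContinuousOn (fun z => (⟨(ρ ∘ (e.extend (𝓡∂ 2)).symm) z, slip_dv ρ e z v⟩ :
      TangentBundle (𝓡∂ 2) M)) (e.extend (𝓡∂ 2)).target := by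
  have h1 := (slip_cmd hρ he).continuousOn_tangentMapWithin (by simp)
    (uniqueMDiffOn_iff_uniqueDiffOn.2 (uniqueDiffOn_target e))
  have h2 : Continuous (fun z : E2 => (⟨z, v⟩ : TangentBundle 𝓘(ℝ, E2) E2)) := by
    have h := (tangentBundleModelSpaceHomeomorph 𝓘(ℝ, E2)).symm.continuous
    have h' : Continuous (fun z : E2 => ((z, v) : ModelProd E2 E2)) := by
      exact continuous_id.prodMk continuous_const
    exact h.comp h'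
  have h3 := h1.comp h2.continuousOn (s := (e.extend (𝓡∂ 2)).target) (fun z hz => hz)
  exact h3

theorem slip_norm_cont (hρ : ContMDiff (𝓡∂ 2) (𝓡∂ 2) ∞ ρ)
    (he : e ∈ IsManifold.maximalAtlas (𝓡∂ 2) ∞ M) (v : E2) :
    ContinuousOn (fun z => ‖slip_dv ρ e z v‖) (e.extend (𝓡∂ 2)).target := by
  have := contRiem (M := M)
  have h : ContinuousOn (fun z => inner ℝ (slip_dv ρ e z v) (slip_dv ρ e z v))
      (e.extend (𝓡∂ 2)).target :=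
    ContinuousOn.inner_bundle (F := E2) (slip_cont hρ he v) (slip_cont hρ he v)
  have h2 : (fun z => ‖slip_dv ρ e z v‖) =
      fun z => Real.sqrt (inner ℝ (slip_dv ρ e z v) (slip_dv ρ e z v)) := by
    ext z
    rw [norm_eq_sqrt_real_inner]
  rw [h2]
  exact h.sqrt

theorem slip_dv_add (z v w : E2) : slip_dv ρ e z (v + w) = slip_dv ρ e z v + slip_dv ρ e z w := by
  unfold slip_dv
  exact map_add _ _ _

theorem slip_dv_smul (z v : E2) (c : ℝ) : slip_dv ρ e z (c • v) = c • slip_dv ρ e z v := by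
  unfold slip_dv
  exact map_smul _ _ _

theorem slip_norm_le (z v : E2) : ‖slip_dv ρ e z v‖ ≤
    ‖v‖ * (‖slip_dv ρ e z (bv 0)‖ + ‖slip_dv ρ e z (bv 1)‖) := by
  have e1 : v = v 0 • bv 0 + v 1 • bv 1 := by
    conv_lhs => rw [← pt_self v]
    rw [pt_eq]
  have h0 : |v 0| ≤ ‖v‖ := by
    have := abs_coord_sub_le v 0 0
    simpa using this
  have h1 : |v 1| ≤ ‖v‖ := by
    have := abs_coord_sub_le v 0 1
    simpa using this
  have hadd : slip_dv ρ e z (v 0 • bv 0 + v 1 • bv 1) =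
      v 0 • slip_dv ρ e z (bv 0) + v 1 • slip_dv ρ e z (bv 1) := by
    rw [slip_dv_add, slip_dv_smul, slip_dv_smul]
  have h2 : ‖slip_dv ρ e z v‖ ≤ |v 0| * ‖slip_dv ρ e z (bv 0)‖ + |v 1| * ‖slip_dv ρ e z (bv 1)‖ := by
    conv_lhs => rw [e1]
    rw [hadd]
    refine (norm_add_le _ _).trans (le_of_eq ?_)
    rw [norm_smul, norm_smul, Real.norm_eq_abs, Real.norm_eq_abs]
  refine h2.trans ?_
  rw [mul_add]
  exact add_le_add (mul_le_mul_of_nonneg_right h0 (norm_nonneg _))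
    (mul_le_mul_of_nonneg_right h1 (norm_nonneg _))

/-- the derivative is bounded near a point -/
def SlipB (ρ : M → M) (K : ℝ) (y : M) : Prop :=
  ∀ v : TangentSpace (𝓡∂ 2) y, ‖mfderiv (𝓡∂ 2) (𝓡∂ 2) ρ y v‖ ≤ K * ‖v‖

attribute [local instance] normedAddCommGroupTangentSpaceVectorSpace
attribute [local instance] normedSpaceTangentSpaceVectorSpace

theorem slip_chart (x : M) : ∃ C : ℝ, 0 < C ∧ ∀ᶠ y in 𝓝 x, ∀ v : TangentSpace (𝓡∂ 2) y,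
    ‖(mfderiv (𝓡∂ 2) 𝓘(ℝ, E2) (extChartAt (𝓡∂ 2) x) y v : E2)‖ ≤ C * ‖v‖ := by
  have := contRiem (M := M)
  obtain ⟨C, hC, h⟩ := eventually_norm_mfderiv_extChartAt_lt (𝓡∂ 2) x
  refine ⟨C, hC, ?_⟩
  filter_upwards [h] with y hy v
  have h1 := (mfderiv (𝓡∂ 2) 𝓘(ℝ, E2) (extChartAt (𝓡∂ 2) x) y).le_opNorm v
  refine le_trans h1 ?_
  exact mul_le_mul_of_nonneg_right hy.le (norm_nonneg _)

theorem slip_local (hρ : ContMDiff (𝓡∂ 2) (𝓡∂ 2) ∞ ρ) (x : M) :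
    ∃ K : ℝ, 0 ≤ K ∧ ∀ᶠ y in 𝓝 x, SlipB ρ K y := by
  set e := chartAt HP x with he'
  have he : e ∈ IsManifold.maximalAtlas (𝓡∂ 2) ∞ M := IsManifold.chart_mem_maximalAtlas x
  obtain ⟨C, hC, h1⟩ := slip_chart x
  set Φ : E2 → ℝ := fun z => ‖slip_dv ρ e z (bv 0)‖ + ‖slip_dv ρ e z (bv 1)‖ with hΦ
  have hΦc : ContinuousOn Φ (e.extend (𝓡∂ 2)).target :=
    (slip_norm_cont hρ he _).add (slip_norm_cont hρ he _)
  have hx : x ∈ (e.extend (𝓡∂ 2)).source := mem_extChartAt_source x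
  set z0 := e.extend (𝓡∂ 2) x with hz0
  have hz0t : z0 ∈ (e.extend (𝓡∂ 2)).target := (e.extend (𝓡∂ 2)).map_source hx
  have h2 : ∀ᶠ z in 𝓝[(e.extend (𝓡∂ 2)).target] z0, Φ z < Φ z0 + 1 :=
    (hΦc z0 hz0t).eventually_lt_const (by linarith)
  have h3 : ∀ᶠ y in 𝓝 x, y ∈ (e.extend (𝓡∂ 2)).source ∧ Φ (e.extend (𝓡∂ 2) y) < Φ z0 + 1 := by
    have h4 : (e.extend (𝓡∂ 2)).source ∈ 𝓝 x := extChartAt_source_mem_nhds x
    have h5 : Tendsto (e.extend (𝓡∂ 2)) (𝓝 x) (𝓝[(e.extend (𝓡∂ 2)).target] z0) := by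
      apply tendsto_nhdsWithin_of_tendsto_nhds_of_eventually_within
      · exact continuousAt_extChartAt x
      · filter_upwards [h4] with y hy
        exact (e.extend (𝓡∂ 2)).map_source hy
    filter_upwards [h4, h5.eventually h2] with y hy1 hy2
    exact ⟨hy1, hy2⟩
  have hΦ0 : 0 ≤ Φ z0 := by positivity
  refine ⟨C * (Φ z0 + 1), by positivity, ?_⟩
  filter_upwards [h1, h3] with y hy1 hy2
  obtain ⟨hys, hyΦ⟩ := hy2
  set z := e.extend (𝓡∂ 2) y with hz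
  have hzt : z ∈ (e.extend (𝓡∂ 2)).target := (e.extend (𝓡∂ 2)).map_source hys
  have hinv : (e.extend (𝓡∂ 2)).symm z = y := (e.extend (𝓡∂ 2)).left_inv hys
  have hU : UniqueMDiffWithinAt 𝓘(ℝ, E2) (e.extend (𝓡∂ 2)).target z :=
    (uniqueMDiffOn_iff_uniqueDiffOn.2 (uniqueDiffOn_target e)) z hzt
  have hcomp : mfderivWithin 𝓘(ℝ, E2) (𝓡∂ 2) (ρ ∘ (e.extend (𝓡∂ 2)).symm) (e.extend (𝓡∂ 2)).target z =
      (mfderiv (𝓡∂ 2) (𝓡∂ 2) ρ ((e.extend (𝓡∂ 2)).symm z)).comp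
        (mfderivWithin 𝓘(ℝ, E2) (𝓡∂ 2) (e.extend (𝓡∂ 2)).symm (e.extend (𝓡∂ 2)).target z) :=
    mfderiv_comp_mfderivWithin z ((hρ.mdifferentiable (by simp)) _)
      (((cmd_symm he) z hzt).mdifferentiableWithinAt (by simp)) hU
  have hid : (mfderivWithin 𝓘(ℝ, E2) (𝓡∂ 2) (e.extend (𝓡∂ 2)).symm (range (𝓡∂ 2)) z) ∘L
      (mfderiv (𝓡∂ 2) 𝓘(ℝ, E2) (e.extend (𝓡∂ 2)) ((e.extend (𝓡∂ 2)).symm z)) =
      ContinuousLinearMap.id _ _ :=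
    mfderivWithin_extChartAt_symm_comp_mfderiv_extChartAt (I := 𝓡∂ 2) (x := x) (y := z) hzt
  have hw : ∀ w : E2, (mfderivWithin 𝓘(ℝ, E2) (𝓡∂ 2) (e.extend (𝓡∂ 2)).symm (range (𝓡∂ 2)) z) w =
      (mfderivWithin 𝓘(ℝ, E2) (𝓡∂ 2) (e.extend (𝓡∂ 2)).symm (e.extend (𝓡∂ 2)).target z) w :=
    fun w => dv_eq he hzt w
  have key : SlipB ρ (C * (Φ z0 + 1)) ((e.extend (𝓡∂ 2)).symm z) := by
    intro v
    have h6 : mfderiv (𝓡∂ 2) (𝓡∂ 2) ρ ((e.extend (𝓡∂ 2)).symm z) v =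
        slip_dv ρ e z (mfderiv (𝓡∂ 2) 𝓘(ℝ, E2) (e.extend (𝓡∂ 2)) ((e.extend (𝓡∂ 2)).symm z) v) := by
      unfold slip_dv
      rw [hcomp]
      have h7 := congrArg (fun L => L v) hid
      have h8 : v = (mfderivWithin 𝓘(ℝ, E2) (𝓡∂ 2) (e.extend (𝓡∂ 2)).symm (e.extend (𝓡∂ 2)).target z)
          (mfderiv (𝓡∂ 2) 𝓘(ℝ, E2) (e.extend (𝓡∂ 2)) ((e.extend (𝓡∂ 2)).symm z) v) := by
        rw [← hw]
        exact h7.symm
      conv_lhs => rw [h8]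
      rfl
    have h9 : ‖(mfderiv (𝓡∂ 2) 𝓘(ℝ, E2) (e.extend (𝓡∂ 2)) ((e.extend (𝓡∂ 2)).symm z) v : E2)‖ ≤
        C * ‖v‖ := by
      have h10 : ∀ y' : M, y' = y → ∀ v : TangentSpace (𝓡∂ 2) y',
          ‖(mfderiv (𝓡∂ 2) 𝓘(ℝ, E2) (extChartAt (𝓡∂ 2) x) y' v : E2)‖ ≤ C * ‖v‖ := by
        rintro y' rfl
        exact hy1
      exact h10 _ hinv v
    rw [h6]
    refine (slip_norm_le z _).trans ?_
    calc _ ≤ (C * ‖v‖) * (Φ z0 + 1) := mul_le_mul h9 hyΦ.le (by positivity) (by positivity)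
      _ = _ := by ring
  rw [hinv] at key
  exact key

variable [IsRiemannianManifold (𝓡∂ 2) M]

theorem slip_main [CompactSpace M] (hρ : ContMDiff (𝓡∂ 2) (𝓡∂ 2) ∞ ρ) :
    ∃ K : ℝ≥0, LipschitzWith K ρ := by
  have hloc := fun x : M => slip_local hρ x
  choose K hK0 hK using hloc
  obtain ⟨t, ht⟩ := CompactSpace.elim_nhds_subcover (fun x => {y | SlipB ρ (K x) y}) hK
  set K' : ℝ := ∑ x ∈ t, K x with hK'
  have hK'0 : 0 ≤ K' := Finset.sum_nonneg fun x _ => hK0 x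
  have hall : ∀ y, SlipB ρ K' y := by
    intro y
    have hy : y ∈ ⋃ x ∈ t, {y | SlipB ρ (K x) y} := by rw [ht]; trivial
    simp only [mem_iUnion] at hy
    obtain ⟨x, hx, hxy⟩ := hy
    intro v
    refine (hxy v).trans ?_
    apply mul_le_mul_of_nonneg_right _ (norm_nonneg _)
    exact Finset.single_le_sum (fun x _ => hK0 x) hx
  obtain ⟨k, hk⟩ : ∃ k : ℝ≥0, (k : ℝ) = K' := ⟨⟨K', hK'0⟩, rfl⟩
  refine ⟨k, fun x y => ?_⟩
  have hout := IsRiemannianManifold.out (I := 𝓡∂ 2) (M := M)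
  have hlen : ∀ r : ℝ≥0∞, edist x y < r → edist (ρ x) (ρ y) ≤ (k : ℝ≥0∞) * r := by
    intro r hr
    rw [hout] at hr
    obtain ⟨γ, h0, h1, hγ, hγr⟩ := exists_lt_of_riemannianEDist_lt hr
    have hs : ContMDiffOn 𝓘(ℝ, ℝ) (𝓡∂ 2) 1 (ρ ∘ γ) (Icc 0 1) :=
      (hρ.of_le (by simp)).comp_contMDiffOn hγ
    have h2 : riemannianEDist (𝓡∂ 2) (ρ x) (ρ y) ≤ pathELength (𝓡∂ 2) (ρ ∘ γ) 0 1 := by
      apply riemannianEDist_le_pathELength hs _ _ zero_le_one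
      · simp [h0]
      · simp [h1]
    have h3 : pathELength (𝓡∂ 2) (ρ ∘ γ) 0 1 ≤ (k : ℝ≥0∞) * pathELength (𝓡∂ 2) γ 0 1 := by
      rw [pathELength_eq_lintegral_mfderivWithin_Icc, pathELength_eq_lintegral_mfderivWithin_Icc,
        ← lintegral_const_mul' _ _ ENNReal.coe_ne_top]
      apply setLIntegral_mono' measurableSet_Icc (fun t ht ↦ ?_)
      have h4 : mfderivWithin 𝓘(ℝ, ℝ) (𝓡∂ 2) (ρ ∘ γ) (Icc 0 1) t =
          (mfderiv (𝓡∂ 2) (𝓡∂ 2) ρ (γ t)).comp (mfderivWithin 𝓘(ℝ, ℝ) (𝓡∂ 2) γ (Icc 0 1) t) := by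
        apply mfderiv_comp_mfderivWithin t ((hρ.mdifferentiable (by simp)) _)
          (hγ.mdifferentiableOn one_ne_zero t ht)
        rw [uniqueMDiffWithinAt_iff_uniqueDiffWithinAt]
        exact uniqueDiffOn_Icc zero_lt_one t ht
      have h5 : mfderivWithin 𝓘(ℝ, ℝ) (𝓡∂ 2) (ρ ∘ γ) (Icc 0 1) t (1 : ℝ) =
          mfderiv (𝓡∂ 2) (𝓡∂ 2) ρ (γ t) (mfderivWithin 𝓘(ℝ, ℝ) (𝓡∂ 2) γ (Icc 0 1) t (1 : ℝ)) := by
        rw [h4]; rfl
      have h6 := hall (γ t) (mfderivWithin 𝓘(ℝ, ℝ) (𝓡∂ 2) γ (Icc 0 1) t (1 : ℝ))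
      rw [← h5] at h6
      rw [← ofReal_norm, ← ofReal_norm]
      refine (ENNReal.ofReal_le_ofReal h6).trans (le_of_eq ?_)
      rw [ENNReal.ofReal_mul hK'0]
      congr 1
      rw [← hk, ENNReal.ofReal_coe_nnreal]
    rw [hout]
    refine h2.trans (h3.trans ?_)
    gcongr
  have hneb : (𝓝[>] (edist x y)).NeBot := nhdsGT_neBot_of_exists_gt ⟨⊤, edist_lt_top x y⟩
  have ht : Tendsto (fun r : ℝ≥0∞ => (k : ℝ≥0∞) * r) (𝓝[>] (edist x y))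
      (𝓝 ((k : ℝ≥0∞) * edist x y)) :=
    ((ENNReal.continuous_const_mul ENNReal.coe_ne_top).tendsto _).mono_left nhdsWithin_le_nhds
  exact ge_of_tendsto ht (eventually_nhdsWithin_of_forall fun r hr => hlen r hr)

end

variable {M : Type} [MetricSpace M] [ChartedSpace (EuclideanHalfSpace 2) M]
  [R : RiemannianSpace (𝓡∂ 2) M]

theorem smooth_lip [CompactSpace M] {ρ : M → M} (hρ : ContMDiff (𝓡∂ 2) (𝓡∂ 2) ∞ ρ) :
    ∃ K : ℝ≥0, LipschitzWith K ρ := by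
  have := R.smooth
  let _ := R.metric
  have := R.smoothMetric
  have := R.dist_eq
  exact slip_main hρ

end Pool.Agent.MIR
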