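import Mathlib
import Pool.Agent.MIR.Defs
import Pool.Agent.MIR.Basic
import Pool.Agent.MIR.Defs2
import Pool.Agent.MIR.Metr
import Pool.Agent.MIR.Ext
import Pool.Agent.MIR.RUp
import Pool.Agent.MIR.RLow
import Pool.Agent.MIR.Area
import Pool.Agent.MIR.Conf
import Pool.Agent.MIR.SLip
import Pool.Agent.H74.FAC.Riem1

open MeasureTheory Set Filter Topology Manifold Bundle
open scoped ENNReal NNReal ContDiff

noncomputable section

namespace Pool.Agent.MIR

open Pool.Agent.H74.Surf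

variable {M : Type} [MetricSpace M] [ChartedSpace (EuclideanHalfSpace 2) M]
  [R : RiemannianSpace (𝓡∂ 2) M]

lemma final_cont_ip {Ψ : ℂ → M} {U : Set ℂ} (hU : IsOpen U)
    (hΨ : ContMDiffOn 𝓘(ℝ, ℂ) (𝓡∂ 2) ∞ Ψ U) (v w : ℂ) :
    ContinuousOn (fun z => ip Ψ z v w) U := by
  let _ := R.smooth
  let _ := R.metric
  let _ := R.smoothMetric
  have := Pool.Agent.H74.FAC.contRiem (M := M)
  have key : ∀ v : ℂ, ContinuousOn (fun z => (⟨Ψ z, mfderiv 𝓘(ℝ, ℂ) (𝓡∂ 2) Ψ z v⟩ :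
      TangentBundle (𝓡∂ 2) M)) U := by
    intro v
    have h1 := hΨ.continuousOn_tangentMapWithin (by simp)
      (uniqueMDiffOn_iff_uniqueDiffOn.2 hU.uniqueDiffOn)
    have h2 : Continuous (fun z : ℂ => (⟨z, v⟩ : TangentBundle 𝓘(ℝ, ℂ) ℂ)) := by
      have h := (tangentBundleModelSpaceHomeomorph 𝓘(ℝ, ℂ)).symm.continuous
      have h' : Continuous (fun z : ℂ => ((z, v) : ModelProd ℂ ℂ)) := by
        exact continuous_id.prodMk continuous_const
      exact h.comp h'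
    have h3 := h1.comp h2.continuousOn (s := U) (fun z hz => hz)
    refine h3.congr ?_
    intro z hz
    simp only [Function.comp, tangentMapWithin]
    rw [mfderivWithin_of_isOpen hU hz]
  exact ContinuousOn.inner_bundle (F := EuclideanSpace ℝ (Fin 2)) (key v) (key w)

lemma final_cont_gd {Ψ : ℂ → M} {U : Set ℂ} (hU : IsOpen U)
    (hΨ : ContMDiffOn 𝓘(ℝ, ℂ) (𝓡∂ 2) ∞ Ψ U) : ContinuousOn (fun z => gd Ψ z) U := by
  have h1 := final_cont_ip hU hΨ 1 1
  have h2 := final_cont_ip hU hΨ Complex.I Complex.I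
  have h3 := final_cont_ip hU hΨ 1 Complex.I
  unfold gd
  exact (h1.mul h2).sub (h3.pow 2)

theorem mirror_planar [CompactSpace M] {φ : S1 → M} (hφ : IsometricFilling (𝓡∂ 2) φ) {ρ : M → M}
    (hρ : Refl φ ρ) {k : ℕ} {c : Fin k → ℂ} {r : Fin k → ℝ} {Ψ : ℂ → M}
    (hΨ : PlanarHalf φ ρ c r Ψ) : ENNReal.ofReal (2 * Real.pi) ≤ area M := by
  have hU : IsOpen (interior (Om c r)) := isOpen_interior
  have hsub : interior (Om c r) ⊆ Om c r := interior_subset
  have hs' : ContMDiffOn 𝓘(ℝ, ℂ) (𝓡∂ 2) ∞ (ρ ∘ Ψ) (interior (Om c r)) :=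
    hρ.smooth.comp_contMDiffOn hΨ.smooth
  obtain ⟨K, hK⟩ := smooth_lip hρ.smooth
  obtain ⟨K1, hK1⟩ := hΨ.lip
  have hK2 : LipschitzOnWith (K * K1) (ρ ∘ Ψ) (Om c r) :=
    hK.comp_lipschitzOnWith hK1
  choose T1 hT1 hT1' using fun z => exists_T Ψ z
  have hconf : ∀ p ∈ interior (Om c r), ∃ u : ℝ, 0 ≤ u ∧ ∀ v w, ip (ρ ∘ Ψ) p v w = u ^ 2 * ip Ψ p v w :=
    fun p hp => conf_ip hU hΨ.smooth (hΨ.inj.mono hsub) hρ.smooth hp (hρ.conformal (Ψ p))
  choose! u hu0 hu using hconf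
  have hnn : ∀ (Ψ : ℂ → M) (z v : ℂ), 0 ≤ ip Ψ z v v := by
    intro Ψ z v
    let _ := R.metric
    exact real_inner_self_nonneg
  have hhom : ∀ (Ψ : ℂ → M) (z v : ℂ) (t : ℝ), √(ip Ψ z (t • v) (t • v)) = |t| * √(ip Ψ z v v) := by
    intro Ψ z v t
    rw [ip_smul, Real.sqrt_mul (sq_nonneg t), Real.sqrt_sq_eq_abs]
  have main := metric_half (M := M) hΨ.holes (φ := φ) hφ.dist_eq (Ψ := Ψ) (Ψ' := ρ ∘ Ψ)
    (K := max K1 (K * K1)) (hK1.weaken (le_max_left _ _)) (hK2.weaken (le_max_right _ _))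
    hΨ.bdry (fun t ht => by
      have := hΨ.bdry t ht
      simp only [Function.comp, this]
      rw [hρ.bdry]; rfl)
    (fun z hz => (hΨ.mirror z hz).symm)
    (fun p => ((1 + u p) / 2) • T1 p) (n := fun p v => √(ip Ψ p v v))
    (n' := fun p v => √(ip (ρ ∘ Ψ) p v v)) (fun _ _ => Real.sqrt_nonneg _)
    (fun _ _ => Real.sqrt_nonneg _) (fun p v t => hhom Ψ p v t) (fun p v t => hhom (ρ ∘ Ψ) p v t)
    (fun p hp v => by
      have h0 := hu0 p hp
      rw [_root_.smul_apply, norm_smul, hT1, hu p hp,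
        Real.sqrt_mul (sq_nonneg _), Real.sqrt_sq h0, Real.norm_of_nonneg (by linarith)]
      ring)
    (fun p hp ε hε => riem_up hU hΨ.smooth hp hε)
    (fun p hp ε hε => riem_up hU hs' hp hε)
    (fun p hp ε hε => riem_low hU hΨ.smooth hp hε)
    (fun p hp ε hε => riem_low hU hs' hp hε)
  have harea := area_two (M := M) hU hΨ.smooth hs' (hΨ.inj.mono hsub) (by
      intro z hz w hw h
      have h' : ρ (ρ (Ψ z)) = ρ (ρ (Ψ w)) := congrArg ρ h
      rw [hρ.invol, hρ.invol] at h'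
      exact hΨ.inj (hsub hz) (hsub hw) h')
    (by
      intro z hz w hw h
      have h1 : ρ (Ψ w) = Ψ z := h.symm
      have h2 := hΨ.disj w (hsub hw) z (hsub hz) h1
      obtain ⟨s1, s2, s3⟩ := interior_Om_sub hw hΨ.holes
      rcases h2.2 with h3 | ⟨j, h3⟩
      · rw [h3] at s2; exact lt_irrefl _ s2
      · have := s3 j; rw [h3] at this; exact lt_irrefl _ this)
  refine le_trans ?_ harea
  have hmeas : AEMeasurable (fun z => ENNReal.ofReal (√(gd Ψ z)))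
      (volume.restrict (interior (Om c r))) := by
    have h1 : ContinuousOn (fun z => √(gd Ψ z)) (interior (Om c r)) :=
      (final_cont_gd hU hΨ.smooth).sqrt
    exact (h1.aemeasurable hU.measurableSet).ennreal_ofReal
  rw [← lintegral_add_left' hmeas]
  have hle : ∫⁻ p in interior (Om c r), ENNReal.ofReal |cp ((((1 + u p) / 2) • T1 p) 1)
      ((((1 + u p) / 2) • T1 p) Complex.I)| ≤ ∫⁻ p in interior (Om c r),
      (2 : ℝ≥0∞)⁻¹ * (ENNReal.ofReal (√(gd Ψ p)) + ENNReal.ofReal (√(gd (ρ ∘ Ψ) p))) := by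
    refine setLIntegral_mono_ae' hU.measurableSet (Eventually.of_forall fun p hp => ?_)
    have h0 := hu0 p hp
    have e1 : cp ((((1 + u p) / 2) • T1 p) 1) ((((1 + u p) / 2) • T1 p) Complex.I) =
        ((1 + u p) / 2) ^ 2 * cp (T1 p 1) (T1 p Complex.I) := by
      simp only [cp, _root_.smul_apply, Complex.smul_re, Complex.smul_im, smul_eq_mul]
      ring
    have e2 : gd (ρ ∘ Ψ) p = (u p ^ 2) ^ 2 * gd Ψ p := by
      unfold gd
      rw [hu p hp, hu p hp, hu p hp]; ring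
    rw [e1, abs_mul, hT1', e2, Real.sqrt_mul (sq_nonneg _), Real.sqrt_sq (sq_nonneg _),
      abs_of_nonneg (sq_nonneg _), ← ENNReal.ofReal_add (Real.sqrt_nonneg _)
      (mul_nonneg (sq_nonneg _) (Real.sqrt_nonneg _))]
    have e3 : (2 : ℝ≥0∞)⁻¹ = ENNReal.ofReal (1 / 2) := by
      rw [one_div, ENNReal.ofReal_inv_of_pos (by norm_num)]; norm_num
    rw [e3, ← ENNReal.ofReal_mul (by norm_num)]
    apply ENNReal.ofReal_le_ofReal
    have h3 := Real.sqrt_nonneg (gd Ψ p)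
    nlinarith [sq_nonneg (1 - u p), mul_nonneg h3 (sq_nonneg (1 - u p))]
  have h4 := main.trans hle
  rw [lintegral_const_mul' _ _ (by norm_num)] at h4
  have h5 : ENNReal.ofReal (2 * Real.pi) = 2 * ENNReal.ofReal Real.pi := by
    rw [ENNReal.ofReal_mul (by norm_num)]; norm_num
  rw [h5]
  calc 2 * ENNReal.ofReal Real.pi ≤ 2 * ((2 : ℝ≥0∞)⁻¹ * ∫⁻ p in interior (Om c r),
        (ENNReal.ofReal (√(gd Ψ p)) + ENNReal.ofReal (√(gd (ρ ∘ Ψ) p)))) :=
        mul_le_mul_right h4 2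
    _ = _ := by
        rw [← mul_assoc, ENNReal.mul_inv_cancel (by norm_num) (by norm_num), one_mul]

end Pool.Agent.MIR
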